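import Pool.Agent.KI.Tay2

open scoped ContDiff Topology BigOperators
open Finset Asymptotics

namespace KI
open DAng

variable {n : ℕ} {p x₀ : E (n + n)}



/-- families of functions depending on the base point whose word derivatives at the base point are
continuous at `x₀` -/
def FamX (x₀ : E (n + n)) (L : CVF (n + n)) (f : E (n + n) → CF (n + n)) : Prop :=
  (∀ᶠ p in 𝓝 x₀, Sm p (f p)) ∧ ∀ w : Wd, ContinuousAt (fun p => op L w (f p) p) x₀

lemma smx_eventually {F : Type*} [NormedAddCommGroup F] [NormedSpace ℝ F]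
    {f : E (n + n) → F} (h : Sm x₀ f) : ∀ᶠ p in 𝓝 x₀, Sm p f :=
  Filter.Eventually.eventually_nhds h

lemma unshX_cont (w : Wd) : ∀ (G : E (n + n) → Wd → Wd → ℂ),
    (∀ u v, ContinuousAt (fun p => G p u v) x₀) → ContinuousAt (fun p => unsh (G p) w) x₀ := by
  induction w with
  | nil => intro G h; exact h [] []
  | cons a w ih =>
    intro G h
    have h1 := ih (fun p => DU a (G p)) (fun u v => h (a :: u) v)
    have h2 := ih (fun p => DV a (G p)) (fun u v => h u (a :: v))
    exact h1.add h2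

lemma FamX.mul {L : CVF (n + n)} (hL : Sm x₀ L) {f g : E (n + n) → CF (n + n)}
    (hf : FamX x₀ L f) (hg : FamX x₀ L g) : FamX x₀ L (fun p x => f p x * g p x) := by
  constructor
  · filter_upwards [hf.1, hg.1] with p h1 h2 using h1.mul h2
  · intro w
    have h1 : ContinuousAt (fun p => unsh (fun u v => op L u (f p) p * op L v (g p) p) w) x₀ :=
      unshX_cont w (fun p u v => op L u (f p) p * op L v (g p) p)
        (fun u v => (hf.2 u).mul (hg.2 v))
    refine h1.congr ?_
    filter_upwards [hf.1, hg.1, smx_eventually hL] with p h2 h3 h4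
    exact (op_mul h4 w h2 h3).self_of_nhds.symm

lemma FamX.const (L : CVF (n + n)) (c : ℂ) : FamX x₀ L (fun _ _ => c) := by
  refine ⟨Filter.Eventually.of_forall fun p => Sm.const c, ?_⟩
  intro w
  have h0 : ∀ (w : Wd) (c : ℂ), op L w (fun _ : E (n + n) => c) = fun _ => if w = [] then c else 0 := by
    intro w
    induction w with
    | nil => intro c; rfl
    | cons a w ih =>
      intro c
      have h1 : act (LX L a) (fun _ : E (n + n) => c) = fun _ => 0 := by
        funext x
        exact act_const _ c x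
      show op L w (act (LX L a) (fun _ => c)) = _
      rw [h1, ih]
      funext x
      simp
  simp only [h0]
  exact continuousAt_const

lemma FamX.pow {L : CVF (n + n)} (hL : Sm x₀ L) {f : E (n + n) → CF (n + n)}
    (hf : FamX x₀ L f) (k : ℕ) : FamX x₀ L (fun p x => f p x ^ k) := by
  induction k with
  | zero => simpa using FamX.const (x₀ := x₀) L 1
  | succ k ih =>
    simp only [pow_succ]
    exact ih.mul hL hf

lemma FamX.prod {L : CVF (n + n)} (hL : Sm x₀ L) {ι : Type*} (s : Finset ι)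
    {f : ι → E (n + n) → CF (n + n)} (hf : ∀ i ∈ s, FamX x₀ L (f i)) :
    FamX x₀ L (fun p x => ∏ i ∈ s, f i p x) := by
  classical
  induction s using Finset.induction_on with
  | empty => simpa using FamX.const (x₀ := x₀) L 1
  | insert a s ha ih =>
    have h1 := hf a (by simp)
    have h2 := ih (fun i hi => hf i (by simp [hi]))
    have h3 := h1.mul hL h2
    simpa only [Finset.prod_insert ha] using h3

lemma FamX.base {L : CVF (n + n)} (hL : Sm x₀ L) {g : CF (n + n)} (hg : ∀ p, Sm p g) :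
    FamX x₀ L (fun p x => g x - g p) := by
  refine ⟨Filter.Eventually.of_forall fun p => (hg p).sub (Sm.const _), ?_⟩
  intro w
  cases w with
  | nil =>
    have : (fun p => op L [] (fun x => g x - g p) p) = fun _ => (0 : ℂ) := by
      funext p
      show g p - g p = 0
      ring
    rw [this]
    exact continuousAt_const
  | cons a w =>
    have h1 : ∀ p, act (LX L a) (fun x => g x - g p) = act (LX L a) g := by
      intro p
      funext x
      unfold act
      refine Finset.sum_congr rfl fun i _ => ?_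
      congr 1
      unfold pd
      rw [fderiv_sub_const]
    have h2 : (fun p => op L (a :: w) (fun x => g x - g p) p) =
        fun p => op L w (act (LX L a) g) p := by
      funext p
      show op L w (act (LX L a) (fun x => g x - g p)) p = _
      rw [h1]
    rw [h2]
    exact (Sm.op hL w ((hL.LX a).act (hg x₀))).continuousAt

lemma ZcX_eq (p : E (n + n)) (j : Fin n) : Zc p j = fun x => Zc 0 j x - Zc 0 j p := by
  funext x
  unfold Zc
  simp only [Pi.zero_apply]
  push_cast
  ring

lemma ZcX_sm (j : Fin n) (p : E (n + n)) : Sm p (Zc (0 : E (n + n)) j) := by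
  apply Filter.Eventually.of_forall
  intro x
  unfold Zc
  have h1 : ∀ k : Fin (n + n), ContDiffAt ℝ ∞ (fun x : E (n + n) =>
      ((x k - (0 : E (n + n)) k : ℝ) : ℂ)) x := by
    intro k
    have h2 : ContDiffAt ℝ ∞ (fun x : E (n + n) => x k - (0 : E (n + n)) k) x :=
      ((contDiffAt_pi.1 contDiffAt_id) k).sub contDiffAt_const
    exact (Complex.ofRealCLM.contDiff.contDiffAt).comp x h2
  exact (h1 _).add (contDiffAt_const.mul (h1 _))

lemma FamX.Zc {L : CVF (n + n)} (hL : Sm x₀ L) (j : Fin n) : FamX x₀ L (fun p => Zc p j) := by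
  have e : (fun p => KI.Zc p j) = fun (p x : E (n + n)) => KI.Zc 0 j x - KI.Zc 0 j p := by
    funext p
    exact ZcX_eq p j
  rw [e]
  exact FamX.base hL (ZcX_sm j)

lemma FamX.cZc {L : CVF (n + n)} (hL : Sm x₀ L) (j : Fin n) :
    FamX x₀ L (fun p x => (starRingEnd ℂ) (KI.Zc p j x)) := by
  have h := FamX.base hL (g := fun x => (starRingEnd ℂ) (KI.Zc 0 j x))
    (fun p => (ZcX_sm j p).conj)
  have e : (fun (p x : E (n + n)) => (starRingEnd ℂ) (KI.Zc p j x)) =
      fun p x => (starRingEnd ℂ) (KI.Zc 0 j x) - (starRingEnd ℂ) (KI.Zc 0 j p) := by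
    funext p x
    rw [ZcX_eq p j, map_sub]
  rw [e]
  exact h

/-- exponents of degree at most `N` -/
noncomputable def degX (n N : ℕ) : Finset (Fin n ⊕ Fin n →₀ ℕ) :=
  (range (N + 1)).biUnion fun k => Finset.finsuppAntidiag Finset.univ k

lemma mem_degX {N : ℕ} {e : Fin n ⊕ Fin n →₀ ℕ} : e ∈ degX n N ↔ (e.sum fun _ k => k) ≤ N := by
  unfold degX
  rw [Finset.mem_biUnion]
  have h : (e.sum fun _ k => k) = ∑ a, e a := by
    rw [Finsupp.sum_fintype]
    intro _; rfl
  constructor
  · rintro ⟨k, hk, he⟩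
    rw [Finset.mem_finsuppAntidiag] at he
    rw [h, he.1]
    rw [Finset.mem_range] at hk
    omega
  · intro he
    refine ⟨∑ a, e a, ?_, ?_⟩
    · rw [Finset.mem_range, ← h]; omega
    · rw [Finset.mem_finsuppAntidiag]
      exact ⟨rfl, Finset.subset_univ _⟩

lemma RrX_eq (r : CF (n + n)) (L : CVF (n + n)) (N : ℕ) (p : E (n + n)) (u v : Wd) :
    Rr N r L p u v = ∑ e ∈ degX n N, (tay N r p).coeff e *
      op L u (fun x => ∏ i, Zc p i x ^ e (Sum.inl i)) p *
      op L v (fun x => ∏ i, (starRingEnd ℂ) (Zc p i x) ^ e (Sum.inr i)) p := by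
  unfold Rr Rd
  apply Finset.sum_subset
  · intro e he
    rw [mem_degX]
    by_contra hcon
    push Not at hcon
    exact (MvPolynomial.mem_support_iff.1 he) (tay_support r N e hcon)
  · intro e _ he
    rw [MvPolynomial.notMem_support_iff.1 he, zero_mul, zero_mul]

lemma bddX {F : E (n + n) → ℂ} (h : ContinuousAt F x₀) : ∃ C : ℝ, ∀ᶠ p in 𝓝 x₀, ‖F p‖ ≤ C := by
  refine ⟨‖F x₀‖ + 1, ?_⟩
  have : ∀ᶠ x in 𝓝 x₀, ‖F x‖ < ‖F x₀‖ + 1 := h.norm.eventually_lt continuousAt_const (by simp)
  filter_upwards [this] with x hx using hx.le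

/-- boundedness facts (JDF) -/
theorem bdd_facts {r : CF (n + n)} (hr : Sm x₀ r) {L : CVF (n + n)} (hL : Sm x₀ L) (N : ℕ) :
    (∀ (w : Wd) (j : Fin n), ∃ C : ℝ, ∀ᶠ p in 𝓝 x₀, ‖op L w (Zc p j) p‖ ≤ C) ∧
    (∀ u v : Wd, ∃ C : ℝ, ∀ᶠ p in 𝓝 x₀, ‖Rr N r L p u v‖ ≤ C) ∧
    (∀ u v : Wd, ContinuousAt (fun p => Rr N r L p u v) x₀) := by
  have h3 : ∀ u v : Wd, ContinuousAt (fun p => Rr N r L p u v) x₀ := by
    intro u v
    simp only [RrX_eq]
    apply tendsto_finsetSum
    intro e _
    have h1 := (FamX.prod hL Finset.univ (f := fun i p x => Zc p i x ^ e (Sum.inl i))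
      (fun i _ => (FamX.Zc hL i).pow hL _)).2 u
    have h2 := (FamX.prod hL Finset.univ
      (f := fun i p x => (starRingEnd ℂ) (Zc p i x) ^ e (Sum.inr i))
      (fun i _ => (FamX.cZc hL i).pow hL _)).2 v
    exact ((tay_coeff_cont hr N e).mul h1).mul h2
  exact ⟨fun w j => bddX ((FamX.Zc hL j).2 w), fun u v => bddX (h3 u v), h3⟩



end KI
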