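import Pool.Agent.KI.DefsD

open scoped ContDiff Topology BigOperators
open Finset Asymptotics

namespace KI
open DAng

variable {n : ℕ} {p x₀ : E (n + n)}



section xu

variable {κ : Type*} {l : Filter κ}

lemma xu_const (c : ℂ) : (fun _ : κ => c) =O[l] fun _ => (1 : ℝ) :=
  Asymptotics.isBigO_const_const c one_ne_zero l

lemma xu_mul {a b : κ → ℂ} (ha : a =O[l] fun _ => (1 : ℝ)) (hb : b =O[l] fun _ => (1 : ℝ)) :
    (fun i => a i * b i) =O[l] fun _ => (1 : ℝ) := by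
  simpa using ha.mul hb

lemma xu_sum {ι : Type*} (s : Finset ι) {a : ι → κ → ℂ}
    (h : ∀ j ∈ s, a j =O[l] fun _ => (1 : ℝ)) :
    (fun i => ∑ j ∈ s, a j i) =O[l] fun _ => (1 : ℝ) :=
  Asymptotics.IsBigO.fun_sum h

lemma xu_conj {a : κ → ℂ} (ha : a =O[l] fun _ => (1 : ℝ)) :
    (fun i => (starRingEnd ℂ) (a i)) =O[l] fun _ => (1 : ℝ) := by
  refine Asymptotics.IsBigO.trans (Asymptotics.isBigO_of_le _ fun i => ?_) ha
  rw [RCLike.norm_conj]

lemma xu_sumW : ∀ (n : ℕ) {F : κ → Wd → ℂ} (_ : ∀ w, (fun i => F i w) =O[l] fun _ => (1 : ℝ)),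
    (fun i => sumW n (F i)) =O[l] fun _ => (1 : ℝ)
  | 0, _, h => h []
  | n + 1, F, h => by
    have h1 := xu_sumW n (F := fun i => D true (F i)) (fun w => h (true :: w))
    have h2 := xu_sumW n (F := fun i => D false (F i)) (fun w => h (false :: w))
    exact h1.add h2

lemma xu_fst {a : κ → ℂ} (ha : a =O[l] fun _ => (1 : ℝ)) (l' : Filter ℝ) :
    (fun q : κ × ℝ => a q.1) =O[l ×ˢ l'] fun _ => (1 : ℝ) :=
  ha.comp_tendsto Filter.tendsto_fst

lemma xu_small : ∀ᶠ q in l ×ˢ 𝓝[>] (0 : ℝ), |q.2| ≤ 1 := by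
  have h : ∀ᶠ s in 𝓝[>] (0 : ℝ), |s| ≤ 1 := by
    have h1 : ∀ᶠ s in 𝓝 (0 : ℝ), |s| < 1 := by
      have : Filter.Tendsto (fun s : ℝ => |s|) (𝓝 0) (𝓝 0) := by
        simpa using (continuous_abs.tendsto (0 : ℝ))
      exact this.eventually_lt_const one_pos
    exact (h1.filter_mono nhdsWithin_le_nhds).mono fun s hs => hs.le
  exact h.prod_inr l

lemma xu_pow {j n : ℕ} (h : n ≤ j) :
    (fun q : κ × ℝ => (q.2 : ℂ) ^ j) =O[l ×ˢ 𝓝[>] (0 : ℝ)] fun q => q.2 ^ n := by
  refine Asymptotics.IsBigO.of_bound 1 ?_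
  filter_upwards [xu_small] with q hq
  rw [one_mul, norm_pow, norm_pow, Complex.norm_real, Real.norm_eq_abs]
  exact pow_le_pow_of_le_one (abs_nonneg _) hq h

/-- uniform version of `Ap` -/
def ApU (l : Filter κ) (k : ℕ) (f : κ → ℝ → ℂ) (A : κ → PowerSeries ℂ) : Prop :=
  (∀ j ≤ k, (fun i => PowerSeries.coeff j (A i)) =O[l] fun _ => (1 : ℝ)) ∧
  (fun q : κ × ℝ => f q.1 q.2 -
    ∑ j ∈ range (k + 1), (q.2 : ℂ) ^ j * PowerSeries.coeff j (A q.1)) =O[l ×ˢ 𝓝[>] (0 : ℝ)]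
      fun q => q.2 ^ (k + 1)

variable {k : ℕ} {f g : κ → ℝ → ℂ} {A B : κ → PowerSeries ℂ}

lemma ApU.congr (h : ApU l k f A)
    (hAB : ∀ᶠ i in l, ∀ j ≤ k, PowerSeries.coeff j (B i) = PowerSeries.coeff j (A i)) :
    ApU l k f B := by
  refine ⟨fun j hj => ?_, ?_⟩
  · refine (h.1 j hj).congr' ?_ (Filter.EventuallyEq.refl _ _)
    filter_upwards [hAB] with i hi
    exact (hi j hj).symm
  · refine h.2.congr' ?_ (Filter.EventuallyEq.refl _ _)
    filter_upwards [hAB.prod_inl (𝓝[>] (0 : ℝ))] with q hq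
    congr 1
    refine Finset.sum_congr rfl fun j hj => ?_
    rw [hq j (by rw [Finset.mem_range] at hj; omega)]

lemma ApU.congr_left (h : ApU l k f A) (hfg : ∀ᶠ i in l, ∀ s, g i s = f i s) : ApU l k g A := by
  refine ⟨h.1, h.2.congr' ?_ (Filter.EventuallyEq.refl _ _)⟩
  filter_upwards [hfg.prod_inl (𝓝[>] (0 : ℝ))] with q hq
  rw [hq]

lemma ApU.add (hf : ApU l k f A) (hg : ApU l k g B) :
    ApU l k (fun i s => f i s + g i s) (fun i => A i + B i) := by
  refine ⟨fun j hj => ?_, ?_⟩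
  · simp only [map_add]
    exact (hf.1 j hj).add (hg.1 j hj)
  · refine (hf.2.add hg.2).congr_left ?_
    intro q
    simp only [map_add, mul_add, Finset.sum_add_distrib]
    ring

lemma ApU.zero : ApU l k (fun _ _ => 0) (fun _ => 0) := by
  refine ⟨fun j hj => ?_, ?_⟩
  · simp only [map_zero]
    exact Asymptotics.isBigO_zero _ _
  · simp only [map_zero, mul_zero, Finset.sum_const_zero, sub_zero]
    exact Asymptotics.isBigO_zero _ _

lemma ApU.sum {ι : Type*} (s : Finset ι) {f : ι → κ → ℝ → ℂ} {A : ι → κ → PowerSeries ℂ}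
    (h : ∀ i ∈ s, ApU l k (f i) (A i)) :
    ApU l k (fun i t => ∑ j ∈ s, f j i t) (fun i => ∑ j ∈ s, A j i) := by
  classical
  induction s using Finset.induction_on with
  | empty => simpa using ApU.zero
  | insert a s ha ih =>
    simp only [Finset.sum_insert ha]
    exact (h a (by simp)).add (ih fun i hi => h i (by simp [hi]))

lemma ApU.const {c : κ → ℂ} (hc : c =O[l] fun _ => (1 : ℝ)) :
    ApU l k (fun i _ => c i) (fun i => PowerSeries.C (c i)) := by
  refine ⟨fun j hj => ?_, ?_⟩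
  · simp only [PowerSeries.coeff_C]
    by_cases h : j = 0
    · simpa only [h, if_true] using hc
    · simp only [h, if_false]
      exact Asymptotics.isBigO_zero _ _
  · have : ∀ q : κ × ℝ, c q.1 -
        ∑ j ∈ range (k + 1), (q.2 : ℂ) ^ j * PowerSeries.coeff j (PowerSeries.C (c q.1)) = 0 := by
      intro q
      rw [Finset.sum_range_succ']
      simp
    simp only [this]
    exact Asymptotics.isBigO_zero _ _

lemma ApU.poly_bdd
    (h : ∀ j ≤ k, (fun i => PowerSeries.coeff j (A i)) =O[l] fun _ => (1 : ℝ)) :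
    (fun q : κ × ℝ => ∑ j ∈ range (k + 1), (q.2 : ℂ) ^ j * PowerSeries.coeff j (A q.1))
      =O[l ×ˢ 𝓝[>] (0 : ℝ)] fun _ => (1 : ℝ) := by
  refine xu_sum _ fun j hj => ?_
  refine xu_mul ?_ (xu_fst (h j (by rw [Finset.mem_range] at hj; omega)) _)
  simpa using xu_pow (l := l) (Nat.zero_le j)

lemma ApU.bdd (h : ApU l k f A) :
    (fun q : κ × ℝ => f q.1 q.2) =O[l ×ˢ 𝓝[>] (0 : ℝ)] fun _ => (1 : ℝ) := by
  have h1 : (fun q : κ × ℝ => q.2 ^ (k + 1)) =O[l ×ˢ 𝓝[>] (0 : ℝ)] fun _ => (1 : ℝ) := by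
    refine Asymptotics.IsBigO.of_bound 1 ?_
    filter_upwards [xu_small] with q hq
    rw [norm_pow, Real.norm_eq_abs, norm_one, mul_one]
    exact pow_le_one₀ (abs_nonneg _) hq
  refine ((h.2.trans h1).add (ApU.poly_bdd h.1)).congr_left ?_
  intro q
  ring

lemma ApU.mul (hf : ApU l k f A) (hg : ApU l k g B) :
    ApU l k (fun i s => f i s * g i s) (fun i => A i * B i) := by
  refine ⟨?_, ?_⟩
  · intro j hj
    simp only [PowerSeries.coeff_mul]
    refine xu_sum _ fun x hx => ?_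
    have := Finset.HasAntidiagonal.mem_antidiagonal.1 hx
    exact xu_mul (hf.1 _ (by omega)) (hg.1 _ (by omega))
  · have hA := ApU.poly_bdd (l := l) hf.1
    have h1 := Asymptotics.IsBigO.mul hf.2 hg.bdd
    have h2 := Asymptotics.IsBigO.mul hA hg.2
    let Q : κ → Polynomial ℂ := fun i => PowerSeries.trunc (k + 1) (A i) *
      PowerSeries.trunc (k + 1) (B i) - PowerSeries.trunc (k + 1) (A i * B i)
    have hQ : ∀ i, ∀ j < k + 1, (Q i).coeff j = 0 := by
      intro i j hj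
      rw [Polynomial.coeff_sub, PowerSeries.coeff_trunc, if_pos hj,
        PowerSeries.coeff_mul_eq_coeff_trunc_mul_trunc (A i) (B i) hj, ← Polynomial.coe_mul,
        Polynomial.coeff_coe, sub_self]
    have hQdeg : ∀ i, (Q i).natDegree < 2 * k + 3 := by
      intro i
      have d1 := PowerSeries.natDegree_trunc_lt (A i) k
      have d2 := PowerSeries.natDegree_trunc_lt (B i) k
      have d3 := PowerSeries.natDegree_trunc_lt (A i * B i) k
      have d4 := Polynomial.natDegree_mul_le (p := PowerSeries.trunc (k + 1) (A i))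
        (q := PowerSeries.trunc (k + 1) (B i))
      have d5 := Polynomial.natDegree_sub_le (PowerSeries.trunc (k + 1) (A i) *
        PowerSeries.trunc (k + 1) (B i)) (PowerSeries.trunc (k + 1) (A i * B i))
      have : (Q i).natDegree ≤ max (PowerSeries.trunc (k + 1) (A i) *
        PowerSeries.trunc (k + 1) (B i)).natDegree
          (PowerSeries.trunc (k + 1) (A i * B i)).natDegree := d5
      omega
    have htr : ∀ {C : κ → PowerSeries ℂ},
        (∀ j ≤ k, (fun i => PowerSeries.coeff j (C i)) =O[l] fun _ => (1 : ℝ)) →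
        ∀ j, (fun i => (PowerSeries.trunc (k + 1) (C i)).coeff j) =O[l] fun _ => (1 : ℝ) := by
      intro C hC j
      simp only [PowerSeries.coeff_trunc]
      by_cases hj : j < k + 1
      · simpa only [hj, if_true] using hC j (by omega)
      · simp only [hj, if_false]
        exact Asymptotics.isBigO_zero _ _
    have hQb : ∀ j, (fun i => (Q i).coeff j) =O[l] fun _ => (1 : ℝ) := by
      intro j
      by_cases hj : j < k + 1
      · simp only [hQ _ j hj]
        exact Asymptotics.isBigO_zero _ _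
      · have : ∀ i, (Q i).coeff j = (PowerSeries.trunc (k + 1) (A i) *
            PowerSeries.trunc (k + 1) (B i)).coeff j := by
          intro i
          simp only [Q]
          rw [Polynomial.coeff_sub, PowerSeries.coeff_trunc, if_neg hj, sub_zero]
        simp only [this, Polynomial.coeff_mul]
        exact xu_sum _ fun x _ => xu_mul (htr hf.1 _) (htr hg.1 _)
    have ev : ∀ (C : PowerSeries ℂ) (s : ℝ), (PowerSeries.trunc (k + 1) C).eval (s : ℂ) =
        ∑ j ∈ range (k + 1), (s : ℂ) ^ j * PowerSeries.coeff j C := by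
      intro C s
      rw [Polynomial.eval, PowerSeries.eval₂_trunc_eq_sum_range]
      refine Finset.sum_congr rfl fun j _ => ?_
      rw [RingHom.id_apply, mul_comm]
    have h3 : (fun q : κ × ℝ => (Q q.1).eval (q.2 : ℂ)) =O[l ×ˢ 𝓝[>] (0 : ℝ)]
        fun q => q.2 ^ (k + 1) := by
      have e0 : ∀ q : κ × ℝ, (Q q.1).eval (q.2 : ℂ) =
          ∑ j ∈ range (2 * k + 3), (Q q.1).coeff j * (q.2 : ℂ) ^ j :=
        fun q => Polynomial.eval_eq_sum_range' (hQdeg q.1) _
      simp only [e0]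
      refine Asymptotics.IsBigO.fun_sum fun j _ => ?_
      by_cases hjk : j < k + 1
      · simp only [hQ _ j hjk, zero_mul]
        exact Asymptotics.isBigO_zero _ _
      · have e1 := xu_fst (hQb j) (𝓝[>] (0 : ℝ))
        have e2 := xu_pow (l := l) (not_lt.1 hjk)
        refine (e1.mul e2).congr_right ?_
        intro q
        simp
    refine ((h1.congr_right ?_).add ((h2.congr_right ?_).add h3)).congr_left ?_
    · intro q; simp
    · intro q; simp
    · intro q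
      simp only [Q, Polynomial.eval_sub, Polynomial.eval_mul, ev]
      ring

end xu

section gdu

variable {κ : Type*} {l : Filter κ} {d m : ℕ} {p : κ → E d} {L : CVF d} {k : ℕ} {φ ψ : Wd → ℂ}
  {ι : Fin m → Fin m ⊕ Fin m} {z : κ → ℝ → Fin m ⊕ Fin m → ℂ} {w : κ → ℝ → Fin m → ℂ}

/-- uniform version of `Gd` -/
def GdU (l : Filter κ) (p : κ → E d) (L : CVF d) (k : ℕ) (φ ψ : Wd → ℂ)
    (ι : Fin m → Fin m ⊕ Fin m)
    (z : κ → ℝ → Fin m ⊕ Fin m → ℂ) (w : κ → ℝ → Fin m → ℂ) (P : Pol m) (f : κ → CF d) : Prop :=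
  (∀ᶠ i in l, Sm (p i) (f i)) ∧
  ApU l k (fun i s => MvPolynomial.eval (z i s) P) (fun i => XQ.J (p i) L φ (f i)) ∧
  ApU l k (fun i s => ∑ j, MvPolynomial.eval (z i s) (MvPolynomial.pderiv (ι j) P) * w i s j)
    (fun i => XQ.J (p i) L ψ (f i))

lemma GdU.one (hφ : IsChar k φ) (hψ : IsDer k φ ψ) :
    GdU l p L k φ ψ ι z w 1 (fun _ _ => 1) := by
  refine ⟨Filter.Eventually.of_forall fun i => Sm.const 1, ?_, ?_⟩
  · simp only [XQ.J_one, hφ.1]
    simpa using ApU.const (l := l) (k := k) (xu_const 1)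
  · simp only [XQ.J_one, XQ.IsDer.nil hφ hψ]
    simpa using ApU.const (l := l) (k := k) (xu_const 0)

lemma GdU.mul (hL : ∀ᶠ i in l, Sm (p i) L) (hφ : IsChar k φ) (hψ : IsDer k φ ψ) {P Q : Pol m}
    {f g : κ → CF d} (hP : GdU l p L k φ ψ ι z w P f) (hQ : GdU l p L k φ ψ ι z w Q g) :
    GdU l p L k φ ψ ι z w (P * Q) (fun i x => f i x * g i x) := by
  refine ⟨?_, ?_, ?_⟩
  · filter_upwards [hP.1, hQ.1] with i h1 h2 using h1.mul h2
  · refine ((hP.2.1.mul hQ.2.1).congr ?_).congr_left ?_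
    · filter_upwards [hL, hP.1, hQ.1] with i h0 h1 h2
      exact fun j hj => XQ.J_mul_char h0 h1 h2 hφ hj
    · refine Filter.Eventually.of_forall fun i s => ?_
      rw [map_mul]
  · refine (((hP.2.2.mul hQ.2.1).add (hP.2.1.mul hQ.2.2)).congr ?_).congr_left ?_
    · filter_upwards [hL, hP.1, hQ.1] with i h0 h1 h2
      exact fun j hj => XQ.J_mul_der h0 h1 h2 hψ hj
    · refine Filter.Eventually.of_forall fun i s => ?_
      simp only [MvPolynomial.pderiv_mul, map_add, map_mul, Finset.sum_mul, Finset.mul_sum,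
        ← Finset.sum_add_distrib]
      refine Finset.sum_congr rfl fun i _ => ?_
      ring

lemma GdU.pow (hL : ∀ᶠ i in l, Sm (p i) L) (hφ : IsChar k φ) (hψ : IsDer k φ ψ) {P : Pol m}
    {f : κ → CF d} (hP : GdU l p L k φ ψ ι z w P f) :
    ∀ n : ℕ, GdU l p L k φ ψ ι z w (P ^ n) (fun i x => f i x ^ n)
  | 0 => by simpa using GdU.one hφ hψ
  | n + 1 => by
    have := GdU.mul hL hφ hψ (GdU.pow hL hφ hψ hP n) hP
    simpa only [← pow_succ] using this

lemma GdU.prod (hL : ∀ᶠ i in l, Sm (p i) L) (hφ : IsChar k φ) (hψ : IsDer k φ ψ) {τ : Type*}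
    (S : Finset τ) {P : τ → Pol m} {f : τ → κ → CF d}
    (hP : ∀ i ∈ S, GdU l p L k φ ψ ι z w (P i) (f i)) :
    GdU l p L k φ ψ ι z w (∏ i ∈ S, P i) (fun i x => ∏ j ∈ S, f j i x) := by
  classical
  induction S using Finset.induction_on with
  | empty => simpa using GdU.one hφ hψ
  | insert a s ha ih =>
    have := GdU.mul hL hφ hψ (hP a (by simp)) (ih fun i hi => hP i (by simp [hi]))
    simpa only [Finset.prod_insert ha] using this

lemma GdU.X (hι : Function.Injective ι) {F : κ → Fin m → CF d}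
    (hF : ∀ᶠ i in l, ∀ j, Sm (p i) (F i j))
    (hz : ∀ j, ApU l k (fun i s => z i s (ι j)) (fun i => XQ.J (p i) L φ (F i j)))
    (hw : ∀ j, ApU l k (fun i s => w i s j) (fun i => XQ.J (p i) L ψ (F i j))) (j : Fin m) :
    GdU l p L k φ ψ ι z w (MvPolynomial.X (ι j)) (fun i => F i j) := by
  refine ⟨hF.mono fun i hi => hi j, ?_, ?_⟩
  · simpa using hz j
  · refine (hw j).congr_left (Filter.Eventually.of_forall ?_)
    intro i s
    rw [Finset.sum_eq_single j]
    · rw [MvPolynomial.pderiv_X_self, map_one, one_mul]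
    · intro b _ hb
      rw [MvPolynomial.pderiv_X_of_ne (fun h => hb (hι h).symm), map_zero, zero_mul]
    · intro h; exact absurd (Finset.mem_univ j) h

lemma xu_coeff_J {Z : κ → Fin m → CF d}
    (hbZ : ∀ w j, (fun i => op L w (Z i j) (p i)) =O[l] fun _ => (1 : ℝ)) (θ : Wd → ℂ)
    (j : Fin m) (n : ℕ) :
    (fun i => PowerSeries.coeff n (XQ.J (p i) L θ (Z i j))) =O[l] fun _ => (1 : ℝ) := by
  simp only [XQ.J, PowerSeries.coeff_mk]
  exact xu_sumW n fun w => xu_mul (hbZ w j) (xu_const _)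

lemma jet_apU {Z : κ → Fin m → CF d}
    (hbZ : ∀ w j, (fun i => op L w (Z i j) (p i)) =O[l] fun _ => (1 : ℝ)) (θ : Wd → ℂ)
    (j : Fin m) :
    ApU l k (fun i s => jet (p i) L (Z i) k θ s j) (fun i => XQ.J (p i) L θ (Z i j)) := by
  refine ⟨fun n _ => xu_coeff_J hbZ θ j n, ?_⟩
  have : ∀ q : κ × ℝ, jet (p q.1) L (Z q.1) k θ q.2 j -
      ∑ n ∈ range (k + 1), (q.2 : ℂ) ^ n *
        PowerSeries.coeff n (XQ.J (p q.1) L θ (Z q.1 j)) = 0 := by
    intro q
    simp only [jet, XQ.J, PowerSeries.coeff_mk, sub_self]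
  simp only [this]
  exact Asymptotics.isBigO_zero _ _

lemma jet_apU_conj (hL : ∀ᶠ i in l, Sm (p i) L) {Z : κ → Fin m → CF d}
    (hZ : ∀ᶠ i in l, ∀ j, Sm (p i) (Z i j))
    (hbZ : ∀ w j, (fun i => op L w (Z i j) (p i)) =O[l] fun _ => (1 : ℝ)) (θ : Wd → ℂ)
    (j : Fin m) :
    ApU l k (fun i s => (starRingEnd ℂ) (jet (p i) L (Z i) k θ s j))
      (fun i => XQ.J (p i) L (fun w => (starRingEnd ℂ) (θ (cj w)))
        (fun x => (starRingEnd ℂ) (Z i j x))) := by
  have hco : ∀ᶠ i in l, ∀ n, PowerSeries.coeff n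
      (XQ.J (p i) L (fun w => (starRingEnd ℂ) (θ (cj w))) (fun x => (starRingEnd ℂ) (Z i j x))) =
      (starRingEnd ℂ) (PowerSeries.coeff n (XQ.J (p i) L θ (Z i j))) := by
    filter_upwards [hL, hZ] with i h0 h1
    exact fun n => XQ.coeff_J_conj h0 (h1 j) θ n
  refine ⟨fun n _ => ?_, ?_⟩
  · refine (xu_conj (xu_coeff_J hbZ θ j n)).congr' ?_ (Filter.EventuallyEq.refl _ _)
    filter_upwards [hco] with i hi
    exact (hi n).symm
  · refine (Asymptotics.isBigO_zero _ _).congr' ?_ (Filter.EventuallyEq.refl _ _)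
    filter_upwards [hco.prod_inl (𝓝[>] (0 : ℝ))] with q hq
    symm
    simp only [hq]
    rw [sub_eq_zero, jet, map_sum]
    refine Finset.sum_congr rfl fun n _ => ?_
    rw [map_mul, map_pow, Complex.conj_ofReal, XQ.J, PowerSeries.coeff_mk]

end gdu

lemma pol_eq_S {m : ℕ} {P : Pol m} {S : Finset (Fin m ⊕ Fin m →₀ ℕ)} (h : P.support ⊆ S)
    {M : Type*} [AddCommMonoid M] (F : ℂ → (Fin m ⊕ Fin m →₀ ℕ) → M) (hF : ∀ e, F 0 e = 0) :
    ∑ e ∈ S, F (P.coeff e) e = ∑ e ∈ P.support, F (P.coeff e) e := by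
  symm
  refine Finset.sum_subset h fun e _ he => ?_
  rw [MvPolynomial.notMem_support_iff.1 he, hF]


/-- expansion, uniform in a parameter (JDD) -/
theorem expansion' {κ : Type*} (l : Filter κ) {d m : ℕ} (L : CVF d) (p : κ → E d)
    (Z : κ → Fin m → CF d) (P : κ → Pol m) (hL : ∀ᶠ i in l, Sm (p i) L)
    (hZ : ∀ᶠ i in l, ∀ j, Sm (p i) (Z i j))
    (hbZ : ∀ w j, (fun i => op L w (Z i j) (p i)) =O[l] fun _ => (1 : ℝ))
    (S : Finset (Fin m ⊕ Fin m →₀ ℕ)) (hS : ∀ᶠ i in l, (P i).support ⊆ S)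
    (hP : ∀ e, (fun i => (P i).coeff e) =O[l] fun _ => (1 : ℝ))
    (k : ℕ) (φ ψ : Wd → ℂ) (hφ : IsChar k φ) (hψ : IsDer k φ ψ) :
    ((fun q : κ × ℝ => peval (P q.1) (jet (p q.1) L (Z q.1) k φ q.2) -
        ∑ j ∈ range (k + 1), (q.2 : ℂ) ^ j * sumP j (fun u v =>
          Rd (p q.1) L (Z q.1) (P q.1) u v * φ u * (starRingEnd ℂ) (φ (cj v))))
      =O[l ×ˢ 𝓝[>] (0 : ℝ)] fun q : κ × ℝ => q.2 ^ (k + 1)) ∧
    ((fun q : κ × ℝ => (∑ i, peval (DAng.dz i (P q.1)) (jet (p q.1) L (Z q.1) k φ q.2) *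
        jet (p q.1) L (Z q.1) k ψ q.2 i) -
        ∑ j ∈ range (k + 1), (q.2 : ℂ) ^ j * sumP j (fun u v =>
          Rd (p q.1) L (Z q.1) (P q.1) u v * ψ u * (starRingEnd ℂ) (φ (cj v))))
      =O[l ×ˢ 𝓝[>] (0 : ℝ)] fun q : κ × ℝ => q.2 ^ (k + 1)) ∧
    ((fun q : κ × ℝ => (∑ i, ∑ i', peval (DAng.dzb i' (DAng.dz i (P q.1)))
        (jet (p q.1) L (Z q.1) k φ q.2) * jet (p q.1) L (Z q.1) k ψ q.2 i *
        (starRingEnd ℂ) (jet (p q.1) L (Z q.1) k ψ q.2 i')) -
        ∑ j ∈ range (k + 1), (q.2 : ℂ) ^ j * sumP j (fun u v =>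
          Rd (p q.1) L (Z q.1) (P q.1) u v * ψ u * (starRingEnd ℂ) (ψ (cj v))))
      =O[l ×ˢ 𝓝[>] (0 : ℝ)] fun q : κ × ℝ => q.2 ^ (k + 1)) := by
  set z : κ → ℝ → Fin m ⊕ Fin m → ℂ := fun i s => Sum.elim (jet (p i) L (Z i) k φ s)
    (fun j => (starRingEnd ℂ) (jet (p i) L (Z i) k φ s j)) with hz
  have hpe : ∀ (Q : Pol m) (i : κ) (s : ℝ),
      peval Q (jet (p i) L (Z i) k φ s) = MvPolynomial.eval (z i s) Q := fun _ _ _ => rfl
  have hφ' := XQ.IsChar.cj hφ
  have hψ' := XQ.IsDer.cj hψ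
  set φ' : Wd → ℂ := fun w => (starRingEnd ℂ) (φ (cj w)) with hφ'def
  set ψ' : Wd → ℂ := fun w => (starRingEnd ℂ) (ψ (cj w)) with hψ'def
  have GA : ∀ e : Fin m ⊕ Fin m →₀ ℕ, GdU l p L k φ ψ Sum.inl z
      (fun i s => jet (p i) L (Z i) k ψ s)
      (XQ.mA e) (fun i x => ∏ j, Z i j x ^ e (Sum.inl j)) := by
    intro e
    refine GdU.prod hL hφ hψ Finset.univ (f := fun j i x => Z i j x ^ e (Sum.inl j))
      fun j _ => GdU.pow hL hφ hψ ?_ _
    exact GdU.X Sum.inl_injective hZ (fun j => jet_apU hbZ φ j) (fun j => jet_apU hbZ ψ j) j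
  have GB : ∀ e : Fin m ⊕ Fin m →₀ ℕ, GdU l p L k φ' ψ' Sum.inr z
      (fun i s j => (starRingEnd ℂ) (jet (p i) L (Z i) k ψ s j))
      (XQ.mB e) (fun i x => ∏ j, (starRingEnd ℂ) (Z i j x) ^ e (Sum.inr j)) := by
    intro e
    refine GdU.prod hL hφ' hψ' Finset.univ
      (f := fun j i x => (starRingEnd ℂ) (Z i j x) ^ e (Sum.inr j))
      fun j _ => GdU.pow hL hφ' hψ' (f := fun i x => (starRingEnd ℂ) (Z i j x)) ?_ _
    exact GdU.X (F := fun i j x => (starRingEnd ℂ) (Z i j x)) Sum.inr_injective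
      (hZ.mono fun i hi j => (hi j).conj) (fun j => jet_apU_conj hL hZ hbZ φ j)
      (fun j => jet_apU_conj hL hZ hbZ ψ j) j
  -- coefficients
  have hco : ∀ (α β : Wd → ℂ), ∀ᶠ i in l, ∀ j, PowerSeries.coeff j (∑ e ∈ S,
      PowerSeries.C ((P i).coeff e) *
      (XQ.J (p i) L α (fun x => ∏ j, Z i j x ^ e (Sum.inl j)) *
        XQ.J (p i) L β (fun x => ∏ j, (starRingEnd ℂ) (Z i j x) ^ e (Sum.inr j)))) =
      sumP j (fun u v => Rd (p i) L (Z i) (P i) u v * α u * β v) := by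
    intro α β
    filter_upwards [hS] with i hi
    intro j
    rw [← XQ.coeff_main, pol_eq_S hi (fun c e => PowerSeries.C c *
      (XQ.J (p i) L α (fun x => ∏ j, Z i j x ^ e (Sum.inl j)) *
        XQ.J (p i) L β (fun x => ∏ j, (starRingEnd ℂ) (Z i j x) ^ e (Sum.inr j))))
        (fun e => by simp)]
  have hfin : ∀ (α β : Wd → ℂ) (f : κ → ℝ → ℂ), ApU l k f (fun i => ∑ e ∈ S,
      PowerSeries.C ((P i).coeff e) *
      (XQ.J (p i) L α (fun x => ∏ j, Z i j x ^ e (Sum.inl j)) *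
        XQ.J (p i) L β (fun x => ∏ j, (starRingEnd ℂ) (Z i j x) ^ e (Sum.inr j)))) →
      (fun q : κ × ℝ => f q.1 q.2 - ∑ j ∈ range (k + 1), (q.2 : ℂ) ^ j * sumP j (fun u v =>
          Rd (p q.1) L (Z q.1) (P q.1) u v * α u * β v))
      =O[l ×ˢ 𝓝[>] (0 : ℝ)] fun q : κ × ℝ => q.2 ^ (k + 1) := by
    intro α β f hf
    refine hf.2.congr' ?_ (Filter.EventuallyEq.refl _ _)
    filter_upwards [(hco α β).prod_inl (𝓝[>] (0 : ℝ))] with q hq
    simp only [hq]
  refine ⟨?_, ?_, ?_⟩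
  · refine hfin φ φ' (fun i s => peval (P i) (jet (p i) L (Z i) k φ s)) ?_
    refine (ApU.sum S fun e _ => (ApU.const (hP e)).mul
        ((GA e).2.1.mul (GB e).2.1)).congr_left ?_
    filter_upwards [hS] with i hi
    intro s
    rw [hpe]
    conv_lhs => rw [XQ.pol_eq (P i)]
    rw [← pol_eq_S hi (fun c e => MvPolynomial.C c * (XQ.mA e * XQ.mB e)) (fun e => by simp)]
    simp only [map_sum, map_mul, MvPolynomial.eval_C]
  · refine hfin ψ φ' (fun i s => ∑ j, peval (DAng.dz j (P i)) (jet (p i) L (Z i) k φ s) *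
      jet (p i) L (Z i) k ψ s j) ?_
    refine (ApU.sum S fun e _ => (ApU.const (hP e)).mul
        ((GA e).2.2.mul (GB e).2.1)).congr_left ?_
    filter_upwards [hS] with i hi
    intro s
    simp only [hpe]
    have : ∀ j, MvPolynomial.eval (z i s) (DAng.dz j (P i)) * jet (p i) L (Z i) k ψ s j =
        ∑ e ∈ S, (P i).coeff e * (MvPolynomial.eval (z i s) (DAng.dz j (XQ.mA e)) *
          jet (p i) L (Z i) k ψ s j * MvPolynomial.eval (z i s) (XQ.mB e)) := by
      intro j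
      rw [XQ.dz_eq (P i) j, ← pol_eq_S hi (fun c e => MvPolynomial.C c *
        (DAng.dz j (XQ.mA e) * XQ.mB e)) (fun e => by simp)]
      simp only [map_sum, map_mul, MvPolynomial.eval_C, Finset.sum_mul]
      refine Finset.sum_congr rfl fun e _ => ?_
      ring
    simp only [this]
    rw [Finset.sum_comm]
    refine Finset.sum_congr rfl fun e _ => ?_
    rw [← Finset.mul_sum, ← Finset.sum_mul]
    rfl
  · refine hfin ψ ψ' (fun i s => ∑ j, ∑ j', peval (DAng.dzb j' (DAng.dz j (P i)))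
      (jet (p i) L (Z i) k φ s) * jet (p i) L (Z i) k ψ s j *
        (starRingEnd ℂ) (jet (p i) L (Z i) k ψ s j')) ?_
    refine (ApU.sum S fun e _ => (ApU.const (hP e)).mul
        ((GA e).2.2.mul (GB e).2.2)).congr_left ?_
    filter_upwards [hS] with i hi
    intro s
    simp only [hpe]
    have : ∀ j j', MvPolynomial.eval (z i s) (DAng.dzb j' (DAng.dz j (P i))) *
        jet (p i) L (Z i) k ψ s j * (starRingEnd ℂ) (jet (p i) L (Z i) k ψ s j') =
        ∑ e ∈ S, (P i).coeff e * ((MvPolynomial.eval (z i s) (DAng.dz j (XQ.mA e)) *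
          jet (p i) L (Z i) k ψ s j) * (MvPolynomial.eval (z i s) (DAng.dzb j' (XQ.mB e)) *
          (starRingEnd ℂ) (jet (p i) L (Z i) k ψ s j'))) := by
      intro j j'
      rw [XQ.dzb_dz_eq (P i) j j', ← pol_eq_S hi (fun c e => MvPolynomial.C c *
        (DAng.dz j (XQ.mA e) * DAng.dzb j' (XQ.mB e))) (fun e => by simp)]
      simp only [map_sum, map_mul, MvPolynomial.eval_C, Finset.sum_mul]
      refine Finset.sum_congr rfl fun e _ => ?_
      ring
    simp only [this]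
    have h2 : ∀ j, (∑ j', ∑ e ∈ S, (P i).coeff e *
        ((MvPolynomial.eval (z i s) (DAng.dz j (XQ.mA e)) *
          jet (p i) L (Z i) k ψ s j) * (MvPolynomial.eval (z i s) (DAng.dzb j' (XQ.mB e)) *
          (starRingEnd ℂ) (jet (p i) L (Z i) k ψ s j')))) =
        ∑ e ∈ S, (P i).coeff e * ((MvPolynomial.eval (z i s) (DAng.dz j (XQ.mA e)) *
          jet (p i) L (Z i) k ψ s j) * ∑ j', (MvPolynomial.eval (z i s) (DAng.dzb j' (XQ.mB e)) *
          (starRingEnd ℂ) (jet (p i) L (Z i) k ψ s j'))) := by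
      intro j
      rw [Finset.sum_comm]
      refine Finset.sum_congr rfl fun e _ => ?_
      rw [← Finset.mul_sum, ← Finset.mul_sum]
    simp only [h2]
    rw [Finset.sum_comm]
    refine Finset.sum_congr rfl fun e _ => ?_
    rw [← Finset.mul_sum, ← Finset.sum_mul]
    rfl



end KI
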