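import Pool.Agent.KI.DefsD

open scoped ContDiff Topology BigOperators
open Finset Asymptotics

namespace KI
open DAng

variable {n : ℕ} {p x₀ : E (n + n)}



lemma zz_bil (K : Fin n → Fin n → ℂ) {B : ℝ} (hB : ∀ i j, ‖K i j‖ ≤ B) (u w : Fin n → ℂ) :
    ‖∑ i, ∑ j, K i j * u i * (starRingEnd ℂ) (w j)‖ ≤ (n:ℝ)^2 * B * ‖u‖ * ‖w‖ := by
  calc _ ≤ ∑ i, ‖∑ j, K i j * u i * (starRingEnd ℂ) (w j)‖ := norm_sum_le _ _
    _ ≤ ∑ i : Fin n, ∑ j : Fin n, ‖K i j * u i * (starRingEnd ℂ) (w j)‖ :=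
        Finset.sum_le_sum fun i _ => norm_sum_le _ _
    _ ≤ ∑ i : Fin n, ∑ j : Fin n, B * ‖u‖ * ‖w‖ := by
        refine Finset.sum_le_sum fun i _ => Finset.sum_le_sum fun j _ => ?_
        rw [norm_mul, norm_mul, RCLike.norm_conj]
        have h0 : 0 ≤ B := (norm_nonneg _).trans (hB i j)
        exact mul_le_mul (mul_le_mul (hB i j) (norm_le_pi_norm u i) (norm_nonneg _) h0)
          (norm_le_pi_norm w j) (norm_nonneg _) (by positivity)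
    _ = _ := by
        simp only [Finset.sum_const, Finset.card_univ, Fintype.card_fin, nsmul_eq_mul]; ring

lemma zz_lin (a : Fin n → ℂ) {B : ℝ} (hB : ∀ i, ‖a i‖ ≤ B) (u : Fin n → ℂ) :
    ‖∑ i, a i * u i‖ ≤ (n:ℝ) * B * ‖u‖ := by
  calc _ ≤ ∑ i, ‖a i * u i‖ := norm_sum_le _ _
    _ ≤ ∑ i : Fin n, B * ‖u‖ := by
        refine Finset.sum_le_sum fun i _ => ?_
        rw [norm_mul]
        have h0 : 0 ≤ B := (norm_nonneg _).trans (hB i)
        exact mul_le_mul (hB i) (norm_le_pi_norm u i) (norm_nonneg _) h0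
    _ = _ := by
        simp only [Finset.sum_const, Finset.card_univ, Fintype.card_fin, nsmul_eq_mul]; ring

lemma zz_alg {M c : ℝ} (hM : 0 ≤ M) (hc : 0 < c) : ∃ C > 0, ∀ (H H' : Fin n → Fin n → ℂ)
    (a b : Fin n → ℂ) (τ : ℝ), 0 ≤ τ →
    (∀ i j, ‖H' i j‖ ≤ M) → (∀ i j, ‖H i j - H' i j‖ ≤ M * τ) → (∀ i, ‖a i‖ ≤ M) →
    (∀ i, ‖a i - b i‖ ≤ M * τ) → c ≤ ∑ i, ‖a i‖^2 →
    (∀ v : Fin n → ℂ, ∑ i, a i * v i = 0 →
      0 ≤ (∑ i, ∑ j, H' i j * v i * (starRingEnd ℂ) (v j)).re) →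
    ∀ v : Fin n → ℂ, -(C * (τ * ‖v‖^2 + ‖∑ i, b i * v i‖ * ‖v‖)) ≤
      (∑ i, ∑ j, H i j * v i * (starRingEnd ℂ) (v j)).re := by
  set N : ℝ := (n : ℝ) with hN
  have hN0 : 0 ≤ N := Nat.cast_nonneg n
  refine ⟨N^2 * M + N^2 * M * (M / c) * (2 + N * M * (M / c)) * (1 + N * M) + 1, by positivity, ?_⟩
  intro H H' a b τ hτ h1 h2 h3 h4 h5 hpos v
  set A : ℝ := ∑ i, ‖a i‖^2 with hA
  have hA0 : 0 < A := hc.trans_le h5
  set D : ℂ := ∑ i, a i * v i with hD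
  set D0 : ℂ := ∑ i, b i * v i with hD0
  set u : Fin n → ℂ := fun i => (D / (A : ℂ)) * (starRingEnd ℂ) (a i) with hu
  set v' : Fin n → ℂ := fun i => v i - u i with hv'
  have hAC : (A : ℂ) ≠ 0 := by exact_mod_cast hA0.ne'
  have hsumA : ∑ i, a i * (starRingEnd ℂ) (a i) = (A : ℂ) := by
    rw [hA]; push_cast
    refine Finset.sum_congr rfl fun i _ => ?_
    rw [Complex.mul_conj, Complex.normSq_eq_norm_sq]; push_cast; rfl
  have hker : ∑ i, a i * v' i = 0 := by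
    have : ∑ i, a i * v' i = D - (D / (A : ℂ)) * ∑ i, a i * (starRingEnd ℂ) (a i) := by
      rw [hD, Finset.mul_sum, ← Finset.sum_sub_distrib]
      refine Finset.sum_congr rfl fun i _ => ?_
      simp only [hv', hu]; ring
    rw [this, hsumA, div_mul_cancel₀ _ hAC, sub_self]
  have hp := hpos v' hker
  -- norms
  have hDle : ‖D‖ ≤ ‖D0‖ + N * (M * τ) * ‖v‖ := by
    have e : D = D0 + ∑ i, (a i - b i) * v i := by
      rw [hD, hD0, ← Finset.sum_add_distrib]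
      refine Finset.sum_congr rfl fun i _ => by ring
    rw [e]
    refine (norm_add_le _ _).trans ?_
    have := zz_lin (fun i => a i - b i) (B := M * τ) h4 v
    linarith
  have hDle2 : ‖D‖ ≤ N * M * ‖v‖ := zz_lin a h3 v
  have huc : ‖u‖ ≤ ‖D‖ * (M / c) := by
    refine (pi_norm_le_iff_of_nonneg (by positivity)).2 fun i => ?_
    simp only [hu]
    rw [norm_mul, norm_div, RCLike.norm_conj, Complex.norm_real, Real.norm_eq_abs,
      abs_of_pos hA0]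
    calc ‖D‖ / A * ‖a i‖ ≤ ‖D‖ / c * M := by
          refine mul_le_mul ?_ (h3 i) (norm_nonneg _) (by positivity)
          exact div_le_div_of_nonneg_left (norm_nonneg _) hc h5
      _ = ‖D‖ * (M / c) := by ring
  have hv'n : ‖v'‖ ≤ ‖v‖ + ‖u‖ := by
    have : v' = v - u := by funext i; simp [hv']
    rw [this]; exact norm_sub_le _ _
  have hun : ‖u‖ ≤ N * M * (M / c) * ‖v‖ := by
    calc ‖u‖ ≤ ‖D‖ * (M / c) := huc
      _ ≤ (N * M * ‖v‖) * (M / c) := by gcongr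
      _ = _ := by ring
  -- decomposition
  have e1 : ∑ i, ∑ j, H i j * v i * (starRingEnd ℂ) (v j) =
      ∑ i, ∑ j, H' i j * v' i * (starRingEnd ℂ) (v' j)
      + (∑ i, ∑ j, (H i j - H' i j) * v i * (starRingEnd ℂ) (v j)
        + (∑ i, ∑ j, H' i j * u i * (starRingEnd ℂ) (v j)
          + ∑ i, ∑ j, H' i j * v' i * (starRingEnd ℂ) (u j))) := by
    simp only [← Finset.sum_add_distrib]
    refine Finset.sum_congr rfl fun i _ => Finset.sum_congr rfl fun j _ => ?_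
    simp only [hv', map_sub]
    ring
  have b1 := zz_bil (fun i j => H i j - H' i j) (B := M * τ) h2 v v
  have b2 := zz_bil H' (B := M) h1 u v
  have b3 := zz_bil H' (B := M) h1 v' u
  have r1 := Complex.abs_re_le_norm (∑ i, ∑ j, (H i j - H' i j) * v i * (starRingEnd ℂ) (v j))
  have r2 := Complex.abs_re_le_norm (∑ i, ∑ j, H' i j * u i * (starRingEnd ℂ) (v j))
  have r3 := Complex.abs_re_le_norm (∑ i, ∑ j, H' i j * v' i * (starRingEnd ℂ) (u j))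
  rw [e1, Complex.add_re, Complex.add_re, Complex.add_re]
  have s1 := (abs_le.1 (r1.trans b1)).1
  have s2 := (abs_le.1 (r2.trans b2)).1
  have s3 := (abs_le.1 (r3.trans b3)).1
  have hvn : 0 ≤ ‖v‖ := norm_nonneg v
  have hun0 : 0 ≤ ‖u‖ := norm_nonneg u
  have hD00 : 0 ≤ ‖D0‖ := norm_nonneg D0
  have t1 : N^2 * M * ‖u‖ * ‖v‖ + N^2 * M * ‖v'‖ * ‖u‖ ≤
      N^2 * M * (M / c) * (2 + N * M * (M / c)) * ((1 + N * M) * (τ * ‖v‖^2 + ‖D0‖ * ‖v‖)) := by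
    have hMc : 0 ≤ M / c := by positivity
    calc N^2 * M * ‖u‖ * ‖v‖ + N^2 * M * ‖v'‖ * ‖u‖ = N^2 * M * ‖u‖ * (‖v‖ + ‖v'‖) := by ring
      _ ≤ N^2 * M * (‖D‖ * (M / c)) * ((2 + N * M * (M / c)) * ‖v‖) := by
          refine mul_le_mul (mul_le_mul_of_nonneg_left huc (by positivity)) ?_ (by positivity)
            (by positivity)
          nlinarith
      _ = N^2 * M * (M / c) * (2 + N * M * (M / c)) * (‖D‖ * ‖v‖) := by ring
      _ ≤ N^2 * M * (M / c) * (2 + N * M * (M / c)) *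
            ((1 + N * M) * (τ * ‖v‖^2 + ‖D0‖ * ‖v‖)) := by
          refine mul_le_mul_of_nonneg_left ?_ (by positivity)
          calc ‖D‖ * ‖v‖ ≤ (‖D0‖ + N * (M * τ) * ‖v‖) * ‖v‖ := by gcongr
            _ = ‖D0‖ * ‖v‖ + N * M * (τ * ‖v‖^2) := by ring
            _ ≤ (1 + N * M) * (τ * ‖v‖^2 + ‖D0‖ * ‖v‖) := by
                have q1 : 0 ≤ τ * ‖v‖^2 := by positivity
                have q2 : 0 ≤ N * M * (‖D0‖ * ‖v‖) := by positivity
                nlinarith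
  have q0 : 0 ≤ N^2 * M * (‖D0‖ * ‖v‖) := by positivity
  have q1 : 0 ≤ τ * ‖v‖^2 := by positivity
  have q2 : 0 ≤ ‖D0‖ * ‖v‖ := by positivity
  have t2 : N^2 * (M * τ) * ‖v‖ * ‖v‖ = N^2 * M * (τ * ‖v‖^2) := by ring
  rw [t2] at s1
  nlinarith

lemma zz_ivt {d : ℕ} {y₀ : E d} {G : E d → ℝ} (hG : Sm y₀ G) (hG0 : G y₀ = 0) (e : E d)
    (he : ‖e‖ = 1) (hpos : 0 < fderiv ℝ G y₀ e) :
    ∃ c > 0, ∀ W ∈ 𝓝 y₀, ∀ᶠ x in 𝓝 y₀, ∃ x' ∈ W, G x' = 0 ∧ ‖x - x'‖ ≤ |G x| / c := by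
  set c := fderiv ℝ G y₀ e / 2 with hcdef
  have hc : 0 < c := half_pos hpos
  have hcont : ContinuousAt (fun x => fderiv ℝ G x e) y₀ := by
    have h2 : ContDiffAt ℝ ∞ (fderiv ℝ G) y₀ := hG.self.fderiv_right (by simp)
    exact (h2.clm_apply contDiffAt_const).continuousAt
  have h1 : ∀ᶠ x in 𝓝 y₀, c < fderiv ℝ G x e :=
    hcont.eventually_const_lt (by rw [hcdef]; linarith)
  refine ⟨c, hc, fun W hW => ?_⟩
  obtain ⟨ρ, hρ, hb⟩ := Metric.eventually_nhds_iff_ball.1 ((h1.and hG.differentiableAt).and hW)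
  have h2 : ∀ᶠ x in 𝓝 y₀, |G x| / c < ρ / 2 := by
    have : ContinuousAt (fun x => |G x| / c) y₀ := (hG.continuousAt.abs).div_const c
    refine this.eventually_lt_const ?_
    simp only [hG0, abs_zero, zero_div]
    linarith
  filter_upwards [h2, Metric.ball_mem_nhds y₀ (half_pos hρ)] with x hx1 hx2
  set T := |G x| / c with hT
  have hT0 : 0 ≤ T := by positivity
  have hmem : ∀ t ∈ Set.Icc (-T) T, x + t • e ∈ Metric.ball y₀ ρ := by
    intro t ht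
    rw [Metric.mem_ball, dist_eq_norm] at hx2 ⊢
    have : x + t • e - y₀ = (x - y₀) + t • e := by abel
    rw [this]
    calc ‖(x - y₀) + t • e‖ ≤ ‖x - y₀‖ + ‖t • e‖ := norm_add_le _ _
      _ = ‖x - y₀‖ + |t| := by rw [norm_smul, he, mul_one, Real.norm_eq_abs]
      _ < ρ := by
          have := abs_le.2 ht
          linarith
  have hφ : ∀ t ∈ Set.Icc (-T) T, HasDerivAt (fun t : ℝ => G (x + t • e))
      (fderiv ℝ G (x + t • e) e) t := by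
    intro t ht
    have hd := (hb _ (hmem t ht)).1.2.hasFDerivAt
    have hl : HasDerivAt (fun t : ℝ => x + t • e) e t := by
      simpa using ((hasDerivAt_id t).smul_const e).const_add x
    exact hd.comp_hasDerivAt t hl
  have hcontφ : ContinuousOn (fun t : ℝ => G (x + t • e)) (Set.Icc (-T) T) :=
    fun t ht => (hφ t ht).continuousAt.continuousWithinAt
  have mono : ∀ s ∈ Set.Icc (-T) T, ∀ t ∈ Set.Icc (-T) T, s ≤ t →
      c * (t - s) ≤ G (x + t • e) - G (x + s • e) := by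
    refine Convex.mul_sub_le_image_sub_of_le_deriv (convex_Icc _ _) hcontφ ?_ ?_
    · intro t ht
      exact (hφ t (interior_subset ht)).differentiableAt.differentiableWithinAt
    · intro t ht
      rw [(hφ t (interior_subset ht)).deriv]
      exact (hb _ (hmem t (interior_subset ht))).1.1.le
  have m0 : (0:ℝ) ∈ Set.Icc (-T) T := ⟨by linarith, hT0⟩
  have mT : T ∈ Set.Icc (-T) T := ⟨by linarith, le_rfl⟩
  have mT' : -T ∈ Set.Icc (-T) T := ⟨le_rfl, by linarith⟩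
  have u1 := mono 0 m0 T mT hT0
  have u2 := mono (-T) mT' 0 m0 (by linarith)
  have cT : c * T = |G x| := by rw [hT]; field_simp
  have g0 : G (x + (0:ℝ) • e) = G x := by simp
  rw [g0] at u1 u2
  have a1 := neg_abs_le (G x)
  have a2 := le_abs_self (G x)
  obtain ⟨t, ht, ht0⟩ := intermediate_value_Icc (by linarith : -T ≤ T) hcontφ
    (show (0:ℝ) ∈ Set.Icc (G (x + (-T) • e)) (G (x + T • e)) from
      ⟨by linarith, by linarith⟩)
  refine ⟨x + t • e, (hb _ (hmem t ht)).2, ht0, ?_⟩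
  have : x - (x + t • e) = -(t • e) := by abel
  rw [this, norm_neg, norm_smul, he, mul_one, Real.norm_eq_abs]
  exact abs_le.2 ht

lemma zz_zero {r : CF (n + n)} (h : DefFn r x₀) : ∃ c > 0, ∀ W ∈ 𝓝 x₀, ∀ᶠ x in 𝓝 x₀,
    ∃ x' ∈ W, r x' = 0 ∧ ‖x - x'‖ ≤ ‖r x‖ / c := by
  have hreal : ∀ᶠ x in 𝓝 x₀, r x = ((r x).re : ℂ) := by
    filter_upwards [h.real] with x hx
    exact (Complex.conj_eq_iff_re.1 hx).symm
  have hg : Sm x₀ (fun x => (r x).re) := h.sm.re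
  have hfd : ∀ e : E (n + n), fderiv ℝ r x₀ e = ((fderiv ℝ (fun x => (r x).re) x₀ e : ℝ) : ℂ) := by
    intro e
    have e1 : fderiv ℝ r x₀ = fderiv ℝ (fun x => (((r x).re : ℝ) : ℂ)) x₀ :=
      Filter.EventuallyEq.fderiv_eq hreal
    have hd : DifferentiableAt ℝ (fun x => (r x).re) x₀ := hg.self.differentiableAt (by simp)
    have e2 := (Complex.ofRealCLM.hasFDerivAt (x := (r x₀).re)).comp x₀ hd.hasFDerivAt
    have e3 : fderiv ℝ (fun x => (((r x).re : ℝ) : ℂ)) x₀ =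
      Complex.ofRealCLM.comp (fderiv ℝ (fun x => (r x).re) x₀) := e2.fderiv
    rw [e1, e3]; rfl
  obtain ⟨i, hi⟩ := h.ne
  have hk : ∃ k : Fin (n + n), fderiv ℝ (fun x => (r x).re) x₀ (Pi.single k 1) ≠ 0 := by
    by_contra hcon
    push Not at hcon
    apply hi
    simp only [wd, pd, hfd, hcon]
    simp
  obtain ⟨k, hk⟩ := hk
  have hre0 : (r x₀).re = 0 := by rw [h.zero]; simp
  have hn1 : ‖(Pi.single k (1:ℝ) : E (n + n))‖ = 1 := by
    have h1 := Pi.norm_single (G := fun _ : Fin (n + n) => ℝ) (i := k) (1:ℝ)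
    rw [norm_one] at h1
    exact h1
  have key : ∃ c > 0, ∀ W ∈ 𝓝 x₀, ∀ᶠ x in 𝓝 x₀,
      ∃ x' ∈ W, (r x').re = 0 ∧ ‖x - x'‖ ≤ |(r x).re| / c := by
    rcases lt_or_gt_of_ne hk with hneg | hpos
    · refine zz_ivt hg hre0 (-Pi.single k 1) ?_ ?_
      · rw [norm_neg]
        exact hn1
      · rw [map_neg]; linarith
    · exact zz_ivt hg hre0 (Pi.single k 1) hn1 hpos
  obtain ⟨c, hc, hW⟩ := key
  refine ⟨c, hc, fun W hWn => ?_⟩
  filter_upwards [hW (W ∩ {x | r x = ((r x).re : ℂ)}) (Filter.inter_mem hWn hreal)] with x hx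
  obtain ⟨x', hx', h0, hle⟩ := hx
  refine ⟨x', hx'.1, ?_, hle.trans ?_⟩
  · rw [hx'.2, h0]; simp
  · exact div_le_div_of_nonneg_right (Complex.abs_re_le_norm _) hc.le

lemma zz_wd {f : CF (n + n)} (hf : Sm x₀ f) (a : Fin n ⊕ Fin n) : Sm x₀ (wd a f) := by
  rcases a with i | i
  · exact (Sm.const (p := x₀) (1 / 2 : ℂ)).mul
      ((hf.pd _).sub ((Sm.const (p := x₀) Complex.I).mul (hf.pd _)))
  · exact (Sm.const (p := x₀) (1 / 2 : ℂ)).mul
      ((hf.pd _).add ((Sm.const (p := x₀) Complex.I).mul (hf.pd _)))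

lemma zz_lip {d : ℕ} {y₀ : E d} {f : CF d} (hf : Sm y₀ f) : ∃ K : ℝ, 0 ≤ K ∧ ∃ t ∈ 𝓝 y₀,
    ∀ x ∈ t, ‖f x‖ ≤ K ∧ ∀ y ∈ t, ‖f x - f y‖ ≤ K * ‖x - y‖ := by
  obtain ⟨K, t, ht, hK⟩ := (hf.self.of_le (m := 1) (by simp)).exists_lipschitzOnWith
  have hb : ∀ᶠ x in 𝓝 y₀, ‖f x‖ < ‖f y₀‖ + 1 :=
    hf.continuousAt.norm.eventually_lt_const (by simp)
  refine ⟨K + (‖f y₀‖ + 1), by positivity, t ∩ {x | ‖f x‖ < ‖f y₀‖ + 1}, Filter.inter_mem ht hb, ?_⟩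
  rintro x ⟨hx1, hx2⟩
  refine ⟨?_, ?_⟩
  · have : (0:ℝ) ≤ K := K.2
    have h2 : ‖f x‖ < ‖f y₀‖ + 1 := hx2
    linarith
  · rintro y ⟨hy1, hy2⟩
    have h3 := hK.dist_le_mul x hx1 y hy1
    rw [dist_eq_norm, dist_eq_norm] at h3
    refine h3.trans (mul_le_mul_of_nonneg_right ?_ (norm_nonneg _))
    have : 0 ≤ ‖f y₀‖ := norm_nonneg _
    linarith

/-- Levi form estimate off the hypersurface (JDE) -/
theorem levi_off {r : CF (n + n)} (h : DefFn r x₀) :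
    ∃ C > 0, ∀ᶠ x in 𝓝 x₀, ∀ v : Fin n → ℂ,
      -(C * (‖r x‖ * ‖v‖ ^ 2 + ‖delv r x v‖ * ‖v‖)) ≤ (lev r x v).re := by
  obtain ⟨c₀, hc₀, hzero⟩ := zz_zero h
  have L1 := fun i : Fin n => zz_lip (zz_wd h.sm (Sum.inl i))
  have L2 := fun ij : Fin n × Fin n => zz_lip (zz_wd (zz_wd h.sm (Sum.inr ij.2)) (Sum.inl ij.1))
  choose K1 hK1 t1 ht1 hb1 using L1
  choose K2 hK2 t2 ht2 hb2 using L2
  set M : ℝ := ∑ i, K1 i + ∑ ij, K2 ij with hM
  have s1 : 0 ≤ ∑ i, K1 i := Finset.sum_nonneg fun i _ => hK1 i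
  have s2 : 0 ≤ ∑ ij, K2 ij := Finset.sum_nonneg fun i _ => hK2 i
  have hM0 : 0 ≤ M := add_nonneg s1 s2
  have hM1 : ∀ i, K1 i ≤ M := fun i =>
    (Finset.single_le_sum (fun i _ => hK1 i) (Finset.mem_univ i)).trans (by linarith)
  have hM2 : ∀ ij, K2 ij ≤ M := fun ij =>
    (Finset.single_le_sum (fun ij _ => hK2 ij) (Finset.mem_univ ij)).trans (by linarith)
  obtain ⟨i₀, hi₀⟩ := h.ne
  have hcont : ContinuousAt (fun x => ∑ i : Fin n, ‖wd (Sum.inl i) r x‖ ^ 2) x₀ := by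
    apply tendsto_finsetSum
    intro i _
    exact ((zz_wd h.sm (Sum.inl i)).continuousAt.norm.pow 2)
  set c : ℝ := (∑ i : Fin n, ‖wd (Sum.inl i) r x₀‖ ^ 2) / 2 with hc
  have hcpos : 0 < c := by
    have : 0 < ∑ i : Fin n, ‖wd (Sum.inl i) r x₀‖ ^ 2 :=
      Finset.sum_pos' (fun i _ => by positivity) ⟨i₀, Finset.mem_univ _, by
        have := norm_pos_iff.2 hi₀
        positivity⟩
    rw [hc]; linarith
  have hcev : ∀ᶠ x in 𝓝 x₀, c < ∑ i : Fin n, ‖wd (Sum.inl i) r x‖ ^ 2 :=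
    hcont.eventually_const_lt (by rw [hc]; linarith [hc ▸ hcpos])
  obtain ⟨C, hC, halg⟩ := zz_alg (n := n) hM0 hcpos
  have hW1 : ∀ᶠ x in 𝓝 x₀, ∀ i, x ∈ t1 i := Filter.eventually_all.2 ht1
  have hW2 : ∀ᶠ x in 𝓝 x₀, ∀ ij, x ∈ t2 ij := Filter.eventually_all.2 ht2
  have hW : ∀ᶠ x in 𝓝 x₀, (∀ i, x ∈ t1 i) ∧ (∀ ij, x ∈ t2 ij) ∧
      c < ∑ i : Fin n, ‖wd (Sum.inl i) r x‖ ^ 2 ∧
      (r x = 0 → ∀ v : Fin n → ℂ, delv r x v = 0 → 0 ≤ (lev r x v).re) := by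
    filter_upwards [hW1, hW2, hcev, h.psc] with x a1 a2 a3 a4
    exact ⟨a1, a2, a3, a4⟩
  refine ⟨C * (1 / c₀ + 1), by positivity, ?_⟩
  filter_upwards [hzero _ hW, hW] with x hx hxW v
  obtain ⟨x', hx', hr0, hdist⟩ := hx
  have key := halg (fun i j => wd (Sum.inl i) (wd (Sum.inr j) r) x)
    (fun i j => wd (Sum.inl i) (wd (Sum.inr j) r) x')
    (fun i => wd (Sum.inl i) r x') (fun i => wd (Sum.inl i) r x) (‖r x‖ / c₀)
    (by positivity)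
    (fun i j => ((hb2 (i, j) x' (hx'.2.1 (i, j))).1).trans (hM2 _))
    (fun i j => ((hb2 (i, j) x (hxW.2.1 (i, j))).2 x' (hx'.2.1 (i, j))).trans
      (mul_le_mul (hM2 _) hdist (norm_nonneg _) hM0))
    (fun i => ((hb1 i x' (hx'.1 i)).1).trans (hM1 _))
    (fun i => ((hb1 i x' (hx'.1 i)).2 x (hxW.1 i)).trans
      (mul_le_mul (hM1 _) (by rw [norm_sub_rev]; exact hdist) (norm_nonneg _) hM0))
    hx'.2.2.1.le (hx'.2.2.2 hr0) v
  refine le_trans ?_ key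
  have q1 : 0 ≤ ‖r x‖ * ‖v‖ ^ 2 := by positivity
  have q2 : 0 ≤ ‖delv r x v‖ * ‖v‖ := by positivity
  have e : ‖∑ i, wd (Sum.inl i) r x * v i‖ = ‖delv r x v‖ := rfl
  rw [e]
  have h3 : ‖r x‖ / c₀ * ‖v‖ ^ 2 = (1 / c₀) * (‖r x‖ * ‖v‖ ^ 2) := by ring
  rw [h3]
  apply neg_le_neg
  rw [mul_assoc]
  apply mul_le_mul_of_nonneg_left _ hC.le
  have hcc : 0 ≤ 1 / c₀ := by positivity
  nlinarith [mul_nonneg hcc q2]



end KI
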