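import Pool.Agent.KI.Tay1

open scoped ContDiff Topology BigOperators
open Finset Asymptotics

namespace KI
open DAng

variable {n : ℕ} {p x₀ : E (n + n)}



theorem t2_wd_congr {f g : CF (n + n)} (h : f =ᶠ[𝓝 p] g) (a : Fin n ⊕ Fin n) :
    wd a f =ᶠ[𝓝 p] wd a g := by
  rcases a with i | i
  · filter_upwards [pd_congr h (Fin.castAdd n i), pd_congr h (Fin.natAdd n i)] with x h1 h2
    simp only [wd, h1, h2]
  · filter_upwards [pd_congr h (Fin.castAdd n i), pd_congr h (Fin.natAdd n i)] with x h1 h2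
    simp only [wd, h1, h2]

theorem t2_sm_wd {f : CF (n + n)} (hf : Sm p f) (a : Fin n ⊕ Fin n) : Sm p (wd a f) := by
  rcases a with i | i
  · exact (Sm.const (p := p) (1 / 2 : ℂ)).mul ((hf.pd _).sub ((Sm.const Complex.I).mul (hf.pd _)))
  · exact (Sm.const (p := p) (1 / 2 : ℂ)).mul ((hf.pd _).add ((Sm.const Complex.I).mul (hf.pd _)))

theorem t2_wd_conj {f : CF (n + n)} (hf : Sm p f) (a : Fin n ⊕ Fin n) :
    wd (Sum.swap a) (fun x => (starRingEnd ℂ) (f x)) =ᶠ[𝓝 p]
      fun x => (starRingEnd ℂ) (wd a f x) := by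
  filter_upwards [hf.differentiableAt] with x hx
  rcases a with i | i
  · simp only [Sum.swap_inl, wd, pd_conj hx, map_mul, map_sub, Complex.conj_I, map_div₀, map_one,
      map_ofNat]
    ring
  · simp only [Sum.swap_inr, wd, pd_conj hx, map_mul, map_add, Complex.conj_I, map_div₀, map_one,
      map_ofNat]
    ring

theorem t2_tp_congr : ∀ (j : ℕ) {f g : CF (n + n)}, f =ᶠ[𝓝 p] g → tp j f p = tp j g p
  | 0, f, g, h => by
    simp only [tp, h.self_of_nhds]
  | j + 1, f, g, h => by
    simp only [tp]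
    exact Finset.sum_congr rfl fun a _ => by rw [t2_tp_congr j (t2_wd_congr h a)]

theorem t2_tp_herm : ∀ (j : ℕ) {f : CF (n + n)}, Sm p f →
    MvPolynomial.rename Sum.swap (MvPolynomial.map (starRingEnd ℂ) (tp j f p)) =
      tp j (fun x => (starRingEnd ℂ) (f x)) p
  | 0, f, _ => by
    simp only [tp, MvPolynomial.map_C, MvPolynomial.rename_C]
  | j + 1, f, hf => by
    simp only [tp, map_sum, map_mul, MvPolynomial.map_X, MvPolynomial.rename_X]
    rw [← (Equiv.sumComm (Fin n) (Fin n)).sum_comp (fun b => MvPolynomial.X b *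
      tp j (wd b (fun x => (starRingEnd ℂ) (f x))) p)]
    refine Finset.sum_congr rfl fun a _ => ?_
    rw [t2_tp_herm j (t2_sm_wd hf a), Equiv.sumComm_apply, t2_tp_congr j (t2_wd_conj hf a)]

theorem tay_herm {f : CF (n + n)} (hf : Sm p f) (hr : ∀ᶠ x in 𝓝 p, (starRingEnd ℂ) (f x) = f x)
    (N : ℕ) : IsHerm (tay N f p) := by
  unfold IsHerm tay
  simp only [map_sum, map_mul, MvPolynomial.map_C, MvPolynomial.rename_C]
  refine Finset.sum_congr rfl fun j _ => ?_
  rw [t2_tp_herm j hf, t2_tp_congr j hr]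
  congr 2
  rw [map_inv₀, map_natCast]

theorem t2_tp_homog : ∀ (j : ℕ) (f : CF (n + n)) (p : E (n + n)), (tp j f p).IsHomogeneous j
  | 0, f, p => MvPolynomial.isHomogeneous_C _ _
  | j + 1, f, p => by
    simp only [tp]
    refine MvPolynomial.IsHomogeneous.sum _ _ _ fun a _ => ?_
    have := (MvPolynomial.isHomogeneous_X ℂ a).mul (t2_tp_homog j (wd a f) p)
    rwa [add_comm] at this

theorem tay_support (f : CF (n + n)) (N : ℕ) (e : Fin n ⊕ Fin n →₀ ℕ)
    (he : N < e.sum fun _ k => k) : (tay N f p).coeff e = 0 := by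
  unfold tay
  rw [MvPolynomial.coeff_sum]
  refine Finset.sum_eq_zero fun j hj => ?_
  rw [MvPolynomial.coeff_C_mul, (t2_tp_homog j f p).coeff_eq_zero, mul_zero]
  intro h
  have h2 : e.sum (fun _ k => k) = j := h
  have := Finset.mem_range.1 hj
  omega

theorem t2_tp_cont : ∀ (j : ℕ) {f : CF (n + n)}, Sm x₀ f → ∀ e : Fin n ⊕ Fin n →₀ ℕ,
    ContinuousAt (fun p => (tp j f p).coeff e) x₀
  | 0, f, hf, e => by
    classical
    simp only [tp, MvPolynomial.coeff_C]
    by_cases h : 0 = e
    · simp only [h, if_true]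
      exact hf.continuousAt
    · simp only [h, if_false]
      exact continuousAt_const
  | j + 1, f, hf, e => by
    classical
    simp only [tp, MvPolynomial.coeff_sum, MvPolynomial.coeff_X_mul']
    refine tendsto_finsetSum _ fun a _ => ?_
    by_cases h : a ∈ e.support
    · simp only [h, if_true]
      exact t2_tp_cont j (t2_sm_wd hf a) _
    · simp only [h, if_false]
      exact continuousAt_const

theorem tay_coeff_cont {f : CF (n + n)} (hf : Sm x₀ f) (N : ℕ) (e : Fin n ⊕ Fin n →₀ ℕ) :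
    ContinuousAt (fun p => (tay N f p).coeff e) x₀ := by
  unfold tay
  simp only [MvPolynomial.coeff_sum, MvPolynomial.coeff_C_mul]
  refine tendsto_finsetSum _ fun j _ => ?_
  exact continuousAt_const.mul (t2_tp_cont j hf e)



end KI
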