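import Pool.Agent.KI.TayU
import Pool.Agent.KI.Tay2
import Pool.Agent.KI.ExpanP
import Pool.Agent.KI.LeviOff
import Pool.Agent.KI.Bdd

open scoped ContDiff Topology BigOperators
open Finset Asymptotics

namespace KI
open DAng

variable {n : ℕ} {p x₀ : E (n + n)}




section posg

lemma posg_sumW_norm {A : Type*} [SeminormedAddCommGroup A] : ∀ (m : ℕ) (F : Wd → A) (G : Wd → ℝ),
    (∀ w, w.length = m → ‖F w‖ ≤ G w) → ‖sumW m F‖ ≤ sumW m G
  | 0, F, G, h => h [] rfl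
  | m + 1, F, G, h => by
    refine (norm_add_le _ _).trans (add_le_add ?_ ?_)
    · exact posg_sumW_norm m (D true F) (D true G) fun w hw => h (true :: w) (by simp [hw])
    · exact posg_sumW_norm m (D false F) (D false G) fun w hw => h (false :: w) (by simp [hw])

lemma posg_sumP_norm (m : ℕ) (F : Wd → Wd → ℂ) (G : Wd → Wd → ℝ)
    (h : ∀ u v, u.length + v.length = m → ‖F u v‖ ≤ G u v) : ‖sumP m F‖ ≤ sumP m G := by
  unfold sumP
  refine (norm_sum_le _ _).trans (Finset.sum_le_sum fun i hi => ?_)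
  rw [mem_range] at hi
  refine posg_sumW_norm i _ _ fun u hu => posg_sumW_norm (m - i) _ _ fun v hv => ?_
  exact h u v (by omega)

lemma posg_sumW_mul (c : ℝ) : ∀ (m : ℕ) (G : Wd → ℝ), sumW m (fun w => c * G w) = c * sumW m G
  | 0, _ => rfl
  | m + 1, G => by
    change sumW m (fun w => c * D true G w) + sumW m (fun w => c * D false G w) =
      c * (sumW m (D true G) + sumW m (D false G))
    rw [posg_sumW_mul c m, posg_sumW_mul c m, mul_add]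

lemma posg_sumP_mul (c : ℝ) (m : ℕ) (G : Wd → Wd → ℝ) :
    sumP m (fun u v => c * G u v) = c * sumP m G := by
  unfold sumP
  rw [Finset.mul_sum]
  refine Finset.sum_congr rfl fun i _ => ?_
  rw [← posg_sumW_mul]
  congr 1
  funext u
  rw [posg_sumW_mul]

lemma posg_sumW_O {ι : Type*} {A : Type*} [SeminormedAddCommGroup A] {l : Filter ι} {g : ι → ℝ} :
    ∀ (m : ℕ) (F : ι → Wd → A), (∀ w, (fun i => F i w) =O[l] g) →
      (fun i => sumW m (F i)) =O[l] g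
  | 0, _, h => h []
  | m + 1, F, h => by
    change (fun i => sumW m (D true (F i)) + sumW m (D false (F i))) =O[l] g
    exact (posg_sumW_O m (fun i => D true (F i)) fun w => h (true :: w)).add
      (posg_sumW_O m (fun i => D false (F i)) fun w => h (false :: w))

lemma posg_sumP_O {ι : Type*} {l : Filter ι} {g : ι → ℝ} (m : ℕ) (F : ι → Wd → Wd → ℝ)
    (h : ∀ u v, (fun i => F i u v) =O[l] g) : (fun i => sumP m (F i)) =O[l] g := by
  unfold sumP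
  refine IsBigO.fun_sum fun i _ => ?_
  exact posg_sumW_O i (fun a => fun u => sumW (m - i) (fun v => F a u v)) fun u =>
    posg_sumW_O (m - i) (fun a => fun v => F a u v) fun v => h u v

lemma posg_sumW_nonneg : ∀ (m : ℕ) (G : Wd → ℝ), (∀ w, 0 ≤ G w) → 0 ≤ sumW m G
  | 0, _, h => h []
  | m + 1, G, h => add_nonneg (posg_sumW_nonneg m _ fun w => h _) (posg_sumW_nonneg m _ fun w => h _)

lemma posg_sumP_nonneg (m : ℕ) (G : Wd → Wd → ℝ) (h : ∀ u v, 0 ≤ G u v) : 0 ≤ sumP m G :=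
  Finset.sum_nonneg fun i _ => posg_sumW_nonneg i _ fun u => posg_sumW_nonneg (m - i) _ fun v => h u v

lemma posg_bound_word (k : ℕ) (φ : Wd → ℂ) : ∃ M : ℝ, 0 ≤ M ∧ ∀ w : Wd, w.length ≤ k → ‖φ w‖ ≤ M := by
  have hfin : {w : Wd | w.length ≤ k}.Finite := List.finite_length_le Bool k
  obtain ⟨M, hM⟩ := (hfin.image fun w => ‖φ w‖).bddAbove
  refine ⟨max M 0, le_max_right _ _, fun w hw => le_trans (hM ⟨w, hw, rfl⟩) (le_max_left _ _)⟩

lemma posg_cj_length (v : Wd) : (cj v).length = v.length := by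
  unfold cj
  simp

lemma posg_pow {κ : Type*} (l : Filter κ) {a b : ℕ} (hab : b ≤ a) :
    (fun q : κ × ℝ => q.2 ^ a) =O[l ×ˢ 𝓝[>] (0 : ℝ)] fun q => q.2 ^ b := by
  have h1 : ∀ᶠ s : ℝ in 𝓝[>] (0 : ℝ), 0 < s ∧ s ≤ 1 := by
    filter_upwards [Ioc_mem_nhdsGT (zero_lt_one (α := ℝ))] with s hs using hs
  refine IsBigO.of_bound 1 ?_
  filter_upwards [h1.prod_inr l] with q hq
  rw [one_mul, norm_pow, norm_pow, Real.norm_eq_abs, abs_of_pos hq.1]
  exact pow_le_pow_of_le_one hq.1.le hq.2 hab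

lemma posg_Zc_sm (p p' : E (n + n)) (i : Fin n) : Sm p' (Zc p i) := by
  have h1 : ∀ j, Sm p' (fun x : E (n + n) => x j - p j) := fun j =>
    Filter.Eventually.of_forall fun x =>
      ((contDiff_apply ℝ ℝ j).sub contDiff_const).contDiffAt
  exact (h1 _).ofReal.add ((Sm.const _).mul (h1 _).ofReal)

lemma posg_Zc_self (p : E (n + n)) (i : Fin n) : Zc p i p = 0 := by
  simp [Zc]

lemma posg_wd_sm {f : CF (n + n)} (hf : Sm x₀ f) (a : Fin n ⊕ Fin n) : Sm x₀ (wd a f) := by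
  rcases a with i | i
  · exact (Sm.const _).mul ((hf.pd _).sub ((Sm.const _).mul (hf.pd _)))
  · exact (Sm.const _).mul ((hf.pd _).add ((Sm.const _).mul (hf.pd _)))

lemma posg_shift (p x : E (n + n)) (u : Fin n → ℂ) : dist (shift p u) x ≤ dist p x + ‖u‖ := by
  rw [dist_pi_le_iff (by positivity)]
  intro j
  have h1 : dist (p j) (x j) ≤ dist p x := dist_le_pi_dist p x j
  have h2 : |(Fin.addCases (fun i => (u i).re) (fun i => (u i).im) j : ℝ)| ≤ ‖u‖ := by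
    refine Fin.addCases (fun i => ?_) (fun i => ?_) j
    · rw [Fin.addCases_left]
      exact (Complex.abs_re_le_norm _).trans (norm_le_pi_norm u i)
    · rw [Fin.addCases_right]
      exact (Complex.abs_im_le_norm _).trans (norm_le_pi_norm u i)
  rw [Real.dist_eq] at h1 ⊢
  unfold shift
  have h3 : p j + (Fin.addCases (fun i => (u i).re) (fun i => (u i).im) j : ℝ) - x j =
      (p j - x j) + (Fin.addCases (fun i => (u i).re) (fun i => (u i).im) j : ℝ) := by ring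
  rw [h3]
  exact (abs_add_le _ _).trans (add_le_add h1 h2)

lemma posg_jet_O {κ : Type*} (l : Filter κ) {L : CVF (n + n)} (p : κ → E (n + n))
    (hb : ∀ w j, (fun i => op L w (Zc (p i) j) (p i)) =O[l] fun _ => (1 : ℝ)) (k : ℕ)
    (φ : Wd → ℂ) :
    (fun q : κ × ℝ => jet (p q.1) L (Zc (p q.1)) k φ q.2) =O[l ×ˢ 𝓝[>] (0 : ℝ)]
      fun q => q.2 := by
  rw [isBigO_pi]
  intro i
  unfold jet
  refine IsBigO.fun_sum fun j _ => ?_
  rcases Nat.eq_zero_or_pos j with rfl | hj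
  · have h0 : (fun q : κ × ℝ => (q.2 : ℂ) ^ 0 *
        sumW 0 (fun w => op L w (Zc (p q.1) i) (p q.1) * φ w)) = fun _ => 0 := by
      funext q
      change (q.2 : ℂ) ^ 0 * (Zc (p q.1) i (p q.1) * φ []) = 0
      rw [posg_Zc_self]
      simp
    rw [h0]
    exact isBigO_zero _ _
  · have h1 : (fun q : κ × ℝ => sumW j (fun w => op L w (Zc (p q.1) i) (p q.1) * φ w))
        =O[l ×ˢ 𝓝[>] (0 : ℝ)] fun _ => (1 : ℝ) := by
      refine posg_sumW_O j (fun q : κ × ℝ => fun w => op L w (Zc (p q.1) i) (p q.1) * φ w)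
        fun w => ?_
      have h2 : (fun q : κ × ℝ => op L w (Zc (p q.1) i) (p q.1)) =O[l ×ˢ 𝓝[>] (0 : ℝ)]
          fun _ => (1 : ℝ) := (hb w i).comp_tendsto Filter.tendsto_fst
      have h2' : (fun _ : κ × ℝ => φ w) =O[l ×ˢ 𝓝[>] (0 : ℝ)] fun _ => (1 : ℝ) :=
        isBigO_const_const _ one_ne_zero _
      have h3 := h2.mul h2'
      simpa only [mul_one] using h3
    have h4 : (fun q : κ × ℝ => (q.2 : ℂ) ^ j) =O[l ×ˢ 𝓝[>] (0 : ℝ)] fun q => q.2 := by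
      have h5 := posg_pow l (a := j) (b := 1) hj
      simp only [pow_one] at h5
      refine IsBigO.trans ?_ h5
      refine IsBigO.of_bound 1 (Filter.Eventually.of_forall fun q => ?_)
      simp
    have h6 := h4.mul h1
    simpa only [mul_one] using h6

lemma posg_tay_O {κ : Type*} (l : Filter κ) {f : CF (n + n)} (hf : Sm x₀ f) (p : κ → E (n + n))
    (hp : Filter.Tendsto p l (𝓝 x₀)) (u : κ × ℝ → Fin n → ℂ)
    (hu : u =O[l ×ˢ 𝓝[>] (0 : ℝ)] fun q => q.2) {M k : ℕ} (hk : k ≤ M) :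
    (fun q : κ × ℝ => f (shift (p q.1) (u q)) - peval (tay M f (p q.1)) (u q))
      =O[l ×ˢ 𝓝[>] (0 : ℝ)] fun q => q.2 ^ (k + 1) := by
  obtain ⟨C, hC, ε, hε, H⟩ := tay_unif hf M
  have hs : Filter.Tendsto (fun q : κ × ℝ => q.2) (l ×ˢ 𝓝[>] (0 : ℝ)) (𝓝 0) :=
    (Filter.tendsto_snd.mono_right nhdsWithin_le_nhds)
  have hu0 : Filter.Tendsto u (l ×ˢ 𝓝[>] (0 : ℝ)) (𝓝 0) := hu.trans_tendsto hs
  have h1 : ∀ᶠ q in l ×ˢ 𝓝[>] (0 : ℝ), ‖u q‖ < ε := by
    have := hu0.norm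
    rw [norm_zero] at this
    exact this.eventually (gt_mem_nhds hε)
  have h2 : ∀ᶠ q : κ × ℝ in l ×ˢ 𝓝[>] (0 : ℝ), dist (p q.1) x₀ < ε :=
    ((hp.comp Filter.tendsto_fst).eventually (Metric.ball_mem_nhds x₀ hε))
  have h3 : (fun q : κ × ℝ => f (shift (p q.1) (u q)) - peval (tay M f (p q.1)) (u q))
      =O[l ×ˢ 𝓝[>] (0 : ℝ)] fun q => ‖u q‖ ^ (M + 1) := by
    refine IsBigO.of_bound C ?_
    filter_upwards [h1, h2] with q h1 h2
    rw [Real.norm_eq_abs, abs_of_nonneg (by positivity : (0 : ℝ) ≤ ‖u q‖ ^ (M + 1))]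
    exact H (p q.1) (u q) h2 h1
  have h4 : (fun q : κ × ℝ => ‖u q‖ ^ (M + 1)) =O[l ×ˢ 𝓝[>] (0 : ℝ)] fun q => q.2 ^ (M + 1) :=
    hu.norm_left.pow (M + 1)
  exact (h3.trans h4).trans (posg_pow l (by omega))

lemma posg_term {κ : Type*} (l : Filter κ) (R : κ → Wd → Wd → ℂ) (j k : ℕ) (hj : j ≤ k)
    (α β : Wd → ℂ) :
    (fun q : κ × ℝ => (q.2 : ℂ) ^ j * sumP j (fun u v => R q.1 u v * α u *
      (starRingEnd ℂ) (β (cj v)))) =O[l ×ˢ 𝓝[>] (0 : ℝ)]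
      fun q => q.2 ^ j * sumP j (fun u v => ‖R q.1 u v‖) := by
  obtain ⟨A, hA0, hA⟩ := posg_bound_word k α
  obtain ⟨B, hB0, hB⟩ := posg_bound_word k β
  refine IsBigO.of_bound (A * B) (Filter.Eventually.of_forall fun q => ?_)
  have h1 : ‖sumP j (fun u v => R q.1 u v * α u * (starRingEnd ℂ) (β (cj v)))‖ ≤
      (A * B) * sumP j (fun u v => ‖R q.1 u v‖) := by
    rw [← posg_sumP_mul]
    refine posg_sumP_norm j _ _ fun u v huv => ?_
    rw [norm_mul, norm_mul, RCLike.norm_conj]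
    have h2 := hA u (by omega)
    have h3 := hB (cj v) (by rw [posg_cj_length]; omega)
    calc ‖R q.1 u v‖ * ‖α u‖ * ‖β (cj v)‖ ≤ ‖R q.1 u v‖ * A * B := by gcongr
      _ = A * B * ‖R q.1 u v‖ := by ring
  have h4 : 0 ≤ sumP j (fun u v => ‖R q.1 u v‖) := posg_sumP_nonneg _ _ fun _ _ => norm_nonneg _
  rw [norm_mul, norm_mul, norm_pow, norm_pow, Complex.norm_real, Real.norm_eq_abs (sumP j _),
    abs_of_nonneg h4]
  calc ‖q.2‖ ^ j * ‖sumP j (fun u v => R q.1 u v * α u * (starRingEnd ℂ) (β (cj v)))‖ ≤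
      ‖q.2‖ ^ j * ((A * B) * sumP j (fun u v => ‖R q.1 u v‖)) := by gcongr
    _ = _ := by ring

lemma posg_main {κ : Type*} (l : Filter κ) (R : κ → Wd → Wd → ℂ) (k : ℕ) (α β : Wd → ℂ)
    (W : κ × ℝ → ℂ)
    (h1 : (fun q : κ × ℝ => W q - ∑ j ∈ range (k + 1), (q.2 : ℂ) ^ j * sumP j (fun u v =>
      R q.1 u v * α u * (starRingEnd ℂ) (β (cj v)))) =O[l ×ˢ 𝓝[>] (0 : ℝ)]
        fun q => q.2 ^ (k + 1)) :
    (fun q : κ × ℝ => W q - (q.2 : ℂ) ^ k * sumP k (fun u v =>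
      R q.1 u v * α u * (starRingEnd ℂ) (β (cj v)))) =O[l ×ˢ 𝓝[>] (0 : ℝ)]
        fun q => q.2 ^ (k + 1) + ∑ j ∈ range k, q.2 ^ j * sumP j (fun u v => ‖R q.1 u v‖) := by
  have hs : ∀ᶠ q : κ × ℝ in l ×ˢ 𝓝[>] (0 : ℝ), 0 < q.2 := by
    have : ∀ᶠ s : ℝ in 𝓝[>] (0 : ℝ), 0 < s := eventually_mem_nhdsWithin
    exact this.prod_inr l
  have hρ : ∀ (j : ℕ) (q : κ × ℝ), 0 ≤ sumP j (fun u v => ‖R q.1 u v‖) := fun j q =>
    posg_sumP_nonneg _ _ fun _ _ => norm_nonneg _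
  have hS1 : ∀ q : κ × ℝ, 0 < q.2 →
      0 ≤ ∑ j ∈ range k, q.2 ^ j * sumP j (fun u v => ‖R q.1 u v‖) := fun q hq =>
    Finset.sum_nonneg fun j _ => mul_nonneg (by positivity) (hρ j q)
  have e : (fun q : κ × ℝ => W q - (q.2 : ℂ) ^ k * sumP k (fun u v =>
      R q.1 u v * α u * (starRingEnd ℂ) (β (cj v)))) = fun q =>
      (W q - ∑ j ∈ range (k + 1), (q.2 : ℂ) ^ j * sumP j (fun u v =>
      R q.1 u v * α u * (starRingEnd ℂ) (β (cj v)))) +
      ∑ j ∈ range k, (q.2 : ℂ) ^ j * sumP j (fun u v =>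
      R q.1 u v * α u * (starRingEnd ℂ) (β (cj v))) := by
    funext q
    rw [Finset.sum_range_succ]
    ring
  rw [e]
  refine IsBigO.add (h1.trans ?_) (IsBigO.fun_sum fun j hj => ?_)
  · refine IsBigO.of_bound 1 ?_
    filter_upwards [hs] with q hq
    rw [one_mul, Real.norm_eq_abs, Real.norm_eq_abs, abs_of_nonneg (by positivity),
      abs_of_nonneg (add_nonneg (by positivity) (hS1 q hq))]
    linarith [hS1 q hq]
  · rw [mem_range] at hj
    refine (posg_term l R j k hj.le α β).trans ?_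
    refine IsBigO.of_bound 1 ?_
    filter_upwards [hs] with q hq
    have h2 : q.2 ^ j * sumP j (fun u v => ‖R q.1 u v‖) ≤
        ∑ j ∈ range k, q.2 ^ j * sumP j (fun u v => ‖R q.1 u v‖) :=
      Finset.single_le_sum (f := fun j => q.2 ^ j * sumP j (fun u v => ‖R q.1 u v‖))
        (fun j _ => mul_nonneg (by positivity) (hρ j q)) (mem_range.2 hj)
    have h3 : 0 < q.2 ^ (k + 1) := by positivity
    rw [one_mul, Real.norm_eq_abs, Real.norm_eq_abs,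
      abs_of_nonneg (mul_nonneg (by positivity) (hρ j q)),
      abs_of_nonneg (add_nonneg h3.le (hS1 q hq))]
    linarith

lemma posg_main2 {κ : Type*} (l : Filter κ) (R : κ → Wd → Wd → ℂ) (k : ℕ) (α β : Wd → ℂ)
    (hR : ∀ u v, (fun i => ‖R i u v‖) =O[l] fun _ => (1 : ℝ)) (W : κ × ℝ → ℂ)
    (h1 : (fun q : κ × ℝ => W q - ∑ j ∈ range (k + 1), (q.2 : ℂ) ^ j * sumP j (fun u v =>
      R q.1 u v * α u * (starRingEnd ℂ) (β (cj v)))) =O[l ×ˢ 𝓝[>] (0 : ℝ)]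
        fun q => q.2 ^ (k + 1)) :
    W =O[l ×ˢ 𝓝[>] (0 : ℝ)]
        fun q => q.2 ^ k + ∑ j ∈ range k, q.2 ^ j * sumP j (fun u v => ‖R q.1 u v‖) := by
  have hs : ∀ᶠ q : κ × ℝ in l ×ˢ 𝓝[>] (0 : ℝ), 0 < q.2 ∧ q.2 ≤ 1 := by
    have : ∀ᶠ s : ℝ in 𝓝[>] (0 : ℝ), 0 < s ∧ s ≤ 1 := by
      filter_upwards [Ioc_mem_nhdsGT (zero_lt_one (α := ℝ))] with s hs using hs
    exact this.prod_inr l
  have hρ : ∀ (j : ℕ) (q : κ × ℝ), 0 ≤ sumP j (fun u v => ‖R q.1 u v‖) := fun j q =>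
    posg_sumP_nonneg _ _ fun _ _ => norm_nonneg _
  have hS1 : ∀ q : κ × ℝ, 0 < q.2 →
      0 ≤ ∑ j ∈ range k, q.2 ^ j * sumP j (fun u v => ‖R q.1 u v‖) := fun q hq =>
    Finset.sum_nonneg fun j _ => mul_nonneg (by positivity) (hρ j q)
  have e : W = fun q => (W q - (q.2 : ℂ) ^ k * sumP k (fun u v =>
      R q.1 u v * α u * (starRingEnd ℂ) (β (cj v)))) + (q.2 : ℂ) ^ k * sumP k (fun u v =>
      R q.1 u v * α u * (starRingEnd ℂ) (β (cj v))) := by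
    funext q
    ring
  rw [e]
  refine IsBigO.add ((posg_main l R k α β W h1).trans ?_)
    ((posg_term l R k k le_rfl α β).trans ?_)
  · refine IsBigO.of_bound 1 ?_
    filter_upwards [hs] with q hq
    have h2 : q.2 ^ (k + 1) ≤ q.2 ^ k := pow_le_pow_of_le_one hq.1.le hq.2 (by omega)
    have h3 : 0 < q.2 ^ (k + 1) := by have := hq.1; positivity
    have h4 := hS1 q hq.1
    rw [one_mul, Real.norm_eq_abs, Real.norm_eq_abs, abs_of_nonneg (by linarith),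
      abs_of_nonneg (by linarith)]
    linarith
  · have h5 : (fun q : κ × ℝ => sumP k (fun u v => ‖R q.1 u v‖)) =O[l ×ˢ 𝓝[>] (0 : ℝ)]
        fun _ => (1 : ℝ) := by
      refine posg_sumP_O k (fun q : κ × ℝ => fun u v => ‖R q.1 u v‖) fun u v => ?_
      exact (hR u v).comp_tendsto Filter.tendsto_fst
    have h6 := (isBigO_refl (fun q : κ × ℝ => q.2 ^ k) (l ×ˢ 𝓝[>] (0 : ℝ))).mul h5
    simp only [mul_one] at h6
    refine h6.trans (IsBigO.of_bound 1 ?_)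
    filter_upwards [hs] with q hq
    have h4 := hS1 q hq.1
    have h3 : 0 < q.2 ^ k := by have := hq.1; positivity
    rw [one_mul, Real.norm_eq_abs, Real.norm_eq_abs, abs_of_nonneg h3.le,
      abs_of_nonneg (by linarith)]
    linarith

end posg

/-- positivity with errors (JDG) -/
theorem positivity' {κ : Type*} (l : Filter κ) {r : CF (n + n)} (h : DefFn r x₀)
    {L : CVF (n + n)} (hL : FieldHyp r x₀ L) (p : κ → E (n + n))
    (hp : Filter.Tendsto p l (𝓝 x₀)) (N k : ℕ) (hk : k + 3 ≤ N) (φ ψ : Wd → ℂ)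
    (hφ : IsChar k φ) (hψ : IsDer k φ ψ) :
    ∃ C : ℝ, ∀ᶠ q in l ×ˢ 𝓝[>] (0 : ℝ),
      -(C * (q.2 ^ (k + 1) + ∑ j ∈ range k, q.2 ^ j * sumP j (fun u v => ‖Rr N r L (p q.1) u v‖))) ≤
        q.2 ^ k * (sumP k fun u v => Rr N r L (p q.1) u v * ψ u *
          (starRingEnd ℂ) (ψ (cj v))).re := by
  classical
  obtain ⟨M, rfl⟩ : ∃ M, N = M + 2 := ⟨N - 2, by omega⟩
  have hkM : k + 1 ≤ M := by omega
  obtain ⟨hb1, hb2, -⟩ := bdd_facts h.sm hL.sm (M + 2)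
  have hbZ : ∀ w j, (fun i => op L w (Zc (p i) j) (p i)) =O[l] fun _ => (1 : ℝ) := by
    intro w j
    obtain ⟨C, hC⟩ := hb1 w j
    refine IsBigO.of_bound C ?_
    filter_upwards [hp.eventually hC] with i hi
    simpa using hi
  have hbR : ∀ u v, (fun i => ‖Rr (M + 2) r L (p i) u v‖) =O[l] fun _ => (1 : ℝ) := by
    intro u v
    obtain ⟨C, hC⟩ := hb2 u v
    refine IsBigO.of_bound C ?_
    filter_upwards [hp.eventually hC] with i hi
    simpa using hi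
  have hLs : ∀ᶠ i in l, Sm (p i) L := hp.eventually (Filter.Eventually.eventually_nhds hL.sm)
  have hZs : ∀ᶠ i in l, ∀ j, Sm (p i) (Zc (p i) j) :=
    Filter.Eventually.of_forall fun i j => posg_Zc_sm (p i) (p i) j
  have hS : ∀ᶠ i in l, (tay (M + 2) r (p i)).support ⊆
      Finset.Icc 0 (Finsupp.equivFunOnFinite.symm (fun _ : Fin n ⊕ Fin n => M + 2)) := by
    refine Filter.Eventually.of_forall fun i => ?_
    intro e he
    rw [MvPolynomial.mem_support_iff] at he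
    rw [Finset.mem_Icc]
    refine ⟨zero_le, fun a => ?_⟩
    have h1 : ¬ (M + 2 < e.sum fun _ k => k) := fun hc => he (tay_support r (M + 2) e hc)
    have h2 : e a ≤ e.sum fun _ k => k := by
      rw [Finsupp.sum_fintype _ _ (fun _ => rfl)]
      exact Finset.single_le_sum (f := fun a => e a) (fun _ _ => Nat.zero_le _) (Finset.mem_univ a)
    simp only [Finsupp.equivFunOnFinite_symm_apply_apply]
    omega
  have hP : ∀ e, (fun i => (tay (M + 2) r (p i)).coeff e) =O[l] fun _ => (1 : ℝ) := by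
    intro e
    have h1 : Filter.Tendsto (fun i => (tay (M + 2) r (p i)).coeff e) l
        (𝓝 ((tay (M + 2) r x₀).coeff e)) := (tay_coeff_cont h.sm (M + 2) e).tendsto.comp hp
    exact h1.isBigO_one ℝ
  obtain ⟨x0, x1, x2⟩ := expansion' l L p (fun i => Zc (p i)) (fun i => tay (M + 2) r (p i)) hLs hZs
    hbZ _ hS hP k φ ψ hφ hψ
  have hu := posg_jet_O l p hbZ k φ
  have hv := posg_jet_O l p hbZ k ψ
  set u : κ × ℝ → Fin n → ℂ := fun q => jet (p q.1) L (Zc (p q.1)) k φ q.2 with hudef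
  set v : κ × ℝ → Fin n → ℂ := fun q => jet (p q.1) L (Zc (p q.1)) k ψ q.2 with hvdef
  have hs0 : Filter.Tendsto (fun q : κ × ℝ => q.2) (l ×ˢ 𝓝[>] (0 : ℝ)) (𝓝 0) :=
    (Filter.tendsto_snd.mono_right nhdsWithin_le_nhds)
  have hu0 : Filter.Tendsto u (l ×ˢ 𝓝[>] (0 : ℝ)) (𝓝 0) := hu.trans_tendsto hs0
  have hp' : Filter.Tendsto (fun q : κ × ℝ => p q.1) (l ×ˢ 𝓝[>] (0 : ℝ)) (𝓝 x₀) :=
    hp.comp Filter.tendsto_fst
  have hx : Filter.Tendsto (fun q : κ × ℝ => shift (p q.1) (u q)) (l ×ˢ 𝓝[>] (0 : ℝ)) (𝓝 x₀) := by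
    rw [tendsto_iff_dist_tendsto_zero]
    have h1 : Filter.Tendsto (fun q : κ × ℝ => dist (p q.1) x₀ + ‖u q‖) (l ×ˢ 𝓝[>] (0 : ℝ))
        (𝓝 0) := by
      have h2 := (tendsto_iff_dist_tendsto_zero.1 hp').add hu0.norm
      simpa using h2
    exact squeeze_zero (fun q => dist_nonneg) (fun q => posg_shift _ _ _) h1
  have t0 := posg_tay_O l h.sm p hp u hu (M := M + 2) (k := k) (by omega)
  have t1 := fun i => posg_tay_O l (posg_wd_sm h.sm (Sum.inl i)) p hp u hu (M := M + 1) (k := k)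
    (by omega)
  have t2 := fun i j => posg_tay_O l (posg_wd_sm (posg_wd_sm h.sm (Sum.inl i)) (Sum.inr j)) p hp u
    hu (M := M) (k := k) (by omega)
  have e1 : ∀ᶠ q : κ × ℝ in l ×ˢ 𝓝[>] (0 : ℝ), ∀ i,
      DAng.dz i (tay (M + 2) r (p q.1)) = tay (M + 1) (wd (Sum.inl i) r) (p q.1) := by
    filter_upwards [hp'.eventually (Filter.Eventually.eventually_nhds h.sm)] with q hq i
    exact tay_pderiv (p := p q.1) hq (M + 1) (Sum.inl i)
  have e2 : ∀ᶠ q : κ × ℝ in l ×ˢ 𝓝[>] (0 : ℝ), ∀ i j,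
      DAng.dzb j (DAng.dz i (tay (M + 2) r (p q.1))) =
        tay M (wd (Sum.inr j) (wd (Sum.inl i) r)) (p q.1) := by
    have h1 : ∀ᶠ q : κ × ℝ in l ×ˢ 𝓝[>] (0 : ℝ), ∀ i, Sm (p q.1) (wd (Sum.inl i) r) :=
      Filter.eventually_all.2 fun i =>
        hp'.eventually (Filter.Eventually.eventually_nhds (posg_wd_sm h.sm (Sum.inl i)))
    filter_upwards [e1, h1] with q hq hq1 i j
    rw [hq i]
    exact tay_pderiv (p := p q.1) (hq1 i) M (Sum.inr j)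
  have e3 : ∀ᶠ q : κ × ℝ in l ×ˢ 𝓝[>] (0 : ℝ), ∀ i j,
      wd (Sum.inl i) (wd (Sum.inr j) r) (shift (p q.1) (u q)) =
        wd (Sum.inr j) (wd (Sum.inl i) r) (shift (p q.1) (u q)) :=
    Filter.eventually_all.2 fun i => Filter.eventually_all.2 fun j =>
      hx.eventually (wd_comm h.sm (Sum.inl i) (Sum.inr j))
  -- components of v
  have hvi : ∀ i, (fun q => v q i) =O[l ×ˢ 𝓝[>] (0 : ℝ)] fun q => q.2 := isBigO_pi.1 hv
  have hvi1 : ∀ i, (fun q => v q i) =O[l ×ˢ 𝓝[>] (0 : ℝ)] fun _ => (1 : ℝ) := fun i =>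
    (hvi i).trans (by simpa using posg_pow l (a := 1) (b := 0) (by omega))
  have hvc1 : ∀ i, (fun q => (starRingEnd ℂ) (v q i)) =O[l ×ˢ 𝓝[>] (0 : ℝ)] fun _ => (1 : ℝ) := by
    intro i
    refine IsBigO.trans ?_ (hvi1 i)
    refine IsBigO.of_bound 1 (Filter.Eventually.of_forall fun q => ?_)
    simp
  -- value of r
  have y0 : (fun q : κ × ℝ => r (shift (p q.1) (u q)) -
      ∑ j ∈ range (k + 1), (q.2 : ℂ) ^ j * sumP j (fun u v =>
          Rr (M + 2) r L (p q.1) u v * φ u * (starRingEnd ℂ) (φ (cj v))))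
      =O[l ×ˢ 𝓝[>] (0 : ℝ)] fun q : κ × ℝ => q.2 ^ (k + 1) := by
    refine (t0.add x0).congr_left fun q => ?_
    simp only [Rr, hudef]
    ring
  have y1 : (fun q : κ × ℝ => delv r (shift (p q.1) (u q)) (v q) -
      ∑ j ∈ range (k + 1), (q.2 : ℂ) ^ j * sumP j (fun u v =>
          Rr (M + 2) r L (p q.1) u v * ψ u * (starRingEnd ℂ) (φ (cj v))))
      =O[l ×ˢ 𝓝[>] (0 : ℝ)] fun q : κ × ℝ => q.2 ^ (k + 1) := by
    have h1 : (fun q : κ × ℝ => ∑ i, (wd (Sum.inl i) r (shift (p q.1) (u q)) -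
        peval (tay (M + 1) (wd (Sum.inl i) r) (p q.1)) (u q)) * v q i)
        =O[l ×ˢ 𝓝[>] (0 : ℝ)] fun q : κ × ℝ => q.2 ^ (k + 1) := by
      refine IsBigO.fun_sum fun i _ => ?_
      simpa only [mul_one] using (t1 i).mul (hvi1 i)
    refine (h1.add x1).congr' ?_ (Filter.EventuallyEq.refl _ _)
    filter_upwards [e1] with q hq
    simp only [Rr, delv, hq, sub_mul, Finset.sum_sub_distrib, hudef, hvdef]
    ring
  have y2 : (fun q : κ × ℝ => lev r (shift (p q.1) (u q)) (v q) -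
      ∑ j ∈ range (k + 1), (q.2 : ℂ) ^ j * sumP j (fun u v =>
          Rr (M + 2) r L (p q.1) u v * ψ u * (starRingEnd ℂ) (ψ (cj v))))
      =O[l ×ˢ 𝓝[>] (0 : ℝ)] fun q : κ × ℝ => q.2 ^ (k + 1) := by
    have h1 : (fun q : κ × ℝ => ∑ i, ∑ j,
        (wd (Sum.inr j) (wd (Sum.inl i) r) (shift (p q.1) (u q)) -
        peval (tay M (wd (Sum.inr j) (wd (Sum.inl i) r)) (p q.1)) (u q)) * v q i *
          (starRingEnd ℂ) (v q j))
        =O[l ×ˢ 𝓝[>] (0 : ℝ)] fun q : κ × ℝ => q.2 ^ (k + 1) := by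
      refine IsBigO.fun_sum fun i _ => IsBigO.fun_sum fun j _ => ?_
      simpa only [mul_one] using ((t2 i j).mul (hvi1 i)).mul (hvc1 j)
    refine (h1.add x2).congr' ?_ (Filter.EventuallyEq.refl _ _)
    filter_upwards [e2, e3] with q hq hq3
    simp only [lev, hq3]
    simp only [Rr, hq, sub_mul, Finset.sum_sub_distrib, hudef, hvdef]
    ring
  have z0 := posg_main2 l (fun i => Rr (M + 2) r L (p i)) k φ φ hbR _ y0
  have z1 := posg_main2 l (fun i => Rr (M + 2) r L (p i)) k ψ φ hbR _ y1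
  have z2 := posg_main l (fun i => Rr (M + 2) r L (p i)) k ψ ψ _ y2
  obtain ⟨C0, hC0, hoff⟩ := levi_off h
  obtain ⟨c1, hc1, b1⟩ := z0.exists_nonneg
  obtain ⟨c2, hc2, b2⟩ := z1.exists_nonneg
  obtain ⟨c3, hc3, b3⟩ := hv.exists_nonneg
  obtain ⟨c4, hc4, b4⟩ := z2.exists_nonneg
  refine ⟨C0 * (c1 * c3 ^ 2 + c2 * c3) + c4, ?_⟩
  have hs : ∀ᶠ q : κ × ℝ in l ×ˢ 𝓝[>] (0 : ℝ), 0 < q.2 ∧ q.2 ≤ 1 := by
    have : ∀ᶠ s : ℝ in 𝓝[>] (0 : ℝ), 0 < s ∧ s ≤ 1 := by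
      filter_upwards [Ioc_mem_nhdsGT (zero_lt_one (α := ℝ))] with s hs using hs
    exact this.prod_inr l
  filter_upwards [hs, hx.eventually hoff, b1.bound, b2.bound, b3.bound, b4.bound] with
    q ⟨hq0, hq1⟩ hq2 hq3 hq4 hq5 hq6
  have hlev := hq2 (v q)
  set S1 := ∑ j ∈ range k, q.2 ^ j * sumP j (fun u v => ‖Rr (M + 2) r L (p q.1) u v‖) with hS1def
  have hS1 : 0 ≤ S1 := Finset.sum_nonneg fun j _ => mul_nonneg (by positivity)
    (posg_sumP_nonneg _ _ fun _ _ => norm_nonneg _)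
  have hsk : 0 < q.2 ^ k := by positivity
  have hsk1 : q.2 ^ (k + 1) = q.2 ^ k * q.2 := pow_succ _ _
  have hB : ‖q.2 ^ k + S1‖ = q.2 ^ k + S1 := by
    rw [Real.norm_eq_abs, abs_of_nonneg (by linarith)]
  have hB' : ‖q.2 ^ (k + 1) + S1‖ = q.2 ^ (k + 1) + S1 := by
    rw [Real.norm_eq_abs, abs_of_nonneg (by positivity)]
  have hns : ‖q.2‖ = q.2 := by rw [Real.norm_eq_abs, abs_of_pos hq0]
  rw [hB] at hq3 hq4
  rw [hns] at hq5
  rw [hB'] at hq6
  have hre := (Complex.abs_re_le_norm _).trans hq6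
  have hre2 : (lev r (shift (p q.1) (u q)) (v q) - (q.2 : ℂ) ^ k * sumP k (fun u v =>
      Rr (M + 2) r L (p q.1) u v * ψ u * (starRingEnd ℂ) (ψ (cj v)))).re =
      (lev r (shift (p q.1) (u q)) (v q)).re - q.2 ^ k * (sumP k (fun u v =>
      Rr (M + 2) r L (p q.1) u v * ψ u * (starRingEnd ℂ) (ψ (cj v)))).re := by
    rw [Complex.sub_re, ← Complex.ofReal_pow, Complex.re_ofReal_mul]
  rw [hre2] at hre
  have hre3 := (abs_le.1 hre).2
  have hkey : ‖r (shift (p q.1) (u q))‖ * ‖v q‖ ^ 2 + ‖delv r (shift (p q.1) (u q)) (v q)‖ * ‖v q‖ ≤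
      (c1 * c3 ^ 2 + c2 * c3) * (q.2 ^ (k + 1) + S1) := by
    have g1 : (q.2 ^ k + S1) * q.2 ≤ q.2 ^ (k + 1) + S1 := by
      rw [hsk1]
      nlinarith
    have g2 : (q.2 ^ k + S1) * q.2 ^ 2 ≤ q.2 ^ (k + 1) + S1 := by
      have g3 : q.2 ^ 2 ≤ q.2 := by nlinarith
      have g4 : 0 ≤ q.2 ^ k + S1 := by linarith
      nlinarith
    have g5 : ‖r (shift (p q.1) (u q))‖ * ‖v q‖ ^ 2 ≤ (c1 * (q.2 ^ k + S1)) * (c3 * q.2) ^ 2 := by
      gcongr
    have g6 : ‖delv r (shift (p q.1) (u q)) (v q)‖ * ‖v q‖ ≤ (c2 * (q.2 ^ k + S1)) * (c3 * q.2) := by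
      gcongr
    calc _ ≤ (c1 * (q.2 ^ k + S1)) * (c3 * q.2) ^ 2 + (c2 * (q.2 ^ k + S1)) * (c3 * q.2) :=
          add_le_add g5 g6
      _ = c1 * c3 ^ 2 * ((q.2 ^ k + S1) * q.2 ^ 2) + c2 * c3 * ((q.2 ^ k + S1) * q.2) := by ring
      _ ≤ c1 * c3 ^ 2 * (q.2 ^ (k + 1) + S1) + c2 * c3 * (q.2 ^ (k + 1) + S1) := by gcongr
      _ = _ := by ring
  have hkey2 := mul_le_mul_of_nonneg_left hkey hC0.le
  linarith



end KI
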