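import Pool.Agent.KI.Tay2

open scoped ContDiff Topology BigOperators
open Finset Asymptotics

namespace KI
open DAng

variable {n : ℕ} {p x₀ : E (n + n)}




lemma jrp_act_const_mul {d : ℕ} {X : CVF d} {f : CF d} {x : E d} (c : ℂ) (hf : DifferentiableAt ℝ f x) :
    act X (fun x => c * f x) x = c * act X f x := by
  have h := act_mul (X := X) (f := fun _ => c) (g := f) (x := x) (differentiableAt_const c) hf
  rw [h, act_const]
  ring

lemma jrp_op_const_mul {d : ℕ} {p : E d} {L : CVF d} (hL : Sm p L) (c : ℂ) : ∀ (w : Wd) {f : CF d}, Sm p f →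
    op L w (fun x => c * f x) =ᶠ[𝓝 p] fun x => c * op L w f x
  | [], _, _ => Filter.EventuallyEq.refl _ _
  | a :: w, f, hf => by
    have h1 : act (LX L a) (fun x => c * f x) =ᶠ[𝓝 p] fun x => c * act (LX L a) f x := by
      filter_upwards [hf.differentiableAt] with x h1
      exact jrp_act_const_mul c h1
    exact (op_congr w h1).trans (jrp_op_const_mul hL c w ((hL.LX a).act hf))

lemma jrp_op_zero {d : ℕ} {p : E d} {L : CVF d} (hL : Sm p L) (w : Wd) :
    op L w (fun _ => (0 : ℂ)) p = 0 :=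
  Van.op_apply hL (m := w.length + 1) Van.zero (Nat.lt_succ_self _)

lemma jrp_op_sum {d : ℕ} {p : E d} {L : CVF d} (hL : Sm p L) (w : Wd) {ι : Type*} (s : Finset ι)
    (f : ι → CF d) (h : ∀ i ∈ s, Sm p (f i)) :
    op L w (fun x => ∑ i ∈ s, f i x) p = ∑ i ∈ s, op L w (f i) p := by
  classical
  induction s using Finset.induction_on with
  | empty =>
    simp only [Finset.sum_empty]
    exact jrp_op_zero hL w
  | insert a s ha ih =>
    have h1 := h a (by simp)
    have h2 := ih (fun i hi => h i (by simp [hi]))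
    rw [Finset.sum_insert ha, ← h2]
    have e : (fun x => ∑ i ∈ insert a s, f i x) = fun x => f a x + ∑ i ∈ s, f i x := by
      funext x; rw [Finset.sum_insert ha]
    rw [e]
    exact (op_add hL w h1 (Sm.sum (fun i hi => h i (by simp [hi])))).self_of_nhds

lemma jrp_unsh_sum {ι : Type*} (s : Finset ι) (c : ι → ℂ) : ∀ (w : Wd) (a b : ι → Wd → ℂ),
    unsh (fun u v => ∑ e ∈ s, c e * a e u * b e v) w = ∑ e ∈ s, c e * unsh (fun u v => a e u * b e v) w
  | [], a, b => by
    simp only [unsh, mul_assoc]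
  | x :: w, a, b => by
    have h1 := jrp_unsh_sum s c w (fun e u => a e (x :: u)) b
    have h2 := jrp_unsh_sum s c w a (fun e v => b e (x :: v))
    simp only [unsh]
    have e1 : DU x (fun u v => ∑ e ∈ s, c e * a e u * b e v) = fun u v => ∑ e ∈ s, c e * a e (x :: u) * b e v := rfl
    have e2 : DV x (fun u v => ∑ e ∈ s, c e * a e u * b e v) = fun u v => ∑ e ∈ s, c e * a e u * b e (x :: v) := rfl
    rw [e1, e2, h1, h2, ← Finset.sum_add_distrib]
    refine Finset.sum_congr rfl fun e _ => ?_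
    rw [← mul_add]
    rfl

lemma jrp_unsh_op {d : ℕ} {p : E d} {L : CVF d} (hL : Sm p L) {ι : Type*} (s : Finset ι) (c : ι → ℂ)
    (f g : ι → CF d) (hf : ∀ i, Sm p (f i)) (hg : ∀ i, Sm p (g i)) (w : Wd) :
    unsh (fun u v => ∑ e ∈ s, c e * op L u (f e) p * op L v (g e) p) w =
      op L w (fun x => ∑ e ∈ s, c e * (f e x * g e x)) p := by
  rw [jrp_unsh_sum s c w (fun e u => op L u (f e) p) (fun e v => op L v (g e) p)]
  rw [jrp_op_sum hL w s (fun e x => c e * (f e x * g e x)) (fun i _ => (Sm.const (c i)).mul ((hf i).mul (hg i)))]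
  refine Finset.sum_congr rfl fun e _ => ?_
  have h1 : op L w (fun x => c e * (f e x * g e x)) p = c e * op L w (fun x => f e x * g e x) p :=
    (jrp_op_const_mul hL (c e) w ((hf e).mul (hg e))).self_of_nhds
  have h2 : op L w (fun x => f e x * g e x) p = unsh (fun u v => op L u (f e) p * op L v (g e) p) w :=
    (op_mul hL w (hf e) (hg e)).self_of_nhds
  rw [h1, h2]

lemma jrp_cj_cj (L : CVF (n + n)) : cjVF (cjVF L) = L := by
  funext x i
  simp [cjVF]

lemma jrp_op_conj {L : CVF (n + n)} (hL : Sm p L) : ∀ (w : Wd) {f : CF (n + n)}, Sm p f →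
    op L (cj w) (fun x => (starRingEnd ℂ) (f x)) =ᶠ[𝓝 p] fun x => (starRingEnd ℂ) (op L w f x)
  | [], _, _ => Filter.EventuallyEq.refl _ _
  | a :: w, f, hf => by
    have h1 : act (LX L (!a)) (fun x => (starRingEnd ℂ) (f x)) =ᶠ[𝓝 p]
        fun x => (starRingEnd ℂ) (act (LX L a) f x) := by
      filter_upwards [hf.differentiableAt] with x h1
      rw [act_conj h1]
      cases a
      · rfl
      · show (starRingEnd ℂ) (act (cjVF (cjVF L)) f x) = _
        rw [jrp_cj_cj]
        rfl
    have h2 := op_congr (L := L) (cj w) h1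
    exact h2.trans (jrp_op_conj hL w ((hL.LX a).act hf))

lemma jrp_Zc_cont (p : E (n + n)) (i : Fin n) : ContDiff ℝ ∞ (Zc p i) := by
  unfold Zc
  have h1 : ContDiff ℝ ∞ (fun x : E (n + n) => (x (Fin.castAdd n i) - p (Fin.castAdd n i) : ℝ)) := by
    fun_prop
  have h2 : ContDiff ℝ ∞ (fun x : E (n + n) => (x (Fin.natAdd n i) - p (Fin.natAdd n i) : ℝ)) := by
    fun_prop
  exact (Complex.ofRealCLM.contDiff.comp h1).add (contDiff_const.mul (Complex.ofRealCLM.contDiff.comp h2))

lemma jrp_Zc_sm (p q : E (n + n)) (i : Fin n) : Sm q (Zc p i) :=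
  Filter.Eventually.of_forall fun _ => (jrp_Zc_cont p i).contDiffAt

lemma jrp_Zc_diff (p : E (n + n)) (i : Fin n) (x : E (n + n)) : DifferentiableAt ℝ (Zc p i) x :=
  (jrp_Zc_cont p i).contDiffAt.differentiableAt (by simp)

lemma jrp_pd_Zc (p : E (n + n)) (i : Fin n) (j : Fin (n + n)) (x : E (n + n)) :
    pd j (Zc p i) x = (if j = Fin.castAdd n i then 1 else 0) + Complex.I * (if j = Fin.natAdd n i then 1 else 0) := by
  unfold pd
  have h1 : HasFDerivAt (fun x : E (n + n) => ((x (Fin.castAdd n i) - p (Fin.castAdd n i) : ℝ) : ℂ))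
      (Complex.ofRealCLM.comp (ContinuousLinearMap.proj (Fin.castAdd n i) : E (n + n) →L[ℝ] ℝ)) x := by
    have := ((ContinuousLinearMap.proj (R := ℝ) (φ := fun _ : Fin (n + n) => ℝ) (Fin.castAdd n i)).hasFDerivAt (x := x)).sub_const (p (Fin.castAdd n i))
    exact (Complex.ofRealCLM.hasFDerivAt).comp x this
  have h2 : HasFDerivAt (fun x : E (n + n) => ((x (Fin.natAdd n i) - p (Fin.natAdd n i) : ℝ) : ℂ))
      (Complex.ofRealCLM.comp (ContinuousLinearMap.proj (Fin.natAdd n i) : E (n + n) →L[ℝ] ℝ)) x := by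
    have := ((ContinuousLinearMap.proj (R := ℝ) (φ := fun _ : Fin (n + n) => ℝ) (Fin.natAdd n i)).hasFDerivAt (x := x)).sub_const (p (Fin.natAdd n i))
    exact (Complex.ofRealCLM.hasFDerivAt).comp x this
  have h3 : HasFDerivAt (Zc p i) _ x := h1.add (h2.const_mul Complex.I)
  rw [h3.fderiv]
  simp only [ContinuousLinearMap.add_apply, ContinuousLinearMap.smul_apply, ContinuousLinearMap.comp_apply,
    ContinuousLinearMap.proj_apply, Pi.single_apply, smul_eq_mul]
  congr 1
  · by_cases h : j = Fin.castAdd n i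
    · subst h; simp
    · rw [if_neg h, if_neg (fun h' => h h'.symm)]; simp
  · by_cases h : j = Fin.natAdd n i
    · subst h; simp
    · rw [if_neg h, if_neg (fun h' => h h'.symm)]; simp

lemma jrp_act_Zc (X : CVF (n + n)) (p : E (n + n)) (i : Fin n) (x : E (n + n)) :
    act X (Zc p i) x = X x (Fin.castAdd n i) + Complex.I * X x (Fin.natAdd n i) := by
  unfold act
  simp only [jrp_pd_Zc, mul_add, Finset.sum_add_distrib]
  congr 1
  · simp
  · have : ∀ j, X x j * (Complex.I * (if j = Fin.natAdd n i then (1 : ℂ) else 0)) =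
        if j = Fin.natAdd n i then Complex.I * X x j else 0 := by
      intro j
      split_ifs <;> ring
    simp only [this]
    simp

lemma jrp_act_L_Zc (L : CVF (n + n)) (p : E (n + n)) (i : Fin n) (x : E (n + n)) :
    act L (Zc p i) x = cf L i x := jrp_act_Zc L p i x

lemma jrp_act_cj_Zc (L : CVF (n + n)) (hol : IsHol L) (p : E (n + n)) (i : Fin n) (x : E (n + n)) :
    act (cjVF L) (Zc p i) x = 0 := by
  rw [jrp_act_Zc]
  have h := congrArg (starRingEnd ℂ) (hol x i)
  simp only [map_sub, map_mul, Complex.conj_I, map_zero] at h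
  simp only [cjVF]
  linear_combination h

lemma jrp_act_L_cZc (L : CVF (n + n)) (hol : IsHol L) (p : E (n + n)) (i : Fin n) (x : E (n + n)) :
    act L (fun y => (starRingEnd ℂ) (Zc p i y)) x = 0 := by
  rw [act_conj (jrp_Zc_diff p i x), jrp_act_cj_Zc L hol, map_zero]

lemma jrp_act_cj_cZc (L : CVF (n + n)) (p : E (n + n)) (i : Fin n) (x : E (n + n)) :
    act (cjVF L) (fun y => (starRingEnd ℂ) (Zc p i y)) x = (starRingEnd ℂ) (cf L i x) := by
  rw [act_conj (jrp_Zc_diff p i x), jrp_cj_cj, jrp_act_L_Zc]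

lemma jrp_elim_diff (p : E (n + n)) (s : Fin n ⊕ Fin n) (x : E (n + n)) :
    DifferentiableAt ℝ (fun y => Sum.elim (fun i => Zc p i y) (fun i => (starRingEnd ℂ) (Zc p i y)) s) x := by
  cases s with
  | inl i => exact jrp_Zc_diff p i x
  | inr i => exact ((jrp_Zc_sm p x i).conj).self.differentiableAt (by simp)

lemma jrp_peval_sm (p q : E (n + n)) (Q : Pol n) : Sm q (fun x => peval Q (fun i => Zc p i x)) := by
  unfold peval
  induction Q using MvPolynomial.induction_on with
  | C a => simpa using Sm.const (p := q) a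
  | add P Q hP hQ => simpa using hP.add hQ
  | mul_X P s hP =>
    have hs : Sm q (fun x => Sum.elim (fun i => Zc p i x) (fun i => (starRingEnd ℂ) (Zc p i x)) s) := by
      cases s with
      | inl i => exact jrp_Zc_sm p q i
      | inr i => exact (jrp_Zc_sm p q i).conj
    have := hP.mul hs
    simpa using this

/-- chain rule -/
lemma jrp_act_peval (X : CVF (n + n)) (p : E (n + n)) (Q : Pol n) (x : E (n + n)) :
    act X (fun y => peval Q (fun i => Zc p i y)) x =
      ∑ s : Fin n ⊕ Fin n, peval (MvPolynomial.pderiv s Q) (fun i => Zc p i x) *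
        act X (fun y => Sum.elim (fun i => Zc p i y) (fun i => (starRingEnd ℂ) (Zc p i y)) s) x := by
  classical
  have hd : ∀ Q : Pol n, DifferentiableAt ℝ (fun y => peval Q (fun i => Zc p i y)) x := fun Q =>
    (jrp_peval_sm p x Q).self.differentiableAt (by simp)
  induction Q using MvPolynomial.induction_on with
  | C a =>
    have h1 : (fun y => peval (MvPolynomial.C a : Pol n) (fun i => Zc p i y)) = fun _ => a := by
      funext y; simp [peval]
    rw [h1, act_const]
    simp [peval]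
  | add P Q hP hQ =>
    have h1 : (fun y => peval (P + Q) (fun i => Zc p i y)) =
        fun y => peval P (fun i => Zc p i y) + peval Q (fun i => Zc p i y) := by
      funext y; simp [peval]
    rw [h1, act_add (hd P) (hd Q), hP, hQ, ← Finset.sum_add_distrib]
    refine Finset.sum_congr rfl fun s _ => ?_
    simp only [peval, map_add]
    ring
  | mul_X P t hP =>
    have h1 : (fun y => peval (P * MvPolynomial.X t) (fun i => Zc p i y)) =
        fun y => peval P (fun i => Zc p i y) *
          Sum.elim (fun i => Zc p i y) (fun i => (starRingEnd ℂ) (Zc p i y)) t := by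
      funext y; simp [peval]
    rw [h1, act_mul (hd P) (jrp_elim_diff p t x), hP, Finset.sum_mul]
    have h2 : ∀ s : Fin n ⊕ Fin n, peval (MvPolynomial.pderiv s (P * MvPolynomial.X t)) (fun i => Zc p i x) =
        peval P (fun i => Zc p i x) * (if s = t then 1 else 0) +
        peval (MvPolynomial.pderiv s P) (fun i => Zc p i x) *
          Sum.elim (fun i => Zc p i x) (fun i => (starRingEnd ℂ) (Zc p i x)) t := by
      intro s
      rw [Derivation.leibniz, MvPolynomial.pderiv_X]
      simp only [peval, smul_eq_mul, map_add, map_mul, MvPolynomial.eval_X]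
      by_cases hst : s = t
      · subst hst; simp; ring
      · rw [Pi.single_eq_of_ne (fun h => hst h.symm)]
        simp [hst]; ring
    simp only [h2, add_mul, Finset.sum_add_distrib]
    congr 1
    · simp
    · refine Finset.sum_congr rfl fun s _ => ?_
      ring

/-- left part of a monomial -/
noncomputable def jrpL (e : Fin n ⊕ Fin n →₀ ℕ) : Pol n :=
  MvPolynomial.monomial (e.filter (fun s => s.isLeft = true)) 1

/-- right part of a monomial -/
noncomputable def jrpR (e : Fin n ⊕ Fin n →₀ ℕ) : Pol n :=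
  MvPolynomial.monomial (e.filter (fun s => ¬ s.isLeft = true)) 1

lemma jrp_peval_L (e : Fin n ⊕ Fin n →₀ ℕ) (z : Fin n → ℂ) :
    peval (jrpL e) z = ∏ i, z i ^ e (Sum.inl i) := by
  unfold peval jrpL
  rw [MvPolynomial.eval_monomial, one_mul, Finsupp.prod_fintype _ _ (fun i => pow_zero _),
    Fintype.prod_sum_type]
  simp [Finsupp.filter_apply]

lemma jrp_peval_R (e : Fin n ⊕ Fin n →₀ ℕ) (z : Fin n → ℂ) :
    peval (jrpR e) z = ∏ i, (starRingEnd ℂ) (z i) ^ e (Sum.inr i) := by
  unfold peval jrpR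
  rw [MvPolynomial.eval_monomial, one_mul, Finsupp.prod_fintype _ _ (fun i => pow_zero _),
    Fintype.prod_sum_type]
  simp [Finsupp.filter_apply]

lemma jrp_mul (e : Fin n ⊕ Fin n →₀ ℕ) (c : ℂ) :
    MvPolynomial.monomial e c = MvPolynomial.C c * (jrpL e * jrpR e) := by
  unfold jrpL jrpR
  rw [MvPolynomial.monomial_mul, MvPolynomial.C_mul_monomial, Finsupp.filter_add_filter_not]
  simp

lemma jrp_dzb_L (e : Fin n ⊕ Fin n →₀ ℕ) (j : Fin n) : MvPolynomial.pderiv (Sum.inr j) (jrpL e) = 0 := by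
  unfold jrpL
  rw [MvPolynomial.pderiv_monomial]
  simp [Finsupp.filter_apply]

lemma jrp_dz_R (e : Fin n ⊕ Fin n →₀ ℕ) (j : Fin n) : MvPolynomial.pderiv (Sum.inl j) (jrpR e) = 0 := by
  unfold jrpR
  rw [MvPolynomial.pderiv_monomial]
  simp [Finsupp.filter_apply]

lemma jrp_dzb_dz_L (e : Fin n ⊕ Fin n →₀ ℕ) (i j : Fin n) :
    MvPolynomial.pderiv (Sum.inr j) (MvPolynomial.pderiv (Sum.inl i) (jrpL e)) = 0 := by
  unfold jrpL
  rw [MvPolynomial.pderiv_monomial, MvPolynomial.pderiv_monomial]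
  simp [Finsupp.filter_apply]

lemma jrp_peval_sum (P : Pol n) (z : Fin n → ℂ) :
    peval P z = ∑ e ∈ P.support, P.coeff e * ((∏ i, z i ^ e (Sum.inl i)) * ∏ i, (starRingEnd ℂ) (z i) ^ e (Sum.inr i)) := by
  unfold peval
  rw [MvPolynomial.eval_eq']
  refine Finset.sum_congr rfl fun e _ => ?_
  rw [Fintype.prod_sum_type]
  simp

lemma jrp_dd (P : Pol n) (i j : Fin n) (z : Fin n → ℂ) :
    peval (MvPolynomial.pderiv (Sum.inr j) (MvPolynomial.pderiv (Sum.inl i) P)) z =
      ∑ e ∈ P.support, P.coeff e * (peval (MvPolynomial.pderiv (Sum.inl i) (jrpL e)) z *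
        peval (MvPolynomial.pderiv (Sum.inr j) (jrpR e)) z) := by
  conv_lhs => rw [P.as_sum]
  unfold peval
  simp only [map_sum]
  refine Finset.sum_congr rfl fun e _ => ?_
  rw [jrp_mul e (P.coeff e)]
  simp only [Derivation.leibniz, MvPolynomial.pderiv_C, jrp_dz_R, smul_zero, add_zero, smul_eq_mul,
    zero_add, jrp_dzb_dz_L, mul_zero, map_mul, MvPolynomial.eval_C, map_add, jrp_dzb_L]

lemma jrp_A_sm (p q : E (n + n)) (e : Fin n ⊕ Fin n →₀ ℕ) : Sm q (fun x => ∏ i, Zc p i x ^ e (Sum.inl i)) :=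
  Sm.prod fun i _ => (jrp_Zc_sm p q i).pow _

lemma jrp_B_sm (p q : E (n + n)) (e : Fin n ⊕ Fin n →₀ ℕ) :
    Sm q (fun x => ∏ i, (starRingEnd ℂ) (Zc p i x) ^ e (Sum.inr i)) :=
  Sm.prod fun i _ => ((jrp_Zc_sm p q i).conj).pow _

lemma jrp_act_A (L : CVF (n + n)) (hol : IsHol L) (p : E (n + n)) (e : Fin n ⊕ Fin n →₀ ℕ) (x : E (n + n)) :
    act L (fun x => ∏ i, Zc p i x ^ e (Sum.inl i)) x =
      ∑ i, peval (MvPolynomial.pderiv (Sum.inl i) (jrpL e)) (fun i => Zc p i x) * cf L i x := by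
  have h := jrp_act_peval L p (jrpL e) x
  simp only [jrp_peval_L] at h
  rw [h, Fintype.sum_sum_type]
  simp only [Sum.elim_inl, Sum.elim_inr, jrp_dzb_L]
  have h2 : ∀ i, act L (fun y => Zc p i y) x = cf L i x := fun i => jrp_act_L_Zc L p i x
  simp only [h2, peval, map_zero, zero_mul, Finset.sum_const_zero, add_zero]

lemma jrp_act_B (L : CVF (n + n)) (p : E (n + n)) (e : Fin n ⊕ Fin n →₀ ℕ) (x : E (n + n)) :
    act (cjVF L) (fun x => ∏ i, (starRingEnd ℂ) (Zc p i x) ^ e (Sum.inr i)) x =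
      ∑ i, peval (MvPolynomial.pderiv (Sum.inr i) (jrpR e)) (fun i => Zc p i x) * (starRingEnd ℂ) (cf L i x) := by
  have h := jrp_act_peval (cjVF L) p (jrpR e) x
  simp only [jrp_peval_R] at h
  rw [h, Fintype.sum_sum_type]
  simp only [Sum.elim_inl, Sum.elim_inr, jrp_dz_R, jrp_act_cj_cZc]
  simp only [peval, map_zero, zero_mul, Finset.sum_const_zero, zero_add]

lemma jrp_act_A0 (L : CVF (n + n)) (hol : IsHol L) (p : E (n + n)) (e : Fin n ⊕ Fin n →₀ ℕ) (x : E (n + n)) :
    act (cjVF L) (fun x => ∏ i, Zc p i x ^ e (Sum.inl i)) x = 0 := by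
  have h := jrp_act_peval (cjVF L) p (jrpL e) x
  simp only [jrp_peval_L] at h
  rw [h, Fintype.sum_sum_type]
  simp only [Sum.elim_inl, Sum.elim_inr, jrp_dzb_L]
  have h2 : ∀ i, act (cjVF L) (fun y => Zc p i y) x = 0 := fun i => jrp_act_cj_Zc L hol p i x
  simp only [h2, peval, map_zero, zero_mul, mul_zero, Finset.sum_const_zero, add_zero]

lemma jrp_act_B0 (L : CVF (n + n)) (hol : IsHol L) (p : E (n + n)) (e : Fin n ⊕ Fin n →₀ ℕ) (x : E (n + n)) :
    act L (fun x => ∏ i, (starRingEnd ℂ) (Zc p i x) ^ e (Sum.inr i)) x = 0 := by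
  have h := jrp_act_peval L p (jrpR e) x
  simp only [jrp_peval_R] at h
  rw [h, Fintype.sum_sum_type]
  simp only [Sum.elim_inl, Sum.elim_inr, jrp_dz_R, jrp_act_L_cZc L hol]
  simp only [peval, map_zero, zero_mul, mul_zero, Finset.sum_const_zero, add_zero]

lemma jrp_wd_sm {f : CF (n + n)} (hf : Sm p f) (s : Fin n ⊕ Fin n) : Sm p (wd s f) := by
  cases s with
  | inl i => exact (Sm.const (1 / 2 : ℂ)).mul ((hf.pd _).sub ((Sm.const Complex.I).mul (hf.pd _)))
  | inr i => exact (Sm.const (1 / 2 : ℂ)).mul ((hf.pd _).add ((Sm.const Complex.I).mul (hf.pd _)))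

lemma jrp_cf_sm {L : CVF (n + n)} (hL : Sm p L) (i : Fin n) : Sm p (cf L i) :=
  (hL.comp_apply _).add ((Sm.const Complex.I).mul (hL.comp_apply _))

lemma jrp_sw_coeff (P : Pol n) (hP : IsHerm P) (e : Fin n ⊕ Fin n →₀ ℕ) :
    P.coeff (Finsupp.mapDomain Sum.swap e) = (starRingEnd ℂ) (P.coeff e) := by
  have hinj : Function.Injective (Sum.swap : Fin n ⊕ Fin n → Fin n ⊕ Fin n) := Sum.swap_leftInverse.injective
  have h := congrArg (MvPolynomial.coeff (Finsupp.mapDomain Sum.swap e)) hP
  rw [MvPolynomial.coeff_rename_mapDomain _ hinj, MvPolynomial.coeff_map] at h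
  exact h.symm

lemma jrp_sw_inl (e : Fin n ⊕ Fin n →₀ ℕ) (i : Fin n) :
    (Finsupp.mapDomain Sum.swap e) (Sum.inl i) = e (Sum.inr i) := by
  have hinj : Function.Injective (Sum.swap : Fin n ⊕ Fin n → Fin n ⊕ Fin n) := Sum.swap_leftInverse.injective
  exact Finsupp.mapDomain_apply hinj e (Sum.inr i)

lemma jrp_sw_inr (e : Fin n ⊕ Fin n →₀ ℕ) (i : Fin n) :
    (Finsupp.mapDomain Sum.swap e) (Sum.inr i) = e (Sum.inl i) := by
  have hinj : Function.Injective (Sum.swap : Fin n ⊕ Fin n → Fin n ⊕ Fin n) := Sum.swap_leftInverse.injective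
  exact Finsupp.mapDomain_apply hinj e (Sum.inl i)

lemma jrp_sw_sw (e : Fin n ⊕ Fin n →₀ ℕ) :
    Finsupp.mapDomain Sum.swap (Finsupp.mapDomain Sum.swap e) = e := by
  ext s
  cases s with
  | inl i => rw [jrp_sw_inl, jrp_sw_inr]
  | inr i => rw [jrp_sw_inr, jrp_sw_inl]

lemma jrp_herm (L : CVF (n + n)) (hL : Sm p L) (P : Pol n) (hP : IsHerm P) (u v : Wd) :
    Rd p L (Zc p) P (cj v) (cj u) = (starRingEnd ℂ) (Rd p L (Zc p) P u v) := by
  unfold Rd
  rw [map_sum]
  symm
  refine Finset.sum_bij (fun e _ => Finsupp.mapDomain Sum.swap e) ?_ ?_ ?_ ?_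
  · intro e he
    rw [MvPolynomial.mem_support_iff] at he ⊢
    rw [jrp_sw_coeff P hP]
    intro h
    exact he ((map_eq_zero _).1 h)
  · intro e _ e' _ h
    have := congrArg (Finsupp.mapDomain Sum.swap) h
    rwa [jrp_sw_sw, jrp_sw_sw] at this
  · intro e he
    refine ⟨Finsupp.mapDomain Sum.swap e, ?_, jrp_sw_sw e⟩
    rw [MvPolynomial.mem_support_iff] at he ⊢
    rw [jrp_sw_coeff P hP]
    intro h
    exact he ((map_eq_zero _).1 h)
  · intro e _
    rw [jrp_sw_coeff P hP]
    simp only [jrp_sw_inl, jrp_sw_inr]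
    have h1 := (jrp_op_conj hL u (jrp_A_sm p p e)).self_of_nhds
    have h2 := (jrp_op_conj hL v (jrp_B_sm p p e)).self_of_nhds
    have e1 : (fun x => (starRingEnd ℂ) (∏ i, Zc p i x ^ e (Sum.inl i))) =
        fun x => ∏ i, (starRingEnd ℂ) (Zc p i x) ^ e (Sum.inl i) := by
      funext x; simp
    have e2 : (fun x => (starRingEnd ℂ) (∏ i, (starRingEnd ℂ) (Zc p i x) ^ e (Sum.inr i))) =
        fun x => ∏ i, Zc p i x ^ e (Sum.inr i) := by
      funext x; simp
    rw [e1] at h1
    rw [e2] at h2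
    rw [h1, h2, map_mul, map_mul]
    ring

lemma jrp_op_r (r : CF (n + n)) (L : CVF (n + n)) (hL : Sm p L) (hr : Sm p r)
    (real : ∀ᶠ x in 𝓝 p, (starRingEnd ℂ) (r x) = r x) (hLr : act L r =ᶠ[𝓝 p] fun _ => 0)
    (w : Wd) (hw : w ≠ []) : op L w r p = 0 := by
  cases w with
  | nil => exact absurd rfl hw
  | cons a w =>
    have h : act (LX L a) r =ᶠ[𝓝 p] fun _ => 0 := by
      cases a
      · have h1 : act L (fun x => (starRingEnd ℂ) (r x)) =ᶠ[𝓝 p] act L r :=
          act_congr (Filter.EventuallyEq.refl _ _) real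
        filter_upwards [h1, hLr, hr.differentiableAt] with x hx1 hx2 hx3
        rw [act_conj hx3, hx2] at hx1
        exact (map_eq_zero _).1 hx1
      · exact hLr
    show op L w (act (LX L a) r) p = 0
    rw [(op_congr (L := L) w h).self_of_nhds]
    exact jrp_op_zero hL w

/-- properties of `Rr` at a point (JDC) -/
theorem Rr_props (r : CF (n + n)) (L : CVF (n + n)) (hL : Sm p L) (hol : IsHol L) (hr : Sm p r)
    (real : ∀ᶠ x in 𝓝 p, (starRingEnd ℂ) (r x) = r x) (hLr : act L r =ᶠ[𝓝 p] fun _ => 0)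
    (N : ℕ) :
    (∀ u v, Rr N r L p (cj v) (cj u) = (starRingEnd ℂ) (Rr N r L p u v)) ∧
    (∀ u v, Rr N r L p (false :: u) v = 0) ∧
    (∀ u v, Rr N r L p u (true :: v) = 0) ∧
    (∀ w, w ≠ [] → w.length ≤ N → unsh (Rr N r L p) w = 0) ∧
    Rr N r L p [] [] = r p ∧
    (∀ w, w.length + 2 ≤ N → unsh (DU true (DV false (Rr N r L p))) w = op L w (levL r L) p) := by
  refine ⟨?_, ?_, ?_, ?_, ?_, ?_⟩
  · intro u v
    exact jrp_herm L hL (tay N r p) (tay_herm hr real N) u v
  · intro u v
    unfold Rr Rd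
    refine Finset.sum_eq_zero fun e _ => ?_
    have h : act (LX L false) (fun x => ∏ i, Zc p i x ^ e (Sum.inl i)) = fun _ => 0 := by
      funext x; exact jrp_act_A0 L hol p e x
    have h2 : op L (false :: u) (fun x => ∏ i, Zc p i x ^ e (Sum.inl i)) p = 0 := by
      show op L u (act (LX L false) (fun x => ∏ i, Zc p i x ^ e (Sum.inl i))) p = 0
      rw [h]
      exact jrp_op_zero hL u
    rw [h2]; ring
  · intro u v
    unfold Rr Rd
    refine Finset.sum_eq_zero fun e _ => ?_
    have h : act (LX L true) (fun x => ∏ i, (starRingEnd ℂ) (Zc p i x) ^ e (Sum.inr i)) = fun _ => 0 := by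
      funext x; exact jrp_act_B0 L hol p e x
    have h2 : op L (true :: v) (fun x => ∏ i, (starRingEnd ℂ) (Zc p i x) ^ e (Sum.inr i)) p = 0 := by
      show op L v (act (LX L true) (fun x => ∏ i, (starRingEnd ℂ) (Zc p i x) ^ e (Sum.inr i))) p = 0
      rw [h]
      exact jrp_op_zero hL v
    rw [h2]; ring
  · intro w hw hwN
    have h1 : unsh (Rr N r L p) w = op L w (fun x => peval (tay N r p) (fun i => Zc p i x)) p := by
      have h2 := jrp_unsh_op hL (tay N r p).support (fun e => (tay N r p).coeff e)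
        (fun e x => ∏ i, Zc p i x ^ e (Sum.inl i)) (fun e x => ∏ i, (starRingEnd ℂ) (Zc p i x) ^ e (Sum.inr i))
        (fun e => jrp_A_sm p p e) (fun e => jrp_B_sm p p e) w
      have h3 : (fun x => peval (tay N r p) (fun i => Zc p i x)) = fun x => ∑ e ∈ (tay N r p).support,
          (tay N r p).coeff e * ((∏ i, Zc p i x ^ e (Sum.inl i)) *
            ∏ i, (starRingEnd ℂ) (Zc p i x) ^ e (Sum.inr i)) := by
        funext x; exact jrp_peval_sum _ _
      rw [h3]
      exact h2
    rw [h1]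
    have hv := tay_van hr N
    have h0 := Van.op_apply hL hv (w := w) (by omega)
    have hs := op_add hL w hv.sm (jrp_peval_sm p p (tay N r p))
    have hs' := hs.self_of_nhds
    beta_reduce at hs'
    have e1 : (fun x => (r x - peval (tay N r p) (fun i => Zc p i x)) + peval (tay N r p) (fun i => Zc p i x)) = r := by
      funext x; ring
    rw [e1, h0, zero_add, jrp_op_r r L hL hr real hLr w hw] at hs'
    exact hs'.symm
  · have h := (tay_van hr N).apply_eq_zero (Nat.succ_pos N)
    beta_reduce at h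
    have h2 : Rr N r L p [] [] = peval (tay N r p) (fun i => Zc p i p) := by
      rw [jrp_peval_sum]
      unfold Rr Rd
      refine Finset.sum_congr rfl fun e _ => ?_
      simp only [op, mul_assoc]
    rw [h2]
    exact (sub_eq_zero.1 h).symm
  · intro w hw
    obtain ⟨M, rfl⟩ : ∃ M, N = M + 2 := ⟨N - 2, by omega⟩
    have h1 : unsh (DU true (DV false (Rr (M + 2) r L p))) w = op L w (fun x => ∑ e ∈ (tay (M + 2) r p).support,
        (tay (M + 2) r p).coeff e * (act L (fun x => ∏ i, Zc p i x ^ e (Sum.inl i)) x *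
          act (cjVF L) (fun x => ∏ i, (starRingEnd ℂ) (Zc p i x) ^ e (Sum.inr i)) x)) p :=
      jrp_unsh_op hL (tay (M + 2) r p).support (fun e => (tay (M + 2) r p).coeff e)
        (fun e => act L (fun x => ∏ i, Zc p i x ^ e (Sum.inl i)))
        (fun e => act (cjVF L) (fun x => ∏ i, (starRingEnd ℂ) (Zc p i x) ^ e (Sum.inr i)))
        (fun e => hL.act (jrp_A_sm p p e)) (fun e => hL.cjVF.act (jrp_B_sm p p e)) w
    rw [h1]
    have h2 : (fun x => ∑ e ∈ (tay (M + 2) r p).support,
        (tay (M + 2) r p).coeff e * (act L (fun x => ∏ i, Zc p i x ^ e (Sum.inl i)) x *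
          act (cjVF L) (fun x => ∏ i, (starRingEnd ℂ) (Zc p i x) ^ e (Sum.inr i)) x)) =
        fun x => ∑ i, ∑ j, peval (MvPolynomial.pderiv (Sum.inr j) (MvPolynomial.pderiv (Sum.inl i) (tay (M + 2) r p)))
          (fun i => Zc p i x) * cf L i x * (starRingEnd ℂ) (cf L j x) := by
      funext x
      simp only [jrp_act_A L hol, jrp_act_B, jrp_dd]
      simp only [Finset.mul_sum, Finset.sum_mul]
      refine (Finset.sum_comm).trans ?_
      refine Eq.trans ?_ Finset.sum_comm
      refine Finset.sum_congr rfl fun i _ => ?_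
      refine (Finset.sum_comm).trans ?_
      refine Finset.sum_congr rfl fun j _ => ?_
      refine Finset.sum_congr rfl fun e _ => ?_
      ring
    rw [h2]
    have hvan : Van p (M + 1) (fun x => levL r L x - ∑ i, ∑ j, peval (MvPolynomial.pderiv (Sum.inr j)
        (MvPolynomial.pderiv (Sum.inl i) (tay (M + 2) r p)))
          (fun i => Zc p i x) * cf L i x * (starRingEnd ℂ) (cf L j x)) := by
      have hij : ∀ i j : Fin n, Van p (M + 1) (fun x => (wd (Sum.inl i) (wd (Sum.inr j) r) x -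
          peval (MvPolynomial.pderiv (Sum.inr j) (MvPolynomial.pderiv (Sum.inl i) (tay (M + 2) r p)))
          (fun i => Zc p i x)) * cf L i x * (starRingEnd ℂ) (cf L j x)) := by
        intro i j
        have h3 := tay_van (jrp_wd_sm (jrp_wd_sm hr (Sum.inl i)) (Sum.inr j)) M
        rw [← tay_pderiv (jrp_wd_sm hr (Sum.inl i)) M (Sum.inr j), ← tay_pderiv hr (M + 1) (Sum.inl i)] at h3
        have h4 : Van p (M + 1) (fun x => (wd (Sum.inl i) (wd (Sum.inr j) r) x -
          peval (MvPolynomial.pderiv (Sum.inr j) (MvPolynomial.pderiv (Sum.inl i) (tay (M + 2) r p)))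
          (fun i => Zc p i x))) := by
          refine h3.congr ?_
          filter_upwards [wd_comm hr (Sum.inl i) (Sum.inr j)] with x hx
          rw [hx]
        exact (h4.mul_sm (jrp_cf_sm hL i)).mul_sm (jrp_cf_sm hL j).conj
      have hsum : Van p (M + 1) (fun x => ∑ i, ∑ j, (wd (Sum.inl i) (wd (Sum.inr j) r) x -
          peval (MvPolynomial.pderiv (Sum.inr j) (MvPolynomial.pderiv (Sum.inl i) (tay (M + 2) r p)))
          (fun i => Zc p i x)) * cf L i x * (starRingEnd ℂ) (cf L j x)) :=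
        Van.sum fun i _ => Van.sum fun j _ => hij i j
      refine hsum.congr ?_
      filter_upwards with x
      unfold levL lev
      rw [← Finset.sum_sub_distrib]
      refine Finset.sum_congr rfl fun i _ => ?_
      rw [← Finset.sum_sub_distrib]
      refine Finset.sum_congr rfl fun j _ => ?_
      ring
    have h0 := Van.op_apply hL hvan (w := w) (by omega)
    have hGs : Sm p (fun x => ∑ i, ∑ j, peval (MvPolynomial.pderiv (Sum.inr j)
        (MvPolynomial.pderiv (Sum.inl i) (tay (M + 2) r p)))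
          (fun i => Zc p i x) * cf L i x * (starRingEnd ℂ) (cf L j x)) :=
      Sm.sum fun i _ => Sm.sum fun j _ => ((jrp_peval_sm p p _).mul (jrp_cf_sm hL i)).mul (jrp_cf_sm hL j).conj
    have hs' := (op_add hL w hvan.sm hGs).self_of_nhds
    beta_reduce at hs'
    have e1 : (fun x => (levL r L x - ∑ i, ∑ j, peval (MvPolynomial.pderiv (Sum.inr j)
        (MvPolynomial.pderiv (Sum.inl i) (tay (M + 2) r p)))
          (fun i => Zc p i x) * cf L i x * (starRingEnd ℂ) (cf L j x)) +
          ∑ i, ∑ j, peval (MvPolynomial.pderiv (Sum.inr j)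
        (MvPolynomial.pderiv (Sum.inl i) (tay (M + 2) r p)))
          (fun i => Zc p i x) * cf L i x * (starRingEnd ℂ) (cf L j x)) = levL r L := by
      funext x; ring
    rw [e1, h0, zero_add] at hs'
    exact hs'.symm



end KI
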