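import Pool.Agent.DAng.Core3
import Pool.Agent.DAng.Core4
import Pool.Agent.KI.RrP
import Pool.Agent.KI.Bdd
import Pool.Agent.KI.Pos

open scoped ContDiff Topology BigOperators
open Finset Asymptotics

namespace KI
open DAng

variable {n : ℕ} {p x₀ : E (n + n)}



/-! helper lemmas for all_flat -/

/-- words of length `n` -/
def afW : ℕ → Finset Wd
  | 0 => {[]}
  | n + 1 => (afW n).image (List.cons true) ∪ (afW n).image (List.cons false)

lemma af_mem : ∀ {n : ℕ} {w : Wd}, w ∈ afW n ↔ w.length = n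
  | 0, w => by simp [afW, List.length_eq_zero_iff]
  | n + 1, [] => by simp [afW]
  | n + 1, a :: w => by
    have := af_mem (n := n) (w := w)
    cases a <;> simp [afW, this]

lemma af_sumW {A : Type*} [AddCommMonoid A] : ∀ (n : ℕ) (F : Wd → A),
    sumW n F = ∑ w ∈ afW n, F w
  | 0, F => by simp [sumW, afW]
  | n + 1, F => by
    have hd : Disjoint ((afW n).image (List.cons true)) ((afW n).image (List.cons false)) := by
      rw [Finset.disjoint_left]
      intro x hx hx'
      obtain ⟨a, -, rfl⟩ := Finset.mem_image.1 hx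
      obtain ⟨b, -, hb⟩ := Finset.mem_image.1 hx'
      simp at hb
    show sumW n (D true F) + sumW n (D false F) = _
    rw [af_sumW n, af_sumW n, afW, Finset.sum_union hd,
      Finset.sum_image (by intro a _ b _ h; simpa using h),
      Finset.sum_image (by intro a _ b _ h; simpa using h)]
    rfl

/-- pairs of words of total length `k` -/
def afP (k : ℕ) : Finset (Wd × Wd) := (range (k + 1)).biUnion fun i => afW i ×ˢ afW (k - i)

lemma af_memP {k : ℕ} {q : Wd × Wd} : q ∈ afP k ↔ q.1.length + q.2.length = k := by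
  simp only [afP, Finset.mem_biUnion, Finset.mem_range, Finset.mem_product, af_mem]
  constructor
  · rintro ⟨i, hi, h1, h2⟩
    omega
  · intro h
    exact ⟨q.1.length, by omega, rfl, by omega⟩

lemma af_sumP {A : Type*} [AddCommMonoid A] (k : ℕ) (F : Wd → Wd → A) :
    sumP k F = ∑ q ∈ afP k, F q.1 q.2 := by
  have hd : Set.PairwiseDisjoint (↑(range (k + 1))) fun i => afW i ×ˢ afW (k - i) := by
    intro i _ j _ hij
    rw [Function.onFun, Finset.disjoint_left]
    intro x hx hx'
    simp only [Finset.mem_product, af_mem] at hx hx'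
    exact hij (hx.1.symm.trans hx'.1)
  rw [sumP, afP, Finset.sum_biUnion hd]
  refine Finset.sum_congr rfl fun i _ => ?_
  rw [Finset.sum_product, af_sumW]
  refine Finset.sum_congr rfl fun u _ => ?_
  rw [af_sumW]

lemma af_unsh_congr : ∀ (w : Wd) {P Q : Wd → Wd → ℂ},
    (∀ u v, u.length + v.length = w.length → P u v = Q u v) → unsh P w = unsh Q w
  | [], P, Q, h => h [] [] rfl
  | a :: w, P, Q, h => by
    show unsh (DU a P) w + unsh (DV a P) w = unsh (DU a Q) w + unsh (DV a Q) w
    rw [af_unsh_congr w (P := DU a P) (Q := DU a Q)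
        (fun u v huv => h (a :: u) v (by simp only [List.length_cons]; omega)),
      af_unsh_congr w (P := DV a P) (Q := DV a Q)
        (fun u v huv => h u (a :: v) (by simp only [List.length_cons]; omega))]

lemma af_unsh_zero : ∀ (w : Wd), unsh (fun _ _ => (0 : ℂ)) w = 0
  | [] => rfl
  | a :: w => by
    show unsh (fun _ _ => (0 : ℂ)) w + unsh (fun _ _ => (0 : ℂ)) w = 0
    rw [af_unsh_zero w, add_zero]

lemma af_unsh_div (c : ℂ) : ∀ (w : Wd) (P : Wd → Wd → ℂ),
    unsh (fun u v => P u v / c) w = unsh P w / c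
  | [], P => rfl
  | a :: w, P => by
    show unsh (fun u v => DU a P u v / c) w + unsh (fun u v => DV a P u v / c) w = _
    rw [af_unsh_div c w, af_unsh_div c w, ← add_div]
    rfl

lemma af_unsh_tendsto {κ : Type*} {l : Filter κ} : ∀ (w : Wd) {P : κ → Wd → Wd → ℂ}
    {Q : Wd → Wd → ℂ}, (∀ u v, Filter.Tendsto (fun i => P i u v) l (𝓝 (Q u v))) →
    Filter.Tendsto (fun i => unsh (P i) w) l (𝓝 (unsh Q w))
  | [], P, Q, h => h [] []
  | a :: w, P, Q, h => by
    show Filter.Tendsto (fun i => unsh (DU a (P i)) w + unsh (DV a (P i)) w) l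
      (𝓝 (unsh (DU a Q) w + unsh (DV a Q) w))
    exact (af_unsh_tendsto w (P := fun i => DU a (P i)) fun u v => h (a :: u) v).add
      (af_unsh_tendsto w (P := fun i => DV a (P i)) fun u v => h u (a :: v))

lemma af_cj_length (w : Wd) : (cj w).length = w.length := by simp [cj]

/-- a flat quantity is smaller than any power of a non flat one -/
lemma af_flat {κ : Type*} {l : Filter κ} {δ x ρ : κ → ℝ} (hδ : ∀ᶠ i in l, 0 < δ i ∧ δ i ≤ 1 / 2)
    {m₀ : ℕ} (hρ : ∀ᶠ i in l, δ i ^ m₀ < ρ i) {c : ℝ} (hc : 0 ≤ c)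
    (hx : ∀ M : ℕ, ∀ᶠ i in l, x i ≤ c * δ i ^ M) {a : ℝ} (ha : 0 < a) (e : ℕ) :
    ∀ᶠ i in l, x i ≤ a * ρ i ^ e := by
  obtain ⟨M', hM'⟩ := exists_pow_lt_of_lt_one (show 0 < a / (c + 1) by positivity)
    (show (1 / 2 : ℝ) < 1 by norm_num)
  filter_upwards [hδ, hρ, hx (m₀ * e + M')] with i hi hρi hxi
  have h1 : δ i ^ (m₀ * e + M') = (δ i ^ m₀) ^ e * δ i ^ M' := by rw [pow_add, pow_mul]
  have h2 : (δ i ^ m₀) ^ e ≤ ρ i ^ e :=
    pow_le_pow_left₀ (pow_nonneg hi.1.le _) hρi.le e
  have h3 : δ i ^ M' ≤ (1 / 2 : ℝ) ^ M' := pow_le_pow_left₀ hi.1.le hi.2 M'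
  have h4 : c * δ i ^ M' ≤ a := by
    calc c * δ i ^ M' ≤ (c + 1) * (a / (c + 1)) := by
          refine mul_le_mul (by linarith) (h3.trans hM'.le) (pow_nonneg hi.1.le _) (by linarith)
      _ = a := by field_simp
  have h5 : 0 ≤ ρ i ^ e := le_trans (pow_nonneg (pow_nonneg hi.1.le _) _) h2
  calc x i ≤ c * δ i ^ (m₀ * e + M') := hxi
    _ = (δ i ^ m₀) ^ e * (c * δ i ^ M') := by rw [h1]; ring
    _ ≤ ρ i ^ e * a := mul_le_mul h2 h4 (mul_nonneg hc (pow_nonneg hi.1.le _)) h5
    _ = a * ρ i ^ e := mul_comm _ _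

theorem af_main {κ : Type*} (l : Ultrafilter κ) (R : κ → Wd → Wd → ℂ) (δ : κ → ℝ)
    (hδ : ∀ᶠ i in (l : Filter κ), 0 < δ i ∧ δ i ≤ 1 / 2) (N : ℕ)
    (hherm : ∀ᶠ i in (l : Filter κ), ∀ u v, R i (cj v) (cj u) = (starRingEnd ℂ) (R i u v))
    (hcrU : ∀ᶠ i in (l : Filter κ), ∀ u v, R i (false :: u) v = 0)
    (hcrV : ∀ᶠ i in (l : Filter κ), ∀ u v, R i u (true :: v) = 0)
    (hdiag : ∀ᶠ i in (l : Filter κ), ∀ w, w ≠ [] → w.length ≤ N → unsh (R i) w = 0)
    (h0 : ∀ m : ℕ, ∀ᶠ i in (l : Filter κ), ‖R i [] []‖ ≤ δ i ^ m)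
    (hlev : ∀ w : Wd, w.length + 2 ≤ N → ∀ m : ℕ, ∀ᶠ i in (l : Filter κ),
      ‖unsh (DU true (DV false (R i))) w‖ ≤ δ i ^ m)
    (hbdd : ∀ u v : Wd, ∃ C : ℝ, ∀ᶠ i in (l : Filter κ), ‖R i u v‖ ≤ C)
    (hpos : ∀ k : ℕ, k + 3 ≤ N → ∀ φ ψ : Wd → ℂ, IsChar k φ → IsDer k φ ψ →
      ∃ C : ℝ, ∀ᶠ q in (l : Filter κ) ×ˢ 𝓝[>] (0 : ℝ),
      -(C * (q.2 ^ (k + 1) + ∑ j ∈ range k, q.2 ^ j * sumP j (fun u v => ‖R q.1 u v‖))) ≤
        q.2 ^ k * (sumP k fun u v => R q.1 u v * ψ u * (starRingEnd ℂ) (ψ (cj v))).re) :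
    ∀ k : ℕ, k + 3 ≤ N → ∀ u v : Wd, u.length + v.length = k → ∀ m : ℕ,
      ∀ᶠ i in (l : Filter κ), ‖R i u v‖ ≤ δ i ^ m := by
  intro k
  induction k using Nat.strong_induction_on with
  | _ k ih =>
  intro hk u₀ v₀ huv₀ m₀
  by_cases hk0 : k = 0
  · subst hk0
    have hu : u₀ = [] := List.length_eq_zero_iff.1 (by omega)
    have hv : v₀ = [] := List.length_eq_zero_iff.1 (by omega)
    subst hu hv
    exact h0 m₀
  by_contra hcon
  rw [← Ultrafilter.eventually_not] at hcon
  have hk1 : 1 ≤ k := Nat.one_le_iff_ne_zero.2 hk0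
  set ρ : ℕ → κ → ℝ := fun j i => sumP j (fun u v => ‖R i u v‖) with hρdef
  have hρle : ∀ j i (u v : Wd), u.length + v.length = j → ‖R i u v‖ ≤ ρ j i := by
    intro j i u v huv
    rw [hρdef]
    simp only
    rw [af_sumP]
    exact Finset.single_le_sum (f := fun q : Wd × Wd => ‖R i q.1 q.2‖)
      (fun q _ => norm_nonneg _) (af_memP.2 huv : (u, v) ∈ afP j)
  have hρnn : ∀ j i, 0 ≤ ρ j i := by
    intro j i
    rw [hρdef]
    simp only
    rw [af_sumP]
    exact Finset.sum_nonneg fun q _ => norm_nonneg _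
  have hρk : ∀ᶠ i in (l : Filter κ), δ i ^ m₀ < ρ k i := by
    filter_upwards [hcon] with i hi
    exact (not_le.1 hi).trans_le (hρle k i u₀ v₀ huv₀)
  have hρpos : ∀ᶠ i in (l : Filter κ), 0 < ρ k i := by
    filter_upwards [hρk, hδ] with i hi hδi
    exact (pow_pos hδi.1 _).trans hi
  have hρj : ∀ j, j < k → ∀ M : ℕ, ∀ᶠ i in (l : Filter κ),
      ρ j i ≤ ((afP j).card : ℝ) * δ i ^ M := by
    intro j hj M
    have h1 : ∀ᶠ i in (l : Filter κ), ∀ q ∈ afP j, ‖R i q.1 q.2‖ ≤ δ i ^ M := by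
      rw [Filter.eventually_all_finset]
      intro q hq
      exact ih j hj (by omega) q.1 q.2 (af_memP.1 hq) M
    filter_upwards [h1] with i hi
    rw [hρdef]
    simp only
    rw [af_sumP]
    have := Finset.sum_le_card_nsmul (afP j) (fun q => ‖R i q.1 q.2‖) (δ i ^ M) hi
    simpa [nsmul_eq_mul] using this
  obtain ⟨B, hB0, hB⟩ : ∃ B : ℝ, 0 < B ∧ ∀ᶠ i in (l : Filter κ), ρ k i ≤ B := by
    choose C hC using hbdd
    refine ⟨∑ q ∈ afP k, |C q.1 q.2| + 1, by
      have : 0 ≤ ∑ q ∈ afP k, |C q.1 q.2| := Finset.sum_nonneg fun _ _ => abs_nonneg _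
      linarith, ?_⟩
    have h1 : ∀ᶠ i in (l : Filter κ), ∀ q ∈ afP k, ‖R i q.1 q.2‖ ≤ |C q.1 q.2| := by
      rw [Filter.eventually_all_finset]
      intro q hq
      filter_upwards [hC q.1 q.2] with i hi
      exact hi.trans (le_abs_self _)
    filter_upwards [h1] with i hi
    rw [hρdef]
    simp only
    rw [af_sumP]
    have := Finset.sum_le_sum hi
    linarith
  set T : κ → Wd → Wd → ℂ := fun i u v =>
    if u.length + v.length = k then R i u v / (ρ k i : ℂ) else 0 with hTdef
  have hTk : ∀ i (u v : Wd), u.length + v.length = k → T i u v = R i u v / (ρ k i : ℂ) := by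
    intro i u v huv
    rw [hTdef]
    simp only [huv, if_true]
  have hT0 : ∀ i (u v : Wd), u.length + v.length ≠ k → T i u v = 0 := by
    intro i u v huv
    rw [hTdef]
    simp only [huv, if_false]
  have hTle : ∀ i u v, ‖T i u v‖ ≤ 1 := by
    intro i u v
    by_cases huv : u.length + v.length = k
    · rw [hTk i u v huv, norm_div, Complex.norm_real, Real.norm_of_nonneg (hρnn k i)]
      exact div_le_one_of_le₀ (hρle k i u v huv) (hρnn k i)
    · rw [hT0 i u v huv]; simp
  have hlim : ∀ u v, ∃ t : ℂ, Filter.Tendsto (fun i => T i u v) (l : Filter κ) (𝓝 t) := by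
    intro u v
    obtain ⟨t, -, ht⟩ := (isCompact_closedBall (0 : ℂ) 1).ultrafilter_le_nhds'
      (l.map fun i => T i u v) (by
        rw [Ultrafilter.mem_map]
        filter_upwards with i
        simpa using hTle i u v)
    exact ⟨t, ht⟩
  choose Tl hTl using hlim
  have hTlk : ∀ u v : Wd, u.length + v.length ≠ k → Tl u v = 0 := by
    intro u v huv
    refine tendsto_nhds_unique (hTl u v) ?_
    simp only [hT0 _ u v huv]
    exact tendsto_const_nhds
  have hsum1 : ∀ᶠ i in (l : Filter κ), ∑ q ∈ afP k, ‖T i q.1 q.2‖ = 1 := by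
    filter_upwards [hρpos] with i hi
    have : ∑ q ∈ afP k, ‖T i q.1 q.2‖ = (∑ q ∈ afP k, ‖R i q.1 q.2‖) / ρ k i := by
      rw [Finset.sum_div]
      refine Finset.sum_congr rfl fun q hq => ?_
      rw [hTk i q.1 q.2 (af_memP.1 hq), norm_div, Complex.norm_real,
        Real.norm_of_nonneg (hρnn k i)]
    rw [this, ← af_sumP k (fun u v => ‖R i u v‖)]
    exact div_self hi.ne'
  have hHom : HomR k Tl := by
    refine ⟨hTlk, ?_, ?_, ?_, ?_, ?_⟩
    · -- herm
      intro u v
      have h1 : Filter.Tendsto (fun i => (starRingEnd ℂ) (T i u v)) (l : Filter κ)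
          (𝓝 ((starRingEnd ℂ) (Tl u v))) :=
        (Complex.continuous_conj.tendsto _).comp (hTl u v)
      refine tendsto_nhds_unique (hTl (cj v) (cj u)) (h1.congr' ?_)
      filter_upwards [hherm] with i hi
      by_cases huv : u.length + v.length = k
      · rw [hTk i u v huv, hTk i (cj v) (cj u) (by rw [af_cj_length, af_cj_length]; omega), hi,
          map_div₀, Complex.conj_ofReal]
      · rw [hT0 i u v huv, hT0 i (cj v) (cj u) (by rw [af_cj_length, af_cj_length]; omega),
          map_zero]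
    · intro u v
      refine tendsto_nhds_unique (hTl (false :: u) v) (tendsto_const_nhds.congr' ?_)
      filter_upwards [hcrU] with i hi
      by_cases huv : (false :: u).length + v.length = k
      · rw [hTk i _ v huv, hi, zero_div]
      · rw [hT0 i _ v huv]
    · intro u v
      refine tendsto_nhds_unique (hTl u (true :: v)) (tendsto_const_nhds.congr' ?_)
      filter_upwards [hcrV] with i hi
      by_cases huv : u.length + (true :: v).length = k
      · rw [hTk i u _ huv, hi, zero_div]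
      · rw [hT0 i u _ huv]
    · intro w
      refine tendsto_nhds_unique (af_unsh_tendsto w hTl) (tendsto_const_nhds.congr' ?_)
      filter_upwards [hdiag] with i hi
      by_cases hw : w.length = k
      · have h1 : unsh (T i) w = unsh (fun u v => R i u v / (ρ k i : ℂ)) w :=
          af_unsh_congr w fun u v huv => hTk i u v (by omega)
        have h2 : w ≠ [] := by
          rintro rfl
          simp at hw
          omega
        rw [h1, af_unsh_div, hi w h2 (by omega), zero_div]
      · have h1 : unsh (T i) w = unsh (fun _ _ => (0 : ℂ)) w :=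
          af_unsh_congr w fun u v huv => hT0 i u v (by omega)
        rw [h1, af_unsh_zero]
    · intro φ ψ hφ hψ
      obtain ⟨C, hC⟩ := hpos k hk φ ψ hφ hψ
      obtain ⟨pa, hpa, pb, hpb, hpab⟩ := Filter.eventually_prod_iff.1 hC
      obtain ⟨ε, hε, hεb⟩ := mem_nhdsGT_iff_exists_Ioo_subset.1 hpb
      have hε0 : (0 : ℝ) < ε := hε
      set X : κ → ℝ := fun i => (∑ q ∈ afP k, T i q.1 q.2 * ψ q.1 * (starRingEnd ℂ) (ψ (cj q.2))).re
        with hXdef
      have hXl : Filter.Tendsto X (l : Filter κ)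
          (𝓝 (∑ q ∈ afP k, Tl q.1 q.2 * ψ q.1 * (starRingEnd ℂ) (ψ (cj q.2))).re) := by
        refine (Complex.continuous_re.tendsto _).comp ?_
        exact tendsto_finsetSum _ fun q _ => ((hTl q.1 q.2).mul_const _).mul_const _
      rw [af_sumP]
      have hC' : 0 ≤ max C 0 := le_max_right _ _
      have key : ∀ᶠ t in 𝓝[>] (0 : ℝ), -(max C 0 * (2 * t)) ≤
          (∑ q ∈ afP k, Tl q.1 q.2 * ψ q.1 * (starRingEnd ℂ) (ψ (cj q.2))).re := by
        have hmem : Set.Ioo (0 : ℝ) (ε / B) ∈ 𝓝[>] (0 : ℝ) :=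
          Ioo_mem_nhdsGT (div_pos hε0 hB0)
        filter_upwards [hmem] with t ht
        obtain ⟨ht0, htB⟩ := ht
        rw [lt_div_iff₀ hB0] at htB
        refine ge_of_tendsto hXl ?_
        have hfl : ∀ᶠ i in (l : Filter κ), ∀ j ∈ range k,
            ρ j i ≤ (t / k * t ^ (k - j)) * ρ k i ^ (k - j + 1) := by
          rw [Filter.eventually_all_finset]
          intro j hj
          exact af_flat hδ hρk (Nat.cast_nonneg _) (hρj j (Finset.mem_range.1 hj))
            (by have : (0 : ℝ) < k := by exact_mod_cast hk1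
                positivity) _
        filter_upwards [hpa, hfl, hρpos, hB] with i hpai hfli hρi hBi
        set s : ℝ := t * ρ k i with hs
        have hs0 : 0 < s := mul_pos ht0 hρi
        have hsε : s < ε := lt_of_le_of_lt (mul_le_mul_of_nonneg_left hBi ht0.le) htB
        have hin := hpab hpai (hεb ⟨hs0, hsε⟩)
        simp only at hin
        have hkr : (0 : ℝ) < k := by exact_mod_cast hk1
        have hsum : ∑ j ∈ range k, s ^ j * ρ j i ≤ t * s ^ k * ρ k i := by
          calc ∑ j ∈ range k, s ^ j * ρ j i ≤ ∑ j ∈ range k, t / k * (s ^ k * ρ k i) := by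
                refine Finset.sum_le_sum fun j hj => ?_
                have hjk : j < k := Finset.mem_range.1 hj
                calc s ^ j * ρ j i
                    ≤ s ^ j * ((t / k * t ^ (k - j)) * ρ k i ^ (k - j + 1)) :=
                      mul_le_mul_of_nonneg_left (hfli j hj) (pow_nonneg hs0.le _)
                  _ = t / k * (s ^ j * (t * ρ k i) ^ (k - j) * ρ k i) := by
                      rw [mul_pow, pow_succ]; ring
                  _ = t / k * (s ^ k * ρ k i) := by
                      rw [← hs, ← pow_add, Nat.add_sub_cancel' hjk.le]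
            _ = t * s ^ k * ρ k i := by
                rw [Finset.sum_const, card_range, nsmul_eq_mul]
                field_simp
        have hnn : 0 ≤ ∑ j ∈ range k, s ^ j * ρ j i :=
          Finset.sum_nonneg fun j _ => mul_nonneg (pow_nonneg hs0.le _) (hρnn j i)
        have hre : (sumP k fun u v => R i u v * ψ u * (starRingEnd ℂ) (ψ (cj v))).re =
            ρ k i * X i := by
          rw [af_sumP, hXdef]
          simp only
          rw [← Complex.re_ofReal_mul, Finset.mul_sum]
          congr 1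
          refine Finset.sum_congr rfl fun q hq => ?_
          rw [hTk i q.1 q.2 (af_memP.1 hq)]
          have : (ρ k i : ℂ) ≠ 0 := by exact_mod_cast hρi.ne'
          field_simp
        rw [hre] at hin
        have hPsum : ∑ j ∈ range k, s ^ j * sumP j (fun u v => ‖R i u v‖) =
            ∑ j ∈ range k, s ^ j * ρ j i := rfl
        rw [hPsum] at hin
        have hpos2 : 0 < s ^ k * ρ k i := mul_pos (pow_pos hs0 _) hρi
        have h6 : s ^ (k + 1) + ∑ j ∈ range k, s ^ j * ρ j i ≤ 2 * t * (s ^ k * ρ k i) := by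
          have : s ^ (k + 1) = t * (s ^ k * ρ k i) := by rw [pow_succ]; rw [hs]; ring
          rw [this]
          nlinarith [hsum]
        have h7 : C * (s ^ (k + 1) + ∑ j ∈ range k, s ^ j * ρ j i) ≤
            max C 0 * (2 * t * (s ^ k * ρ k i)) := by
          refine mul_le_mul (le_max_left _ _) h6 ?_ hC'
          exact add_nonneg (pow_nonneg hs0.le _) hnn
        have h8 : (s ^ k * ρ k i) * (-(max C 0 * (2 * t))) ≤ (s ^ k * ρ k i) * X i := by
          have e1 : (s ^ k * ρ k i) * (-(max C 0 * (2 * t))) =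
            -(max C 0 * (2 * t * (s ^ k * ρ k i))) := by ring
          have e2 : (s ^ k * ρ k i) * X i = s ^ k * (ρ k i * X i) := by ring
          rw [e1, e2]
          linarith
        exact le_of_mul_le_mul_left h8 hpos2
      have hlim0 : Filter.Tendsto (fun t : ℝ => -(max C 0 * (2 * t))) (𝓝[>] 0) (𝓝 0) := by
        have : Filter.Tendsto (fun t : ℝ => -(max C 0 * (2 * t))) (𝓝 0)
            (𝓝 (-(max C 0 * (2 * 0)))) :=
          (Continuous.tendsto (by fun_prop) 0)
        simp only [mul_zero, neg_zero] at this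
        exact this.mono_left nhdsWithin_le_nhds
      exact le_of_tendsto hlim0 key
  have hlevT : ∀ w, unsh (DU true (DV false Tl)) w = 0 := by
    intro w
    by_cases hw : w.length + 2 = k
    · have hT2 : ∀ u v, Filter.Tendsto (fun i => DU true (DV false (T i)) u v) (l : Filter κ)
          (𝓝 (DU true (DV false Tl) u v)) := fun u v => hTl (true :: u) (false :: v)
      have h1 := af_unsh_tendsto w hT2
      refine tendsto_nhds_unique h1 ?_
      rw [tendsto_zero_iff_norm_tendsto_zero]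
      rw [Metric.tendsto_nhds]
      intro ε hε
      have hfl := af_flat hδ hρk zero_le_one
        (fun M => by simpa using hlev w (by omega) M) (half_pos hε) 1
      filter_upwards [hfl, hρpos] with i hi hρi
      have h2 : unsh (DU true (DV false (T i))) w =
          unsh (fun u v => DU true (DV false (R i)) u v / (ρ k i : ℂ)) w :=
        af_unsh_congr w fun u v huv => hTk i (true :: u) (false :: v) (by
          simp only [List.length_cons]; omega)
      rw [h2, af_unsh_div, dist_zero_right, norm_norm, norm_div, Complex.norm_real,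
        Real.norm_of_nonneg hρi.le, div_lt_iff₀ hρi]
      calc ‖unsh (DU true (DV false (R i))) w‖ ≤ ε / 2 * ρ k i ^ 1 := hi
        _ < ε * ρ k i := by rw [pow_one]; nlinarith
    · have h1 : unsh (DU true (DV false Tl)) w = unsh (fun _ _ => (0 : ℂ)) w :=
        af_unsh_congr w fun u v huv => hTlk (true :: u) (false :: v) (by
          simp only [List.length_cons]; omega)
      rw [h1, af_unsh_zero]
  have hbr := core4 k hk1 Tl hHom hlevT
  have hzero := core3 k hk1 Tl hHom (fun w hw => hbr w (by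
    rintro rfl
    simp at hw
    omega))
  have hlimsum : Filter.Tendsto (fun i => ∑ q ∈ afP k, ‖T i q.1 q.2‖) (l : Filter κ)
      (𝓝 (∑ q ∈ afP k, ‖Tl q.1 q.2‖)) :=
    tendsto_finsetSum _ fun q _ => (hTl q.1 q.2).norm
  have h1 : ∑ q ∈ afP k, ‖Tl q.1 q.2‖ = 1 :=
    tendsto_nhds_unique hlimsum (tendsto_const_nhds.congr' (by
      filter_upwards [hsum1] with i hi
      exact hi.symm))
  simp [hzero] at h1

/-- all `Rr u v` are flat (JDH) -/
theorem all_flat {κ : Type*} (l : Ultrafilter κ) {r : CF (n + n)} (h : DefFn r x₀)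
    {L : CVF (n + n)} (hL : FieldHyp r x₀ L) (p : κ → E (n + n)) (δ : κ → ℝ)
    (hp : PtHyp (l : Filter κ) r x₀ L p δ) (N : ℕ) (u v : Wd) (huv : u.length + v.length + 3 ≤ N)
    (m : ℕ) : ∀ᶠ i in (l : Filter κ), ‖Rr N r L (p i) u v‖ ≤ δ i ^ m := by
  have h1 : ∀ᶠ q in 𝓝 x₀, Sm q L := Filter.Eventually.eventually_nhds hL.sm
  have h2 : ∀ᶠ q in 𝓝 x₀, Sm q r := Filter.Eventually.eventually_nhds h.sm
  have h3 : ∀ᶠ q in 𝓝 x₀, ∀ᶠ x in 𝓝 q, (starRingEnd ℂ) (r x) = r x :=
    Filter.Eventually.eventually_nhds h.real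
  have h4 : ∀ᶠ q in 𝓝 x₀, act L r =ᶠ[𝓝 q] fun _ => 0 :=
    Filter.Eventually.eventually_nhds hL.tang
  have hprop := hp.tend.eventually (h1.and (h2.and (h3.and h4)))
  have hP := hprop.mono fun i hi =>
    Rr_props (p := p i) r L hi.1 hL.hol hi.2.1 hi.2.2.1 hi.2.2.2 N
  obtain ⟨-, hb2, -⟩ := bdd_facts (x₀ := x₀) h.sm hL.sm N
  refine af_main l (fun i => Rr N r L (p i)) δ (hp.pos.and hp.half) N
    (hP.mono fun i hi => hi.1) (hP.mono fun i hi => hi.2.1) (hP.mono fun i hi => hi.2.2.1)
    (hP.mono fun i hi => hi.2.2.2.1) ?_ ?_ ?_ ?_ (u.length + v.length) huv u v rfl m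
  · intro m
    filter_upwards [hP, hp.r0 m] with i hi hm
    simp only [hi.2.2.2.2.1]
    exact hm
  · intro w hw m
    filter_upwards [hP, hp.wr w m] with i hi hm
    rw [hi.2.2.2.2.2 w hw]
    exact hm
  · intro u v
    obtain ⟨C, hC⟩ := hb2 u v
    exact ⟨C, hp.tend.eventually hC⟩
  · intro k hk φ ψ hφ hψ
    exact positivity' (l : Filter κ) h hL p hp.tend N k hk φ ψ hφ hψ



end KI
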