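import Pool.Agent.KI.HomPS

open scoped BigOperators
namespace KI



/-- ideal of power series of order at least `B` -/
def arcOrd (n B : ℕ) : Ideal (MvPowerSeries (Fin n) ℂ) where
  carrier := {g | ∀ α : Fin n →₀ ℕ, α.degree < B → MvPowerSeries.coeff α g = 0}
  add_mem' := by
    intro a b ha hb α hα
    rw [map_add, ha α hα, hb α hα, add_zero]
  zero_mem' := by
    intro α _
    simp
  smul_mem' := by
    intro c x hx α hα
    rw [smul_eq_mul, MvPowerSeries.coeff_mul]
    apply Finset.sum_eq_zero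
    rintro ⟨p, q⟩ hpq
    have h := Finset.HasAntidiagonal.mem_antidiagonal.mp hpq
    simp only at h ⊢
    have hq : q.degree < B := by
      have : α.degree = p.degree + q.degree := by rw [← h, map_add]
      omega
    rw [hx q hq, mul_zero]

theorem mem_arcOrd {n B : ℕ} {g : MvPowerSeries (Fin n) ℂ} :
    g ∈ arcOrd n B ↔ ∀ α : Fin n →₀ ℕ, α.degree < B → MvPowerSeries.coeff α g = 0 := Iff.rfl

theorem arcOrd_X {n : ℕ} (j : Fin n) : (MvPowerSeries.X j : MvPowerSeries (Fin n) ℂ) ∈ arcOrd n 1 := by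
  intro α hα
  have h0 : α = 0 := by
    have : α.degree = 0 := by omega
    exact (Finsupp.degree_eq_zero_iff α).mp this
  subst h0
  simp

theorem arcOrd_mul {n B C : ℕ} {g h : MvPowerSeries (Fin n) ℂ} (hg : g ∈ arcOrd n B)
    (hh : h ∈ arcOrd n C) : g * h ∈ arcOrd n (B + C) := by
  intro α hα
  rw [MvPowerSeries.coeff_mul]
  apply Finset.sum_eq_zero
  rintro ⟨p, q⟩ hpq
  have h1 := Finset.HasAntidiagonal.mem_antidiagonal.mp hpq
  simp only at h1 ⊢
  have h2 : α.degree = p.degree + q.degree := by rw [← h1, map_add]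
  by_cases hp : p.degree < B
  · rw [hg p hp, zero_mul]
  · rw [hh q (by omega), mul_zero]

theorem arcOrd_zero (n : ℕ) : arcOrd n 0 = ⊤ := by
  rw [Ideal.eq_top_iff_one]
  intro α hα
  omega

/-- splitting a power series of positive order -/
theorem arcOrd_split {n B : ℕ} {g : MvPowerSeries (Fin n) ℂ} (hg : g ∈ arcOrd n (B + 1)) :
    g ∈ (Ideal.span (Set.range (fun j : Fin n => (MvPowerSeries.X j : MvPowerSeries (Fin n) ℂ)))) *
      arcOrd n B := by
  classical
  let h : Fin n → MvPowerSeries (Fin n) ℂ := fun j α =>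
    if (0 < α j ∧ ∀ i < j, α i = 0) then MvPowerSeries.coeff α g else 0
  have hco : ∀ j α, MvPowerSeries.coeff α (h j) =
      if (0 < α j ∧ ∀ i < j, α i = 0) then MvPowerSeries.coeff α g else 0 := fun j α => rfl
  have hsum : g = ∑ j, h j := by
    ext α
    rw [map_sum]
    simp only [hco]
    by_cases hα : α = 0
    · subst hα
      simp
      have := hg 0 (by simp)
      simpa using this
    · obtain ⟨i0, hi0⟩ : ∃ i, α i ≠ 0 := by
        by_contra hcon
        push Not at hcon
        exact hα (Finsupp.ext hcon)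
      have hne : (Finset.univ.filter (fun i : Fin n => α i ≠ 0)).Nonempty :=
        ⟨i0, by simp [hi0]⟩
      set j := (Finset.univ.filter (fun i : Fin n => α i ≠ 0)).min' hne with hj
      have hjm : α j ≠ 0 := by
        have := Finset.min'_mem _ hne
        rw [← hj] at this
        simpa using this
      have hjmin : ∀ i < j, α i = 0 := by
        intro i hi
        by_contra hcon
        have := Finset.min'_le _ i (by simp [hcon] : i ∈ Finset.univ.filter (fun i : Fin n => α i ≠ 0))
        rw [← hj] at this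
        exact absurd hi (not_lt.mpr this)
      rw [Finset.sum_eq_single j]
      · rw [if_pos ⟨Nat.pos_of_ne_zero hjm, hjmin⟩]
      · intro i _ hij
        rw [if_neg]
        rintro ⟨h1, h2⟩
        rcases lt_or_gt_of_ne hij with hlt | hgt
        · exact absurd (hjmin i hlt) (by omega)
        · exact hjm (h2 j hgt)
      · intro hcon
        exact absurd (Finset.mem_univ _) hcon
  rw [hsum]
  apply Ideal.sum_mem
  intro j _
  have hdvd : (MvPowerSeries.X j : MvPowerSeries (Fin n) ℂ) ∣ h j := by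
    rw [MvPowerSeries.X_dvd_iff]
    intro m hm
    rw [hco, if_neg]
    rintro ⟨h1, _⟩
    omega
  obtain ⟨k, hk⟩ := hdvd
  rw [hk]
  apply Ideal.mul_mem_mul
  · exact Ideal.subset_span ⟨j, rfl⟩
  · intro α hα
    have h1 : MvPowerSeries.coeff (Finsupp.single j 1 + α) (h j) = MvPowerSeries.coeff α k := by
      rw [hk, MvPowerSeries.X, MvPowerSeries.coeff_add_monomial_mul]
      simp
    rw [← h1, hco]
    split_ifs with hc
    · apply hg
      rw [map_add, Finsupp.degree_single]
      omega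
    · rfl

theorem arcOrd_one (n : ℕ) : arcOrd n 1 =
    Ideal.span (Set.range (fun j : Fin n => (MvPowerSeries.X j : MvPowerSeries (Fin n) ℂ))) := by
  apply le_antisymm
  · intro g hg
    have h1 := arcOrd_split (n := n) (B := 0) (g := g) hg
    have h2 : (Ideal.span (Set.range (fun j : Fin n => (MvPowerSeries.X j : MvPowerSeries (Fin n) ℂ)))) *
      arcOrd n 0 ≤ Ideal.span (Set.range (fun j : Fin n => (MvPowerSeries.X j : MvPowerSeries (Fin n) ℂ))) :=
      Ideal.mul_le_left
    exact h2 h1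
  · rw [Ideal.span_le]
    rintro _ ⟨j, rfl⟩
    exact arcOrd_X j

theorem arcOrd_eq_pow (n B : ℕ) : arcOrd n B = (arcOrd n 1) ^ B := by
  induction B with
  | zero => rw [arcOrd_zero, pow_zero, Ideal.one_eq_top]
  | succ B ih =>
    apply le_antisymm
    · intro g hg
      have := arcOrd_split hg
      rw [← arcOrd_one, ih] at this
      rw [pow_succ']
      exact this
    · rw [pow_succ', ← ih, Ideal.mul_le]
      intro a ha b hb
      have := arcOrd_mul ha hb
      rwa [add_comm] at this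

theorem arcOrd_fg (n B : ℕ) : (arcOrd n B).FG := by
  rw [arcOrd_eq_pow]
  apply Submodule.FG.pow
  rw [arcOrd_one]
  exact Submodule.fg_span (Set.finite_range _)

theorem arcOrd_maximal (n : ℕ) : IsLocalRing.maximalIdeal (MvPowerSeries (Fin n) ℂ) = arcOrd n 1 := by
  ext g
  rw [IsLocalRing.mem_maximalIdeal, mem_nonunits_iff, MvPowerSeries.isUnit_iff_constantCoeff, mem_arcOrd]
  constructor
  · intro h α hα
    have h0 : α = 0 := by
      have : α.degree = 0 := by omega
      exact (Finsupp.degree_eq_zero_iff α).mp this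
    subst h0
    by_contra hc
    exact h (isUnit_iff_ne_zero.mpr hc)
  · intro h hu
    have := h 0 (by simp)
    rw [MvPowerSeries.coeff_zero_eq_constantCoeff_apply] at this
    exact hu.ne_zero this

theorem arcOrd_finite (n B : ℕ) : Module.Finite ℂ (MvPowerSeries (Fin n) ℂ ⧸ arcOrd n B) := by
  classical
  have hfin : Finite {α : Fin n →₀ ℕ | α.degree < B} := Finsupp.finite_of_degree_lt B
  let L : MvPowerSeries (Fin n) ℂ →ₗ[ℂ] ({α : Fin n →₀ ℕ | α.degree < B} → ℂ) :=
    LinearMap.pi (fun α => MvPowerSeries.coeff α.1)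
  have hker : LinearMap.ker L = (arcOrd n B).restrictScalars ℂ := by
    ext g
    rw [LinearMap.mem_ker, Submodule.restrictScalars_mem, mem_arcOrd]
    constructor
    · intro h α hα
      have := congrFun h ⟨α, hα⟩
      simpa [L] using this
    · intro h
      funext α
      simpa [L] using h α.1 α.2
  have h1 : Module.Finite ℂ (MvPowerSeries (Fin n) ℂ ⧸ LinearMap.ker L) := by
    have e := L.quotKerEquivRange
    exact Module.Finite.equiv e.symm
  rw [hker] at h1
  exact h1

/-- formal curve selection (JEB) -/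
theorem exists_arc {n : ℕ} (J : Ideal (MvPowerSeries (Fin n) ℂ))
    (hJ : ∀ B : ℕ, ∃ g : MvPowerSeries (Fin n) ℂ, (∀ α : Fin n →₀ ℕ, α.degree < B →
      MvPowerSeries.coeff α g = 0) ∧ g ∉ J) :
    ∃ Ψ : MvPowerSeries (Fin n) ℂ →ₐ[ℂ] PowerSeries ℂ, (∀ g ∈ J, Ψ g = 0) ∧
      (∀ j, PowerSeries.constantCoeff (Ψ (MvPowerSeries.X j)) = 0) ∧
      (∃ j, Ψ (MvPowerSeries.X j) ≠ 0) ∧
      (∀ (g : MvPowerSeries (Fin n) ℂ) (B : ℕ), (∀ α : Fin n →₀ ℕ, α.degree < B →
        MvPowerSeries.coeff α g = 0) → ∀ i < B, PowerSeries.coeff i (Ψ g) = 0) := by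
  classical
  -- Zorn
  let S : Set (Ideal (MvPowerSeries (Fin n) ℂ)) := {Q | ∀ B, ¬ arcOrd n B ≤ Q}
  have hJS : J ∈ S := by
    intro B hle
    obtain ⟨g, hg, hgJ⟩ := hJ B
    exact hgJ (hle hg)
  obtain ⟨P, hJP, hPmax⟩ := zorn_le_nonempty₀ S (by
    intro c hc hchain y hy
    refine ⟨sSup c, ?_, fun z hz => le_sSup hz⟩
    intro B hle
    obtain ⟨s, hs⟩ := arcOrd_fg n B
    have hmem : ∀ x ∈ s, ∃ Q ∈ c, x ∈ Q := by
      intro x hx
      have : x ∈ sSup c := hle (hs ▸ Submodule.subset_span hx)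
      exact (Submodule.mem_sSup_of_directed ⟨y, hy⟩ hchain.directedOn).mp this
    have hall : ∃ Q ∈ c, ∀ x ∈ s, x ∈ Q := by
      clear hs
      induction s using Finset.induction_on with
      | empty => exact ⟨y, hy, by simp⟩
      | insert a s _ ih =>
        obtain ⟨Q, hQ, hQs⟩ := ih (fun x hx => hmem x (Finset.mem_insert_of_mem hx))
        obtain ⟨R, hR, haR⟩ := hmem a (Finset.mem_insert_self _ _)
        rcases hchain.total hQ hR with h | h
        · refine ⟨R, hR, fun x hx => ?_⟩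
          rcases Finset.mem_insert.mp hx with rfl | hx
          · exact haR
          · exact h (hQs x hx)
        · refine ⟨Q, hQ, fun x hx => ?_⟩
          rcases Finset.mem_insert.mp hx with rfl | hx
          · exact h haR
          · exact hQs x hx
    obtain ⟨Q, hQ, hQs⟩ := hall
    apply hc hQ B
    rw [← hs]
    exact Submodule.span_le.mpr hQs) J hJS
  have hPS : P ∈ S := hPmax.prop
  have hbig : ∀ Q : Ideal (MvPowerSeries (Fin n) ℂ), P < Q → ∃ B, arcOrd n B ≤ Q := by
    intro Q hQ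
    by_contra hcon
    push Not at hcon
    have := hPmax.le_of_ge (y := Q) hcon hQ.le
    exact hQ.not_ge this
  have hPne : P ≠ ⊤ := by
    intro h
    exact hPS 0 (h ▸ le_top)
  have hlt : ∀ a, a ∉ P → ∃ B, arcOrd n B ≤ P ⊔ Ideal.span {a} := by
    intro a ha
    apply hbig
    refine lt_of_le_of_ne le_sup_left ?_
    intro h
    apply ha
    rw [h]
    exact Ideal.mem_sup_right (Ideal.mem_span_singleton_self a)
  have hPprime : P.IsPrime := by
    rw [Ideal.isPrime_iff]
    refine ⟨hPne, ?_⟩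
    intro a b hab
    by_contra hcon
    push Not at hcon
    obtain ⟨B, hB⟩ := hlt a hcon.1
    obtain ⟨C, hC⟩ := hlt b hcon.2
    apply hPS (B + C)
    have h1 : arcOrd n (B + C) = arcOrd n B * arcOrd n C := by
      rw [arcOrd_eq_pow n (B + C), pow_add, ← arcOrd_eq_pow, ← arcOrd_eq_pow]
    rw [h1]
    refine le_trans (Ideal.mul_mono hB hC) ?_
    rw [Ideal.mul_le]
    intro x hx y hy
    obtain ⟨p, hp, u, hu, rfl⟩ := Submodule.mem_sup.mp hx
    obtain ⟨q, hq, v, hv, rfl⟩ := Submodule.mem_sup.mp hy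
    obtain ⟨c, rfl⟩ := Ideal.mem_span_singleton'.mp hu
    obtain ⟨d, rfl⟩ := Ideal.mem_span_singleton'.mp hv
    have : (p + c * a) * (q + d * b) = p * (q + d * b) + (c * a) * q + (c * d) * (a * b) := by ring
    rw [this]
    exact P.add_mem (P.add_mem (P.mul_mem_right _ hp) (P.mul_mem_left _ hq)) (P.mul_mem_left _ hab)
  have hPP := hPprime
  have hnt : Nontrivial (MvPowerSeries (Fin n) ℂ ⧸ P) := Ideal.Quotient.nontrivial_iff.mpr hPne
  have hlocr : IsLocalRing (MvPowerSeries (Fin n) ℂ ⧸ P) :=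
    IsLocalRing.of_surjective' (Ideal.Quotient.mk P) Ideal.Quotient.mk_surjective
  have hmk : ∀ x ∈ arcOrd n 1, (Ideal.Quotient.mk P x) ∈
      IsLocalRing.maximalIdeal (MvPowerSeries (Fin n) ℂ ⧸ P) := by
    intro x hx
    rw [IsLocalRing.mem_maximalIdeal, mem_nonunits_iff]
    intro hu
    have hloc : IsLocalHom (Ideal.Quotient.mk P) :=
      IsLocalHom.of_surjective _ Ideal.Quotient.mk_surjective
    have hux := hloc.map_nonunit x hu
    rw [← arcOrd_maximal, IsLocalRing.mem_maximalIdeal, mem_nonunits_iff] at hx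
    exact hx hux
  obtain ⟨Ψ0, hinj, hc⟩ := exists_hom_powerSeries (MvPowerSeries (Fin n) ℂ ⧸ P) (by
    intro b hb
    obtain ⟨b', rfl⟩ := Ideal.Quotient.mk_surjective b
    have hb' : b' ∉ P := fun h => hb (Ideal.Quotient.eq_zero_iff_mem.mpr h)
    obtain ⟨B, hB⟩ := hlt b' hb'
    have hfinB := arcOrd_finite n B
    let f : MvPowerSeries (Fin n) ℂ →ₐ[ℂ]
        ((MvPowerSeries (Fin n) ℂ ⧸ P) ⧸ Ideal.span {Ideal.Quotient.mk P b'}) :=
      (Ideal.Quotient.mkₐ ℂ _).comp (Ideal.Quotient.mkₐ ℂ P)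
    have hf : ∀ a ∈ arcOrd n B, f a = 0 := by
      intro a ha
      obtain ⟨p, hp, u, hu, rfl⟩ := Submodule.mem_sup.mp (hB ha)
      obtain ⟨c, rfl⟩ := Ideal.mem_span_singleton'.mp hu
      change Ideal.Quotient.mk _ (Ideal.Quotient.mk P (p + c * b')) = 0
      rw [map_add, Ideal.Quotient.eq_zero_iff_mem.mpr hp, zero_add, map_mul,
        Ideal.Quotient.eq_zero_iff_mem]
      exact Ideal.mul_mem_left _ _ (Ideal.mem_span_singleton_self _)
    have hfs : Function.Surjective f :=
      (Ideal.Quotient.mkₐ_surjective ℂ _).comp (Ideal.Quotient.mkₐ_surjective ℂ P)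
    have hls : Function.Surjective (Ideal.Quotient.liftₐ (arcOrd n B) f hf) := by
      intro y
      obtain ⟨x, hx⟩ := hfs y
      exact ⟨Ideal.Quotient.mk _ x, hx⟩
    exact Module.Finite.of_surjective (Ideal.Quotient.liftₐ (arcOrd n B) f hf).toLinearMap hls) (by
    intro hbot
    apply hPS 1
    intro x hx
    have := hmk x hx
    rw [hbot, Ideal.mem_bot] at this
    exact Ideal.Quotient.eq_zero_iff_mem.mp this)
  have hcc : ∀ x ∈ arcOrd n 1, PowerSeries.constantCoeff (Ψ0 (Ideal.Quotient.mk P x)) = 0 :=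
    fun x hx => hc _ (hmk x hx)
  refine ⟨Ψ0.comp (Ideal.Quotient.mkₐ ℂ P), ?_, ?_, ?_, ?_⟩
  · intro g hg
    change Ψ0 (Ideal.Quotient.mk P g) = 0
    rw [Ideal.Quotient.eq_zero_iff_mem.mpr (hJP hg), map_zero]
  · intro j
    exact hcc _ (arcOrd_X j)
  · by_contra hcon
    push Not at hcon
    apply hPS 1
    rw [arcOrd_one, Ideal.span_le]
    rintro _ ⟨j, rfl⟩
    have h := hcon j
    change Ψ0 (Ideal.Quotient.mk P (MvPowerSeries.X j)) = 0 at h
    rw [← map_zero Ψ0] at h
    exact Ideal.Quotient.eq_zero_iff_mem.mp (hinj h)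
  · intro g B hg i hi
    change g ∈ arcOrd n B at hg
    rw [arcOrd_eq_pow] at hg
    have h1 : arcOrd n 1 ≤ Ideal.comap (Ψ0.comp (Ideal.Quotient.mkₐ ℂ P)).toRingHom
        (Ideal.span {(PowerSeries.X : PowerSeries ℂ)}) := by
      intro x hx
      rw [Ideal.mem_comap, Ideal.mem_span_singleton, PowerSeries.X_dvd_iff]
      exact hcc x hx
    have h2 := Ideal.pow_right_mono h1 B hg
    have h3 := Ideal.le_comap_pow _ B h2
    rw [Ideal.mem_comap, Ideal.span_singleton_pow, Ideal.mem_span_singleton,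
      PowerSeries.X_pow_dvd_iff] at h3
    exact h3 i hi



end KI
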