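import Pool.Agent.KI.Defs
import Pool.Agent.DAng.Base

open scoped ContDiff Topology BigOperators
open Finset Asymptotics

namespace KI
open DAng (Wd)

variable {n : ℕ} {x₀ : Cn n}

/-- bordered Levi matrix: columns `α_1, …, α_j, ρ` and the columns `K l` of the matrix `ω`; the last
row is `(0, …, 0, β_{K l})` -/
def bmat {F : Type*} [CommRing F] {n j m : ℕ} (α : Fin j → Fin n → F) (ρ β : Fin n → F)
    (ω' : Fin n → Fin n → F) (K : Fin (m + 1) → Fin n) :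
    Matrix (Fin n ⊕ Unit) ((Fin j ⊕ Unit) ⊕ Fin (m + 1)) F := Matrix.of fun row col =>
  match row, col with
  | Sum.inl k, Sum.inl (Sum.inl i) => α i k
  | Sum.inl k, Sum.inl (Sum.inr _) => ρ k
  | Sum.inl k, Sum.inr l => ω' k (K l)
  | Sum.inr _, Sum.inl _ => 0
  | Sum.inr _, Sum.inr l => β (K l)

/-- bordered Levi determinant as a function -/
noncomputable def bdet (r : Cn n → ℂ) {j m : ℕ} (f : Fin j → Cn n → ℂ) (K : Fin (m + 1) → Fin n)
    (e : (Fin n ⊕ Unit) ≃ ((Fin j ⊕ Unit) ⊕ Fin (m + 1))) : Cn n → ℂ := fun x =>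
  ((bmat (fun i k => dZ k (f i) x) (fun k => dZ k r x) (fun k => dZb k r x)
    (fun k l => dZ k (dZb l r) x) K).submatrix id e).det

/-- the ideal generated by all of Kohn's ideals -/
structure KUnion (r : Cn n → ℝ) (I : Ideal (SmR x₀)) : Prop where
  ne_top : I ≠ ⊤
  rad : ∀ f ∈ I, ∀ g : SmR x₀, ∀ m : ℕ, 1 ≤ m →
    (∀ᶠ x in 𝓝 x₀, ‖(g : Cn n → ℂ) x‖ ^ m ≤ ‖(f : Cn n → ℂ) x‖) → g ∈ I
  memr : ∀ g : SmR x₀, (g : Cn n → ℂ) = toC r → g ∈ I
  det : ∀ j m : ℕ, j + 1 + m = n → ∀ f : Fin j → SmR x₀, (∀ i, f i ∈ I) →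
    ∀ (K : Fin (m + 1) → Fin n) (e : (Fin n ⊕ Unit) ≃ ((Fin j ⊕ Unit) ⊕ Fin (m + 1))),
    ∀ g : SmR x₀, (g : Cn n → ℂ) = bdet (toC r) (fun i => (f i : Cn n → ℂ)) K e → g ∈ I

/-- derivative along `L = ∑ a_i ∂/∂z_i` (`true`) or along `L̄` (`false`) -/
noncomputable def LV (a : Cn n → Fin n → ℂ) : Bool → (Cn n → ℂ) → Cn n → ℂ
  | true, f => fun x => ∑ i, a x i * dZ i f x
  | false, f => fun x => ∑ i, (starRingEnd ℂ) (a x i) * dZb i f x

/-- iterated derivatives; the head of the word acts first -/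
noncomputable def opV (a : Cn n → Fin n → ℂ) : Wd → (Cn n → ℂ) → Cn n → ℂ
  | [], f => f
  | b :: w, f => opV a w (LV a b f)

/-- the Levi form of `r` on the field `L = ∑ a_i ∂/∂z_i` -/
noncomputable def leviV (r : Cn n → ℂ) (a : Cn n → Fin n → ℂ) : Cn n → ℂ := fun x =>
  ∑ i, ∑ j, dZ i (dZb j r) x * a x i * (starRingEnd ℂ) (a x j)

end KI
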