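import Pool.Agent.KI.EDefs
import Pool.Agent.KI.Tay2
import Pool.Agent.KI.Arc

open scoped ContDiff Topology BigOperators
open Finset Asymptotics

namespace KI
open DAng

variable {n : ℕ} {p x₀ : E (n + n)}



/-- the pairing of functionals and power series -/
noncomputable def kvPr (g : MvPowerSeries (Fin n) ℂ) : Fnl n →ₗ[ℂ] ℂ :=
  Finsupp.linearCombination ℂ (fun α => MvPowerSeries.coeff α g)

lemma kvPr_apply (g : MvPowerSeries (Fin n) ℂ) (w : Fnl n) :
    kvPr g w = w.sum fun α c => c * MvPowerSeries.coeff α g := by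
  simp [kvPr, Finsupp.linearCombination_apply]

lemma kvPr_single (g : MvPowerSeries (Fin n) ℂ) (α : Fin n →₀ ℕ) (c : ℂ) :
    kvPr g (Finsupp.single α c) = c * MvPowerSeries.coeff α g := by
  simp [kvPr]

lemma kvPr_add (g h : MvPowerSeries (Fin n) ℂ) (w : Fnl n) :
    kvPr (g + h) w = kvPr g w + kvPr h w := by
  simp only [kvPr_apply, Finsupp.sum, map_add, mul_add, Finset.sum_add_distrib]

lemma kvPr_zero (w : Fnl n) : kvPr (0 : MvPowerSeries (Fin n) ℂ) w = 0 := by
  simp [kvPr_apply]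

lemma kvPr_C_mul (a : ℂ) (g : MvPowerSeries (Fin n) ℂ) (w : Fnl n) :
    kvPr (MvPowerSeries.C a * g) w = a * kvPr g w := by
  simp only [kvPr_apply, Finsupp.sum, MvPowerSeries.coeff_C_mul, Finset.mul_sum]
  exact Finset.sum_congr rfl fun _ _ => by ring

lemma kvContr_apply (j : Fin n) (w : Fnl n) (α : Fin n →₀ ℕ) :
    contr j w α = w (α + Finsupp.single j 1) := rfl

lemma kvContr_add (j : Fin n) (w w' : Fnl n) : contr j (w + w') = contr j w + contr j w' := by
  ext α
  rfl

lemma kvContr_zero (j : Fin n) : contr j (0 : Fnl n) = 0 := by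
  ext α
  rfl

lemma kvPr_X_mul (j : Fin n) (g : MvPowerSeries (Fin n) ℂ) (w : Fnl n) :
    kvPr (MvPowerSeries.X j * g) w = kvPr g (contr j w) := by
  classical
  induction w using Finsupp.induction_linear with
  | zero => rw [kvContr_zero, map_zero, map_zero]
  | add f g' hf hg => rw [kvContr_add, map_add, map_add, hf, hg]
  | single α c =>
    rw [kvPr_single, MvPowerSeries.X, MvPowerSeries.coeff_monomial_mul]
    by_cases h : Finsupp.single j 1 ≤ α
    · have : contr j (Finsupp.single α c) = Finsupp.single (α - Finsupp.single j 1) c := by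
        ext β
        rw [kvContr_apply, Finsupp.single_apply, Finsupp.single_apply]
        congr 1
        apply propext
        constructor
        · intro e; rw [e]; simp
        · intro e; rw [← e]; exact (tsub_add_cancel_of_le h).symm
      rw [this, kvPr_single, if_pos h, one_mul]
    · have : contr j (Finsupp.single α c) = 0 := by
        ext β
        rw [kvContr_apply, Finsupp.single_apply, Finsupp.coe_zero, Pi.zero_apply,
          ite_eq_right_iff]
        intro e
        exact absurd (by rw [e]; exact le_add_self) h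
      rw [this, map_zero, if_neg h, mul_zero]

lemma kvPr_eq_zero (g : MvPowerSeries (Fin n) ℂ) (w : Fnl n)
    (h : ∀ α ∈ w.support, MvPowerSeries.coeff α g = 0) : kvPr g w = 0 := by
  rw [kvPr_apply, Finsupp.sum]
  exact Finset.sum_eq_zero fun α hα => by rw [h α hα, mul_zero]

/-- polynomial multiples -/
lemma kvPr_poly (W : Submodule ℂ (Fnl n)) (h1 : ∀ w ∈ W, ∀ j, contr j w ∈ W)
    (P : MvPolynomial (Fin n) ℂ) : ∀ g : MvPowerSeries (Fin n) ℂ, (∀ w ∈ W, kvPr g w = 0) →
      ∀ w ∈ W, kvPr ((P : MvPowerSeries (Fin n) ℂ) * g) w = 0 := by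
  induction P using MvPolynomial.induction_on with
  | C a =>
    intro g hg w hw
    rw [MvPolynomial.coe_C, kvPr_C_mul, hg w hw, mul_zero]
  | add p q hp hq =>
    intro g hg w hw
    rw [MvPolynomial.coe_add, add_mul, kvPr_add, hp g hg w hw, hq g hg w hw, add_zero]
  | mul_X p j hp =>
    intro g hg w hw
    rw [MvPolynomial.coe_mul, MvPolynomial.coe_X, mul_assoc]
    exact hp _ (fun w hw => by rw [kvPr_X_mul]; exact hg _ (h1 w hw j)) w hw

lemma kv_exists_bound (w : Fnl n) : ∃ D : Fin n →₀ ℕ, ∀ α ∈ w.support, α ≤ D := by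
  classical
  exact ⟨w.support.sup id, fun α hα => Finset.le_sup (f := id) hα⟩

lemma kv_coeff_sub_trunc (D : Fin n →₀ ℕ) (h : MvPowerSeries (Fin n) ℂ) (α : Fin n →₀ ℕ)
    (hα : α ≤ D) : MvPowerSeries.coeff α
      (h - ((MvPowerSeries.trunc' ℂ D h : MvPolynomial (Fin n) ℂ) : MvPowerSeries (Fin n) ℂ)) = 0 := by
  classical
  rw [map_sub, MvPolynomial.coeff_coe, MvPowerSeries.coeff_trunc', if_pos hα, sub_self]

/-- multiples by power series -/
lemma kvPr_mul (W : Submodule ℂ (Fnl n)) (h1 : ∀ w ∈ W, ∀ j, contr j w ∈ W)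
    (h g : MvPowerSeries (Fin n) ℂ) (hg : ∀ w ∈ W, kvPr g w = 0) :
      ∀ w ∈ W, kvPr (h * g) w = 0 := by
  classical
  intro w hw
  obtain ⟨D, hD⟩ := kv_exists_bound w
  set P : MvPolynomial (Fin n) ℂ := MvPowerSeries.trunc' ℂ D h with hP
  have e : h * g = (P : MvPowerSeries (Fin n) ℂ) * g + (h - (P : MvPowerSeries (Fin n) ℂ)) * g := by
    ring
  rw [e, kvPr_add, kvPr_poly W h1 P g hg w hw, zero_add]
  apply kvPr_eq_zero
  intro α hα
  rw [MvPowerSeries.coeff_mul]
  apply Finset.sum_eq_zero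
  intro x hx
  have hx1 : x.1 ≤ D := by
    refine le_trans ?_ (hD α hα)
    rw [Finset.HasAntidiagonal.mem_antidiagonal] at hx
    rw [← hx]; exact le_self_add
  rw [hP, kv_coeff_sub_trunc D h x.1 hx1, zero_mul]

/-- the annihilator ideal -/
noncomputable def kvJ (W : Submodule ℂ (Fnl n)) (h1 : ∀ w ∈ W, ∀ j, contr j w ∈ W) :
    Ideal (MvPowerSeries (Fin n) ℂ) where
  carrier := {g | ∀ w ∈ W, kvPr g w = 0}
  add_mem' := by
    intro a b ha hb w hw
    rw [kvPr_add, ha w hw, hb w hw, add_zero]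
  zero_mem' := fun w _ => kvPr_zero w
  smul_mem' := by
    intro c g hg
    exact kvPr_mul W h1 c g hg

lemma kv_mem_J (W : Submodule ℂ (Fnl n)) (h1 : ∀ w ∈ W, ∀ j, contr j w ∈ W)
    (g : MvPowerSeries (Fin n) ℂ) : g ∈ kvJ W h1 ↔ ∀ w ∈ W, kvPr g w = 0 := Iff.rfl

section arc
variable (Ψ : MvPowerSeries (Fin n) ℂ →ₐ[ℂ] PowerSeries ℂ)

lemma kv_psi_monomial (α : Fin n →₀ ℕ) :
    Ψ (MvPowerSeries.monomial α 1) = ∏ i, (Ψ (MvPowerSeries.X i)) ^ (α i) := by
  rw [MvPowerSeries.monomial_one_eq, map_finsuppProd, Finsupp.prod_fintype]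
  · exact Finset.prod_congr rfl fun i _ => by rw [map_pow]
  · intro i; rw [pow_zero, map_one]

lemma kv_finite_degree (i : ℕ) : {α : Fin n →₀ ℕ | α.degree ≤ i}.Finite := by
  classical
  refine (Set.finite_Iic (Finsupp.equivFunOnFinite.symm (fun _ : Fin n => i))).subset ?_
  intro α hα
  rw [Set.mem_Iic]
  intro j
  have : α j ≤ α.degree := Finsupp.le_degree j α
  exact le_trans this hα

variable (hdeg : ∀ (g : MvPowerSeries (Fin n) ℂ) (B : ℕ), (∀ α : Fin n →₀ ℕ, α.degree < B →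
        MvPowerSeries.coeff α g = 0) → ∀ i < B, PowerSeries.coeff i (Ψ g) = 0)

include hdeg in
lemma kv_coeff_zero (i : ℕ) (α : Fin n →₀ ℕ) (h : i < α.degree) :
    PowerSeries.coeff i (Ψ (MvPowerSeries.monomial α 1)) = 0 := by
  classical
  refine hdeg _ α.degree ?_ i h
  intro β hβ
  rw [MvPowerSeries.coeff_monomial, if_neg]
  rintro rfl
  exact lt_irrefl _ hβ

/-- the functional `g ↦ coeff i (Ψ g)` -/
noncomputable def kvf (i : ℕ) : Fnl n :=
  Finsupp.ofSupportFinite (fun α => PowerSeries.coeff i (Ψ (MvPowerSeries.monomial α 1)))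
    ((kv_finite_degree (n := n) i).subset (by
      intro α hα
      by_contra hc
      simp only [Set.mem_setOf_eq, not_le] at hc
      exact hα (kv_coeff_zero Ψ hdeg i α hc)))

lemma kvf_apply (i : ℕ) (α : Fin n →₀ ℕ) :
    kvf Ψ hdeg i α = PowerSeries.coeff i (Ψ (MvPowerSeries.monomial α 1)) := rfl

lemma kvf_degree (i : ℕ) (α : Fin n →₀ ℕ) (h : α ∈ (kvf Ψ hdeg i).support) : α.degree ≤ i := by
  by_contra hc
  rw [Finsupp.mem_support_iff, kvf_apply] at h
  exact h (kv_coeff_zero Ψ hdeg i α (not_le.1 hc))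

lemma kv_coe_poly (P : MvPolynomial (Fin n) ℂ) : (P : MvPowerSeries (Fin n) ℂ) =
    ∑ α ∈ P.support, P.coeff α • MvPowerSeries.monomial α (1 : ℂ) := by
  classical
  ext β
  rw [MvPolynomial.coeff_coe, map_sum]
  simp only [map_smul, MvPowerSeries.coeff_monomial, smul_eq_mul, mul_ite, mul_one, mul_zero]
  rw [Finset.sum_ite_eq]
  split_ifs with h
  · rfl
  · rwa [MvPolynomial.mem_support_iff, not_not] at h

lemma kvPr_monomial (w : Fnl n) (α : Fin n →₀ ℕ) :
    kvPr (MvPowerSeries.monomial α (1 : ℂ)) w = w α := by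
  classical
  rw [kvPr_apply, Finsupp.sum]
  simp only [MvPowerSeries.coeff_monomial, mul_ite, mul_one, mul_zero]
  rw [Finset.sum_ite_eq']
  split_ifs with h
  · rfl
  · rw [Finsupp.notMem_support_iff] at h; exact h.symm

lemma kvPr_smul (a : ℂ) (g : MvPowerSeries (Fin n) ℂ) (w : Fnl n) :
    kvPr (a • g) w = a * kvPr g w := by
  simp only [kvPr_apply, Finsupp.sum, map_smul, Finset.mul_sum, smul_eq_mul]
  exact Finset.sum_congr rfl fun _ _ => by ring

lemma kvPr_sum {ι : Type*} (s : Finset ι) (g : ι → MvPowerSeries (Fin n) ℂ) (w : Fnl n) :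
    kvPr (∑ i ∈ s, g i) w = ∑ i ∈ s, kvPr (g i) w := by
  classical
  induction s using Finset.induction_on with
  | empty => simp [kvPr_zero]
  | insert a s ha ih => rw [Finset.sum_insert ha, Finset.sum_insert ha, kvPr_add, ih]

lemma kvPr_f (i : ℕ) (g : MvPowerSeries (Fin n) ℂ) :
    kvPr g (kvf Ψ hdeg i) = PowerSeries.coeff i (Ψ g) := by
  classical
  set D : Fin n →₀ ℕ := Finsupp.equivFunOnFinite.symm (fun _ : Fin n => i) with hD
  have hle : ∀ α : Fin n →₀ ℕ, α.degree ≤ i → α ≤ D := by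
    intro α hα j
    exact le_trans (Finsupp.le_degree j α) hα
  set P : MvPolynomial (Fin n) ℂ := MvPowerSeries.trunc' ℂ D g with hP
  have e : g = (P : MvPowerSeries (Fin n) ℂ) + (g - (P : MvPowerSeries (Fin n) ℂ)) := by ring
  have h1 : kvPr (g - (P : MvPowerSeries (Fin n) ℂ)) (kvf Ψ hdeg i) = 0 := by
    apply kvPr_eq_zero
    intro α hα
    exact kv_coeff_sub_trunc D g α (hle α (kvf_degree Ψ hdeg i α hα))
  have h2 : PowerSeries.coeff i (Ψ (g - (P : MvPowerSeries (Fin n) ℂ))) = 0 := by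
    refine hdeg _ (i + 1) ?_ i (Nat.lt_succ_self i)
    intro α hα
    exact kv_coeff_sub_trunc D g α (hle α (Nat.lt_succ_iff.1 hα))
  have h3 : kvPr (P : MvPowerSeries (Fin n) ℂ) (kvf Ψ hdeg i) =
      PowerSeries.coeff i (Ψ (P : MvPowerSeries (Fin n) ℂ)) := by
    rw [kv_coe_poly P, kvPr_sum, map_sum, map_sum]
    refine Finset.sum_congr rfl fun α _ => ?_
    rw [kvPr_smul, kvPr_monomial, map_smul, map_smul, kvf_apply, smul_eq_mul]
  rw [e, kvPr_add, map_add, map_add, h1, h2, h3]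

end arc

/-- from the space of functionals to a formal curve on which the Taylor series of `r` vanishes (JEC) -/
theorem exists_curve {r : CF (n + n)} (W : Submodule ℂ (Fnl n))
    (h1 : ∀ w ∈ W, ∀ j, contr j w ∈ W)
    (h2 : ∀ B : ℕ, ∃ w ∈ W, ∃ α : Fin n →₀ ℕ, B ≤ α.degree ∧ w α ≠ 0)
    (h3 : ∀ w ∈ W, ∀ w' ∈ W, ∀ N : ℕ, (∀ α ∈ w.support, ∀ β ∈ w'.support,
        α.degree + β.degree + 3 ≤ N) → tform r x₀ N w w' = 0) :
    ∃ γ : Fin n → PowerSeries ℂ, (∀ j, PowerSeries.constantCoeff (γ j) = 0) ∧ (∃ j, γ j ≠ 0) ∧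
      ∀ (a b N : ℕ), a + b + 3 ≤ N → ∑ e ∈ (tay N r x₀).support, (tay N r x₀).coeff e *
        PowerSeries.coeff a (∏ i, γ i ^ e (Sum.inl i)) *
        (starRingEnd ℂ) (PowerSeries.coeff b (∏ i, γ i ^ e (Sum.inr i))) = 0 := by
  classical
  obtain ⟨Ψ, hΨ, hc, hne, hdeg⟩ := exists_arc (kvJ W h1) (by
    intro B
    obtain ⟨w, hw, α, hα, hwα⟩ := h2 B
    refine ⟨MvPowerSeries.monomial α 1, ?_, ?_⟩
    · intro β hβ
      rw [MvPowerSeries.coeff_monomial, if_neg]
      rintro rfl
      omega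
    · intro hmem
      apply hwα
      rw [← kvPr_monomial]
      exact (kv_mem_J W h1 _).1 hmem w hw)
  refine ⟨fun j => Ψ (MvPowerSeries.X j), hc, hne, ?_⟩
  -- the functionals `f_i` lie in `W`
  have hf : ∀ i, kvf Ψ hdeg i ∈ W := by
    intro i
    by_contra hcon
    obtain ⟨Λ, hΛ, hW⟩ := Submodule.exists_le_ker_of_notMem hcon
    set g : MvPowerSeries (Fin n) ℂ := fun α => Λ (Finsupp.single α 1) with hg
    have hgc : ∀ α, MvPowerSeries.coeff α g = Λ (Finsupp.single α 1) := fun α => rfl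
    have hpr : ∀ w : Fnl n, kvPr g w = Λ w := by
      intro w
      induction w using Finsupp.induction_linear with
      | zero => rw [map_zero, map_zero]
      | add f g' hf hg => rw [map_add, map_add, hf, hg]
      | single α c =>
        rw [kvPr_single, hgc, ← smul_eq_mul, ← map_smul, Finsupp.smul_single, smul_eq_mul, mul_one]
    have hmem : g ∈ kvJ W h1 := by
      rw [kv_mem_J]
      intro w hw
      rw [hpr]
      exact hW hw
    apply hΛ
    rw [← hpr, kvPr_f, hΨ g hmem, map_zero]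
  intro a b N hN
  have h := h3 _ (hf a) _ (hf b) N (by
    intro α hα β hβ
    have := kvf_degree Ψ hdeg a α hα
    have := kvf_degree Ψ hdeg b β hβ
    omega)
  unfold tform at h
  set fa := kvf Ψ hdeg a with hfa
  set fb := kvf Ψ hdeg b with hfb
  rw [Finsupp.sum] at h
  simp only [Finsupp.sum] at h
  rw [← Finset.sum_product'] at h
  -- the term as a function of the exponent
  set F : (Fin n ⊕ Fin n →₀ ℕ) → ℂ := fun e => (tay N r x₀).coeff e *
        PowerSeries.coeff a (∏ i, Ψ (MvPowerSeries.X i) ^ e (Sum.inl i)) *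
        (starRingEnd ℂ) (PowerSeries.coeff b (∏ i, Ψ (MvPowerSeries.X i) ^ e (Sum.inr i))) with hF
  have hFe : ∀ α β : Fin n →₀ ℕ, F (Finsupp.sumElim α β) =
      (tay N r x₀).coeff (Finsupp.sumElim α β) * fa α * (starRingEnd ℂ) (fb β) := by
    intro α β
    simp only [hF, Finsupp.sumElim_inl, Finsupp.sumElim_inr]
    rw [hfa, hfb, kvf_apply, kvf_apply, kv_psi_monomial, kv_psi_monomial]
  have hinj : Function.Injective (fun x : (Fin n →₀ ℕ) × (Fin n →₀ ℕ) => Finsupp.sumElim x.1 x.2) :=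
    Finsupp.sumFinsuppEquivProdFinsupp.symm.injective
  have hsurj : Function.Surjective (fun x : (Fin n →₀ ℕ) × (Fin n →₀ ℕ) => Finsupp.sumElim x.1 x.2) :=
    Finsupp.sumFinsuppEquivProdFinsupp.symm.surjective
  have h' : ∑ e ∈ (fa.support ×ˢ fb.support).image
      (fun x : (Fin n →₀ ℕ) × (Fin n →₀ ℕ) => Finsupp.sumElim x.1 x.2), F e = 0 := by
    rw [Finset.sum_image (fun x _ y _ hxy => hinj hxy), ← h]
    exact Finset.sum_congr rfl fun x _ => hFe x.1 x.2
  show ∑ e ∈ (tay N r x₀).support, F e = 0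
  set S := (fa.support ×ˢ fb.support).image
      (fun x : (Fin n →₀ ℕ) × (Fin n →₀ ℕ) => Finsupp.sumElim x.1 x.2) with hS
  have e1 : ∑ e ∈ (tay N r x₀).support, F e = ∑ e ∈ (tay N r x₀).support ∪ S, F e := by
    apply Finset.sum_subset Finset.subset_union_left
    intro e _ he
    rw [MvPolynomial.mem_support_iff, not_not] at he
    simp only [hF, he, zero_mul]
  have e2 : ∑ e ∈ S, F e = ∑ e ∈ (tay N r x₀).support ∪ S, F e := by
    apply Finset.sum_subset Finset.subset_union_right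
    intro e _ he
    obtain ⟨⟨α, β⟩, rfl⟩ := hsurj e
    rw [hFe]
    by_cases hα : fa α = 0
    · rw [hα, mul_zero, zero_mul]
    · by_cases hβ : fb β = 0
      · rw [hβ, map_zero, mul_zero]
      · exfalso
        apply he
        rw [hS, Finset.mem_image]
        exact ⟨(α, β), Finset.mem_product.2 ⟨Finsupp.mem_support_iff.2 hα,
          Finsupp.mem_support_iff.2 hβ⟩, rfl⟩
  rw [e1, ← e2, h']



end KI
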