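import Mathlib

/-! # Kohn's ideals of subelliptic multipliers and D'Angelo finite type: definitions -/

open scoped ContDiff Topology BigOperators
open Finset Asymptotics

namespace KI

/-- complex coordinate space `ℂⁿ` -/
abbrev Cn (n : ℕ) := Fin n → ℂ

variable {n : ℕ}

/-- the Wirtinger derivative `∂f/∂z_i = (1/2)(∂f/∂x_i - √-1 ∂f/∂y_i)` -/
noncomputable def dZ (i : Fin n) (f : Cn n → ℂ) : Cn n → ℂ := fun x =>
  (1 / 2 : ℂ) * (fderiv ℝ f x (Pi.single i 1) - Complex.I * fderiv ℝ f x (Pi.single i Complex.I))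

/-- the Wirtinger derivative `∂f/∂z̄_i = (1/2)(∂f/∂x_i + √-1 ∂f/∂y_i)` -/
noncomputable def dZb (i : Fin n) (f : Cn n → ℂ) : Cn n → ℂ := fun x =>
  (1 / 2 : ℂ) * (fderiv ℝ f x (Pi.single i 1) + Complex.I * fderiv ℝ f x (Pi.single i Complex.I))

/-- a real valued function regarded as a complex valued one -/
noncomputable def toC (r : Cn n → ℝ) : Cn n → ℂ := fun x => (r x : ℂ)

/-- the ring of complex valued functions that are smooth in a neighbourhood of `x₀` -/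
def SmR (x₀ : Cn n) : Subring (Cn n → ℂ) where
  carrier := {f | ∀ᶠ x in 𝓝 x₀, ContDiffAt ℝ ∞ f x}
  mul_mem' := by
    intro a b ha hb
    filter_upwards [ha, hb] with x h1 h2 using h1.mul h2
  one_mem' := Filter.Eventually.of_forall fun _ => contDiffAt_const
  add_mem' := by
    intro a b ha hb
    filter_upwards [ha, hb] with x h1 h2 using h1.add h2
  zero_mem' := Filter.Eventually.of_forall fun _ => contDiffAt_const
  neg_mem' := by
    intro a ha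
    filter_upwards [ha] with x h1 using h1.neg

/-- The exterior algebra of the space of complex covectors of `ℂⁿ`; the covector `dz_i` is the
basis vector `Sum.inl i` and `dz̄_i` is the basis vector `Sum.inr i`. -/
abbrev Forms (n : ℕ) := ExteriorAlgebra ℂ ((Fin n ⊕ Fin n) → ℂ)

/-- `dz_i` -/
noncomputable def dz (i : Fin n) : Forms n := ExteriorAlgebra.ι ℂ (Pi.single (Sum.inl i) 1)
/-- `dz̄_i` -/
noncomputable def dzb (i : Fin n) : Forms n := ExteriorAlgebra.ι ℂ (Pi.single (Sum.inr i) 1)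

/-- `∂f = ∑ ∂f/∂z_i dz_i` at the point `x` -/
noncomputable def del (f : Cn n → ℂ) (x : Cn n) : Forms n := ∑ i, dZ i f x • dz i
/-- `∂̄f = ∑ ∂f/∂z̄_i dz̄_i` at the point `x` -/
noncomputable def delb (f : Cn n → ℂ) (x : Cn n) : Forms n := ∑ i, dZb i f x • dzb i
/-- `∂∂̄f = ∑ ∂²f/∂z_i∂z̄_j dz_i ∧ dz̄_j` at the point `x` -/
noncomputable def ddb (f : Cn n → ℂ) (x : Cn n) : Forms n :=
  ∑ i, ∑ j, dZ i (dZb j f) x • (dz i * dzb j)

/-- the form `∂f₁ ∧ ⋯ ∧ ∂f_j ∧ ∂r ∧ ∂̄r ∧ (∂∂̄r)^{n-1-j}` at the point `x` -/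
noncomputable def kohnForm (r : Cn n → ℂ) {j : ℕ} (f : Fin j → Cn n → ℂ) (x : Cn n) : Forms n :=
  (List.ofFn fun i => del (f i) x).prod * del r x * delb r x * ddb r x ^ (n - 1 - j)

/-- The coefficients of a field of forms `η`: all functions `x ↦ φ (η x)` with `φ` a linear
functional on the exterior algebra (they are the linear combinations with constant coefficients of
the coefficients with respect to a basis). -/
def coeffs (η : Cn n → Forms n) : Set (Cn n → ℂ) :=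
  {g | ∃ φ : Forms n →ₗ[ℂ] ℂ, ∀ x, g x = φ (η x)}

/-- the real radical of an ideal: all `g` with `|g|^m ≤ |f|` near `x₀` for some `f` in the ideal
and some integer `m ≥ 1` -/
def rrad {x₀ : Cn n} (J : Ideal (SmR x₀)) : Set (SmR x₀) :=
  {g | ∃ f ∈ J, ∃ m : ℕ, 1 ≤ m ∧ ∀ᶠ x in 𝓝 x₀, ‖(g : Cn n → ℂ) x‖ ^ m ≤ ‖(f : Cn n → ℂ) x‖}

/-- Kohn's ideals; `KIdeal r x₀ k` is the ideal `I_{k+1}` of subelliptic multipliers at `x₀`:
`I₁ = rrad (r, coefficients of ∂r ∧ ∂̄r ∧ (∂∂̄r)^{n-1})` and `I_{k+1} = rrad (I_k, A_k)` with `A_k` the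
set of the coefficients of the forms `∂f₁ ∧ ⋯ ∧ ∂f_j ∧ ∂r ∧ ∂̄r ∧ (∂∂̄r)^{n-1-j}`,
`1 ≤ j ≤ n - 1`, `f₁, …, f_j ∈ I_k`. -/
noncomputable def KIdeal (r : Cn n → ℝ) (x₀ : Cn n) : ℕ → Set (SmR x₀)
  | 0 => rrad (Ideal.span {g : SmR x₀ | (g : Cn n → ℂ) = toC r ∨
      (g : Cn n → ℂ) ∈ coeffs (kohnForm (toC r) (Fin.elim0 : Fin 0 → Cn n → ℂ))})
  | k + 1 => rrad (Ideal.span (KIdeal r x₀ k ∪ {g : SmR x₀ | ∃ j : ℕ, 1 ≤ j ∧ j ≤ n - 1 ∧
      ∃ f : Fin j → SmR x₀, (∀ i, f i ∈ KIdeal r x₀ k) ∧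
        (g : Cn n → ℂ) ∈ coeffs (kohnForm (toC r) fun i => (f i : Cn n → ℂ))}))

/-- `{r < 0}` is of finite type in the sense of Kohn at `x₀`: one of the ideals contains `1` -/
def FiniteKohnType (r : Cn n → ℝ) (x₀ : Cn n) : Prop := ∃ k : ℕ, (1 : SmR x₀) ∈ KIdeal r x₀ k

/-- `{r < 0}` has finite D'Angelo type at `x₀`: the quotients `ν(r ∘ γ) / ν(γ)` are bounded, where
`γ` runs over the nonconstant germs of holomorphic curves `γ : (ℂ, 0) → (ℂⁿ, x₀)`; `ν(γ)` is the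
order of vanishing of `γ - x₀` at `0` and `ν(r ∘ γ) ≥ k` means that `r(γ(ζ)) = O(|ζ|^k)`. -/
def FiniteDAngeloType (r : Cn n → ℝ) (x₀ : Cn n) : Prop :=
  ∃ C : ℕ, ∀ γ : ℂ → Cn n, AnalyticAt ℂ γ 0 → γ 0 = x₀ → (¬ ∀ᶠ ζ in 𝓝 (0 : ℂ), γ ζ = x₀) →
    ∀ m k : ℕ, analyticOrderAt (fun ζ => γ ζ - x₀) 0 = m →
      (fun ζ => r (γ ζ)) =O[𝓝 (0 : ℂ)] (fun ζ => ‖ζ‖ ^ k) → k ≤ C * m

/-- the Levi form of `r` at `x` is nonnegative on the complex tangent vectors -/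
def LeviNonneg (r : Cn n → ℝ) (x : Cn n) : Prop :=
  ∀ v : Cn n, ∑ i, dZ i (toC r) x * v i = 0 →
    0 ≤ (∑ i, ∑ j, dZ i (dZb j (toC r)) x * v i * (starRingEnd ℂ) (v j)).re

end KI
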