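import Pool.Agent.DAng.EmbDefs
import Pool.Agent.DAng.Expan

/-! Part D/E: Taylor polynomials in `(z, z̄)` on `E (n + n)` and the complexified defining function -/

open scoped ContDiff Topology BigOperators
open Finset Asymptotics

namespace KI
open DAng

variable {n : ℕ}

/-- Wirtinger derivatives on `E (n + n)`; `Sum.inl i` is `∂/∂z_i`, `Sum.inr i` is `∂/∂z̄_i` where
`z_i = x_i + √-1 x_{n+i}` -/
noncomputable def wd : Fin n ⊕ Fin n → CF (n + n) → CF (n + n)
  | Sum.inl i, f => fun x =>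
      (1 / 2 : ℂ) * (pd (Fin.castAdd n i) f x - Complex.I * pd (Fin.natAdd n i) f x)
  | Sum.inr i, f => fun x =>
      (1 / 2 : ℂ) * (pd (Fin.castAdd n i) f x + Complex.I * pd (Fin.natAdd n i) f x)

/-- the coordinates `z_i - z_i(p)` -/
noncomputable def Zc (p : E (n + n)) (i : Fin n) : CF (n + n) := fun x =>
  ((x (Fin.castAdd n i) - p (Fin.castAdd n i) : ℝ) : ℂ) +
    Complex.I * ((x (Fin.natAdd n i) - p (Fin.natAdd n i) : ℝ) : ℂ)

/-- the point with centred coordinates `u` -/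
noncomputable def shift (p : E (n + n)) (u : Fin n → ℂ) : E (n + n) :=
  fun j => p j + Fin.addCases (fun i => (u i).re) (fun i => (u i).im) j

/-- `j!` times the homogeneous part of degree `j` of the Taylor expansion at `p` -/
noncomputable def tp : ℕ → CF (n + n) → E (n + n) → Pol n
  | 0, f, p => MvPolynomial.C (f p)
  | j + 1, f, p => ∑ a, MvPolynomial.X a * tp j (wd a f) p

/-- Taylor polynomial of order `N` at `p` in the variables `z - p, z̄ - p̄` -/
noncomputable def tay (N : ℕ) (f : CF (n + n)) (p : E (n + n)) : Pol n :=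
  ∑ j ∈ range (N + 1), MvPolynomial.C ((j.factorial : ℂ)⁻¹) * tp j f p

/-- `L z_i`, the holomorphic coefficients of the field `L` -/
noncomputable def cf (L : CVF (n + n)) (i : Fin n) : CF (n + n) := fun x =>
  L x (Fin.castAdd n i) + Complex.I * L x (Fin.natAdd n i)

/-- `L` is of type `(1,0)`: `L z̄_i = 0` -/
def IsHol (L : CVF (n + n)) : Prop :=
  ∀ x, ∀ i : Fin n, L x (Fin.castAdd n i) - Complex.I * L x (Fin.natAdd n i) = 0

/-- the Levi form of `r` on the `(1,0)` vector with coefficients `v` -/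
noncomputable def lev (r : CF (n + n)) (x : E (n + n)) (v : Fin n → ℂ) : ℂ :=
  ∑ i, ∑ j, wd (Sum.inl i) (wd (Sum.inr j) r) x * v i * (starRingEnd ℂ) (v j)

/-- the derivative `∂r(v)` -/
noncomputable def delv (r : CF (n + n)) (x : E (n + n)) (v : Fin n → ℂ) : ℂ :=
  ∑ i, wd (Sum.inl i) r x * v i

/-- the Levi form of `r` on `L` -/
noncomputable def levL (r : CF (n + n)) (L : CVF (n + n)) : CF (n + n) :=
  fun x => lev r x (fun i => cf L i x)

/-- the complexified defining function at the point `p`, on pairs of words -/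
noncomputable def Rr (N : ℕ) (r : CF (n + n)) (L : CVF (n + n)) (p : E (n + n)) (u v : Wd) : ℂ :=
  Rd p L (Zc p) (tay N r p) u v

/-- the standing hypotheses on the defining function -/
structure DefFn (r : CF (n + n)) (x₀ : E (n + n)) : Prop where
  sm : Sm x₀ r
  real : ∀ᶠ x in 𝓝 x₀, (starRingEnd ℂ) (r x) = r x
  zero : r x₀ = 0
  ne : ∃ i, wd (Sum.inl i) r x₀ ≠ 0
  psc : ∀ᶠ x in 𝓝 x₀, r x = 0 → ∀ v : Fin n → ℂ, delv r x v = 0 → 0 ≤ (lev r x v).re

/-- the standing hypotheses on the field -/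
structure FieldHyp (r : CF (n + n)) (x₀ : E (n + n)) (L : CVF (n + n)) : Prop where
  sm : Sm x₀ L
  hol : IsHol L
  tang : act L r =ᶠ[𝓝 x₀] fun _ => 0

/-- the standing hypotheses on the sequence of points -/
structure PtHyp {κ : Type*} (l : Filter κ) (r : CF (n + n)) (x₀ : E (n + n)) (L : CVF (n + n))
    (p : κ → E (n + n)) (δ : κ → ℝ) : Prop where
  tend : Filter.Tendsto p l (𝓝 x₀)
  pos : ∀ᶠ i in l, 0 < δ i
  half : ∀ᶠ i in l, δ i ≤ 1 / 2
  low : ∀ᶠ i in l, ∃ j, δ i ≤ ‖cf L j (p i)‖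
  r0 : ∀ m : ℕ, ∀ᶠ i in l, ‖r (p i)‖ ≤ δ i ^ m
  wr : ∀ (w : Wd) (m : ℕ), ∀ᶠ i in l, ‖op L w (levL r L) (p i)‖ ≤ δ i ^ m

end KI
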