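import Pool.Agent.KI.DefsD
import Pool.Agent.KI.BDefs

open scoped ContDiff Topology BigOperators
open Finset Asymptotics

namespace KI
open DAng

variable {n : ℕ} {p x₀ : E (n + n)}

/-- finite order functionals on `ℂ[[z]]`: `w` is the functional `g ↦ ∑ w α (coefficient of z^α)` -/
abbrev Fnl (n : ℕ) := (Fin n →₀ ℕ) →₀ ℂ

/-- contraction by `z_j`: `(contr j w) α = w (α + e_j)` -/
noncomputable def contr (j : Fin n) (w : Fnl n) : Fnl n :=
  w.comapDomain (fun α => α + Finsupp.single j 1) (fun _ _ _ _ h => add_right_cancel h)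

/-- the hermitian form of the Taylor coefficients of `r` at `x₀` -/
noncomputable def tform (r : CF (n + n)) (x₀ : E (n + n)) (N : ℕ) (w w' : Fnl n) : ℂ :=
  w.sum fun α c => w'.sum fun β c' =>
    (tay N r x₀).coeff (Finsupp.sumElim α β) * c * (starRingEnd ℂ) c'

theorem wf_finite (i : ℕ) (F : (Fin n →₀ ℕ) → ℂ) :
    (Function.support fun α : Fin n →₀ ℕ => if α.degree ≤ i then F α else 0).Finite := by
  refine (Set.finite_Iic (Finsupp.equivFunOnFinite.symm fun _ : Fin n => i)).subset ?_
  intro α hα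
  have h : α.degree ≤ i := by
    by_contra h
    simp [h] at hα
  intro j
  simp only [Finsupp.equivFunOnFinite_symm_apply_apply]
  exact (Finsupp.le_degree j α).trans h

/-- the functional `g ↦ (1/i!) L^i (g(z - p)) (p)`, of order `≤ i` -/
noncomputable def wf (L : CVF (n + n)) (p : E (n + n)) (i : ℕ) : Fnl n :=
  Finsupp.ofSupportFinite (fun α : Fin n →₀ ℕ => if α.degree ≤ i then
    ((i.factorial : ℂ)⁻¹ * op L (List.replicate i true) (fun x => ∏ j, Zc p j x ^ α j) p) else 0)
    (wf_finite i _)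

/-- `ℝ^{2n} → ℂⁿ` -/
noncomputable def toCn (x : E (n + n)) : Cn n := fun i =>
  (x (Fin.castAdd n i) : ℂ) + Complex.I * x (Fin.natAdd n i)

/-- the vector field `∑ a_i ∂/∂z_i` on `E (n + n)` -/
noncomputable def fieldE (a : Cn n → Fin n → ℂ) : CVF (n + n) := fun x =>
  fun j => Fin.addCases (fun i => (1 / 2 : ℂ) * a (toCn x) i)
    (fun i => -(Complex.I / 2 : ℂ) * a (toCn x) i) j

end KI
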