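import Pool.Agent.KI.LinAlg

open scoped ContDiff Topology BigOperators
open Finset Asymptotics

namespace KI
open DAng (Wd)

variable {n : ℕ} {x₀ : Cn n}



section JKEHelpers

theorem jke_fd {E : Type*} [NormedAddCommGroup E] [NormedSpace ℝ E] {f : E → ℂ} {x : E}
    (hf : ContDiffAt ℝ ∞ f x) (v : E) : ContDiffAt ℝ ∞ (fun y => fderiv ℝ f y v) x := by
  have h1 : ContDiffAt ℝ ∞ (fderiv ℝ f) x := hf.fderiv_right (m := ∞) (by simp)
  exact h1.clm_apply contDiffAt_const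

theorem jke_dZ_mem (k : Fin n) (f : SmR x₀) : dZ k (f : Cn n → ℂ) ∈ SmR x₀ := by
  have hf : ∀ᶠ x in 𝓝 x₀, ContDiffAt ℝ ∞ (f : Cn n → ℂ) x := f.2
  show ∀ᶠ x in 𝓝 x₀, ContDiffAt ℝ ∞ (dZ k (f : Cn n → ℂ)) x
  filter_upwards [hf] with x hx
  unfold dZ
  exact contDiffAt_const.mul ((jke_fd hx _).sub (contDiffAt_const.mul (jke_fd hx _)))

theorem jke_dZb_mem (k : Fin n) (f : SmR x₀) : dZb k (f : Cn n → ℂ) ∈ SmR x₀ := by
  have hf : ∀ᶠ x in 𝓝 x₀, ContDiffAt ℝ ∞ (f : Cn n → ℂ) x := f.2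
  show ∀ᶠ x in 𝓝 x₀, ContDiffAt ℝ ∞ (dZb k (f : Cn n → ℂ)) x
  filter_upwards [hf] with x hx
  unfold dZb
  exact contDiffAt_const.mul ((jke_fd hx _).add (contDiffAt_const.mul (jke_fd hx _)))

/-- `dZ` as a map of the ring -/
noncomputable def jkeZ (k : Fin n) (f : SmR x₀) : SmR x₀ := ⟨dZ k (f : Cn n → ℂ), jke_dZ_mem k f⟩
/-- `dZb` as a map of the ring -/
noncomputable def jkeB (k : Fin n) (f : SmR x₀) : SmR x₀ := ⟨dZb k (f : Cn n → ℂ), jke_dZb_mem k f⟩

theorem jke_toC_mem (r : Cn n → ℝ) (hr : ∀ᶠ x in 𝓝 x₀, ContDiffAt ℝ ∞ r x) : toC r ∈ SmR x₀ := by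
  show ∀ᶠ x in 𝓝 x₀, ContDiffAt ℝ ∞ (toC r) x
  filter_upwards [hr] with x hx
  exact Complex.ofRealCLM.contDiff.contDiffAt.comp x hx

theorem jke_fderiv_toC (r : Cn n → ℝ) (hr : DifferentiableAt ℝ r x₀) (v : Cn n) :
    fderiv ℝ (toC r) x₀ v = ((fderiv ℝ r x₀ v : ℝ) : ℂ) := by
  have h1 : HasFDerivAt (toC r) (Complex.ofRealCLM.comp (fderiv ℝ r x₀)) x₀ :=
    Complex.ofRealCLM.hasFDerivAt.comp x₀ hr.hasFDerivAt
  rw [h1.fderiv]
  simp

theorem jke_exists_k (r : Cn n → ℝ) (hr : ContDiffAt ℝ ∞ r x₀) (hd : fderiv ℝ r x₀ ≠ 0) :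
    ∃ k, dZ k (toC r) x₀ ≠ 0 ∧ dZb k (toC r) x₀ ≠ 0 := by
  have hdiff : DifferentiableAt ℝ r x₀ := hr.differentiableAt (by simp)
  by_contra hcon
  push Not at hcon
  apply hd
  have key : ∀ k : Fin n, fderiv ℝ r x₀ (Pi.single k 1) = 0 ∧
      fderiv ℝ r x₀ (Pi.single k Complex.I) = 0 := by
    intro k
    by_cases h1 : dZ k (toC r) x₀ = 0
    · unfold dZ at h1
      rw [jke_fderiv_toC r hdiff, jke_fderiv_toC r hdiff] at h1
      have h2 := congrArg Complex.re h1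
      have h3 := congrArg Complex.im h1
      simp at h2 h3
      exact ⟨h2, h3⟩
    · have h1' := hcon k h1
      unfold dZb at h1'
      rw [jke_fderiv_toC r hdiff, jke_fderiv_toC r hdiff] at h1'
      have h2 := congrArg Complex.re h1'
      have h3 := congrArg Complex.im h1'
      simp at h2 h3
      exact ⟨h2, h3⟩
  ext v
  have hv : v = ∑ k, ((v k).re • (Pi.single k (1 : ℂ) : Cn n) +
      (v k).im • (Pi.single k Complex.I : Cn n)) := by
    funext i
    rw [Finset.sum_apply]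
    rw [Finset.sum_eq_single i]
    · simp [Complex.re_add_im]
    · intro b _ hb
      simp [Ne.symm hb]
    · intro h; exact absurd (Finset.mem_univ _) h
  rw [hv, map_sum]
  simp only [map_add, map_smul]
  apply Finset.sum_eq_zero
  intro k _
  rw [(key k).1, (key k).2]
  simp

theorem jke_notMem (r : Cn n → ℝ) (P : Ideal (SmR x₀)) (hP : KUnion r P) (g : SmR x₀)
    (hg : (g : Cn n → ℂ) x₀ ≠ 0) : g ∉ P := by
  intro hgP
  apply hP.ne_top
  rw [Ideal.eq_top_iff_one]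
  have hc : ContinuousAt (g : Cn n → ℂ) x₀ := by
    have h1 : ∀ᶠ x in 𝓝 x₀, ContDiffAt ℝ ∞ (g : Cn n → ℂ) x := g.2
    exact h1.self_of_nhds.continuousAt
  have hpos : 0 < ‖(g : Cn n → ℂ) x₀‖ := norm_pos_iff.mpr hg
  have hev : ∀ᶠ x in 𝓝 x₀, ‖(g : Cn n → ℂ) x₀‖ / 2 < ‖(g : Cn n → ℂ) x‖ :=
    hc.norm.eventually (lt_mem_nhds (by linarith))
  let C : SmR x₀ := ⟨fun _ => ((2 / ‖(g : Cn n → ℂ) x₀‖ : ℝ) : ℂ),
    Filter.Eventually.of_forall fun _ => contDiffAt_const⟩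
  refine hP.rad (C * g) (P.mul_mem_left C hgP) 1 1 le_rfl ?_
  filter_upwards [hev] with x hx
  have e1 : ((1 : SmR x₀) : Cn n → ℂ) x = 1 := rfl
  have e2 : ((C * g : SmR x₀) : Cn n → ℂ) x = ((2 / ‖(g : Cn n → ℂ) x₀‖ : ℝ) : ℂ) *
    (g : Cn n → ℂ) x := rfl
  rw [e1, e2, norm_mul, Complex.norm_real, Real.norm_of_nonneg (by positivity)]
  simp only [norm_one, one_pow]
  rw [div_mul_eq_mul_div, le_div_iff₀ hpos]
  linarith

theorem jke_congr (r : Cn n → ℝ) (P : Ideal (SmR x₀)) (hP : KUnion r P) (g g' : SmR x₀)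
    (hg' : g' ∈ P) (h : ∀ᶠ x in 𝓝 x₀, (g : Cn n → ℂ) x = (g' : Cn n → ℂ) x) : g ∈ P := by
  have h1 : g - g' ∈ P := by
    refine hP.rad 0 P.zero_mem (g - g') 1 le_rfl ?_
    filter_upwards [h] with x hx
    have e1 : ((g - g' : SmR x₀) : Cn n → ℂ) x = (g : Cn n → ℂ) x - (g' : Cn n → ℂ) x := rfl
    have e2 : ((0 : SmR x₀) : Cn n → ℂ) x = 0 := rfl
    rw [e1, e2, hx]
    simp
  have h2 : g = (g - g') + g' := by ring
  rw [h2]
  exact P.add_mem h1 hg'

theorem jke_bmat_map {A B : Type*} [CommRing A] [CommRing B] (q : A →+* B) {j m : ℕ}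
    (α : Fin j → Fin n → A) (ρ β : Fin n → A) (ω' : Fin n → Fin n → A) (K : Fin (m + 1) → Fin n)
    (e : (Fin n ⊕ Unit) ≃ ((Fin j ⊕ Unit) ⊕ Fin (m + 1))) :
    q (((bmat α ρ β ω' K).submatrix id e).det) =
      ((bmat (fun i k => q (α i k)) (fun k => q (ρ k)) (fun k => q (β k))
        (fun k l => q (ω' k l)) K).submatrix id e).det := by
  rw [RingHom.map_det]
  congr 1
  ext a b
  simp only [RingHom.mapMatrix_apply, Matrix.map_apply, Matrix.submatrix_apply, id]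
  rcases a with a | a <;> rcases e b with (c | c) | c <;> simp [bmat]

end JKEHelpers

/-- JKE -/
theorem exists_a (r : Cn n → ℝ) (hr : ∀ᶠ x in 𝓝 x₀, ContDiffAt ℝ ∞ r x)
    (hd : fderiv ℝ r x₀ ≠ 0) (P : Ideal (SmR x₀)) [P.IsPrime] (hP : KUnion r P) :
    ∃ a : Fin n → SmR x₀, (∃ i, a i ∉ P) ∧
      (∀ f ∈ P, ∀ g : SmR x₀, (∀ᶠ x in 𝓝 x₀, (g : Cn n → ℂ) x =
        ∑ i, (a i : Cn n → ℂ) x * dZ i (f : Cn n → ℂ) x) → g ∈ P) ∧
      ∃ c : SmR x₀, ∀ l, ∀ g : SmR x₀, (∀ᶠ x in 𝓝 x₀, (g : Cn n → ℂ) x =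
        ∑ k, (a k : Cn n → ℂ) x * dZ k (dZb l (toC r)) x + (c : Cn n → ℂ) x * dZb l (toC r) x) →
        g ∈ P := by
  classical
  let D := SmR x₀ ⧸ P
  let F := FractionRing D
  let q : SmR x₀ →+* F := (algebraMap D F).comp (Ideal.Quotient.mk P)
  have hinj : Function.Injective (algebraMap D F) := IsFractionRing.injective D F
  have hq : ∀ g : SmR x₀, q g = 0 ↔ g ∈ P := by
    intro g
    constructor
    · intro h
      have h1 : (algebraMap D F) (Ideal.Quotient.mk P g) = (algebraMap D F) 0 := by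
        rw [map_zero]; exact h
      exact Ideal.Quotient.eq_zero_iff_mem.mp (hinj h1)
    · intro h
      show (algebraMap D F) (Ideal.Quotient.mk P g) = 0
      rw [Ideal.Quotient.eq_zero_iff_mem.mpr h, map_zero]
  let R : SmR x₀ := ⟨toC r, jke_toC_mem r hr⟩
  have hRP : R ∈ P := hP.memr R rfl
  let S : Set (Fin n → F) := {s | ∃ f ∈ P, s = fun k => q (jkeZ k f)}
  let ρ : Fin n → F := fun k => q (jkeZ k R)
  let β : Fin n → F := fun k => q (jkeB k R)
  let ω' : Fin n → Fin n → F := fun k l => q (jkeZ k (jkeB l R))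
  obtain ⟨k₀, hk1, hk2⟩ := jke_exists_k r hr.self_of_nhds hd
  have hρS : ρ ∈ S := ⟨R, hRP, rfl⟩
  have hρ0 : ρ ≠ 0 := by
    intro h
    have h1 : q (jkeZ k₀ R) = 0 := congrFun h k₀
    exact jke_notMem r P hP (jkeZ k₀ R) hk1 ((hq _).mp h1)
  have hβ0 : β ≠ 0 := by
    intro h
    have h1 : q (jkeB k₀ R) = 0 := congrFun h k₀
    exact jke_notMem r P hP (jkeB k₀ R) hk2 ((hq _).mp h1)
  have hdet : ∀ j m : ℕ, j + 1 + m = n → ∀ α : Fin j → Fin n → F, (∀ i, α i ∈ S) →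
      ∀ (K : Fin (m + 1) → Fin n) (e : (Fin n ⊕ Unit) ≃ ((Fin j ⊕ Unit) ⊕ Fin (m + 1))),
      ((bmat α ρ β ω' K).submatrix id e).det = 0 := by
    intro j m hjm α hα K e
    choose f hfP hf using hα
    let G : SmR x₀ := ((bmat (fun i k => jkeZ k (f i)) (fun k => jkeZ k R) (fun k => jkeB k R)
      (fun k l => jkeZ k (jkeB l R)) K).submatrix id e).det
    have hG : (G : Cn n → ℂ) = bdet (toC r) (fun i => (f i : Cn n → ℂ)) K e := by
      funext x
      let ev : SmR x₀ →+* ℂ := (Pi.evalRingHom (fun _ : Cn n => ℂ) x).comp (SmR x₀).subtype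
      have h1 : ev G = (G : Cn n → ℂ) x := rfl
      rw [← h1]
      exact jke_bmat_map ev _ _ _ _ K e
    have hGP : G ∈ P := hP.det j m hjm f hfP K e G hG
    have h2 : q G = 0 := (hq G).mpr hGP
    have h3 := jke_bmat_map q (fun i k => jkeZ k (f i)) (fun k => jkeZ k R) (fun k => jkeB k R)
      (fun k l => jkeZ k (jkeB l R)) K e
    have h4 : α = fun i k => q (jkeZ k (f i)) := by
      funext i; exact hf i
    rw [h4]
    exact h3.symm.trans h2
  obtain ⟨X, hX0, hXS, Y, hY⟩ := lin_alg S ρ β hρS hρ0 hβ0 ω' hdet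
  obtain ⟨b, hb⟩ := IsLocalization.exist_integer_multiples_of_finite (nonZeroDivisors D)
    (fun o : Option (Fin n) => o.elim Y X)
  have hb0 : algebraMap D F (b : D) ≠ 0 := by
    intro h
    have h1 : algebraMap D F (b : D) = algebraMap D F 0 := by rw [h, map_zero]
    exact nonZeroDivisors.coe_ne_zero b (hinj h1)
  have hlift : ∀ o : Option (Fin n), ∃ g : SmR x₀,
      q g = algebraMap D F (b : D) * (o.elim Y X) := by
    intro o
    obtain ⟨d, hd'⟩ := hb o
    obtain ⟨g, hg⟩ := Ideal.Quotient.mk_surjective d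
    refine ⟨g, ?_⟩
    show (algebraMap D F) (Ideal.Quotient.mk P g) = _
    rw [hg, hd']
    exact Algebra.smul_def _ _
  choose A hA using hlift
  refine ⟨fun i => A (some i), ?_, ?_, A none, ?_⟩
  · obtain ⟨i, hi⟩ := Function.ne_iff.mp hX0
    refine ⟨i, fun h => ?_⟩
    have h1 := (hq _).mpr h
    rw [hA] at h1
    rcases mul_eq_zero.mp h1 with h2 | h2
    · exact hb0 h2
    · exact hi h2
  · intro f hf g hg
    let g' : SmR x₀ := ∑ i, A (some i) * jkeZ i f
    have hg' : g' ∈ P := by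
      rw [← hq]
      show q (∑ i, A (some i) * jkeZ i f) = 0
      rw [map_sum]
      have h1 := hXS (fun k => q (jkeZ k f)) ⟨f, hf, rfl⟩
      calc ∑ i, q (A (some i) * jkeZ i f) = algebraMap D F (b : D) * ∑ k, X k * q (jkeZ k f) := by
            rw [Finset.mul_sum]
            refine Finset.sum_congr rfl fun i _ => ?_
            rw [map_mul, hA]
            simp only [Option.elim_some]
            ring
        _ = 0 := by rw [h1, mul_zero]
    refine jke_congr r P hP g g' hg' ?_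
    filter_upwards [hg] with x hx
    rw [hx]
    let ev : SmR x₀ →+* ℂ := (Pi.evalRingHom (fun _ : Cn n => ℂ) x).comp (SmR x₀).subtype
    have h1 : ev g' = (g' : Cn n → ℂ) x := rfl
    rw [← h1]
    show _ = ev (∑ i, A (some i) * jkeZ i f)
    rw [map_sum]
    refine Finset.sum_congr rfl fun i _ => ?_
    rw [map_mul]
    rfl
  · intro l g hg
    let g' : SmR x₀ := ∑ k, A (some k) * jkeZ k (jkeB l R) + A none * jkeB l R
    have hg' : g' ∈ P := by
      rw [← hq]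
      show q (∑ k, A (some k) * jkeZ k (jkeB l R) + A none * jkeB l R) = 0
      rw [map_add, map_sum]
      have h1 := hY l
      calc ∑ k, q (A (some k) * jkeZ k (jkeB l R)) + q (A none * jkeB l R)
          = algebraMap D F (b : D) * (∑ k, X k * q (jkeZ k (jkeB l R)) + Y * q (jkeB l R)) := by
            rw [mul_add, Finset.mul_sum, map_mul, hA]
            simp only [Option.elim_none]
            congr 1
            · refine Finset.sum_congr rfl fun i _ => ?_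
              rw [map_mul, hA]
              simp only [Option.elim_some]
              ring
            · ring
        _ = 0 := by
            have h2 : (∑ k, X k * q (jkeZ k (jkeB l R)) + Y * q (jkeB l R)) = 0 := h1
            rw [h2, mul_zero]
    refine jke_congr r P hP g g' hg' ?_
    filter_upwards [hg] with x hx
    rw [hx]
    let ev : SmR x₀ →+* ℂ := (Pi.evalRingHom (fun _ : Cn n => ℂ) x).comp (SmR x₀).subtype
    have h1 : ev g' = (g' : Cn n → ℂ) x := rfl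
    rw [← h1]
    show _ = ev (∑ k, A (some k) * jkeZ k (jkeB l R) + A none * jkeB l R)
    rw [map_add, map_sum, map_mul]
    congr 1



end KI
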