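import Pool.Agent.KI.BDefs

open scoped ContDiff Topology BigOperators
open Finset Asymptotics

namespace KI
open DAng (Wd)

variable {n : ℕ} {x₀ : Cn n}



/-- membership of a function in the ideal `P` -/
def JkIn (P : Ideal (SmR x₀)) (f : Cn n → ℂ) : Prop :=
  ∃ h : f ∈ SmR x₀, (⟨f, h⟩ : SmR x₀) ∈ P

theorem jk_sm_congr {f g : Cn n → ℂ} (hf : f ∈ SmR x₀) (hfg : f =ᶠ[𝓝 x₀] g) : g ∈ SmR x₀ := by
  have h1 : ∀ᶠ x in 𝓝 x₀, ContDiffAt ℝ ∞ f x := hf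
  have h2 := hfg.eventuallyEq_nhds
  show ∀ᶠ x in 𝓝 x₀, ContDiffAt ℝ ∞ g x
  filter_upwards [h1, h2] with x h3 h4
  exact h3.congr_of_eventuallyEq h4.symm

theorem jk_const (c : ℂ) : (fun _ : Cn n => c) ∈ SmR x₀ :=
  Filter.Eventually.of_forall fun _ => contDiffAt_const

theorem jk_sm_mul {f g : Cn n → ℂ} (hf : f ∈ SmR x₀) (hg : g ∈ SmR x₀) :
    (fun x => f x * g x) ∈ SmR x₀ := (SmR x₀).mul_mem hf hg

theorem jk_sm_add {f g : Cn n → ℂ} (hf : f ∈ SmR x₀) (hg : g ∈ SmR x₀) :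
    (fun x => f x + g x) ∈ SmR x₀ := (SmR x₀).add_mem hf hg

theorem jk_sm_sub {f g : Cn n → ℂ} (hf : f ∈ SmR x₀) (hg : g ∈ SmR x₀) :
    (fun x => f x - g x) ∈ SmR x₀ := (SmR x₀).sub_mem hf hg

theorem jk_sm_neg {f : Cn n → ℂ} (hf : f ∈ SmR x₀) :
    (fun x => - f x) ∈ SmR x₀ := (SmR x₀).neg_mem hf

theorem jk_sm_sum {ι : Type*} (s : Finset ι) (f : ι → Cn n → ℂ) (hf : ∀ i ∈ s, f i ∈ SmR x₀) :
    (fun x => ∑ i ∈ s, f i x) ∈ SmR x₀ := by
  have h := (SmR x₀).sum_mem hf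
  have e : (∑ i ∈ s, f i) = fun x => ∑ i ∈ s, f i x := by
    funext x
    rw [Finset.sum_apply]
  rwa [e] at h

theorem jk_sm_conj {f : Cn n → ℂ} (hf : f ∈ SmR x₀) :
    (fun x => (starRingEnd ℂ) (f x)) ∈ SmR x₀ := by
  have h1 : ∀ᶠ x in 𝓝 x₀, ContDiffAt ℝ ∞ f x := hf
  show ∀ᶠ x in 𝓝 x₀, ContDiffAt ℝ ∞ (fun x => (starRingEnd ℂ) (f x)) x
  filter_upwards [h1] with x h2
  exact (Complex.conjCLE.contDiff.contDiffAt).comp x h2

theorem jk_sm_fderiv {f : Cn n → ℂ} (hf : f ∈ SmR x₀) (v : Cn n) :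
    (fun x => fderiv ℝ f x v) ∈ SmR x₀ := by
  have h1 : ∀ᶠ x in 𝓝 x₀, ContDiffAt ℝ ∞ f x := hf
  show ∀ᶠ x in 𝓝 x₀, ContDiffAt ℝ ∞ (fun x => fderiv ℝ f x v) x
  filter_upwards [h1] with x h2
  exact (h2.fderiv_right (m := ∞) (by simp)).clm_apply contDiffAt_const

theorem jk_sm_dZ {f : Cn n → ℂ} (hf : f ∈ SmR x₀) (i : Fin n) : dZ i f ∈ SmR x₀ :=
  jk_sm_mul (jk_const _) (jk_sm_sub (jk_sm_fderiv hf _) (jk_sm_mul (jk_const _) (jk_sm_fderiv hf _)))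

theorem jk_sm_dZb {f : Cn n → ℂ} (hf : f ∈ SmR x₀) (i : Fin n) : dZb i f ∈ SmR x₀ :=
  jk_sm_mul (jk_const _) (jk_sm_add (jk_sm_fderiv hf _) (jk_sm_mul (jk_const _) (jk_sm_fderiv hf _)))

theorem jk_sm_inv {f : Cn n → ℂ} (hf : f ∈ SmR x₀) (h0 : f x₀ ≠ 0) :
    (fun x => (f x)⁻¹) ∈ SmR x₀ := by
  have h1 : ∀ᶠ x in 𝓝 x₀, ContDiffAt ℝ ∞ f x := hf
  have h2 : ∀ᶠ x in 𝓝 x₀, f x ≠ 0 := h1.self_of_nhds.continuousAt.eventually_ne h0
  show ∀ᶠ x in 𝓝 x₀, ContDiffAt ℝ ∞ (fun x => (f x)⁻¹) x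
  filter_upwards [h1, h2] with x h3 h4
  exact h3.inv h4

theorem jk_in_mul {P : Ideal (SmR x₀)} {f g : Cn n → ℂ} (hg : g ∈ SmR x₀) (hf : JkIn P f) :
    JkIn P (fun x => g x * f x) := by
  obtain ⟨h1, h2⟩ := hf
  exact ⟨jk_sm_mul hg h1, P.mul_mem_left ⟨g, hg⟩ h2⟩

theorem jk_in_add {P : Ideal (SmR x₀)} {f g : Cn n → ℂ} (hf : JkIn P f) (hg : JkIn P g) :
    JkIn P (fun x => f x + g x) := by
  obtain ⟨h1, h2⟩ := hf
  obtain ⟨h3, h4⟩ := hg
  exact ⟨jk_sm_add h1 h3, P.add_mem h2 h4⟩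

theorem jk_in_sub {P : Ideal (SmR x₀)} {f g : Cn n → ℂ} (hf : JkIn P f) (hg : JkIn P g) :
    JkIn P (fun x => f x - g x) := by
  obtain ⟨h1, h2⟩ := hf
  obtain ⟨h3, h4⟩ := hg
  exact ⟨jk_sm_sub h1 h3, P.sub_mem h2 h4⟩

theorem jk_in_zero {P : Ideal (SmR x₀)} : JkIn P (fun _ : Cn n => 0) :=
  ⟨(SmR x₀).zero_mem, P.zero_mem⟩

theorem jk_in_sum {P : Ideal (SmR x₀)} {ι : Type*} (s : Finset ι) (f : ι → Cn n → ℂ)
    (hf : ∀ i ∈ s, JkIn P (f i)) : JkIn P (fun x => ∑ i ∈ s, f i x) := by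
  classical
  induction s using Finset.induction_on with
  | empty => simpa using jk_in_zero
  | insert a s ha ih =>
    have h1 := hf a (Finset.mem_insert_self a s)
    have h2 := ih (fun i hi => hf i (Finset.mem_insert_of_mem hi))
    have h3 := jk_in_add h1 h2
    have e : (fun x => ∑ i ∈ insert a s, f i x) = fun x => f a x + ∑ i ∈ s, f i x := by
      funext x
      rw [Finset.sum_insert ha]
    rw [e]
    exact h3

theorem jk_in_le {r : Cn n → ℝ} {P : Ideal (SmR x₀)} (hP : KUnion r P) {f g : Cn n → ℂ}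
    (hf : JkIn P f) (hg : g ∈ SmR x₀) (m : ℕ) (hm : 1 ≤ m)
    (h : ∀ᶠ x in 𝓝 x₀, ‖g x‖ ^ m ≤ ‖f x‖) : JkIn P g := by
  obtain ⟨h1, h2⟩ := hf
  exact ⟨hg, hP.rad _ h2 ⟨g, hg⟩ m hm h⟩

theorem jk_in_congr {r : Cn n → ℝ} {P : Ideal (SmR x₀)} (hP : KUnion r P) {f g : Cn n → ℂ}
    (hf : JkIn P f) (h : f =ᶠ[𝓝 x₀] g) : JkIn P g := by
  refine jk_in_le hP hf (jk_sm_congr hf.1 h) 1 le_rfl ?_
  filter_upwards [h] with x hx
  rw [pow_one, hx]

theorem jk_in_conj {r : Cn n → ℝ} {P : Ideal (SmR x₀)} (hP : KUnion r P) {f : Cn n → ℂ}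
    (hf : JkIn P f) : JkIn P (fun x => (starRingEnd ℂ) (f x)) := by
  refine jk_in_le hP hf (jk_sm_conj hf.1) 1 le_rfl ?_
  filter_upwards with x
  rw [pow_one]
  simp

theorem jk_fderiv_conj (f : Cn n → ℂ) (x v : Cn n) :
    fderiv ℝ (fun y => (starRingEnd ℂ) (f y)) x v = (starRingEnd ℂ) (fderiv ℝ f x v) := by
  have h := Complex.conjCLE.comp_fderiv (f := f) (x := x)
  have h2 : (fun y => (starRingEnd ℂ) (f y)) = Complex.conjCLE ∘ f := by
    funext y; simp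
  rw [h2, h]
  simp

theorem jk_dZb_conj (i : Fin n) (f : Cn n → ℂ) (x : Cn n) :
    (starRingEnd ℂ) (dZ i (fun y => (starRingEnd ℂ) (f y)) x) = dZb i f x := by
  unfold dZ dZb
  rw [jk_fderiv_conj, jk_fderiv_conj]
  simp only [map_mul, map_sub, Complex.conj_I, Complex.conj_conj, map_div₀, map_one]
  have h2 : (starRingEnd ℂ) 2 = 2 := Complex.conj_ofNat 2
  rw [h2]
  ring

theorem jk_dZb_real (i : Fin n) (r : Cn n → ℝ) (x : Cn n) :
    dZb i (toC r) x = (starRingEnd ℂ) (dZ i (toC r) x) := by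
  rw [← jk_dZb_conj]
  congr 2
  funext y
  simp [toC]

theorem jk_toC {r : Cn n → ℝ} (hr : ∀ᶠ x in 𝓝 x₀, ContDiffAt ℝ ∞ r x) : toC r ∈ SmR x₀ := by
  show ∀ᶠ x in 𝓝 x₀, ContDiffAt ℝ ∞ (toC r) x
  filter_upwards [hr] with x h
  exact (Complex.ofRealCLM.contDiff.contDiffAt).comp x h

theorem jk_dZ_ne {r : Cn n → ℝ} (hr : ∀ᶠ x in 𝓝 x₀, ContDiffAt ℝ ∞ r x)
    (hd : fderiv ℝ r x₀ ≠ 0) : ∃ k, dZ k (toC r) x₀ ≠ 0 := by
  by_contra hcon
  push Not at hcon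
  apply hd
  have hdiff : DifferentiableAt ℝ r x₀ := hr.self_of_nhds.differentiableAt (by simp)
  have hf : ∀ v, fderiv ℝ (toC r) x₀ v = ((fderiv ℝ r x₀ v : ℝ) : ℂ) := by
    intro v
    have h1 : HasFDerivAt (toC r) (Complex.ofRealCLM.comp (fderiv ℝ r x₀)) x₀ :=
      Complex.ofRealCLM.hasFDerivAt.comp x₀ hdiff.hasFDerivAt
    rw [h1.fderiv]
    simp
  have h0 : ∀ k, fderiv ℝ r x₀ (Pi.single k 1) = 0 ∧ fderiv ℝ r x₀ (Pi.single k Complex.I) = 0 := by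
    intro k
    have h1 := hcon k
    unfold dZ at h1
    rw [hf, hf] at h1
    have h2 := congrArg Complex.re h1
    have h3 := congrArg Complex.im h1
    simp at h2 h3
    exact ⟨h2, h3⟩
  ext v
  have hv : v = ∑ k, ((v k).re • (Pi.single k (1 : ℂ) : Cn n) + (v k).im • (Pi.single k Complex.I : Cn n)) := by
    funext j
    rw [Finset.sum_apply, Finset.sum_eq_single j]
    · simp
    · intro b _ hb
      simp [Pi.single_eq_of_ne hb.symm]
    · intro h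
      exact absurd (Finset.mem_univ j) h
  rw [hv, map_sum]
  simp only [map_add, map_smul, (h0 _).1, (h0 _).2, smul_zero, add_zero, Finset.sum_const_zero]
  rfl

/-- JKF -/
theorem exists_field (r : Cn n → ℝ) (hr : ∀ᶠ x in 𝓝 x₀, ContDiffAt ℝ ∞ r x)
    (hd : fderiv ℝ r x₀ ≠ 0) (P : Ideal (SmR x₀)) [P.IsPrime] (hP : KUnion r P)
    (a : Fin n → SmR x₀) (ha : ∃ i, a i ∉ P)
    (hL : ∀ f ∈ P, ∀ g : SmR x₀, (∀ᶠ x in 𝓝 x₀, (g : Cn n → ℂ) x =
        ∑ i, (a i : Cn n → ℂ) x * dZ i (f : Cn n → ℂ) x) → g ∈ P)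
    (hlev : ∃ c : SmR x₀, ∀ l, ∀ g : SmR x₀, (∀ᶠ x in 𝓝 x₀, (g : Cn n → ℂ) x =
        ∑ k, (a k : Cn n → ℂ) x * dZ k (dZb l (toC r)) x + (c : Cn n → ℂ) x * dZb l (toC r) x) →
        g ∈ P) :
    ∃ b : Cn n → Fin n → ℂ, (∀ᶠ x in 𝓝 x₀, ContDiffAt ℝ ∞ b x) ∧
      (∀ᶠ x in 𝓝 x₀, ∑ i, b x i * dZ i (toC r) x = 0) ∧
      (∀ g : SmR x₀, (g : Cn n → ℂ) = (fun x => ((∑ i, ‖b x i‖ ^ 2 : ℝ) : ℂ)) → g ∉ P) ∧
      ∀ w : Wd, ∀ g : SmR x₀, (g : Cn n → ℂ) = opV b w (leviV (toC r) b) → g ∈ P := by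
  have hrS : toC r ∈ SmR x₀ := jk_toC hr
  have hρS : ∀ k, dZ k (toC r) ∈ SmR x₀ := fun k => jk_sm_dZ hrS k
  have haS : ∀ k, (a k : Cn n → ℂ) ∈ SmR x₀ := fun k => (a k).2
  -- the norm
  set N : Cn n → ℂ := fun x => ∑ k, dZ k (toC r) x * (starRingEnd ℂ) (dZ k (toC r) x) with hN
  have hNS : N ∈ SmR x₀ := jk_sm_sum _ _ fun k _ => jk_sm_mul (hρS k) (jk_sm_conj (hρS k))
  have hN0 : N x₀ ≠ 0 := by
    obtain ⟨k, hk⟩ := jk_dZ_ne hr hd
    intro h0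
    have h1 : N x₀ = ((∑ k, ‖dZ k (toC r) x₀‖ ^ 2 : ℝ) : ℂ) := by
      simp only [hN, Complex.mul_conj']
      push_cast
      rfl
    rw [h1] at h0
    have h2 : (∑ k, ‖dZ k (toC r) x₀‖ ^ 2 : ℝ) = 0 := by exact_mod_cast h0
    have h3 := (Finset.sum_eq_zero_iff_of_nonneg (fun k _ => by positivity)).1 h2 k (Finset.mem_univ k)
    apply hk
    simpa using h3
  have hNe : ∀ᶠ x in 𝓝 x₀, N x ≠ 0 :=
    (Filter.Eventually.self_of_nhds hNS).continuousAt.eventually_ne hN0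
  set h : Cn n → ℂ := fun x => (N x)⁻¹ * ∑ k, (a k : Cn n → ℂ) x * dZ k (toC r) x with hh
  have hrP : JkIn P (toC r) := ⟨hrS, hP.memr ⟨toC r, hrS⟩ rfl⟩
  have hLa : ∀ f, JkIn P f → JkIn P (fun x => ∑ i, (a i : Cn n → ℂ) x * dZ i f x) := by
    intro f hf
    have hs : (fun x => ∑ i, (a i : Cn n → ℂ) x * dZ i f x) ∈ SmR x₀ :=
      jk_sm_sum _ _ fun i _ => jk_sm_mul (haS i) (jk_sm_dZ hf.1 i)
    refine ⟨hs, hL _ hf.2 ⟨_, hs⟩ ?_⟩
    exact Filter.Eventually.of_forall fun x => rfl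
  have hhP : JkIn P h := jk_in_mul (jk_sm_inv hNS hN0) (hLa _ hrP)
  let b : Cn n → Fin n → ℂ := fun x i => (a i : Cn n → ℂ) x - h x * (starRingEnd ℂ) (dZ i (toC r) x)
  have hb : ∀ x i, b x i = (a i : Cn n → ℂ) x - h x * (starRingEnd ℂ) (dZ i (toC r) x) := fun _ _ => rfl
  have hbS : ∀ i, (fun x => b x i) ∈ SmR x₀ := fun i =>
    jk_sm_sub (haS i) (jk_sm_mul hhP.1 (jk_sm_conj (hρS i)))
  have htan : ∀ᶠ x in 𝓝 x₀, ∑ i, b x i * dZ i (toC r) x = 0 := by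
    filter_upwards [hNe] with x hx
    have e1 : ∑ i, b x i * dZ i (toC r) x =
        ∑ i, (a i : Cn n → ℂ) x * dZ i (toC r) x - h x * N x := by
      rw [hN]
      simp only
      rw [Finset.mul_sum, ← Finset.sum_sub_distrib]
      apply Finset.sum_congr rfl
      intro i _
      rw [hb]
      ring
    rw [e1, hh]
    simp only
    field_simp
    ring
  -- stability under the derivation
  have hT : ∀ f, JkIn P f → JkIn P (LV b true f) := by
    intro f hf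
    have h1 := hLa f hf
    have h2 : JkIn P (fun x => (∑ i, (starRingEnd ℂ) (dZ i (toC r) x) * dZ i f x) * h x) :=
      jk_in_mul (jk_sm_sum _ _ fun i _ => jk_sm_mul (jk_sm_conj (hρS i)) (jk_sm_dZ hf.1 i)) hhP
    have h3 := jk_in_sub h1 h2
    have e : LV b true f = fun x => ∑ i, (a i : Cn n → ℂ) x * dZ i f x -
        (∑ i, (starRingEnd ℂ) (dZ i (toC r) x) * dZ i f x) * h x := by
      funext x
      show ∑ i, b x i * dZ i f x = _
      rw [Finset.sum_mul, ← Finset.sum_sub_distrib]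
      apply Finset.sum_congr rfl
      intro i _
      rw [hb]
      ring
    rw [e]
    exact h3
  have hF : ∀ f, JkIn P f → JkIn P (LV b false f) := by
    intro f hf
    have h1 := jk_in_conj hP (hT _ (jk_in_conj hP hf))
    have e : LV b false f = fun x => (starRingEnd ℂ) (LV b true (fun y => (starRingEnd ℂ) (f y)) x) := by
      funext x
      show ∑ i, (starRingEnd ℂ) (b x i) * dZb i f x =
        (starRingEnd ℂ) (∑ i, b x i * dZ i (fun y => (starRingEnd ℂ) (f y)) x)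
      rw [map_sum]
      apply Finset.sum_congr rfl
      intro i _
      rw [map_mul, jk_dZb_conj]
    rw [e]
    exact h1
  have hop : ∀ (w : Wd) (f : Cn n → ℂ), JkIn P f → JkIn P (opV b w f) := by
    intro w
    induction w with
    | nil => intro f hf; exact hf
    | cons c w ih =>
      intro f hf
      show JkIn P (opV b w (LV b c f))
      apply ih
      cases c
      · exact hF f hf
      · exact hT f hf
  -- the Levi form
  have hlevi : JkIn P (leviV (toC r) b) := by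
    obtain ⟨c, hc⟩ := hlev
    have hG : ∀ l, JkIn P (fun x => ∑ k, (a k : Cn n → ℂ) x * dZ k (dZb l (toC r)) x +
        (c : Cn n → ℂ) x * dZb l (toC r) x) := by
      intro l
      have hs : (fun x => ∑ k, (a k : Cn n → ℂ) x * dZ k (dZb l (toC r)) x +
        (c : Cn n → ℂ) x * dZb l (toC r) x) ∈ SmR x₀ :=
        jk_sm_add (jk_sm_sum _ _ fun k _ => jk_sm_mul (haS k) (jk_sm_dZ (jk_sm_dZb hrS l) k))
          (jk_sm_mul c.2 (jk_sm_dZb hrS l))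
      exact ⟨hs, hc l ⟨_, hs⟩ (Filter.Eventually.of_forall fun x => rfl)⟩
    have h1 : JkIn P (fun x => ∑ l, (starRingEnd ℂ) (b x l) *
        (∑ k, (a k : Cn n → ℂ) x * dZ k (dZb l (toC r)) x + (c : Cn n → ℂ) x * dZb l (toC r) x)) :=
      jk_in_sum _ _ fun l _ => jk_in_mul (jk_sm_conj (hbS l)) (hG l)
    have h2 : JkIn P (fun x => (∑ i, ∑ j, dZ i (dZb j (toC r)) x *
        (starRingEnd ℂ) (dZ i (toC r) x) * (starRingEnd ℂ) (b x j)) * h x) := by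
      apply jk_in_mul _ hhP
      apply jk_sm_sum
      intro i _
      apply jk_sm_sum
      intro j _
      exact jk_sm_mul (jk_sm_mul (jk_sm_dZ (jk_sm_dZb hrS j) i) (jk_sm_conj (hρS i)))
        (jk_sm_conj (hbS j))
    refine jk_in_congr hP (jk_in_sub h1 h2) ?_
    filter_upwards [htan] with x hx
    have e1 : ∑ l, (starRingEnd ℂ) (b x l) * dZb l (toC r) x = 0 := by
      have := congrArg (starRingEnd ℂ) hx
      rw [map_sum, map_zero] at this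
      rw [← this]
      apply Finset.sum_congr rfl
      intro l _
      rw [map_mul, jk_dZb_real]
    have e2 : ∑ l, (starRingEnd ℂ) (b x l) *
        (∑ k, (a k : Cn n → ℂ) x * dZ k (dZb l (toC r)) x + (c : Cn n → ℂ) x * dZb l (toC r) x) =
        ∑ l, ∑ k, (starRingEnd ℂ) (b x l) * ((a k : Cn n → ℂ) x * dZ k (dZb l (toC r)) x) +
          (c : Cn n → ℂ) x * ∑ l, (starRingEnd ℂ) (b x l) * dZb l (toC r) x := by
      rw [Finset.mul_sum, ← Finset.sum_add_distrib]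
      apply Finset.sum_congr rfl
      intro l _
      rw [mul_add, Finset.mul_sum]
      ring
    rw [e2, e1, mul_zero, add_zero]
    unfold leviV
    rw [Finset.sum_comm, Finset.sum_mul, ← Finset.sum_sub_distrib]
    apply Finset.sum_congr rfl
    intro i _
    rw [Finset.sum_mul, ← Finset.sum_sub_distrib]
    apply Finset.sum_congr rfl
    intro j _
    rw [hb x i]
    ring
  refine ⟨b, ?_, htan, ?_, ?_⟩
  · have h1 : ∀ᶠ x in 𝓝 x₀, ∀ i, ContDiffAt ℝ ∞ (fun x => b x i) x :=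
      Filter.eventually_all.2 fun i => hbS i
    filter_upwards [h1] with x hx
    exact contDiffAt_pi.2 hx
  · intro g hg hgP
    obtain ⟨i, hi⟩ := ha
    apply hi
    have h1 : JkIn P (fun x => b x i) := by
      have hgin : JkIn P (g : Cn n → ℂ) := ⟨g.2, hgP⟩
      refine jk_in_le hP hgin (hbS i) 2 (by norm_num) ?_
      filter_upwards with x
      rw [hg]
      simp only
      rw [Complex.norm_real, Real.norm_eq_abs, abs_of_nonneg (Finset.sum_nonneg fun i _ => by positivity)]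
      exact Finset.single_le_sum (f := fun i => ‖b x i‖ ^ 2) (fun i _ => by positivity) (Finset.mem_univ i)
    have h2 : JkIn P (fun x => (starRingEnd ℂ) (dZ i (toC r) x) * h x) :=
      jk_in_mul (jk_sm_conj (hρS i)) hhP
    have h3 := jk_in_add h1 h2
    have e : (fun x => b x i + (starRingEnd ℂ) (dZ i (toC r) x) * h x) = (a i : Cn n → ℂ) := by
      funext x
      rw [hb]
      ring
    rw [e] at h3
    exact h3.2
  · intro w g hg
    have h1 := hop w _ hlevi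
    rw [← hg] at h1
    exact h1.2



end KI
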