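import Pool.Agent.KI.EDefs

open scoped Topology BigOperators
open Finset

namespace KI
variable {n : ℕ}




namespace LWx

/-- span of the first functionals -/
noncomputable def Sp {n : ℕ} (w : ℕ → Fnl n) (K : ℕ) : Submodule ℂ (Fnl n) :=
  Submodule.span ℂ {v | ∃ b, b ≤ K ∧ v = w b}

theorem Sp_rep {n : ℕ} (w : ℕ → Fnl n) (K : ℕ) (v : Fnl n) (hv : v ∈ Sp w K) :
    ∃ t : ℕ → ℂ, v = ∑ b ∈ range (K + 1), t b • w b := by
  induction hv using Submodule.span_induction with
  | mem x hx =>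
    obtain ⟨b, hb, rfl⟩ := hx
    refine ⟨fun c => if c = b then 1 else 0, ?_⟩
    simp only [ite_smul, one_smul, zero_smul]
    rw [Finset.sum_ite_eq' (range (K+1)) b]
    rw [if_pos (by simp; omega)]
  | zero => exact ⟨fun _ => 0, by simp⟩
  | add x y _ _ hx hy =>
    obtain ⟨t, rfl⟩ := hx
    obtain ⟨t', rfl⟩ := hy
    exact ⟨fun b => t b + t' b, by simp only [add_smul, Finset.sum_add_distrib]⟩
  | smul c x _ hx =>
    obtain ⟨t, rfl⟩ := hx
    exact ⟨fun b => c * t b, by simp only [mul_smul, Finset.smul_sum]⟩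

theorem Sp_mem {n : ℕ} (w : ℕ → Fnl n) (K : ℕ) (t : ℕ → ℂ) :
    ∑ b ∈ range (K + 1), t b • w b ∈ Sp w K := by
  apply Submodule.sum_mem
  intro b hb
  apply Submodule.smul_mem
  apply Submodule.subset_span
  exact ⟨b, by simpa [Nat.lt_succ_iff] using hb, rfl⟩

theorem Sp_mono {n : ℕ} (w : ℕ → Fnl n) {K K' : ℕ} (h : K ≤ K') : Sp w K ≤ Sp w K' := by
  apply Submodule.span_mono
  rintro v ⟨b, hb, rfl⟩
  exact ⟨b, hb.trans h, rfl⟩

theorem Sp_deg {n : ℕ} (w : ℕ → Fnl n) (K : ℕ)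
    (ha : ∀ (a : ℕ) (α : Fin n →₀ ℕ), a < α.degree → w a α = 0) (v : Fnl n) (hv : v ∈ Sp w K)
    (α : Fin n →₀ ℕ) (hα : K < α.degree) : v α = 0 := by
  obtain ⟨t, rfl⟩ := Sp_rep w K v hv
  rw [Finsupp.finsetSum_apply]
  apply Finset.sum_eq_zero
  intro b hb
  rw [Finset.mem_range] at hb
  rw [Finsupp.smul_apply, ha b α (by omega), smul_zero]

theorem contr_apply' {n : ℕ} (j : Fin n) (w : Fnl n) (α : Fin n →₀ ℕ) :
    contr j w α = w (α + Finsupp.single j 1) := rfl

/-- contraction as a linear map -/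
noncomputable def contrL {n : ℕ} (j : Fin n) : Fnl n →ₗ[ℂ] Fnl n where
  toFun := contr j
  map_add' x y := by ext α; simp [contr_apply']
  map_smul' c x := by ext α; simp [contr_apply']

theorem Sp_contr {n : ℕ} (w : ℕ → Fnl n) (K : ℕ)
    (hb : ∀ (a : ℕ) (j : Fin n), contr j (w a) ∈ Submodule.span ℂ {v | ∃ b, b < a ∧ v = w b})
    (j : Fin n) (v : Fnl n) (hv : v ∈ Sp w K) : contr j v ∈ Sp w K := by
  have h : Sp w K ≤ (Sp w K).comap (contrL j) := by
    apply Submodule.span_le.2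
    rintro x ⟨b, hbK, rfl⟩
    change contr j (w b) ∈ Sp w K
    refine Submodule.span_mono ?_ (hb b j)
    rintro v ⟨c, hc, rfl⟩
    exact ⟨c, by omega, rfl⟩
  exact h hv

/-- the form -/
noncomputable def form {n : ℕ} (T : (Fin n →₀ ℕ) → (Fin n →₀ ℕ) → ℂ) (v v' : Fnl n) : ℂ :=
  v.sum fun α c => v'.sum fun β c' => T α β * c * (starRingEnd ℂ) c'

/-- the form on functions -/
noncomputable def gform {n : ℕ} (F : Finset (Fin n →₀ ℕ)) (T : (Fin n →₀ ℕ) → (Fin n →₀ ℕ) → ℂ)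
    (x y : (Fin n →₀ ℕ) → ℂ) : ℂ :=
  ∑ α ∈ F, ∑ β ∈ F, T α β * x α * (starRingEnd ℂ) (y β)

theorem form_eq {n : ℕ} (F : Finset (Fin n →₀ ℕ)) (T : (Fin n →₀ ℕ) → (Fin n →₀ ℕ) → ℂ) (v v' : Fnl n)
    (hv : ∀ α, α ∉ F → v α = 0) (hv' : ∀ α, α ∉ F → v' α = 0) : form T v v' = gform F T v v' := by
  have h1 : v.support ⊆ F := by
    intro α hα
    by_contra hcon
    exact (Finsupp.mem_support_iff.1 hα) (hv α hcon)
  have h2 : v'.support ⊆ F := by
    intro α hα
    by_contra hcon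
    exact (Finsupp.mem_support_iff.1 hα) (hv' α hcon)
  unfold form gform
  rw [Finsupp.sum_of_support_subset v h1 _ (by intro i _; simp [Finsupp.sum])]
  apply Finset.sum_congr rfl
  intro α _
  rw [Finsupp.sum_of_support_subset v' h2 _ (by intro i _; simp)]

theorem gform_left {n : ℕ} (F : Finset (Fin n →₀ ℕ)) (T : (Fin n →₀ ℕ) → (Fin n →₀ ℕ) → ℂ)
    (s : Finset ℕ) (t : ℕ → ℂ) (x : ℕ → Fnl n) (y : (Fin n →₀ ℕ) → ℂ) :
    gform F T (∑ b ∈ s, t b • x b : Fnl n) y = ∑ b ∈ s, t b * gform F T (x b) y := by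
  unfold gform
  simp_rw [Finset.mul_sum]
  rw [Finset.sum_comm' (s := s) (t := fun _ => F) (t' := F) (s' := fun _ => s) (by intro a b; tauto)]
  apply Finset.sum_congr rfl
  intro α _
  rw [Finset.sum_comm]
  apply Finset.sum_congr rfl
  intro β _
  rw [Finsupp.finsetSum_apply, Finset.mul_sum, Finset.sum_mul]
  apply Finset.sum_congr rfl
  intro b _
  rw [Finsupp.smul_apply, smul_eq_mul]
  ring

theorem gform_right {n : ℕ} (F : Finset (Fin n →₀ ℕ)) (T : (Fin n →₀ ℕ) → (Fin n →₀ ℕ) → ℂ)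
    (s : Finset ℕ) (t : ℕ → ℂ) (x : (Fin n →₀ ℕ) → ℂ) (y : ℕ → Fnl n) :
    gform F T x (∑ b ∈ s, t b • y b : Fnl n) = ∑ b ∈ s, (starRingEnd ℂ) (t b) * gform F T x (y b) := by
  unfold gform
  simp_rw [Finset.mul_sum]
  rw [Finset.sum_comm' (s := s) (t := fun _ => F) (t' := F) (s' := fun _ => s) (by intro a b; tauto)]
  apply Finset.sum_congr rfl
  intro α _
  rw [Finset.sum_comm]
  apply Finset.sum_congr rfl
  intro β _
  rw [Finsupp.finsetSum_apply, map_sum, Finset.mul_sum]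
  apply Finset.sum_congr rfl
  intro b _
  rw [Finsupp.smul_apply, smul_eq_mul, map_mul]
  ring

/-- ultrafilters and finite unions -/
theorem ultra_exists {κ ι : Type*} (l : Ultrafilter κ) (s : Finset ι) (P : κ → ι → Prop)
    (h : ∀ᶠ i in (l : Filter κ), ∃ j ∈ s, P i j) : ∃ j ∈ s, ∀ᶠ i in (l : Filter κ), P i j := by
  classical
  by_contra hcon
  push Not at hcon
  have h2 : ∀ j ∈ s, ∀ᶠ i in (l : Filter κ), ¬ P i j := by
    intro j hj
    exact hcon j hj
  have h3 : ∀ᶠ i in (l : Filter κ), ∀ j ∈ s, ¬ P i j := (Filter.eventually_all_finset s).2 h2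
  obtain ⟨i, ⟨j, hj, hp⟩, hn⟩ := (h.and h3).exists
  exact hn j hj hp


/-- coefficients are controlled -/
theorem coef_bound {κ : Type*} (l : Ultrafilter κ) {n : ℕ} (w : κ → ℕ → Fnl n) (δ : κ → ℝ) (j0 : Fin n)
    (hpos : ∀ᶠ i in (l : Filter κ), 0 < δ i) (hhalf : ∀ᶠ i in (l : Filter κ), δ i ≤ 1 / 2)
    (hc : ∀ᶠ i in (l : Filter κ), (∀ a k : ℕ, a < k → w i a (Finsupp.single j0 k) = 0) ∧
      ∀ k : ℕ, δ i ^ k ≤ ‖w i k (Finsupp.single j0 k)‖)
    (he : ∀ (a : ℕ) (α : Fin n →₀ ℕ), ∃ C : ℝ, ∀ᶠ i in (l : Filter κ), ‖w i a α‖ ≤ C)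
    (K : ℕ) (vs : κ → Fnl n) (v : Fnl n)
    (hv : ∀ α, Filter.Tendsto (fun i => vs i α) (l : Filter κ) (𝓝 (v α))) :
    ∃ (C : ℝ) (M : ℕ), 0 ≤ C ∧ ∀ᶠ i in (l : Filter κ), ∀ t : ℕ → ℂ, vs i = ∑ b ∈ range (K + 1), t b • w i b →
      ∀ b, b ≤ K → ‖t b‖ * δ i ^ M ≤ C := by
  -- bound for the entries
  have hA : ∃ A : ℝ, 0 ≤ A ∧ ∀ᶠ i in (l : Filter κ), ∀ k ∈ range (K + 1), ‖vs i (Finsupp.single j0 k)‖ ≤ A := by
    refine ⟨∑ k ∈ range (K + 1), (‖v (Finsupp.single j0 k)‖ + 1), Finset.sum_nonneg (fun _ _ => by positivity), ?_⟩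
    rw [Filter.eventually_all_finset]
    intro k hk
    have h1 : ∀ᶠ i in (l : Filter κ), ‖vs i (Finsupp.single j0 k)‖ < ‖v (Finsupp.single j0 k)‖ + 1 :=
      ((hv _).norm).eventually (gt_mem_nhds (by linarith))
    filter_upwards [h1] with i hi
    refine hi.le.trans ?_
    exact Finset.single_le_sum (f := fun k => ‖v (Finsupp.single j0 k)‖ + 1) (fun _ _ => by positivity) hk
  have hD : ∃ D : ℝ, 0 ≤ D ∧ ∀ᶠ i in (l : Filter κ), ∀ b ∈ range (K + 1), ∀ k ∈ range (K + 1),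
      ‖w i b (Finsupp.single j0 k)‖ ≤ D := by
    choose C hC using he
    refine ⟨∑ b ∈ range (K + 1), ∑ k ∈ range (K + 1), |C b (Finsupp.single j0 k)|,
      Finset.sum_nonneg (fun _ _ => Finset.sum_nonneg (fun _ _ => abs_nonneg _)), ?_⟩
    rw [Filter.eventually_all_finset]
    intro b hb
    rw [Filter.eventually_all_finset]
    intro k hk
    filter_upwards [hC b (Finsupp.single j0 k)] with i hi
    refine (hi.trans (le_abs_self _)).trans ?_
    refine (Finset.single_le_sum (f := fun k => |C b (Finsupp.single j0 k)|) (fun _ _ => abs_nonneg _) hk).trans ?_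
    exact Finset.single_le_sum (f := fun b => ∑ k ∈ range (K + 1), |C b (Finsupp.single j0 k)|)
      (fun _ _ => Finset.sum_nonneg (fun _ _ => abs_nonneg _)) hb
  obtain ⟨A, hA0, hA⟩ := hA
  obtain ⟨D, hD0, hD⟩ := hD
  -- downward induction
  have hind : ∀ d : ℕ, ∃ (C : ℝ) (M : ℕ), 0 ≤ C ∧ ∀ᶠ i in (l : Filter κ), ∀ t : ℕ → ℂ,
      vs i = ∑ b ∈ range (K + 1), t b • w i b → ∀ b, b ≤ K → K < b + d → ‖t b‖ * δ i ^ M ≤ C := by
    intro d
    induction d with
    | zero => exact ⟨0, 0, le_rfl, Filter.Eventually.of_forall (fun i t _ b hb hb2 => by omega)⟩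
    | succ d ih =>
      obtain ⟨C, M, hC0, hCM⟩ := ih
      refine ⟨C + A + (K + 1) * (C * D), M + K, by positivity, ?_⟩
      filter_upwards [hCM, hA, hD, hpos, hhalf, hc] with i h1 h2 h3 h4 h5 h6
      intro t ht b hb hbd
      have hδ1 : δ i ≤ 1 := by linarith
      have hMK : δ i ^ (M + K) ≤ δ i ^ M := pow_le_pow_of_le_one h4.le hδ1 (by omega)
      have hM1 : δ i ^ M ≤ 1 := pow_le_one₀ h4.le hδ1
      have hCD : 0 ≤ (K + 1) * (C * D) := by positivity
      by_cases hbd' : K < b + d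
      · have h7 := h1 t ht b hb hbd'
        have h8 : ‖t b‖ * δ i ^ (M + K) ≤ ‖t b‖ * δ i ^ M := mul_le_mul_of_nonneg_left hMK (norm_nonneg _)
        linarith
      · -- the new coefficient
        have hval : vs i (Finsupp.single j0 b) = ∑ c ∈ range (K + 1), t c * w i c (Finsupp.single j0 b) := by
          rw [ht, Finsupp.finsetSum_apply]
          rfl
        have hbm : b ∈ range (K + 1) := by simp; omega
        rw [← Finset.add_sum_erase _ _ hbm] at hval
        have h9 : ‖t b * w i b (Finsupp.single j0 b)‖ ≤ A + ∑ c ∈ (range (K + 1)).erase b, ‖t c * w i c (Finsupp.single j0 b)‖ := by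
          have : t b * w i b (Finsupp.single j0 b) = vs i (Finsupp.single j0 b) -
            ∑ c ∈ (range (K + 1)).erase b, t c * w i c (Finsupp.single j0 b) := by rw [hval]; ring
          rw [this]
          refine (norm_sub_le _ _).trans ?_
          exact add_le_add (h2 b hbm) (norm_sum_le _ _)
        have h10 : (∑ c ∈ (range (K + 1)).erase b, ‖t c * w i c (Finsupp.single j0 b)‖) * δ i ^ M ≤ (K + 1) * (C * D) := by
          rw [Finset.sum_mul]
          have h11 : ∀ c ∈ (range (K + 1)).erase b, ‖t c * w i c (Finsupp.single j0 b)‖ * δ i ^ M ≤ C * D := by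
            intro c hcm
            rw [Finset.mem_erase, Finset.mem_range] at hcm
            rcases lt_or_gt_of_ne hcm.1 with hlt | hgt
            · rw [h6.1 c b hlt, mul_zero, norm_zero, zero_mul]
              positivity
            · have h12 := h1 t ht c (by omega) (by omega)
              have h13 := h3 c (by simp; omega) b hbm
              rw [norm_mul]
              calc ‖t c‖ * ‖w i c (Finsupp.single j0 b)‖ * δ i ^ M = (‖t c‖ * δ i ^ M) * ‖w i c (Finsupp.single j0 b)‖ := by ring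
                _ ≤ C * D := mul_le_mul h12 h13 (norm_nonneg _) hC0
          refine (Finset.sum_le_sum h11).trans ?_
          rw [Finset.sum_const, nsmul_eq_mul]
          apply mul_le_mul_of_nonneg_right _ (by positivity)
          have : ((range (K + 1)).erase b).card ≤ K + 1 := by
            refine (Finset.card_erase_le).trans ?_
            simp
          exact_mod_cast this
        rw [norm_mul] at h9
        have h14 := h6.2 b
        have h15 : δ i ^ K ≤ δ i ^ b := pow_le_pow_of_le_one h4.le hδ1 hb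
        calc ‖t b‖ * δ i ^ (M + K) = (‖t b‖ * δ i ^ K) * δ i ^ M := by rw [pow_add]; ring
          _ ≤ (‖t b‖ * ‖w i b (Finsupp.single j0 b)‖) * δ i ^ M := by
            apply mul_le_mul_of_nonneg_right _ (by positivity)
            apply mul_le_mul_of_nonneg_left (h15.trans h14) (norm_nonneg _)
          _ ≤ (A + ∑ c ∈ (range (K + 1)).erase b, ‖t c * w i c (Finsupp.single j0 b)‖) * δ i ^ M :=
            mul_le_mul_of_nonneg_right h9 (by positivity)
          _ = A * δ i ^ M + (∑ c ∈ (range (K + 1)).erase b, ‖t c * w i c (Finsupp.single j0 b)‖) * δ i ^ M := by ring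
          _ ≤ A * 1 + (K + 1) * (C * D) := add_le_add (mul_le_mul_of_nonneg_left hM1 hA0) h10
          _ ≤ _ := by linarith
  obtain ⟨C, M, hC0, hCM⟩ := hind (K + 1)
  refine ⟨C, M, hC0, ?_⟩
  filter_upwards [hCM] with i hi t ht b hb
  exact hi t ht b hb (by omega)


/-- exponents of degree at most `K` -/
noncomputable def FK (n K : ℕ) : Finset (Fin n →₀ ℕ) := (Finsupp.finite_of_degree_le (σ := Fin n) K).toFinset

theorem mem_FK {n K : ℕ} (α : Fin n →₀ ℕ) : α ∈ FK n K ↔ α.degree ≤ K := by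
  simp [FK]

theorem form_zero {κ : Type*} (l : Ultrafilter κ) {n : ℕ} (w : κ → ℕ → Fnl n) (δ : κ → ℝ) (j0 : Fin n)
    (T : κ → (Fin n →₀ ℕ) → (Fin n →₀ ℕ) → ℂ) (T0 : (Fin n →₀ ℕ) → (Fin n →₀ ℕ) → ℂ)
    (hT : ∀ α β, Filter.Tendsto (fun i => T i α β) (l : Filter κ) (𝓝 (T0 α β)))
    (hpos : ∀ᶠ i in (l : Filter κ), 0 < δ i) (hhalf : ∀ᶠ i in (l : Filter κ), δ i ≤ 1 / 2)
    (ha : ∀ᶠ i in (l : Filter κ), ∀ (a : ℕ) (α : Fin n →₀ ℕ), a < α.degree → w i a α = 0)
    (hc : ∀ᶠ i in (l : Filter κ), (∀ a k : ℕ, a < k → w i a (Finsupp.single j0 k) = 0) ∧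
      ∀ k : ℕ, δ i ^ k ≤ ‖w i k (Finsupp.single j0 k)‖)
    (he : ∀ (a : ℕ) (α : Fin n →₀ ℕ), ∃ C : ℝ, ∀ᶠ i in (l : Filter κ), ‖w i a α‖ ≤ C)
    (hf : ∀ a b m : ℕ, ∀ᶠ i in (l : Filter κ), ‖form (T i) (w i a) (w i b)‖ ≤ δ i ^ m)
    (K : ℕ) (vs vs' : κ → Fnl n) (v v' : Fnl n)
    (hvs : ∀ᶠ i in (l : Filter κ), vs i ∈ Sp (w i) K) (hvs' : ∀ᶠ i in (l : Filter κ), vs' i ∈ Sp (w i) K)
    (hv : ∀ α, Filter.Tendsto (fun i => vs i α) (l : Filter κ) (𝓝 (v α)))
    (hv' : ∀ α, Filter.Tendsto (fun i => vs' i α) (l : Filter κ) (𝓝 (v' α))) :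
    form T0 v v' = 0 := by
  have hsupp : ∀ (us : κ → Fnl n) (u : Fnl n), (∀ᶠ i in (l : Filter κ), us i ∈ Sp (w i) K) →
      (∀ α, Filter.Tendsto (fun i => us i α) (l : Filter κ) (𝓝 (u α))) → ∀ α, α ∉ FK n K → u α = 0 := by
    intro us u hus hu α hα
    rw [mem_FK, not_le] at hα
    have h1 : ∀ᶠ i in (l : Filter κ), us i α = 0 := by
      filter_upwards [hus, ha] with i h1 h2
      exact Sp_deg (w i) K h2 _ h1 α hα
    have h2 : Filter.Tendsto (fun i => us i α) (l : Filter κ) (𝓝 0) :=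
      (tendsto_const_nhds).congr' (by filter_upwards [h1] with i hi; exact hi.symm)
    exact tendsto_nhds_unique (hu α) h2
  obtain ⟨C, M, hC0, hC⟩ := coef_bound l w δ j0 hpos hhalf hc he K vs v hv
  obtain ⟨C', M', hC0', hC'⟩ := coef_bound l w δ j0 hpos hhalf hc he K vs' v' hv'
  rw [form_eq (FK n K) T0 v v' (hsupp vs v hvs hv) (hsupp vs' v' hvs' hv')]
  have hlim : Filter.Tendsto (fun i => gform (FK n K) (T i) (vs i) (vs' i)) (l : Filter κ)
      (𝓝 (gform (FK n K) T0 v v')) := by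
    unfold gform
    apply tendsto_finsetSum
    intro α _
    apply tendsto_finsetSum
    intro β _
    exact ((hT α β).mul (hv α)).mul ((Complex.continuous_conj.tendsto _).comp (hv' β))
  have hbound : ∀ s : ℕ, ‖gform (FK n K) T0 v v'‖ ≤ ((K + 1) * (K + 1) * (C * C')) * (1/2) ^ s := by
    intro s
    have hev : ∀ᶠ i in (l : Filter κ), ‖gform (FK n K) (T i) (vs i) (vs' i)‖ ≤ ((K + 1) * (K + 1) * (C * C')) * (1/2) ^ s := by
      have hf' : ∀ᶠ i in (l : Filter κ), ∀ a ∈ range (K + 1), ∀ b ∈ range (K + 1),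
          ‖form (T i) (w i a) (w i b)‖ ≤ δ i ^ (M + M' + s) := by
        rw [Filter.eventually_all_finset]
        intro a _
        rw [Filter.eventually_all_finset]
        intro b _
        exact hf a b _
      filter_upwards [hf', hC, hC', hpos, hhalf, ha, hvs, hvs'] with i h1 h2 h3 h4 h5 h6 h7 h8
      obtain ⟨t, ht⟩ := Sp_rep (w i) K _ h7
      obtain ⟨t', ht'⟩ := Sp_rep (w i) K _ h8
      have h9 := h2 t ht
      have h10 := h3 t' ht'
      rw [ht, ht', gform_left]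
      simp_rw [gform_right]
      have h11 : ∀ a ∈ range (K + 1), ∀ b ∈ range (K + 1),
          ‖t a‖ * (‖t' b‖ * ‖gform (FK n K) (T i) (w i a) (w i b)‖) ≤ (C * C') * (1/2) ^ s := by
        intro a ham b hbm
        have ha' : a ≤ K := by simpa [Nat.lt_succ_iff] using ham
        have hb' : b ≤ K := by simpa [Nat.lt_succ_iff] using hbm
        have h12 : form (T i) (w i a) (w i b) = gform (FK n K) (T i) (w i a) (w i b) := by
          apply form_eq
          · intro α hα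
            rw [mem_FK, not_le] at hα
            exact h6 a α (by omega)
          · intro α hα
            rw [mem_FK, not_le] at hα
            exact h6 b α (by omega)
        rw [← h12]
        have h13 : δ i ^ s ≤ (1/2) ^ s := pow_le_pow_left₀ h4.le h5 s
        calc ‖t a‖ * (‖t' b‖ * ‖form (T i) (w i a) (w i b)‖) ≤ ‖t a‖ * (‖t' b‖ * δ i ^ (M + M' + s)) := by
              apply mul_le_mul_of_nonneg_left _ (norm_nonneg _)
              exact mul_le_mul_of_nonneg_left (h1 a ham b hbm) (norm_nonneg _)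
          _ = ((‖t a‖ * δ i ^ M) * (‖t' b‖ * δ i ^ M')) * δ i ^ s := by rw [pow_add, pow_add]; ring
          _ ≤ (C * C') * (1/2) ^ s := by
              apply mul_le_mul _ h13 (by positivity) (by positivity)
              exact mul_le_mul (h9 a ha') (h10 b hb') (by positivity) hC0
      refine (norm_sum_le _ _).trans ?_
      calc ∑ a ∈ range (K + 1), ‖t a * ∑ b ∈ range (K + 1), (starRingEnd ℂ) (t' b) * gform (FK n K) (T i) (w i a) (w i b)‖
          ≤ ∑ a ∈ range (K + 1), ∑ b ∈ range (K + 1), (C * C') * (1/2) ^ s := by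
            apply Finset.sum_le_sum
            intro a ham
            rw [norm_mul]
            refine (mul_le_mul_of_nonneg_left (norm_sum_le _ _) (norm_nonneg _)).trans ?_
            rw [Finset.mul_sum]
            apply Finset.sum_le_sum
            intro b hbm
            rw [norm_mul, RCLike.norm_conj]
            exact h11 a ham b hbm
        _ = _ := by
            simp only [Finset.sum_const, Finset.card_range, nsmul_eq_mul]
            push_cast
            ring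
    exact le_of_tendsto hlim.norm hev
  have hz : Filter.Tendsto (fun s : ℕ => ((K + 1) * (K + 1) * (C * C')) * (1/2 : ℝ) ^ s) Filter.atTop (𝓝 0) := by
    have := (tendsto_pow_atTop_nhds_zero_of_lt_one (r := (1/2 : ℝ)) (by norm_num) (by norm_num)).const_mul
      (((K:ℝ) + 1) * (K + 1) * (C * C'))
    simpa using this
  have h0 := ge_of_tendsto' hz hbound
  exact norm_le_zero_iff.1 h0

theorem exists_unit {n : ℕ} (w : ℕ → Fnl n) (j0 : Fin n) (F' : Finset (Fin n →₀ ℕ))
    (ha : ∀ (a : ℕ) (α : Fin n →₀ ℕ), a < α.degree → w a α = 0)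
    (h1 : ∀ a k : ℕ, a < k → w a (Finsupp.single j0 k) = 0)
    (h2 : ∀ k : ℕ, w k (Finsupp.single j0 k) ≠ 0) :
    ∃ u ∈ Sp w F'.card, (∀ α ∈ F', u α = 0) ∧ (∀ α, ‖u α‖ ≤ 1) ∧ ∃ α ∈ FK n F'.card, ‖u α‖ = 1 := by
  classical
  set K := F'.card with hK
  let Φ : (Fin (K + 1) → ℂ) →ₗ[ℂ] (F' → ℂ) :=
    { toFun := fun t α => ∑ b, t b * w b α
      map_add' := by intro x y; ext α; simp [add_mul, Finset.sum_add_distrib]
      map_smul' := by intro c x; ext α; simp [mul_assoc, Finset.mul_sum] }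
  have hker : LinearMap.ker Φ ≠ ⊥ := by
    apply LinearMap.ker_ne_bot_of_finrank_lt
    simp [hK]
  obtain ⟨t, htk, ht0⟩ := Submodule.exists_mem_ne_zero_of_ne_bot hker
  have htΦ : ∀ α ∈ F', ∑ b, t b * w b α = 0 := by
    intro α hα
    have := congrFun (LinearMap.mem_ker.1 htk) ⟨α, hα⟩
    exact this
  let t' : ℕ → ℂ := fun b => if h : b < K + 1 then t ⟨b, h⟩ else 0
  set u0 : Fnl n := ∑ b ∈ range (K + 1), t' b • w b with hu0
  have hu0mem : u0 ∈ Sp w K := Sp_mem w K t'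
  have hu0val : ∀ α, u0 α = ∑ b : Fin (K + 1), t b * w b α := by
    intro α
    rw [hu0, Finsupp.finsetSum_apply, Finset.sum_range]
    apply Finset.sum_congr rfl
    intro b _
    rw [Finsupp.smul_apply, smul_eq_mul]
    simp only [t']
    rw [dif_pos b.2]
  have hne : ∃ α, u0 α ≠ 0 := by
    -- largest nonzero coefficient
    have hex : ∃ b : Fin (K + 1), t b ≠ 0 := by
      by_contra hcon
      push Not at hcon
      exact ht0 (funext hcon)
    obtain ⟨b0, hb0, hmax⟩ := Finset.exists_max_image (Finset.univ.filter (fun b : Fin (K + 1) => t b ≠ 0)) id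
      (by obtain ⟨b, hb⟩ := hex; exact ⟨b, by simp [hb]⟩)
    refine ⟨Finsupp.single j0 b0, ?_⟩
    rw [hu0val, Finset.sum_eq_single b0]
    · exact mul_ne_zero (by simpa using hb0) (h2 b0)
    · intro b _ hb
      rcases lt_or_gt_of_ne hb with h | h
      · rw [h1 b b0 (by exact_mod_cast h), mul_zero]
      · have : t b = 0 := by
          by_contra hcon
          have := hmax b (by simp [hcon])
          simp only [id] at this
          exact absurd this (not_le.2 h)
        rw [this, zero_mul]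
    · intro h; exact absurd (Finset.mem_univ _) h
  obtain ⟨α1, hα1⟩ := hne
  have hα1F : α1 ∈ FK n K := by
    rw [mem_FK]
    by_contra hcon
    exact hα1 (Sp_deg w K ha u0 hu0mem α1 (by omega))
  obtain ⟨α0, hα0F, hα0⟩ := Finset.exists_max_image (FK n K) (fun α => ‖u0 α‖) ⟨α1, hα1F⟩
  have hN : 0 < ‖u0 α0‖ := lt_of_lt_of_le (norm_pos_iff.2 hα1) (hα0 α1 hα1F)
  have hall : ∀ α, ‖u0 α‖ ≤ ‖u0 α0‖ := by
    intro α
    by_cases hα : α ∈ FK n K
    · exact hα0 α hα
    · rw [mem_FK, not_le] at hα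
      rw [Sp_deg w K ha u0 hu0mem α hα, norm_zero]
      exact hN.le
  refine ⟨((‖u0 α0‖⁻¹ : ℝ) : ℂ) • u0, Submodule.smul_mem _ _ hu0mem, ?_, ?_, α0, hα0F, ?_⟩
  · intro α hα
    have hz : u0 α = 0 := by rw [hu0val, htΦ α hα]
    rw [Finsupp.smul_apply, hz, smul_zero]
  · intro α
    rw [Finsupp.smul_apply, norm_smul, Complex.norm_real, norm_inv, norm_norm, inv_mul_le_one₀ hN]
    exact hall α
  · rw [Finsupp.smul_apply, norm_smul, Complex.norm_real, norm_inv, norm_norm, inv_mul_cancel₀ hN.ne']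

end LWx

open LWx in
/-- the limit argument (JEA2) -/
theorem limit_W {κ : Type*} (l : Ultrafilter κ) {n : ℕ} (w : κ → ℕ → Fnl n) (δ : κ → ℝ)
    (T : κ → (Fin n →₀ ℕ) → (Fin n →₀ ℕ) → ℂ) (T0 : (Fin n →₀ ℕ) → (Fin n →₀ ℕ) → ℂ)
    (hT : ∀ α β, Filter.Tendsto (fun i => T i α β) (l : Filter κ) (𝓝 (T0 α β)))
    (hpos : ∀ᶠ i in (l : Filter κ), 0 < δ i) (hhalf : ∀ᶠ i in (l : Filter κ), δ i ≤ 1 / 2)
    (ha : ∀ᶠ i in (l : Filter κ), ∀ (a : ℕ) (α : Fin n →₀ ℕ), a < α.degree → w i a α = 0)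
    (hb : ∀ᶠ i in (l : Filter κ), ∀ (a : ℕ) (j : Fin n),
      contr j (w i a) ∈ Submodule.span ℂ {v | ∃ b, b < a ∧ v = w i b})
    (hc : ∀ᶠ i in (l : Filter κ), ∃ j : Fin n, (∀ a k : ℕ, a < k → w i a (Finsupp.single j k) = 0) ∧
      ∀ k : ℕ, δ i ^ k ≤ ‖w i k (Finsupp.single j k)‖)
    (he : ∀ (a : ℕ) (α : Fin n →₀ ℕ), ∃ C : ℝ, ∀ᶠ i in (l : Filter κ), ‖w i a α‖ ≤ C)
    (hf : ∀ a b m : ℕ, ∀ᶠ i in (l : Filter κ), ‖(w i a).sum fun α c => (w i b).sum fun β c' =>
      T i α β * c * (starRingEnd ℂ) c'‖ ≤ δ i ^ m) :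
    ∃ W : Submodule ℂ (Fnl n), (∀ w ∈ W, ∀ j, contr j w ∈ W) ∧
      (∀ B : ℕ, ∃ w ∈ W, ∃ α : Fin n →₀ ℕ, B ≤ α.degree ∧ w α ≠ 0) ∧
      (∀ w ∈ W, ∀ w' ∈ W, (w.sum fun α c => w'.sum fun β c' =>
        T0 α β * c * (starRingEnd ℂ) c') = 0) := by
  classical
  obtain ⟨j0, -, hc0⟩ := ultra_exists l (Finset.univ : Finset (Fin n))
    (fun i j => (∀ a k : ℕ, a < k → w i a (Finsupp.single j k) = 0) ∧
      ∀ k : ℕ, δ i ^ k ≤ ‖w i k (Finsupp.single j k)‖)
    (by filter_upwards [hc] with i hi; obtain ⟨j, hj⟩ := hi; exact ⟨j, Finset.mem_univ _, hj⟩)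
  let W : Submodule ℂ (Fnl n) :=
    { carrier := {v | ∃ (K : ℕ) (vs : κ → Fnl n), (∀ᶠ i in (l : Filter κ), vs i ∈ Sp (w i) K) ∧
        ∀ α, Filter.Tendsto (fun i => vs i α) (l : Filter κ) (𝓝 (v α))}
      zero_mem' := ⟨0, fun _ => 0, Filter.Eventually.of_forall (fun i => Submodule.zero_mem _),
        fun α => by simp⟩
      add_mem' := by
        rintro x y ⟨K, vs, h1, h2⟩ ⟨K', vs', h1', h2'⟩
        refine ⟨max K K', fun i => vs i + vs' i, ?_, ?_⟩
        · filter_upwards [h1, h1'] with i h3 h4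
          exact Submodule.add_mem _ (Sp_mono _ (le_max_left _ _) h3) (Sp_mono _ (le_max_right _ _) h4)
        · intro α
          exact (h2 α).add (h2' α)
      smul_mem' := by
        rintro c x ⟨K, vs, h1, h2⟩
        refine ⟨K, fun i => c • vs i, ?_, ?_⟩
        · filter_upwards [h1] with i h3
          exact Submodule.smul_mem _ _ h3
        · intro α
          exact (h2 α).const_mul c }
  have hWmem : ∀ v, v ∈ W ↔ ∃ (K : ℕ) (vs : κ → Fnl n), (∀ᶠ i in (l : Filter κ), vs i ∈ Sp (w i) K) ∧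
        ∀ α, Filter.Tendsto (fun i => vs i α) (l : Filter κ) (𝓝 (v α)) := fun v => Iff.rfl
  refine ⟨W, ?_, ?_, ?_⟩
  · intro v hv j
    rw [hWmem] at hv ⊢
    obtain ⟨K, vs, h1, h2⟩ := hv
    refine ⟨K, fun i => contr j (vs i), ?_, ?_⟩
    · filter_upwards [h1, hb] with i h3 h4
      exact Sp_contr (w i) K h4 j _ h3
    · intro α
      simp only [contr_apply']
      exact h2 _
  · intro B
    set F' : Finset (Fin n →₀ ℕ) := (FK n B).filter (fun α => α.degree < B) with hF'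
    have hF'mem : ∀ α : Fin n →₀ ℕ, α ∈ F' ↔ α.degree < B := by
      intro α
      rw [hF', Finset.mem_filter, mem_FK]
      constructor
      · exact fun h => h.2
      · exact fun h => ⟨h.le, h⟩
    set K := F'.card with hK
    have hu : ∀ᶠ i in (l : Filter κ), ∃ u ∈ Sp (w i) K, (∀ α ∈ F', u α = 0) ∧ (∀ α, ‖u α‖ ≤ 1) ∧
        ∃ α ∈ FK n K, ‖u α‖ = 1 := by
      filter_upwards [ha, hc0, hpos] with i h1 h2 h3
      apply exists_unit (w i) j0 F' h1 h2.1
      intro k h0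
      have := h2.2 k
      rw [h0, norm_zero] at this
      have := pow_pos h3 k
      linarith
    let us : κ → Fnl n := fun i => if h : ∃ u ∈ Sp (w i) K, (∀ α ∈ F', u α = 0) ∧ (∀ α, ‖u α‖ ≤ 1) ∧
        ∃ α ∈ FK n K, ‖u α‖ = 1 then h.choose else 0
    have hus : ∀ᶠ i in (l : Filter κ), us i ∈ Sp (w i) K ∧ (∀ α ∈ F', us i α = 0) ∧ (∀ α, ‖us i α‖ ≤ 1) ∧
        ∃ α ∈ FK n K, ‖us i α‖ = 1 := by
      filter_upwards [hu] with i hi
      simp only [us, hi, dif_pos]
      exact hi.choose_spec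
    have hlim : ∀ α, ∃ x : ℂ, Filter.Tendsto (fun i => us i α) (l : Filter κ) (𝓝 x) := by
      intro α
      have hmem : Metric.closedBall (0:ℂ) 1 ∈ l.map (fun i => us i α) := by
        change ∀ᶠ i in (l : Filter κ), us i α ∈ Metric.closedBall (0:ℂ) 1
        filter_upwards [hus] with i hi
        simpa using hi.2.2.1 α
      obtain ⟨x, -, hx⟩ := (isCompact_closedBall (0:ℂ) 1).ultrafilter_le_nhds' _ hmem
      exact ⟨x, hx⟩
    choose x hx using hlim
    have hxF : ∀ α, x α ≠ 0 → α ∈ FK n K := by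
      intro α hxα
      by_contra hcon
      apply hxα
      rw [mem_FK, not_le] at hcon
      have h1 : ∀ᶠ i in (l : Filter κ), us i α = 0 := by
        filter_upwards [hus, ha] with i h1 h2
        exact Sp_deg (w i) K h2 _ h1.1 α hcon
      have h2 : Filter.Tendsto (fun i => us i α) (l : Filter κ) (𝓝 0) :=
        (tendsto_const_nhds).congr' (by filter_upwards [h1] with i hi; exact hi.symm)
      exact tendsto_nhds_unique (hx α) h2
    obtain ⟨α0, hα0F, hα0⟩ := ultra_exists l (FK n K) (fun i α => ‖us i α‖ = 1)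
      (by filter_upwards [hus] with i hi; exact hi.2.2.2)
    have hx1 : ‖x α0‖ = 1 := by
      have h1 : Filter.Tendsto (fun i => ‖us i α0‖) (l : Filter κ) (𝓝 1) :=
        (tendsto_const_nhds).congr' (by filter_upwards [hα0] with i hi; exact hi.symm)
      exact tendsto_nhds_unique (hx α0).norm h1
    have hxne : x α0 ≠ 0 := by
      intro h; rw [h, norm_zero] at hx1; exact zero_ne_one hx1
    refine ⟨Finsupp.onFinset (FK n K) x hxF, ?_, α0, ?_, ?_⟩
    · rw [hWmem]
      refine ⟨K, us, ?_, ?_⟩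
      · filter_upwards [hus] with i hi
        exact hi.1
      · intro α
        exact hx α
    · by_contra hcon
      apply hxne
      rw [not_le, ← hF'mem] at hcon
      have h1 : ∀ᶠ i in (l : Filter κ), us i α0 = 0 := by
        filter_upwards [hus] with i h1
        exact h1.2.1 α0 hcon
      have h2 : Filter.Tendsto (fun i => us i α0) (l : Filter κ) (𝓝 0) :=
        (tendsto_const_nhds).congr' (by filter_upwards [h1] with i hi; exact hi.symm)
      exact tendsto_nhds_unique (hx α0) h2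
    · exact hxne
  · intro v hv v' hv'
    rw [hWmem] at hv hv'
    obtain ⟨K, vs, h1, h2⟩ := hv
    obtain ⟨K', vs', h1', h2'⟩ := hv'
    exact form_zero l w δ j0 T T0 hT hpos hhalf ha hc0 he hf (max K K') vs vs' v v'
      (by filter_upwards [h1] with i hi; exact Sp_mono _ (le_max_left _ _) hi)
      (by filter_upwards [h1'] with i hi; exact Sp_mono _ (le_max_right _ _) hi) h2 h2'



end KI
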