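import Pool.Agent.KI.WfP
import Pool.Agent.KI.LimW

open scoped ContDiff Topology BigOperators
open Finset Asymptotics

namespace KI
open DAng

variable {n : ℕ} {p x₀ : E (n + n)}



theorem hx19_deg (α β : Fin n →₀ ℕ) :
    ((Finsupp.sumElim α β).sum fun _ k => k) = α.degree + β.degree := by
  classical
  rw [Finsupp.sum_fintype _ _ (fun _ => rfl)]
  rw [Fintype.sum_sum_type]
  simp [Finsupp.degree_eq_sum]

theorem hx19_fac (a : ℕ) : ‖((a.factorial : ℂ)⁻¹)‖ ≤ 1 := by
  rw [norm_inv, Complex.norm_natCast]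
  apply inv_le_one_of_one_le₀
  exact_mod_cast Nat.one_le_iff_ne_zero.2 (Nat.factorial_ne_zero a)

/-- the limit space of functionals (JEA) -/
theorem exists_W {κ : Type*} (l : Ultrafilter κ) {r : CF (n + n)} (h : DefFn r x₀)
    {L : CVF (n + n)} (hL : FieldHyp r x₀ L) (p : κ → E (n + n)) (δ : κ → ℝ)
    (hp : PtHyp (l : Filter κ) r x₀ L p δ)
    (flat : ∀ (N : ℕ) (u v : Wd), u.length + v.length + 3 ≤ N → ∀ m : ℕ,
      ∀ᶠ i in (l : Filter κ), ‖Rr N r L (p i) u v‖ ≤ δ i ^ m) :
    ∃ W : Submodule ℂ (Fnl n), (∀ w ∈ W, ∀ j, contr j w ∈ W) ∧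
      (∀ B : ℕ, ∃ w ∈ W, ∃ α : Fin n →₀ ℕ, B ≤ α.degree ∧ w α ≠ 0) ∧
      (∀ w ∈ W, ∀ w' ∈ W, ∀ N : ℕ, (∀ α ∈ w.support, ∀ β ∈ w'.support,
        α.degree + β.degree + 3 ≤ N) → tform r x₀ N w w' = 0) := by
  obtain ⟨w1, w2, w3, w4, w5⟩ := wf_props hL.sm hL.hol h.sm
  obtain ⟨W, hW1, hW2, hW3⟩ := limit_W l (fun i a => wf L (p i) a) δ
    (fun i α β => (tay (α.degree + β.degree + 3) r (p i)).coeff (Finsupp.sumElim α β))
    (fun α β => (tay (α.degree + β.degree + 3) r x₀).coeff (Finsupp.sumElim α β))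
    (fun α β => (tay_coeff_cont h.sm (α.degree + β.degree + 3)
      (Finsupp.sumElim α β)).tendsto.comp hp.tend)
    hp.pos hp.half
    (Filter.Eventually.of_forall fun i a α hα => by
      show (if α.degree ≤ a then _ else 0) = (0 : ℂ)
      rw [if_neg (not_le.2 hα)])
    (hp.tend.eventually w1)
    (by
      filter_upwards [hp.low, hp.pos, hp.tend.eventually w2, hp.tend.eventually w3]
        with i hlow hpos h2 h3
      obtain ⟨j, hj⟩ := hlow
      refine ⟨j, fun a k hak => h2 j a k hak, fun k => ?_⟩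
      rw [h3 j k, norm_pow]
      exact pow_le_pow_left₀ hpos.le hj k)
    (fun a α => by
      obtain ⟨C, hC⟩ := w4 a α
      exact ⟨C, hp.tend.eventually hC⟩)
    (fun a b m => by
      filter_upwards [hp.tend.eventually (w5 a b),
        flat (a + b + 3) (List.replicate a true) (List.replicate b false) (by simp) m,
        hp.pos] with i h5 hfl hpos
      show ‖((wf L (p i) a).sum fun α c => (wf L (p i) b).sum fun β c' =>
        (tay (α.degree + β.degree + 3) r (p i)).coeff (Finsupp.sumElim α β) * c *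
          (starRingEnd ℂ) c')‖ ≤ δ i ^ m
      rw [h5, norm_mul, norm_mul]
      calc ‖((a.factorial : ℂ)⁻¹)‖ * ‖((b.factorial : ℂ)⁻¹)‖ *
            ‖Rr (a + b + 3) r L (p i) (List.replicate a true) (List.replicate b false)‖
          ≤ 1 * 1 * ‖Rr (a + b + 3) r L (p i) (List.replicate a true)
              (List.replicate b false)‖ := by
            refine mul_le_mul_of_nonneg_right ?_ (norm_nonneg _)
            exact mul_le_mul (hx19_fac a) (hx19_fac b) (norm_nonneg _) zero_le_one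
        _ ≤ δ i ^ m := by rw [one_mul, one_mul]; exact hfl)
  refine ⟨W, hW1, hW2, fun w hw w' hw' N hN => ?_⟩
  rw [← hW3 w hw w' hw']
  unfold tform
  refine Finset.sum_congr rfl fun α hα => Finset.sum_congr rfl fun β hβ => ?_
  have hd := hx19_deg α β
  have hN' := hN α hα β hβ
  show (tay N r x₀).coeff (Finsupp.sumElim α β) * w α * (starRingEnd ℂ) (w' β) =
    (tay (α.degree + β.degree + 3) r x₀).coeff (Finsupp.sumElim α β) * w α *
      (starRingEnd ℂ) (w' β)
  rw [tay_coeff_stable r N (α.degree + β.degree + 3) (Finsupp.sumElim α β)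
    (by rw [hd]; omega) (by rw [hd]; omega)]



end KI
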