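import Pool.Agent.KI.BDefs

open scoped ContDiff Topology BigOperators
open Finset Asymptotics

namespace KI
open DAng (Wd)

variable {n : ℕ} {x₀ : Cn n}



section JKA

theorem JKA_anti {W : Type*} [AddCommGroup W] [Module ℂ W] (a b : W) :
    ExteriorAlgebra.ι ℂ a * ExteriorAlgebra.ι ℂ b =
      - (ExteriorAlgebra.ι ℂ b * ExteriorAlgebra.ι ℂ a) :=
  eq_neg_of_add_eq_zero_left (ExteriorAlgebra.ι_add_mul_swap a b)

theorem JKA_antilist {W : Type*} [AddCommGroup W] [Module ℂ W] (x : W) : ∀ (N : ℕ) (f : Fin N → W),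
    (List.ofFn fun i => ExteriorAlgebra.ι ℂ (f i)).prod * ExteriorAlgebra.ι ℂ x =
      (-1 : ℂ) ^ N • (ExteriorAlgebra.ι ℂ x * (List.ofFn fun i => ExteriorAlgebra.ι ℂ (f i)).prod)
  | 0, f => by simp
  | N + 1, f => by
    rw [List.ofFn_succ, List.prod_cons, mul_assoc, JKA_antilist x N (fun i => f i.succ),
      mul_smul_comm, ← mul_assoc, JKA_anti (f 0) x, pow_succ, mul_smul, neg_one_smul, neg_mul,
      mul_assoc]

theorem JKA_antilist' {W : Type*} [AddCommGroup W] [Module ℂ W] (x : W) (N : ℕ) (f : Fin N → W) :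
    ExteriorAlgebra.ι ℂ x * (List.ofFn fun i => ExteriorAlgebra.ι ℂ (f i)).prod =
      (-1 : ℂ) ^ N • ((List.ofFn fun i => ExteriorAlgebra.ι ℂ (f i)).prod *
        ExteriorAlgebra.ι ℂ x) := by
  rw [JKA_antilist, smul_smul, ← mul_pow]
  simp

theorem JKA_interleave {W : Type*} [AddCommGroup W] [Module ℂ W] : ∀ (N : ℕ),
    ∃ ε : ℂ, ε ≠ 0 ∧ ∀ u f : Fin N → W,
      (List.ofFn fun c => ExteriorAlgebra.ι ℂ (u c) * ExteriorAlgebra.ι ℂ (f c)).prod =
        ε • ((List.ofFn fun c => ExteriorAlgebra.ι ℂ (u c)).prod *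
          (List.ofFn fun c => ExteriorAlgebra.ι ℂ (f c)).prod)
  | 0 => ⟨1, one_ne_zero, fun u f => by simp⟩
  | N + 1 => by
    obtain ⟨ε, h0, h⟩ := JKA_interleave (W := W) N
    refine ⟨ε * (-1) ^ N, mul_ne_zero h0 (pow_ne_zero _ (by norm_num)), fun u f => ?_⟩
    rw [List.ofFn_succ, List.prod_cons, h (fun c => u c.succ) (fun c => f c.succ),
      List.ofFn_succ, List.prod_cons, List.ofFn_succ, List.prod_cons, mul_smul_comm]
    have h1 := JKA_antilist' (f 0) N (fun c => u c.succ)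
    have h2 : ExteriorAlgebra.ι ℂ (u 0) * ExteriorAlgebra.ι ℂ (f 0) *
        ((List.ofFn fun c => ExteriorAlgebra.ι ℂ (u (Fin.succ c))).prod *
          (List.ofFn fun c => ExteriorAlgebra.ι ℂ (f (Fin.succ c))).prod) =
        ExteriorAlgebra.ι ℂ (u 0) * (ExteriorAlgebra.ι ℂ (f 0) *
        (List.ofFn fun c => ExteriorAlgebra.ι ℂ (u (Fin.succ c))).prod) *
          (List.ofFn fun c => ExteriorAlgebra.ι ℂ (f (Fin.succ c))).prod := by
      simp only [mul_assoc]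
    rw [h2, h1, mul_smul_comm, smul_mul_assoc, smul_smul]
    simp only [mul_assoc]

theorem JKA_addpow {E : Type*} [Ring E] [Algebra ℂ E] (x a : E) (hxa : Commute x a)
    (hx : x * x = 0) : ∀ k : ℕ, (x + a) ^ (k + 1) = a ^ (k + 1) + ((k : ℂ) + 1) • (x * a ^ k)
  | 0 => by simp [add_comm]
  | k + 1 => by
    rw [pow_succ, JKA_addpow x a hxa hx k, mul_add, add_mul, add_mul]
    have e1 : ((k : ℂ) + 1) • (x * a ^ k) * x = 0 := by
      rw [smul_mul_assoc, mul_assoc, ← (hxa.pow_right k).eq, ← mul_assoc, hx, zero_mul, smul_zero]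
    have e2 : a ^ (k + 1) * x = x * a ^ (k + 1) := ((hxa.pow_right (k + 1)).eq).symm
    rw [e1, e2, add_zero, smul_mul_assoc, mul_assoc, ← pow_succ, ← pow_succ]
    push_cast
    rw [add_comm (x * a ^ (k + 1)), add_assoc]
    congr 1
    rw [add_smul ((k : ℂ) + 1) 1, one_smul, add_comm]

theorem JKA_sumpow {E : Type*} [Ring E] [Algebra ℂ E] : ∀ (N : ℕ) (x : Fin N → E)
    (_ : ∀ i j, Commute (x i) (x j)) (_ : ∀ i, x i * x i = 0),
    (∑ i, x i) ^ N = (N.factorial : ℂ) • (List.ofFn x).prod ∧ (∑ i, x i) ^ (N + 1) = 0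
  | 0, x, _, _ => by simp
  | N + 1, x, hc, h0 => by
    obtain ⟨h1, h2⟩ := JKA_sumpow N (fun i => x i.succ) (fun i j => hc _ _) (fun i => h0 _)
    have hcom : Commute (x 0) (∑ i : Fin N, x i.succ) :=
      Commute.sum_right _ _ _ fun i _ => hc _ _
    rw [Fin.sum_univ_succ]
    constructor
    · rw [JKA_addpow _ _ hcom (h0 0), h2, zero_add, h1, List.ofFn_succ, List.prod_cons,
        mul_smul_comm, smul_smul, Nat.factorial_succ]
      push_cast
      rfl
    · rw [JKA_addpow _ _ hcom (h0 0), pow_succ, h2, zero_mul, zero_add, mul_zero, smul_zero]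

theorem JKA_pair_comm {W : Type*} [AddCommGroup W] [Module ℂ W] (a b c : W) :
    Commute (ExteriorAlgebra.ι ℂ a * ExteriorAlgebra.ι ℂ b) (ExteriorAlgebra.ι ℂ c) := by
  unfold Commute SemiconjBy
  rw [mul_assoc, JKA_anti b c, mul_neg, ← mul_assoc, JKA_anti a c, neg_mul, neg_neg, mul_assoc]

theorem JKA_pair_sq {W : Type*} [AddCommGroup W] [Module ℂ W] (a b : W) :
    (ExteriorAlgebra.ι ℂ a * ExteriorAlgebra.ι ℂ b) *
      (ExteriorAlgebra.ι ℂ a * ExteriorAlgebra.ι ℂ b) = 0 := by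
  have h := JKA_pair_comm a b a
  rw [← mul_assoc, h.eq, ← mul_assoc, ExteriorAlgebra.ι_sq_zero, zero_mul, zero_mul]

/-- the top functional -/
theorem JKA_top {n j m : ℕ} (e : (Fin n ⊕ Unit) ≃ ((Fin j ⊕ Unit) ⊕ Fin (m + 1))) :
    ∃ Φ : ExteriorAlgebra ℂ ((Fin n ⊕ Unit) ⊕ Fin (m + 1) → ℂ) →ₗ[ℂ] ℂ,
      ∀ (a : Fin j → (Fin n ⊕ Unit) ⊕ Fin (m + 1) → ℂ) (r : (Fin n ⊕ Unit) ⊕ Fin (m + 1) → ℂ)
        (u f : Fin (m + 1) → (Fin n ⊕ Unit) ⊕ Fin (m + 1) → ℂ),
        Φ ((List.ofFn fun i => ExteriorAlgebra.ι ℂ (a i)).prod * ExteriorAlgebra.ι ℂ r *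
          ((List.ofFn fun c => ExteriorAlgebra.ι ℂ (u c)).prod *
          (List.ofFn fun c => ExteriorAlgebra.ι ℂ (f c)).prod)) =
          Matrix.det (Matrix.of fun (s t : (Fin n ⊕ Unit) ⊕ Fin (m + 1)) =>
            (Sum.elim (fun q => (Sum.elim (Sum.elim a (fun _ => r)) u) (e q)) f) s t) := by
  classical
  let σ₁ : (Fin j ⊕ Unit) ≃ Fin (j + 1) :=
    (Equiv.sumCongr (Equiv.refl (Fin j)) (finOneEquiv.symm : Unit ≃ Fin 1)).trans finSumFinEquiv
  let σ₂ : ((Fin j ⊕ Unit) ⊕ Fin (m + 1)) ≃ Fin (j + 1 + (m + 1)) :=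
    (Equiv.sumCongr σ₁ (Equiv.refl (Fin (m + 1)))).trans finSumFinEquiv
  let σ : ((Fin n ⊕ Unit) ⊕ Fin (m + 1)) ≃ Fin (j + 1 + (m + 1) + (m + 1)) :=
    (Equiv.sumCongr (e.trans σ₂) (Equiv.refl (Fin (m + 1)))).trans finSumFinEquiv
  let D : ((Fin n ⊕ Unit) ⊕ Fin (m + 1) → ℂ) [⋀^Fin (j + 1 + (m + 1) + (m + 1))]→ₗ[ℂ] ℂ :=
    (Matrix.detRowAlternating (n := (Fin n ⊕ Unit) ⊕ Fin (m + 1)) (R := ℂ)).domDomCongr σ
  let F : ∀ i : ℕ, ((Fin n ⊕ Unit) ⊕ Fin (m + 1) → ℂ) [⋀^Fin i]→ₗ[ℂ] ℂ := fun i =>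
    if h : j + 1 + (m + 1) + (m + 1) = i then D.domDomCongr (finCongr h) else 0
  refine ⟨ExteriorAlgebra.liftAlternating F, fun a r u f => ?_⟩
  let v : Fin (j + 1 + (m + 1) + (m + 1)) → ((Fin n ⊕ Unit) ⊕ Fin (m + 1) → ℂ) :=
    Fin.append (Fin.append (Fin.append a (fun _ : Fin 1 => r)) u) f
  have hv : (List.ofFn fun i => ExteriorAlgebra.ι ℂ (a i)).prod * ExteriorAlgebra.ι ℂ r *
          ((List.ofFn fun c => ExteriorAlgebra.ι ℂ (u c)).prod *
          (List.ofFn fun c => ExteriorAlgebra.ι ℂ (f c)).prod) =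
          ExteriorAlgebra.ιMulti ℂ (j + 1 + (m + 1) + (m + 1)) v := by
    rw [ExteriorAlgebra.ιMulti_apply]
    have : (List.ofFn fun i => ExteriorAlgebra.ι ℂ (v i)) =
        (List.ofFn v).map (ExteriorAlgebra.ι ℂ) := by
      rw [List.map_ofFn]; rfl
    rw [this, List.ofFn_fin_append, List.ofFn_fin_append, List.ofFn_fin_append]
    simp only [List.map_append, List.prod_append, List.map_ofFn]
    simp [Function.comp_def, mul_assoc]
  rw [hv, ExteriorAlgebra.liftAlternating_apply_ιMulti]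
  have hF : F (j + 1 + (m + 1) + (m + 1)) = D := by
    simp only [F, dif_pos]
    ext w
    simp
  rw [hF]
  have hD : D v = Matrix.det (Matrix.of fun (s t : (Fin n ⊕ Unit) ⊕ Fin (m + 1)) =>
      v (σ s) t) := rfl
  rw [hD]
  congr 1
  ext s t
  simp only [Matrix.of_apply]
  rcases s with q | c
  · have h1 : σ (Sum.inl q) = Fin.castAdd (m + 1) (σ₂ (e q)) := rfl
    rw [h1]
    simp only [v, Fin.append_left, Sum.elim_inl]
    rcases hq : e q with (i | i) | c
    · have h2 : σ₂ (Sum.inl (Sum.inl i)) = Fin.castAdd (m + 1) (Fin.castAdd 1 i) := rfl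
      rw [h2]
      simp
    · have h2 : σ₂ (Sum.inl (Sum.inr i)) = Fin.castAdd (m + 1) (Fin.natAdd j 0) := rfl
      rw [h2]
      simp only [Fin.append_left, Fin.append_right, Sum.elim_inl, Sum.elim_inr]
    · have h2 : σ₂ (Sum.inr c) = Fin.natAdd (j + 1) c := rfl
      rw [h2]
      simp only [Fin.append_right, Sum.elim_inr]
  · have h1 : σ (Sum.inr c) = Fin.natAdd (j + 1 + (m + 1)) c := rfl
    rw [h1]
    simp only [v, Fin.append_right, Sum.elim_inr]

end JKA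

/-- JKA -/
theorem ext_det {n j m : ℕ} (hn : j + 1 + m = n) (K : Fin (m + 1) → Fin n)
    (e : (Fin n ⊕ Unit) ≃ ((Fin j ⊕ Unit) ⊕ Fin (m + 1))) :
    ∃ φ : Forms n →ₗ[ℂ] ℂ, ∀ (α : Fin j → Fin n → ℂ) (ρ β : Fin n → ℂ) (ω' : Fin n → Fin n → ℂ),
      φ ((List.ofFn fun i => ∑ k, α i k • dz k).prod * (∑ k, ρ k • dz k) * (∑ k, β k • dzb k) *
        (∑ k, ∑ l, ω' k l • (dz k * dzb l)) ^ m) = ((bmat α ρ β ω' K).submatrix id e).det := by
  classical
  obtain ⟨Φ, hΦ⟩ := JKA_top e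
  obtain ⟨ε, hε, hint⟩ := JKA_interleave (W := (Fin n ⊕ Unit) ⊕ Fin (m + 1) → ℂ) (m + 1)
  -- the linear map
  let P : (Fin n ⊕ Fin n → ℂ) →ₗ[ℂ] ((Fin n ⊕ Unit) ⊕ Fin (m + 1) → ℂ) :=
    { toFun := fun v => Sum.elim (Sum.elim (fun k => v (Sum.inl k)) (fun _ => 0))
        (fun c => v (Sum.inr (K c)))
      map_add' := by
        intro a b; ext s; rcases s with (s | s) | s <;> simp
      map_smul' := by
        intro a b; ext s; rcases s with (s | s) | s <;> simp }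
  let MP : Forms n →ₐ[ℂ] ExteriorAlgebra ℂ ((Fin n ⊕ Unit) ⊕ Fin (m + 1) → ℂ) :=
    ExteriorAlgebra.map P
  let g : (Fin n ⊕ Unit) ⊕ Fin (m + 1) → ℂ := Pi.single (Sum.inl (Sum.inr ())) 1
  let f : Fin (m + 1) → (Fin n ⊕ Unit) ⊕ Fin (m + 1) → ℂ := fun c => Pi.single (Sum.inr c) 1
  let κ : ℂ := (((-1 : ℂ) ^ (j + 1)) * (m.factorial : ℂ) * ε)⁻¹
  -- functional
  refine ⟨κ • (Φ ∘ₗ (LinearMap.mulLeft ℂ (ExteriorAlgebra.ι ℂ g)) ∘ₗ MP.toLinearMap),
    fun α ρ β ω' => ?_⟩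
  -- the vectors
  let a : Fin j → (Fin n ⊕ Unit) ⊕ Fin (m + 1) → ℂ := fun i =>
    Sum.elim (Sum.elim (α i) (fun _ => 0)) (fun _ => 0)
  let r : (Fin n ⊕ Unit) ⊕ Fin (m + 1) → ℂ := Sum.elim (Sum.elim ρ (fun _ => 0)) (fun _ => 0)
  let w : Fin (m + 1) → (Fin n ⊕ Unit) ⊕ Fin (m + 1) → ℂ := fun c =>
    Sum.elim (Sum.elim (fun k => ω' k (K c)) (fun _ => 0)) (fun _ => 0)
  let bb : (Fin n ⊕ Unit) ⊕ Fin (m + 1) → ℂ := Sum.elim (fun _ => 0) (fun c => β (K c))
  have hP : ∀ v : Fin n ⊕ Fin n → ℂ, MP (ExteriorAlgebra.ι ℂ v) = ExteriorAlgebra.ι ℂ (P v) :=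
    fun v => ExteriorAlgebra.map_apply_ι P v
  have hdz : ∀ c : Fin n → ℂ, MP (∑ k, c k • dz k) =
      ExteriorAlgebra.ι ℂ (Sum.elim (Sum.elim c (fun _ => 0)) (fun _ => 0)) := by
    intro c
    rw [map_sum]
    simp only [map_smul, dz, hP]
    simp only [← map_smul, ← map_sum]
    congr 1
    ext s
    simp only [Finset.sum_apply, Pi.smul_apply, P, LinearMap.coe_mk, AddHom.coe_mk]
    rcases s with (s | s) | s <;> simp [Pi.single_apply]
  have hdzb : MP (∑ k, β k • dzb k) = ExteriorAlgebra.ι ℂ bb := by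
    rw [map_sum]
    simp only [map_smul, dzb, hP]
    simp only [← map_smul, ← map_sum]
    congr 1
    ext s
    simp only [Finset.sum_apply, Pi.smul_apply, P, LinearMap.coe_mk, AddHom.coe_mk, bb]
    rcases s with (s | s) | s <;> simp [Pi.single_apply]
  have hdzb1 : ∀ l : Fin n, MP (dzb l) =
      ∑ c, (if l = K c then (1 : ℂ) else 0) • ExteriorAlgebra.ι ℂ (f c) := by
    intro l
    simp only [dzb, hP]
    simp only [← map_smul, ← map_sum]
    congr 1
    ext s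
    simp only [Finset.sum_apply, Pi.smul_apply, P, LinearMap.coe_mk, AddHom.coe_mk, f]
    rcases s with (s | s) | s <;> simp [Pi.single_apply, eq_comm]
  have hdz1 : ∀ k : Fin n, MP (dz k) = ExteriorAlgebra.ι ℂ (Pi.single (Sum.inl (Sum.inl k)) 1) := by
    intro k
    simp only [dz, hP]
    congr 1
    ext s
    simp only [P, LinearMap.coe_mk, AddHom.coe_mk]
    rcases s with (s | s) | s <;> simp [Pi.single_apply]
  have hw : ∀ c, ExteriorAlgebra.ι ℂ (w c) =
      ∑ k, ω' k (K c) • ExteriorAlgebra.ι ℂ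
        (Pi.single (Sum.inl (Sum.inl k)) 1 : (Fin n ⊕ Unit) ⊕ Fin (m + 1) → ℂ) := by
    intro c
    simp only [← map_smul, ← map_sum]
    congr 1
    ext s
    simp only [Finset.sum_apply, Pi.smul_apply, w]
    rcases s with (s | s) | s <;> simp [Pi.single_apply]
  have hom : MP (∑ k, ∑ l, ω' k l • (dz k * dzb l)) =
      ∑ c, ExteriorAlgebra.ι ℂ (w c) * ExteriorAlgebra.ι ℂ (f c) := by
    simp only [map_sum, map_smul, map_mul, hdz1, hdzb1, hw, Finset.mul_sum, Finset.sum_mul,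
      Finset.smul_sum, mul_smul_comm, smul_mul_assoc, smul_smul]
    rw [Finset.sum_comm (s := (Finset.univ : Finset (Fin (m + 1))))]
    refine Finset.sum_congr rfl fun k _ => ?_
    rw [Finset.sum_comm]
    refine Finset.sum_congr rfl fun c _ => ?_
    rw [Finset.sum_eq_single (K c)]
    · simp
    · intro b _ hb
      simp [hb]
    · simp
  set A := (List.ofFn fun i => ExteriorAlgebra.ι ℂ (a i)).prod with hA
  set R := ExteriorAlgebra.ι ℂ r with hR
  set B := ExteriorAlgebra.ι ℂ bb with hB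
  set G := ExteriorAlgebra.ι ℂ g with hG
  set Ω := ∑ c, ExteriorAlgebra.ι ℂ (w c) * ExteriorAlgebra.ι ℂ (f c) with hΩ
  have hMP : MP ((List.ofFn fun i => ∑ k, α i k • dz k).prod * (∑ k, ρ k • dz k) *
      (∑ k, β k • dzb k) * (∑ k, ∑ l, ω' k l • (dz k * dzb l)) ^ m) = A * R * B * Ω ^ m := by
    rw [map_mul, map_mul, map_mul, map_pow, hom, hdzb, hdz, map_list_prod, List.map_ofFn]
    congr 4
    simp only [Function.comp_def, hdz]
    rfl
  have hkey : ∀ β' : Fin n → ℂ, Φ (A * R * (∑ c, ExteriorAlgebra.ι ℂ (w c + β' (K c) • g) *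
      ExteriorAlgebra.ι ℂ (f c)) ^ (m + 1)) =
      ((m + 1).factorial : ℂ) * ε * ((bmat α ρ β' ω' K).submatrix id e).det := by
    intro β'
    have h1 := (JKA_sumpow (m + 1) (fun c => ExteriorAlgebra.ι ℂ (w c + β' (K c) • g) *
      ExteriorAlgebra.ι ℂ (f c)) (fun i k => (JKA_pair_comm _ _ _).mul_right (JKA_pair_comm _ _ _))
      (fun i => JKA_pair_sq _ _)).1
    rw [h1, hint, mul_smul_comm, mul_smul_comm, map_smul, map_smul, hA, hR, hΦ, smul_eq_mul,
      smul_eq_mul, mul_assoc]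
    congr 2
    have h2 : (Matrix.of fun (s t : (Fin n ⊕ Unit) ⊕ Fin (m + 1)) =>
            (Sum.elim (fun q => (Sum.elim (Sum.elim a (fun _ => r))
              (fun c => w c + β' (K c) • g)) (e q)) f) s t) =
        Matrix.fromBlocks (Matrix.transpose ((bmat α ρ β' ω' K).submatrix id e)) 0 0 1 := by
      ext s t
      rcases s with q | c
      · rcases t with (t | t) | t
        · simp only [Matrix.of_apply, Sum.elim_inl, Matrix.fromBlocks_apply₁₁,
            Matrix.transpose_apply, Matrix.submatrix_apply, id, bmat]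
          rcases e q with (i | i) | i <;> simp [a, r, w, g]
        · simp only [Matrix.of_apply, Sum.elim_inl, Matrix.fromBlocks_apply₁₁,
            Matrix.transpose_apply, Matrix.submatrix_apply, id, bmat]
          rcases e q with (i | i) | i <;> simp [a, r, w, g]
        · simp only [Matrix.of_apply, Sum.elim_inl, Matrix.fromBlocks_apply₁₂]
          rcases e q with (i | i) | i <;> simp [a, r, w, g]
      · rcases t with t | t
        · simp [f]
        · simp [f, Matrix.one_apply, Pi.single_apply, eq_comm]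
    rw [h2, Matrix.det_fromBlocks_zero₁₂, Matrix.det_one, mul_one, Matrix.det_transpose]
  have hzero : ((bmat α ρ (fun _ => 0) ω' K).submatrix id e).det = 0 := by
    apply Matrix.det_eq_zero_of_row_eq_zero (Sum.inr ())
    intro q
    simp only [Matrix.submatrix_apply, id, bmat, Matrix.of_apply]
    rcases e q with i | i <;> rfl
  have h0 := hkey (fun _ => 0)
  rw [hzero, mul_zero] at h0
  simp only [zero_smul, add_zero] at h0
  have hβ := hkey β
  have hsum : ∑ c, ExteriorAlgebra.ι ℂ (w c + β (K c) • g) * ExteriorAlgebra.ι ℂ (f c) =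
      G * B + Ω := by
    have hbb : bb = ∑ c, β (K c) • f c := by
      ext s
      simp only [Finset.sum_apply, Pi.smul_apply, bb, f]
      rcases s with s | s <;> simp [Pi.single_apply]
    rw [hB, hbb]
    simp only [map_add, map_smul, map_sum, add_mul, Finset.sum_add_distrib, Finset.mul_sum,
      smul_mul_assoc, mul_smul_comm]
    exact add_comm _ _
  rw [hsum, JKA_addpow (G * B) Ω (Commute.sum_right _ _ _ fun i _ =>
    (JKA_pair_comm _ _ _).mul_right (JKA_pair_comm _ _ _)) (JKA_pair_sq _ _), mul_add, map_add,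
    h0, zero_add, mul_smul_comm, map_smul, smul_eq_mul] at hβ
  have hm : ((m : ℂ) + 1) ≠ 0 := by exact_mod_cast Nat.succ_ne_zero m
  have hβ' : Φ (A * R * (G * B * Ω ^ m)) = (m.factorial : ℂ) * ε *
      ((bmat α ρ β ω' K).submatrix id e).det := by
    apply mul_left_cancel₀ hm
    rw [hβ, Nat.factorial_succ]
    push_cast
    ring
  have hGA : G * (A * R * B * Ω ^ m) = (-1 : ℂ) ^ (j + 1) • (A * R * (G * B * Ω ^ m)) := by
    have e1 : G * (A * R * B * Ω ^ m) = (G * A) * (R * B * Ω ^ m) := by simp only [mul_assoc]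
    rw [e1, hA, JKA_antilist', smul_mul_assoc]
    have e2 : (List.ofFn fun i => ExteriorAlgebra.ι ℂ (a i)).prod * ExteriorAlgebra.ι ℂ g *
        (R * B * Ω ^ m) = (List.ofFn fun i => ExteriorAlgebra.ι ℂ (a i)).prod *
        ((ExteriorAlgebra.ι ℂ g * R) * (B * Ω ^ m)) := by simp only [mul_assoc]
    rw [e2, hR, JKA_anti g r, pow_succ, mul_smul, neg_one_smul, neg_mul, mul_neg]
    simp only [mul_assoc]
    rfl
  rw [LinearMap.smul_apply, LinearMap.comp_apply, LinearMap.comp_apply]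
  have e3 : (LinearMap.mulLeft ℂ G) (MP.toLinearMap ((List.ofFn fun i => ∑ k, α i k • dz k).prod *
      (∑ k, ρ k • dz k) * (∑ k, β k • dzb k) * (∑ k, ∑ l, ω' k l • (dz k * dzb l)) ^ m)) =
      G * (A * R * B * Ω ^ m) := by
    rw [LinearMap.mulLeft_apply, AlgHom.toLinearMap_apply, hMP]
  rw [e3, hGA, map_smul, hβ']
  simp only [κ, smul_eq_mul]
  have hmf : (m.factorial : ℂ) ≠ 0 := by exact_mod_cast Nat.factorial_ne_zero m
  have h1 : ((-1 : ℂ) ^ (j + 1)) ≠ 0 := pow_ne_zero _ (by norm_num)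
  field_simp



end KI
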