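import Pool.Agent.KI.Defs

open scoped BigOperators
namespace KI



lemma jeb_len_add {M N : Type*} [AddCommGroup M] [Module ℂ M] [AddCommGroup N] [Module ℂ N]
    (i : N →ₗ[ℂ] M) (hi : Function.Injective i) (A : Submodule ℂ N) :
    Module.length ℂ (M ⧸ A.map i) =
      Module.length ℂ (N ⧸ A) + Module.length ℂ (M ⧸ LinearMap.range i) := by
  have hle : A.map i ≤ LinearMap.range i := LinearMap.map_le_range
  have fm : ∀ m : M, Submodule.factor hle (Submodule.Quotient.mk m) = Submodule.Quotient.mk m :=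
    fun _ => rfl
  refine Module.length_eq_add_of_exact (A.mapQ (A.map i) i (Submodule.le_comap_map i A))
    (Submodule.factor hle) ?_ (Submodule.factor_surjective hle) ?_
  · rw [← LinearMap.ker_eq_bot, LinearMap.ker_eq_bot']
    intro m
    induction m using Submodule.Quotient.induction_on with
    | _ n =>
      intro h
      rw [Submodule.mapQ_apply, Submodule.Quotient.mk_eq_zero] at h
      obtain ⟨a, ha, h⟩ := h
      rw [Submodule.Quotient.mk_eq_zero]
      rwa [← hi h]
  · intro y
    induction y using Submodule.Quotient.induction_on with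
    | _ m =>
      constructor
      · intro h
        rw [fm, Submodule.Quotient.mk_eq_zero] at h
        obtain ⟨n, rfl⟩ := h
        exact ⟨Submodule.Quotient.mk n, by rw [Submodule.mapQ_apply]⟩
      · rintro ⟨x, hx⟩
        rw [← hx]
        induction x using Submodule.Quotient.induction_on with
        | _ n =>
          rw [Submodule.mapQ_apply, fm, Submodule.Quotient.mk_eq_zero]
          exact ⟨n, rfl⟩

lemma jeb_len_eq {M N : Type*} [AddCommGroup M] [Module ℂ M] [AddCommGroup N] [Module ℂ N]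
    (i : N →ₗ[ℂ] M) (hi : Function.Injective i) (T : M →ₗ[ℂ] M) (hT : Function.Injective T)
    (S : N →ₗ[ℂ] N) (hS : ∀ n, i (S n) = T (i n))
    [Module.Finite ℂ (M ⧸ LinearMap.range i)] :
    Module.length ℂ (M ⧸ LinearMap.range T) = Module.length ℂ (N ⧸ LinearMap.range S) := by
  have h1 := jeb_len_add i hi (LinearMap.range S)
  have h2 := jeb_len_add T hT (LinearMap.range i)
  have h3 : (LinearMap.range S).map i = (LinearMap.range i).map T := by
    rw [← LinearMap.range_comp, ← LinearMap.range_comp]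
    congr 1
    ext n
    exact hS n
  rw [h3, h2, add_comm] at h1
  have hne : Module.length ℂ (M ⧸ LinearMap.range i) ≠ ⊤ := Module.length_ne_top
  exact (WithTop.add_right_inj hne).1 h1

lemma jeb_fin_D {D : Type*} [CommRing D] [Algebra ℂ D] (b : D)
    (h : Module.Finite ℂ (D ⧸ Ideal.span {b})) :
    Module.Finite ℂ (D ⧸ LinearMap.range (LinearMap.mulLeft ℂ b)) := by
  have he : LinearMap.range (LinearMap.mulLeft ℂ b) = (Ideal.span {b}).restrictScalars ℂ := by
    ext x
    simp only [LinearMap.mem_range, LinearMap.mulLeft_apply, Submodule.restrictScalars_mem,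
      Ideal.mem_span_singleton]
    exact ⟨fun ⟨y, hy⟩ => ⟨y, hy.symm⟩, fun ⟨y, hy⟩ => ⟨y, hy.symm⟩⟩
  rw [he]
  exact Module.Finite.equiv (Submodule.Quotient.restrictScalarsEquiv ℂ (Ideal.span {b})).symm

lemma jeb_fin_V {V : Type*} [CommRing V] [Algebra ℂ V] (b : V)
    (h : Module.Finite ℂ (V ⧸ LinearMap.range (LinearMap.mulLeft ℂ b))) :
    Module.Finite ℂ (V ⧸ Ideal.span {b}) := by
  have he : LinearMap.range (LinearMap.mulLeft ℂ b) = (Ideal.span {b}).restrictScalars ℂ := by
    ext x
    simp only [LinearMap.mem_range, LinearMap.mulLeft_apply, Submodule.restrictScalars_mem,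
      Ideal.mem_span_singleton]
    exact ⟨fun ⟨y, hy⟩ => ⟨y, hy.symm⟩, fun ⟨y, hy⟩ => ⟨y, hy.symm⟩⟩
  rw [he] at h
  exact Module.Finite.equiv (Submodule.Quotient.restrictScalarsEquiv ℂ (Ideal.span {b}))

section
variable {D V : Type*} [CommRing D] [IsDomain D] [Algebra ℂ D] [CommRing V] [IsDomain V]
  [Algebra ℂ V] [Algebra D V] [IsScalarTower ℂ D V]

/-- the ℂ-linear inclusion -/
noncomputable def jeb_ι (D V : Type*) [CommRing D] [Algebra ℂ D] [CommRing V]
  [Algebra ℂ V] [Algebra D V] [IsScalarTower ℂ D V] : D →ₗ[ℂ] V :=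
  (IsScalarTower.toAlgHom ℂ D V).toLinearMap

lemma jeb_ι_apply (d : D) : jeb_ι D V d = algebraMap D V d := rfl

/-- the elements of `V` with denominator `b` -/
noncomputable def jeb_M (V : Type*) {D : Type*} [CommRing D] [Algebra ℂ D] [CommRing V]
  [Algebra ℂ V] [Algebra D V] [IsScalarTower ℂ D V] (b : D) : Submodule ℂ V :=
  (LinearMap.range (jeb_ι D V)).comap (LinearMap.mulLeft ℂ (algebraMap D V b))

lemma jeb_mem_M (b : D) (v : V) : v ∈ jeb_M V b ↔ ∃ d : D, algebraMap D V d = algebraMap D V b * v := by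
  simp only [jeb_M, Submodule.mem_comap, LinearMap.mulLeft_apply, LinearMap.mem_range, jeb_ι_apply]

lemma jeb_bound (hinj : Function.Injective (algebraMap D V))
    (b t : D) (hb : b ≠ 0) (ht : t ≠ 0)
    (hfb : Module.Finite ℂ (D ⧸ Ideal.span {b})) :
    Module.length ℂ ((jeb_M V b).map (LinearMap.range (LinearMap.mulLeft ℂ (algebraMap D V t))).mkQ)
      ≤ Module.length ℂ (D ⧸ LinearMap.range (LinearMap.mulLeft ℂ t)) := by
  have hb' : algebraMap D V b ≠ 0 := by
    intro h; exact hb (hinj (by rw [h, map_zero]))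
  have ht' : algebraMap D V t ≠ 0 := by
    intro h; exact ht (hinj (by rw [h, map_zero]))
  haveI := jeb_fin_D b hfb
  -- the inclusion of D in M
  have hi0 : ∀ d : D, jeb_ι D V d ∈ jeb_M V b := fun d => by
    rw [jeb_mem_M]
    exact ⟨b * d, by rw [map_mul, jeb_ι_apply]⟩
  set i : D →ₗ[ℂ] jeb_M V b := (jeb_ι D V).codRestrict _ hi0 with hidef
  have hT0 : ∀ v ∈ jeb_M V b, LinearMap.mulLeft ℂ (algebraMap D V t) v ∈ jeb_M V b := by
    intro v hv
    rw [jeb_mem_M] at hv ⊢
    obtain ⟨d, hd⟩ := hv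
    refine ⟨t * d, ?_⟩
    rw [map_mul, hd, LinearMap.mulLeft_apply]; ring
  set T : jeb_M V b →ₗ[ℂ] jeb_M V b :=
    (LinearMap.mulLeft ℂ (algebraMap D V t)).restrict hT0 with hTdef
  have hiinj : Function.Injective i := by
    intro x y hxy
    have := congrArg Subtype.val hxy
    exact hinj this
  have hTinj : Function.Injective T := by
    intro x y hxy
    have := congrArg Subtype.val hxy
    exact Subtype.ext (mul_left_cancel₀ ht' this)
  set P : Submodule ℂ V := (LinearMap.range (LinearMap.mulLeft ℂ b)).map (jeb_ι D V) with hP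
  set g : jeb_M V b →ₗ[ℂ] V ⧸ P := P.mkQ ∘ₗ (LinearMap.mulLeft ℂ (algebraMap D V b)) ∘ₗ
    (jeb_M V b).subtype with hg
  set h : (D ⧸ LinearMap.range (LinearMap.mulLeft ℂ b)) →ₗ[ℂ] V ⧸ P :=
    Submodule.mapQ _ P (jeb_ι D V) (Submodule.le_comap_map _ _) with hh
  have hgr : LinearMap.range g ≤ LinearMap.range h := by
    rintro _ ⟨⟨v, hv⟩, rfl⟩
    obtain ⟨d, hd⟩ := (jeb_mem_M b v).1 hv
    refine ⟨Submodule.Quotient.mk d, ?_⟩
    rw [hh, Submodule.mapQ_apply, hg]
    show Submodule.Quotient.mk _ = Submodule.Quotient.mk (algebraMap D V b * v)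
    rw [← hd, jeb_ι_apply]
  have hker : LinearMap.ker g = LinearMap.range i := by
    ext ⟨v, hv⟩
    rw [LinearMap.mem_ker, LinearMap.mem_range]
    have : g ⟨v, hv⟩ = Submodule.Quotient.mk (algebraMap D V b * v) := rfl
    rw [this, Submodule.Quotient.mk_eq_zero]
    constructor
    · rintro ⟨_, ⟨d, rfl⟩, hd⟩
      refine ⟨d, ?_⟩
      apply Subtype.ext
      rw [LinearMap.mulLeft_apply, jeb_ι_apply, map_mul] at hd
      exact mul_left_cancel₀ hb' hd
    · rintro ⟨d, hd⟩
      have hd' : algebraMap D V d = v := congrArg Subtype.val hd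
      refine ⟨_, ⟨d, rfl⟩, ?_⟩
      rw [LinearMap.mulLeft_apply, jeb_ι_apply, map_mul, hd']
  haveI hfr : Module.Finite ℂ (LinearMap.range g) := Submodule.finiteDimensional_of_le hgr
  haveI : Module.Finite ℂ (jeb_M V b ⧸ LinearMap.range i) := by
    rw [← hker]
    exact Module.Finite.equiv g.quotKerEquivRange.symm
  have hkey := jeb_len_eq i hiinj T hTinj (LinearMap.mulLeft ℂ t) (by
    intro n
    apply Subtype.ext
    show algebraMap D V (t * n) = algebraMap D V t * algebraMap D V n
    rw [map_mul])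
  rw [← hkey]
  -- surjection of M/TM onto the image
  set Q := LinearMap.range (LinearMap.mulLeft ℂ (algebraMap D V t)) with hQ
  set k : (jeb_M V b ⧸ LinearMap.range T) →ₗ[ℂ] V ⧸ Q :=
    Submodule.mapQ _ Q (jeb_M V b).subtype (by
      rintro _ ⟨x, rfl⟩
      exact ⟨x.1, rfl⟩) with hk
  have hkr : (jeb_M V b).map Q.mkQ = LinearMap.range k := by
    ext y
    constructor
    · rintro ⟨x, hx, rfl⟩
      exact ⟨Submodule.Quotient.mk ⟨x, hx⟩, rfl⟩
    · rintro ⟨x, rfl⟩
      induction x using Submodule.Quotient.induction_on with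
      | _ x => exact ⟨x.1, x.2, rfl⟩
  rw [hkr]
  exact Module.length_le_of_surjective _ (LinearMap.surjective_rangeRestrict k)


lemma jeb_fin_t (hinj : Function.Injective (algebraMap D V))
    (hfrac : ∀ v : V, ∃ b : D, b ≠ 0 ∧ ∃ d : D, algebraMap D V d = algebraMap D V b * v)
    (hfin : ∀ b : D, b ≠ 0 → Module.Finite ℂ (D ⧸ Ideal.span {b})) (t : D) (ht : t ≠ 0) :
    Module.Finite ℂ (V ⧸ Ideal.span {algebraMap D V t}) := by
  apply jeb_fin_V
  set Q := LinearMap.range (LinearMap.mulLeft ℂ (algebraMap D V t)) with hQ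
  have := jeb_fin_D t (hfin t ht)
  set n := Module.finrank ℂ (D ⧸ LinearMap.range (LinearMap.mulLeft ℂ t)) with hn
  have hlen : Module.length ℂ (D ⧸ LinearMap.range (LinearMap.mulLeft ℂ t)) = n :=
    Module.length_eq_finrank _ _
  have hrank : Module.rank ℂ (V ⧸ Q) ≤ n := by
    apply rank_le
    intro s hs
    classical
    -- representatives and denominators
    choose v hv using fun y : V ⧸ Q => Submodule.Quotient.mk_surjective Q y
    choose q hq using hfrac
    set b : D := ∏ y ∈ s, q (v y) with hb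
    have hb0 : b ≠ 0 := Finset.prod_ne_zero_iff.2 fun y _ => (hq (v y)).1
    have hmem : ∀ y ∈ s, v y ∈ jeb_M V b := by
      intro y hy
      rw [jeb_mem_M]
      obtain ⟨d, hd⟩ := (hq (v y)).2
      refine ⟨(∏ z ∈ s.erase y, q (v z)) * d, ?_⟩
      rw [map_mul, hd, hb, ← Finset.mul_prod_erase s _ hy, map_mul]
      ring
    set W := (jeb_M V b).map Q.mkQ with hW
    have hlW : Module.length ℂ W ≤ n := by
      rw [← hlen]; exact jeb_bound hinj b t hb0 ht (hfin b hb0)
    have hfW : Module.Finite ℂ W := by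
      have h1 : Module.length ℂ W ≠ ⊤ := ne_top_of_le_ne_top (ENat.coe_ne_top n) hlW
      rw [Module.length_ne_top_iff, isFiniteLength_iff_isNoetherian_isArtinian] at h1
      have := h1.1
      infer_instance
    have hfrW : Module.finrank ℂ W ≤ n := by
      rw [Module.length_eq_finrank] at hlW
      exact_mod_cast hlW
    have hspan : Submodule.span ℂ (s : Set (V ⧸ Q)) ≤ W := by
      rw [Submodule.span_le]
      intro y hy
      exact ⟨v y, hmem y hy, hv y⟩
    have hcard := finrank_span_finset_eq_card hs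
    rw [← hcard]
    exact (Submodule.finrank_mono hspan).trans hfrW
  exact Module.rank_lt_aleph0_iff.1 (hrank.trans_lt (Cardinal.natCast_lt_aleph0))

lemma jeb_fin_b (hinj : Function.Injective (algebraMap D V))
    (hfrac : ∀ v : V, ∃ b : D, b ≠ 0 ∧ ∃ d : D, algebraMap D V d = algebraMap D V b * v)
    (hfin : ∀ b : D, b ≠ 0 → Module.Finite ℂ (D ⧸ Ideal.span {b})) (v : V) (hv : v ≠ 0) :
    Module.Finite ℂ (V ⧸ Ideal.span {v}) := by
  obtain ⟨q, hq, p, hp⟩ := hfrac v
  have hq' : algebraMap D V q ≠ 0 := by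
    intro h; exact hq (hinj (by rw [h, map_zero]))
  have hp0 : p ≠ 0 := by
    rintro rfl
    rw [map_zero] at hp
    exact mul_ne_zero hq' hv hp.symm
  have h1 := jeb_fin_t hinj hfrac hfin p hp0
  have hle : Ideal.span {algebraMap D V p} ≤ Ideal.span {v} := by
    rw [Ideal.span_singleton_le_span_singleton, hp]
    exact Dvd.intro_left _ rfl
  exact Module.Finite.of_surjective (Ideal.Quotient.factorₐ ℂ hle).toLinearMap
    (Ideal.Quotient.factor_surjective hle)

end

lemma jeb_noeth {V : Type*} [CommRing V] [Algebra ℂ V]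
    (h : ∀ v : V, v ≠ 0 → Module.Finite ℂ (V ⧸ Ideal.span {v})) : IsNoetherianRing V := by
  refine ⟨fun s => ?_⟩
  by_cases hs : s = ⊥
  · rw [hs]; exact Submodule.fg_bot
  obtain ⟨b, hb, hb0⟩ := Submodule.exists_mem_ne_zero_of_ne_bot hs
  have := h b hb0
  have hN : IsNoetherian V (V ⧸ Ideal.span {b}) := isNoetherian_of_tower ℂ inferInstance
  refine Submodule.fg_of_fg_map_of_fg_inf_ker (Submodule.mkQ (Ideal.span {b})) (hN.noetherian _) ?_
  rw [Submodule.ker_mkQ]
  have : s ⊓ Ideal.span {b} = Ideal.span {b} := by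
    rw [inf_eq_right, Ideal.span_le, Set.singleton_subset_iff]; exact hb
  rw [this]
  exact Submodule.fg_span (Set.finite_singleton b)

lemma jeb_series {V : Type*} [CommRing V] [IsDomain V] [Algebra ℂ V] (π : V) (hπ : π ≠ 0)
    (hu : ¬ IsUnit π) [IsNoetherianRing V]
    (hex : ∀ x : V, ∃ r : ℂ, ∃ y : V, x = algebraMap ℂ V r + π * y) :
    ∃ Ψ : V →ₐ[ℂ] PowerSeries ℂ, Function.Injective Ψ ∧
      ∀ x : V, π ∣ x → PowerSeries.constantCoeff (Ψ x) = 0 := by
  have huniq : ∀ (r r' : ℂ) (y y' : V), algebraMap ℂ V r + π * y = algebraMap ℂ V r' + π * y' →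
      r = r' ∧ y = y' := by
    intro r r' y y' h
    have hr : r = r' := by
      by_contra hne
      apply hu
      have h1 : algebraMap ℂ V (r - r') = π * (y' - y) := by
        rw [map_sub]; linear_combination h
      have h2 : IsUnit (algebraMap ℂ V (r - r')) :=
        (IsUnit.mk0 _ (sub_ne_zero.2 hne)).map _
      rw [h1] at h2
      exact isUnit_of_mul_isUnit_left h2
    refine ⟨hr, ?_⟩
    rw [hr] at h
    exact mul_left_cancel₀ hπ (add_left_cancel h)
  choose c σ hcσ using hex
  have key : ∀ (x : V) (r : ℂ) (y : V), x = algebraMap ℂ V r + π * y → c x = r ∧ σ x = y := by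
    intro x r y h
    exact huniq _ _ _ _ ((hcσ x).symm.trans h)
  have hadd : ∀ x y, c (x + y) = c x + c y ∧ σ (x + y) = σ x + σ y := by
    intro x y
    apply key
    rw [map_add]
    linear_combination hcσ x + hcσ y
  have hmul : ∀ x y, c (x * y) = c x * c y ∧
      σ (x * y) = algebraMap ℂ V (c x) * σ y + σ x * y := by
    intro x y
    apply key
    rw [map_mul]
    linear_combination (y : V) * hcσ x + (algebraMap ℂ V (c x)) * hcσ y
  have halg : ∀ r : ℂ, c (algebraMap ℂ V r) = r ∧ σ (algebraMap ℂ V r) = 0 := by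
    intro r
    apply key
    ring
  have hcadd := fun x y => (hadd x y).1
  have hσadd := fun x y => (hadd x y).2
  have hc0 : c 0 = 0 := by have := (halg 0).1; rwa [map_zero] at this
  have hσ0 : σ 0 = 0 := by have := (halg 0).2; rwa [map_zero] at this
  have hσsmul : ∀ (r : ℂ) x, σ (algebraMap ℂ V r * x) = algebraMap ℂ V r * σ x := by
    intro r x
    rw [(hmul _ _).2, (halg r).1, (halg r).2]; ring
  have hcsmul : ∀ (r : ℂ) x, c (algebraMap ℂ V r * x) = r * c x := by
    intro r x
    rw [(hmul _ _).1, (halg r).1]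
  have hitadd : ∀ n x y, σ^[n] (x + y) = σ^[n] x + σ^[n] y := by
    intro n
    induction n with
    | zero => intro x y; rfl
    | succ n ih => intro x y; rw [Function.iterate_succ_apply, hσadd, ih]; rfl
  have hitsmul : ∀ n (r : ℂ) x, σ^[n] (algebraMap ℂ V r * x) = algebraMap ℂ V r * σ^[n] x := by
    intro n
    induction n with
    | zero => intro x y; rfl
    | succ n ih => intro x y; rw [Function.iterate_succ_apply, hσsmul, ih]; rfl
  have hit0 : ∀ n, σ^[n] 0 = 0 := by
    intro n
    induction n with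
    | zero => rfl
    | succ n ih => rw [Function.iterate_succ_apply, hσ0, ih]
  have hmulcoef : ∀ n x y, c (σ^[n] (x * y)) =
      ∑ p ∈ Finset.HasAntidiagonal.antidiagonal n, c (σ^[p.1] x) * c (σ^[p.2] y) := by
    intro n
    induction n with
    | zero => intro x y; simp [(hmul x y).1]
    | succ n ih =>
      intro x y
      rw [Function.iterate_succ_apply, (hmul x y).2, hitadd, hcadd, hitsmul, hcsmul, ih,
        Finset.Nat.antidiagonal_succ, Finset.sum_cons, Finset.sum_map]
      rfl
  let Ψ : V →ₐ[ℂ] PowerSeries ℂ :=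
    { toFun := fun x => PowerSeries.mk fun n => c (σ^[n] x)
      map_one' := by
        ext n
        rw [PowerSeries.coeff_mk, PowerSeries.coeff_one]
        rcases n with _ | n
        · have := (halg 1).1
          rw [map_one] at this
          simpa using this
        · have := (halg 1).2
          rw [map_one] at this
          rw [Function.iterate_succ_apply, this, hit0, hc0]; simp
      map_mul' := by
        intro x y
        ext n
        rw [PowerSeries.coeff_mk, PowerSeries.coeff_mul, hmulcoef]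
        simp only [PowerSeries.coeff_mk]
      map_zero' := by
        ext n
        rw [PowerSeries.coeff_mk, hit0, hc0]; simp
      map_add' := by
        intro x y
        ext n
        rw [PowerSeries.coeff_mk, hitadd, hcadd, map_add, PowerSeries.coeff_mk,
          PowerSeries.coeff_mk]
      commutes' := by
        intro r
        ext n
        rw [PowerSeries.coeff_mk]
        have h2 : algebraMap ℂ (PowerSeries ℂ) r = PowerSeries.C r := rfl
        rw [h2, PowerSeries.coeff_C]
        rcases n with _ | n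
        · simpa using (halg r).1
        · rw [Function.iterate_succ_apply, (halg r).2, hit0, hc0]; simp }
  have hΨ : ∀ x n, PowerSeries.coeff n (Ψ x) = c (σ^[n] x) := by
    intro x n
    show PowerSeries.coeff n (PowerSeries.mk fun n => c (σ^[n] x)) = _
    rw [PowerSeries.coeff_mk]
  refine ⟨Ψ, ?_, ?_⟩
  · rw [injective_iff_map_eq_zero]
    intro x hx
    by_contra hx0
    have hc : ∀ n, c (σ^[n] x) = 0 := by
      intro n; rw [← hΨ, hx]; simp
    have hdiv : ∀ n, x = π ^ n * σ^[n] x := by
      intro n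
      induction n with
      | zero => simp
      | succ n ih =>
        rw [Function.iterate_succ_apply']
        have := hcσ (σ^[n] x)
        rw [hc n, map_zero, zero_add] at this
        rw [pow_succ, mul_assoc, ← this]
        exact ih
    have hfm : FiniteMultiplicity π x := FiniteMultiplicity.of_not_isUnit hu hx0
    obtain ⟨n, hn⟩ := hfm
    exact hn ⟨_, hdiv (n + 1)⟩
  · rintro x ⟨y, rfl⟩
    rw [← PowerSeries.coeff_zero_eq_constantCoeff_apply, hΨ]
    have := (key (π * y) 0 y (by rw [map_zero, zero_add])).1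
    simpa using this

lemma jeb_psi {V : Type*} [CommRing V] [IsDomain V] [ValuationRing V] [Algebra ℂ V]
    (hfin : ∀ v : V, v ≠ 0 → Module.Finite ℂ (V ⧸ Ideal.span {v}))
    (hne : ∃ v : V, v ≠ 0 ∧ ¬ IsUnit v) :
    ∃ Ψ : V →ₐ[ℂ] PowerSeries ℂ, Function.Injective Ψ ∧
      ∀ x : V, ¬ IsUnit x → PowerSeries.constantCoeff (Ψ x) = 0 := by
  have := jeb_noeth hfin
  have : IsPrincipalIdealRing V := inferInstance
  obtain ⟨π, hπ⟩ := (IsPrincipalIdealRing.principal (IsLocalRing.maximalIdeal V)).principal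
  have hπ' : IsLocalRing.maximalIdeal V = Ideal.span {π} := hπ
  obtain ⟨v, hv0, hvu⟩ := hne
  have hv : v ∈ IsLocalRing.maximalIdeal V := (IsLocalRing.mem_maximalIdeal v).2 hvu
  have hπ0 : π ≠ 0 := by
    rintro rfl
    rw [hπ', Ideal.mem_span_singleton, zero_dvd_iff] at hv
    exact hv0 hv
  have hπu : ¬ IsUnit π := by
    have : π ∈ IsLocalRing.maximalIdeal V := by rw [hπ']; exact Ideal.mem_span_singleton_self π
    exact (IsLocalRing.mem_maximalIdeal π).1 this
  have hf := hfin π hπ0
  rw [← hπ'] at hf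
  have hf' : Module.Finite ℂ (IsLocalRing.ResidueField V) := hf
  have hbij : Function.Bijective (algebraMap ℂ (IsLocalRing.ResidueField V)) :=
    IsAlgClosed.algebraMap_bijective_of_isIntegral
  obtain ⟨Ψ, h1, h2⟩ := jeb_series π hπ0 hπu (by
    intro x
    obtain ⟨r, hr⟩ := hbij.2 (IsLocalRing.residue V x)
    have hr' : IsLocalRing.residue V (x - algebraMap ℂ V r) = 0 := by
      rw [map_sub, ← hr, sub_eq_zero]; rfl
    rw [IsLocalRing.residue_eq_zero_iff, hπ', Ideal.mem_span_singleton] at hr'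
    obtain ⟨y, hy⟩ := hr'
    exact ⟨r, y, by rw [← hy]; ring⟩)
  refine ⟨Ψ, h1, fun x hx => h2 x ?_⟩
  rw [← Ideal.mem_span_singleton, ← hπ']
  exact (IsLocalRing.mem_maximalIdeal x).2 hx

lemma jeb_core (D V : Type*) [CommRing D] [IsDomain D] [Algebra ℂ D] [IsLocalRing D]
    [CommRing V] [IsDomain V] [ValuationRing V] [Algebra ℂ V] [Algebra D V] [IsScalarTower ℂ D V]
    (hinj : Function.Injective (algebraMap D V))
    (hloc : IsLocalHom (algebraMap D V))
    (hfrac : ∀ v : V, ∃ b : D, b ≠ 0 ∧ ∃ d : D, algebraMap D V d = algebraMap D V b * v)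
    (hfin : ∀ b : D, b ≠ 0 → Module.Finite ℂ (D ⧸ Ideal.span {b}))
    (hM : IsLocalRing.maximalIdeal D ≠ ⊥) :
    ∃ Ψ : D →ₐ[ℂ] PowerSeries ℂ, Function.Injective Ψ ∧
      ∀ b ∈ IsLocalRing.maximalIdeal D, PowerSeries.constantCoeff (Ψ b) = 0 := by
  have hnu : ∀ b ∈ IsLocalRing.maximalIdeal D, ¬ IsUnit (algebraMap D V b) := by
    intro b hb hu
    exact (IsLocalRing.mem_maximalIdeal b).1 hb (hloc.map_nonunit b hu)
  obtain ⟨t, htm, ht0⟩ := Submodule.exists_mem_ne_zero_of_ne_bot hM
  obtain ⟨Ψ, h1, h2⟩ := jeb_psi (V := V) (jeb_fin_b hinj hfrac hfin)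
    ⟨algebraMap D V t, fun h => ht0 (hinj (by rw [h, map_zero])), hnu t htm⟩
  refine ⟨Ψ.comp (IsScalarTower.toAlgHom ℂ D V), ?_, ?_⟩
  · intro x y hxy
    exact hinj (h1 hxy)
  · intro b hb
    exact h2 _ (hnu b hb)

/-- local domains of dimension one over `ℂ` map to `ℂ[[t]]` (JEB1) -/
theorem exists_hom_powerSeries (D : Type*) [CommRing D] [IsDomain D] [Algebra ℂ D] [IsLocalRing D]
    (hfin : ∀ b : D, b ≠ 0 → Module.Finite ℂ (D ⧸ Ideal.span {b}))
    (hM : IsLocalRing.maximalIdeal D ≠ ⊥) :
    ∃ Ψ : D →ₐ[ℂ] PowerSeries ℂ, Function.Injective Ψ ∧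
      ∀ b ∈ IsLocalRing.maximalIdeal D, PowerSeries.constantCoeff (Ψ b) = 0 := by
  obtain ⟨B, hB⟩ := (LocalSubring.range (algebraMap D (FractionRing D))).exists_le_valuationSubring
  obtain ⟨hle, hloc⟩ := LocalSubring.le_def.1 hB
  have hmem : ∀ d : D, algebraMap D (FractionRing D) d ∈ B := fun d => hle ⟨d, rfl⟩
  let f : D →+* B := (algebraMap D (FractionRing D)).codRestrict B.toSubring hmem
  have hf : ∀ d, ((f d : B) : FractionRing D) = algebraMap D (FractionRing D) d := fun d => rfl
  letI : Algebra D B := f.toAlgebra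
  letI : Algebra ℂ B := (f.comp (algebraMap ℂ D)).toAlgebra
  haveI : IsScalarTower ℂ D B := IsScalarTower.of_algebraMap_eq (fun r => rfl)
  have hinj : Function.Injective (algebraMap D B) := by
    intro x y hxy
    apply IsFractionRing.injective D (FractionRing D)
    rw [← hf, ← hf]
    exact congrArg Subtype.val hxy
  refine jeb_core D B hinj ?_ ?_ hfin hM
  · constructor
    intro d hd
    -- d maps to a unit of B
    have h1 : IsUnit (Subring.inclusion hle ⟨algebraMap D (FractionRing D) d, ⟨d, rfl⟩⟩) := hd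
    have h2 := hloc.map_nonunit _ h1
    obtain ⟨⟨y, ⟨e, he⟩⟩, hy⟩ := isUnit_iff_exists_inv.1 h2
    have h3 : algebraMap D (FractionRing D) d * y = 1 := congrArg Subtype.val hy
    rw [← he] at h3
    have h4 : d * e = 1 := by
      apply IsFractionRing.injective D (FractionRing D)
      rw [map_mul, map_one]
      exact h3
    exact IsUnit.of_mul_eq_one _ h4
  · intro v
    obtain ⟨p, q, hq, hpq⟩ := IsFractionRing.div_surjective (A := D) (v : FractionRing D)
    have hq0 : q ≠ 0 := nonZeroDivisors.ne_zero hq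
    refine ⟨q, hq0, p, ?_⟩
    apply Subtype.ext
    show algebraMap D (FractionRing D) p = algebraMap D (FractionRing D) q * (v : FractionRing D)
    have hq' : algebraMap D (FractionRing D) q ≠ 0 := by
      intro h
      exact hq0 (IsFractionRing.injective D (FractionRing D) (by rw [h, map_zero]))
    rw [← hpq]
    field_simp



end KI
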