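import Pool.Agent.KI.BDefs

open scoped ContDiff Topology BigOperators
open Finset Asymptotics

namespace KI
open DAng (Wd)

variable {n : ℕ} {x₀ : Cn n}



theorem ep_dZ_smooth {f : Cn n → ℂ} (hf : ∀ᶠ x in 𝓝 x₀, ContDiffAt ℝ ∞ f x) (k : Fin n) :
    ∀ᶠ x in 𝓝 x₀, ContDiffAt ℝ ∞ (dZ k f) x := by
  filter_upwards [hf] with x hx
  have h1 : ContDiffAt ℝ ∞ (fderiv ℝ f) x := hx.fderiv_right (by simp)
  unfold dZ
  exact contDiffAt_const.mul ((h1.clm_apply contDiffAt_const).sub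
    (contDiffAt_const.mul (h1.clm_apply contDiffAt_const)))

theorem ep_dZb_smooth {f : Cn n → ℂ} (hf : ∀ᶠ x in 𝓝 x₀, ContDiffAt ℝ ∞ f x) (k : Fin n) :
    ∀ᶠ x in 𝓝 x₀, ContDiffAt ℝ ∞ (dZb k f) x := by
  filter_upwards [hf] with x hx
  have h1 : ContDiffAt ℝ ∞ (fderiv ℝ f) x := hx.fderiv_right (by simp)
  unfold dZb
  exact contDiffAt_const.mul ((h1.clm_apply contDiffAt_const).add
    (contDiffAt_const.mul (h1.clm_apply contDiffAt_const)))

/-- `dZ k` as a map of `SmR` -/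
noncomputable def epD (k : Fin n) (f : SmR x₀) : SmR x₀ := ⟨dZ k (f : Cn n → ℂ), ep_dZ_smooth f.2 k⟩

theorem ep_dZ_mul (k : Fin n) (s f : SmR x₀) :
    ∀ᶠ x in 𝓝 x₀, dZ k ((s * f : SmR x₀) : Cn n → ℂ) x =
      (s : Cn n → ℂ) x * dZ k (f : Cn n → ℂ) x + (f : Cn n → ℂ) x * dZ k (s : Cn n → ℂ) x := by
  have hs := s.2
  have hf := f.2
  filter_upwards [hs, hf] with x h1 h2
  have d1 : DifferentiableAt ℝ (s : Cn n → ℂ) x := h1.differentiableAt (by simp)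
  have d2 : DifferentiableAt ℝ (f : Cn n → ℂ) x := h2.differentiableAt (by simp)
  have h3 : fderiv ℝ ((s * f : SmR x₀) : Cn n → ℂ) x
      = (s : Cn n → ℂ) x • fderiv ℝ (f : Cn n → ℂ) x + (f : Cn n → ℂ) x • fderiv ℝ (s : Cn n → ℂ) x := by
    exact fderiv_mul d1 d2
  unfold dZ
  rw [h3]
  simp only [_root_.add_apply, _root_.smul_apply, smul_eq_mul]
  ring

/-- an element of an ideal with the property `rad` -/
theorem ep_zero {I : Ideal (SmR x₀)}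
    (hrad : ∀ f ∈ I, ∀ g : SmR x₀, ∀ m : ℕ, 1 ≤ m →
    (∀ᶠ x in 𝓝 x₀, ‖(g : Cn n → ℂ) x‖ ^ m ≤ ‖(f : Cn n → ℂ) x‖) → g ∈ I) (h : SmR x₀)
    (h0 : ∀ᶠ x in 𝓝 x₀, (h : Cn n → ℂ) x = 0) : h ∈ I := by
  apply hrad 0 I.zero_mem h 1 le_rfl
  filter_upwards [h0] with x hx
  rw [hx]; simp

theorem ep_mul_mem {I : Ideal (SmR x₀)}
    (hrad : ∀ f ∈ I, ∀ g : SmR x₀, ∀ m : ℕ, 1 ≤ m →
    (∀ᶠ x in 𝓝 x₀, ‖(g : Cn n → ℂ) x‖ ^ m ≤ ‖(f : Cn n → ℂ) x‖) → g ∈ I)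
    (s f g : SmR x₀) (hsf : s * f ∈ I) (m : ℕ) (hm : 1 ≤ m)
    (h : ∀ᶠ x in 𝓝 x₀, ‖(g : Cn n → ℂ) x‖ ^ m ≤ ‖(f : Cn n → ℂ) x‖) : s * g ∈ I := by
  have hsc : ContinuousAt (s : Cn n → ℂ) x₀ := (s.2.self_of_nhds).continuousAt
  obtain ⟨C, hC1, hC⟩ : ∃ C : ℝ, 1 ≤ C ∧ ∀ᶠ x in 𝓝 x₀, ‖(s : Cn n → ℂ) x‖ ≤ C := by
    refine ⟨‖(s : Cn n → ℂ) x₀‖ + 1, by linarith [norm_nonneg ((s : Cn n → ℂ) x₀)], ?_⟩
    have := hsc.norm.eventually (gt_mem_nhds (show ‖(s : Cn n → ℂ) x₀‖ < ‖(s : Cn n → ℂ) x₀‖ + 1 by linarith))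
    filter_upwards [this] with x hx using hx.le
  obtain ⟨l, rfl⟩ : ∃ l, m = l + 1 := ⟨m - 1, by omega⟩
  let c : SmR x₀ := ⟨fun _ => ((C ^ l : ℝ) : ℂ), Filter.Eventually.of_forall fun _ => contDiffAt_const⟩
  apply hrad (c * (s * f)) (I.mul_mem_left _ hsf) (s * g) (l + 1) (by omega)
  filter_upwards [h, hC] with x h1 h2
  show ‖(s : Cn n → ℂ) x * (g : Cn n → ℂ) x‖ ^ (l + 1) ≤
    ‖((C ^ l : ℝ) : ℂ) * ((s : Cn n → ℂ) x * (f : Cn n → ℂ) x)‖
  rw [norm_mul, norm_mul, norm_mul, Complex.norm_real, Real.norm_eq_abs,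
    abs_of_nonneg (by positivity), mul_pow]
  calc ‖(s : Cn n → ℂ) x‖ ^ (l + 1) * ‖(g : Cn n → ℂ) x‖ ^ (l + 1)
      ≤ (‖(s : Cn n → ℂ) x‖ ^ l * ‖(s : Cn n → ℂ) x‖) * ‖(f : Cn n → ℂ) x‖ := by
        rw [pow_succ]; gcongr
    _ ≤ (C ^ l * ‖(s : Cn n → ℂ) x‖) * ‖(f : Cn n → ℂ) x‖ := by gcongr
    _ = _ := by ring

/-- the bordered matrix with entries in `SmR` -/
noncomputable def epM (ρ β : Fin n → SmR x₀) (ω' : Fin n → Fin n → SmR x₀) {j m : ℕ}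
    (f : Fin j → SmR x₀) (K : Fin (m + 1) → Fin n)
    (e : (Fin n ⊕ Unit) ≃ ((Fin j ⊕ Unit) ⊕ Fin (m + 1))) :
    Matrix (Fin n ⊕ Unit) (Fin n ⊕ Unit) (SmR x₀) :=
  (bmat (fun i k => epD k (f i)) ρ β ω' K).submatrix id e

theorem ep_coe_det {r : Cn n → ℂ} (ρ β : Fin n → SmR x₀) (ω' : Fin n → Fin n → SmR x₀)
    (hρ : ∀ k, (ρ k : Cn n → ℂ) = dZ k r) (hβ : ∀ k, (β k : Cn n → ℂ) = dZb k r)
    (hω : ∀ k l, (ω' k l : Cn n → ℂ) = dZ k (dZb l r)) {j m : ℕ}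
    (f : Fin j → SmR x₀) (K : Fin (m + 1) → Fin n)
    (e : (Fin n ⊕ Unit) ≃ ((Fin j ⊕ Unit) ⊕ Fin (m + 1))) :
    (((epM ρ β ω' f K e).det : SmR x₀) : Cn n → ℂ) = bdet r (fun i => (f i : Cn n → ℂ)) K e := by
  funext x
  let φ : SmR x₀ →+* ℂ := (Pi.evalRingHom (fun _ => ℂ) x).comp (SmR x₀).subtype
  have h1 : (((epM ρ β ω' f K e).det : SmR x₀) : Cn n → ℂ) x = φ (epM ρ β ω' f K e).det := rfl
  rw [h1, RingHom.map_det]
  unfold bdet
  congr 1
  ext row col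
  simp only [RingHom.mapMatrix_apply, Matrix.map_apply, epM, Matrix.submatrix_apply, id]
  rcases row with k | u <;> rcases hcol : e col with (i | u') | l
  · rfl
  · show (ρ k : Cn n → ℂ) x = _
    rw [hρ]; rfl
  · show (ω' k (K l) : Cn n → ℂ) x = _
    rw [hω]; rfl
  · rfl
  · rfl
  · show (β (K l) : Cn n → ℂ) x = _
    rw [hβ]; rfl

/-- JKC -/
theorem exists_prime (r : Cn n → ℝ) (hr : ∀ᶠ x in 𝓝 x₀, ContDiffAt ℝ ∞ r x)
    (I : Ideal (SmR x₀)) (hI : KUnion r I) :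
    ∃ P : Ideal (SmR x₀), P.IsPrime ∧ KUnion r P := by
  obtain ⟨⟨P, hP⟩⟩ := Ideal.nonempty_minimalPrimes hI.ne_top
  have hPp : P.IsPrime := hP.1.1
  have hIP : I ≤ P := hP.1.2
  -- key
  have key : ∀ f ∈ P, ∃ s, s ∉ P ∧ s * f ∈ I := by
    intro f hf
    by_contra hcon
    push Not at hcon
    have hdis : Disjoint (I : Set (SmR x₀)) (P.primeCompl ⊔ Submonoid.powers f : Submonoid (SmR x₀)) := by
      rw [Set.disjoint_left]
      intro a ha ha2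
      obtain ⟨s, hs, t, ht, rfl⟩ := Submonoid.mem_sup.1 ha2
      obtain ⟨k, rfl⟩ := ht
      have hs' : s ∉ P := hs
      rcases Nat.eq_zero_or_pos k with hk | hk
      · subst hk
        simp only [pow_zero, mul_one] at ha
        exact hs' (hIP ha)
      · apply hcon s hs'
        have h1 : (s * f) ^ k ∈ I := by
          obtain ⟨l, rfl⟩ : ∃ l, k = l + 1 := ⟨k - 1, by omega⟩
          have : (s * f) ^ (l + 1) = s ^ l * (s * f ^ (l + 1)) := by ring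
          rw [this]
          exact I.mul_mem_left _ ha
        apply hI.rad _ h1 (s * f) k hk
        apply Filter.Eventually.of_forall
        intro x
        show _ ≤ ‖((s : Cn n → ℂ) x * (f : Cn n → ℂ) x) ^ k‖
        rw [norm_pow]
        exact le_rfl
    obtain ⟨Qi, hQp, hIQ, hQd⟩ := Ideal.exists_le_prime_disjoint I _ hdis
    have hQP : Qi ≤ P := by
      intro a ha
      by_contra haP
      exact Set.disjoint_left.1 hQd ha (Submonoid.mem_sup_left (show a ∈ P.primeCompl from haP))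
    have hPQ : P ≤ Qi := hP.2 ⟨hQp, hIQ⟩ hQP
    exact Set.disjoint_left.1 hQd (hPQ hf) (Submonoid.mem_sup_right (Submonoid.mem_powers f))
  have hrad : ∀ f ∈ P, ∀ g : SmR x₀, ∀ m : ℕ, 1 ≤ m →
      (∀ᶠ x in 𝓝 x₀, ‖(g : Cn n → ℂ) x‖ ^ m ≤ ‖(f : Cn n → ℂ) x‖) → g ∈ P := by
    intro f hf g m hm h
    obtain ⟨s, hs, hsf⟩ := key f hf
    have h1 := hIP (ep_mul_mem hI.rad s f g hsf m hm h)
    exact (hPp.mem_or_mem h1).resolve_left hs
  refine ⟨P, hPp, hPp.ne_top, hrad, fun g hg => hIP (hI.memr g hg), ?_⟩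
  intro j m hjm f hf K e g hg
  choose s hs hsf using fun i => key (f i) (hf i)
  -- the fixed entries
  have hrC : ∀ᶠ x in 𝓝 x₀, ContDiffAt ℝ ∞ (toC r) x := by
    filter_upwards [hr] with x hx
    exact Complex.ofRealCLM.contDiff.contDiffAt.comp x hx
  let ρ : Fin n → SmR x₀ := fun k => ⟨dZ k (toC r), ep_dZ_smooth hrC k⟩
  let β : Fin n → SmR x₀ := fun k => ⟨dZb k (toC r), ep_dZb_smooth hrC k⟩
  let ω' : Fin n → Fin n → SmR x₀ := fun k l => ⟨dZ k (dZb l (toC r)), ep_dZ_smooth (ep_dZb_smooth hrC l) k⟩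
  have hg1 : g = (epM ρ β ω' f K e).det := by
    apply Subtype.ext
    rw [hg, ep_coe_det ρ β ω' (fun _ => rfl) (fun _ => rfl) (fun _ _ => rfl)]
  have hg2 : (epM ρ β ω' (fun i => s i * f i) K e).det ∈ P := by
    apply hIP
    apply hI.det j m hjm (fun i => s i * f i) hsf K e
    rw [ep_coe_det ρ β ω' (fun _ => rfl) (fun _ => rfl) (fun _ _ => rfl)]
  -- in the quotient
  let π := Ideal.Quotient.mk P
  let c : ((Fin j ⊕ Unit) ⊕ Fin (m + 1)) → (SmR x₀) ⧸ P := fun t =>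
    match t with
    | Sum.inl (Sum.inl i) => π (s i)
    | _ => 1
  have hmat : π.mapMatrix (epM ρ β ω' (fun i => s i * f i) K e)
      = Matrix.of fun row col => c (e col) * (π.mapMatrix (epM ρ β ω' f K e)) row col := by
    ext row col
    simp only [RingHom.mapMatrix_apply, Matrix.map_apply, epM, Matrix.submatrix_apply, id, Matrix.of_apply]
    rcases row with k | u <;> rcases hcol : e col with (i | u') | l
    · show π (epD k (s i * f i)) = π (s i) * π (epD k (f i))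
      rw [← map_mul]
      rw [Ideal.Quotient.eq]
      have h1 : epD k (s i * f i) - s i * epD k (f i) =
          f i * epD k (s i) + (epD k (s i * f i) - (s i * epD k (f i) + f i * epD k (s i))) := by ring
      rw [h1]
      apply P.add_mem
      · exact P.mul_mem_right _ (hf i)
      · apply ep_zero hrad
        filter_upwards [ep_dZ_mul k (s i) (f i)] with x hx
        show dZ k ((s i * f i : SmR x₀) : Cn n → ℂ) x - ((s i : Cn n → ℂ) x * dZ k (f i : Cn n → ℂ) x +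
          (f i : Cn n → ℂ) x * dZ k (s i : Cn n → ℂ) x) = 0
        rw [hx]; ring
    · show π (ρ k) = 1 * π (ρ k)
      rw [one_mul]
    · show π (ω' k (K l)) = 1 * π (ω' k (K l))
      rw [one_mul]
    · show π 0 = π (s i) * π 0
      rw [map_zero, mul_zero]
    · show π 0 = 1 * π 0
      rw [one_mul]
    · show π (β (K l)) = 1 * π (β (K l))
      rw [one_mul]
  have hdet : (∏ t, c (e t)) * π (epM ρ β ω' f K e).det = 0 := by
    rw [RingHom.map_det, ← Matrix.det_mul_row, ← hmat, ← RingHom.map_det]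
    exact Ideal.Quotient.eq_zero_iff_mem.2 hg2
  have hdom : IsDomain ((SmR x₀) ⧸ P) := inferInstance
  rw [hg1, ← Ideal.Quotient.eq_zero_iff_mem]
  rcases mul_eq_zero.1 hdet with h | h
  · exfalso
    obtain ⟨t, -, ht⟩ := Finset.prod_eq_zero_iff.1 h
    rcases hcol : e t with (i | u') | l
    · rw [hcol] at ht
      exact hs i (Ideal.Quotient.eq_zero_iff_mem.1 ht)
    · rw [hcol] at ht
      exact one_ne_zero ht
    · rw [hcol] at ht
      exact one_ne_zero ht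
  · exact h



end KI
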