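import Pool.Agent.KI.ExtDet

open scoped ContDiff Topology BigOperators
open Finset Asymptotics

namespace KI
open DAng (Wd)

variable {n : ℕ} {x₀ : Cn n}



/-- pointwise complex conjugate of a smooth germ -/
noncomputable def h59conj (f : SmR x₀) : SmR x₀ :=
  ⟨fun x => (starRingEnd ℂ) ((f : Cn n → ℂ) x), by
    have hf : ∀ᶠ x in 𝓝 x₀, ContDiffAt ℝ ∞ (f : Cn n → ℂ) x := f.2
    show ∀ᶠ x in 𝓝 x₀, ContDiffAt ℝ ∞ (fun x => (starRingEnd ℂ) ((f : Cn n → ℂ) x)) x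
    filter_upwards [hf] with x hx
    exact (Complex.conjCLE : ℂ ≃L[ℝ] ℂ).contDiff.contDiffAt.comp x hx⟩

theorem h59conj_apply (f : SmR x₀) (x : Cn n) :
    ((h59conj f : SmR x₀) : Cn n → ℂ) x = (starRingEnd ℂ) ((f : Cn n → ℂ) x) := rfl

theorem h59_norm_conj_mul (f : SmR x₀) (x : Cn n) :
    (((h59conj f * f : SmR x₀) : Cn n → ℂ) x) = ((‖(f : Cn n → ℂ) x‖ ^ 2 : ℝ) : ℂ) := by
  have : (((h59conj f * f : SmR x₀) : Cn n → ℂ) x)
      = (starRingEnd ℂ) ((f : Cn n → ℂ) x) * (f : Cn n → ℂ) x := rfl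
  rw [this, Complex.conj_mul']
  push_cast
  rfl

/-- the real radical as an ideal -/
noncomputable def h59rad (J : Ideal (SmR x₀)) : Ideal (SmR x₀) where
  carrier := rrad J
  zero_mem' := ⟨0, J.zero_mem, 1, le_refl 1, Filter.Eventually.of_forall fun x => by
    show ‖(0 : ℂ)‖ ^ 1 ≤ ‖(0 : ℂ)‖
    simp⟩
  add_mem' := by
    rintro g1 g2 ⟨f1, hf1, a, ha, h1⟩ ⟨f2, hf2, b, hb, h2⟩
    have hc : (fun _ => ((2 ^ (2 * a * b) : ℝ) : ℂ)) ∈ SmR x₀ :=
      Filter.Eventually.of_forall fun _ => contDiffAt_const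
    refine ⟨(⟨_, hc⟩ : SmR x₀) * (h59conj (f1 ^ b) * f1 ^ b + h59conj (f2 ^ a) * f2 ^ a), ?_,
      2 * a * b, ?_, ?_⟩
    · refine J.mul_mem_left _ (J.add_mem (J.mul_mem_left _ ?_) (J.mul_mem_left _ ?_))
      · exact J.pow_mem_of_mem hf1 b (by omega)
      · exact J.pow_mem_of_mem hf2 a (by omega)
    · have : 1 ≤ a * b := Nat.one_le_iff_ne_zero.mpr (Nat.mul_ne_zero (by omega) (by omega))
      nlinarith
    · filter_upwards [h1, h2] with x hx1 hx2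
      have e0 : (((⟨_, hc⟩ : SmR x₀) * (h59conj (f1 ^ b) * f1 ^ b + h59conj (f2 ^ a) * f2 ^ a) :
          SmR x₀) : Cn n → ℂ) x = ((2 ^ (2 * a * b) : ℝ) : ℂ) *
          ((((h59conj (f1 ^ b) * f1 ^ b : SmR x₀) : Cn n → ℂ) x) +
            (((h59conj (f2 ^ a) * f2 ^ a : SmR x₀) : Cn n → ℂ) x)) := rfl
      rw [e0, h59_norm_conj_mul, h59_norm_conj_mul]
      have ef1 : ((f1 ^ b : SmR x₀) : Cn n → ℂ) x = ((f1 : Cn n → ℂ) x) ^ b := rfl
      have ef2 : ((f2 ^ a : SmR x₀) : Cn n → ℂ) x = ((f2 : Cn n → ℂ) x) ^ a := rfl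
      rw [ef1, ef2]
      have eg : ((g1 + g2 : SmR x₀) : Cn n → ℂ) x = (g1 : Cn n → ℂ) x + (g2 : Cn n → ℂ) x := rfl
      rw [eg]
      set u := ‖(g1 : Cn n → ℂ) x‖
      set v := ‖(g2 : Cn n → ℂ) x‖
      set s := ‖(f1 : Cn n → ℂ) x‖ with hs
      set t := ‖(f2 : Cn n → ℂ) x‖ with ht
      have hu : 0 ≤ u := norm_nonneg _
      have hv : 0 ≤ v := norm_nonneg _
      have hs0 : 0 ≤ s := norm_nonneg _
      have ht0 : 0 ≤ t := norm_nonneg _
      rw [norm_pow, norm_pow, ← Complex.ofReal_add, ← Complex.ofReal_mul, Complex.norm_real,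
        Real.norm_of_nonneg (by positivity)]
      calc ‖(g1 : Cn n → ℂ) x + (g2 : Cn n → ℂ) x‖ ^ (2 * a * b)
          ≤ (u + v) ^ (2 * a * b) := by gcongr; exact norm_add_le _ _
        _ ≤ (2 * max u v) ^ (2 * a * b) := by
            gcongr
            have h1 := le_max_left u v
            have h2 := le_max_right u v
            linarith
        _ = 2 ^ (2 * a * b) * (max u v) ^ (2 * a * b) := by rw [mul_pow]
        _ ≤ 2 ^ (2 * a * b) * ((s ^ b) ^ 2 + (t ^ a) ^ 2) := by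
            gcongr
            have k1 : u ^ (2 * a * b) ≤ (s ^ b) ^ 2 := by
              calc u ^ (2 * a * b) = ((u ^ a) ^ b) ^ 2 := by rw [← pow_mul, ← pow_mul]; ring_nf
                _ ≤ (s ^ b) ^ 2 := by gcongr
            have k2 : v ^ (2 * a * b) ≤ (t ^ a) ^ 2 := by
              calc v ^ (2 * a * b) = ((v ^ b) ^ a) ^ 2 := by rw [← pow_mul, ← pow_mul]; ring_nf
                _ ≤ (t ^ a) ^ 2 := by gcongr
            rcases le_total u v with h | h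
            · rw [max_eq_right h]
              have : 0 ≤ (s ^ b) ^ 2 := by positivity
              linarith
            · rw [max_eq_left h]
              have : 0 ≤ (t ^ a) ^ 2 := by positivity
              linarith
  smul_mem' := by
    rintro h g ⟨f, hf, m, hm, hx⟩
    refine ⟨h ^ m * f, J.mul_mem_left _ hf, m, hm, ?_⟩
    filter_upwards [hx] with x hx1
    have e1 : ((h • g : SmR x₀) : Cn n → ℂ) x = (h : Cn n → ℂ) x * (g : Cn n → ℂ) x := rfl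
    have e2 : ((h ^ m * f : SmR x₀) : Cn n → ℂ) x = ((h : Cn n → ℂ) x) ^ m * (f : Cn n → ℂ) x := rfl
    rw [e1, e2, norm_mul, norm_mul, mul_pow, norm_pow]
    gcongr

theorem h59_le_rad (J : Ideal (SmR x₀)) : ∀ g ∈ J, g ∈ rrad J := fun g hg =>
  ⟨g, hg, 1, le_refl 1, Filter.Eventually.of_forall fun x => by rw [pow_one]⟩

theorem h59_rad_closed (J : Ideal (SmR x₀)) (f : SmR x₀) (hf : f ∈ rrad J) (g : SmR x₀) (m : ℕ)
    (hm : 1 ≤ m) (h : ∀ᶠ x in 𝓝 x₀, ‖(g : Cn n → ℂ) x‖ ^ m ≤ ‖(f : Cn n → ℂ) x‖) : g ∈ rrad J := by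
  obtain ⟨f', hf', k, hk, hx⟩ := hf
  refine ⟨f', hf', m * k, Nat.one_le_iff_ne_zero.mpr (Nat.mul_ne_zero (by omega) (by omega)), ?_⟩
  filter_upwards [h, hx] with x h1 h2
  calc ‖(g : Cn n → ℂ) x‖ ^ (m * k) = (‖(g : Cn n → ℂ) x‖ ^ m) ^ k := by rw [pow_mul]
    _ ≤ ‖(f : Cn n → ℂ) x‖ ^ k := by gcongr
    _ ≤ _ := h2

/-- Kohn's ideals as real radicals of ideals -/
noncomputable def h59J (r : Cn n → ℝ) (x₀ : Cn n) : ℕ → Ideal (SmR x₀)
  | 0 => Ideal.span {g : SmR x₀ | (g : Cn n → ℂ) = toC r ∨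
      (g : Cn n → ℂ) ∈ coeffs (kohnForm (toC r) (Fin.elim0 : Fin 0 → Cn n → ℂ))}
  | k + 1 => Ideal.span (KIdeal r x₀ k ∪ {g : SmR x₀ | ∃ j : ℕ, 1 ≤ j ∧ j ≤ n - 1 ∧
      ∃ f : Fin j → SmR x₀, (∀ i, f i ∈ KIdeal r x₀ k) ∧
        (g : Cn n → ℂ) ∈ coeffs (kohnForm (toC r) fun i => (f i : Cn n → ℂ))})

theorem h59_KIdeal_eq (r : Cn n → ℝ) (x₀ : Cn n) (k : ℕ) :
    KIdeal r x₀ k = rrad (h59J r x₀ k) := by
  cases k with
  | zero => rfl
  | succ k => rfl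

theorem h59_mono_succ (r : Cn n → ℝ) (x₀ : Cn n) (k : ℕ) :
    KIdeal r x₀ k ⊆ KIdeal r x₀ (k + 1) := by
  intro g hg
  rw [h59_KIdeal_eq r x₀ (k + 1)]
  exact h59_le_rad _ _ (Ideal.subset_span (Or.inl hg))

theorem h59_mono (r : Cn n → ℝ) (x₀ : Cn n) {k l : ℕ} (h : k ≤ l) :
    KIdeal r x₀ k ⊆ KIdeal r x₀ l :=
  monotone_nat_of_le_succ (f := KIdeal r x₀) (h59_mono_succ r x₀) h

/-- the union of Kohn's ideals -/
noncomputable def h59U (r : Cn n → ℝ) (x₀ : Cn n) : Ideal (SmR x₀) where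
  carrier := {g | ∃ k, g ∈ KIdeal r x₀ k}
  zero_mem' := ⟨0, by rw [h59_KIdeal_eq]; exact (h59rad _).zero_mem⟩
  add_mem' := by
    rintro a b ⟨k, hk⟩ ⟨l, hl⟩
    refine ⟨max k l, ?_⟩
    have h1 := h59_mono r x₀ (le_max_left k l) hk
    have h2 := h59_mono r x₀ (le_max_right k l) hl
    rw [h59_KIdeal_eq] at h1 h2 ⊢
    exact (h59rad _).add_mem h1 h2
  smul_mem' := by
    rintro c a ⟨k, hk⟩
    refine ⟨k, ?_⟩
    rw [h59_KIdeal_eq] at hk ⊢
    exact (h59rad _).smul_mem c hk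

theorem h59_bdet_coeffs (r : Cn n → ℂ) {j m : ℕ} (hn : j + 1 + m = n) (f : Fin j → Cn n → ℂ)
    (K : Fin (m + 1) → Fin n) (e : (Fin n ⊕ Unit) ≃ ((Fin j ⊕ Unit) ⊕ Fin (m + 1))) :
    bdet r f K e ∈ coeffs (kohnForm r f) := by
  obtain ⟨φ, hφ⟩ := ext_det hn K e
  refine ⟨φ, fun x => ?_⟩
  have h := hφ (fun i k => dZ k (f i) x) (fun k => dZ k r x) (fun k => dZb k r x)
    (fun k l => dZ k (dZb l r) x)
  have hm : n - 1 - j = m := by omega
  unfold bdet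
  rw [← h]
  unfold kohnForm del delb ddb
  rw [hm]

/-- JKB -/
theorem exists_KUnion (r : Cn n → ℝ) (hr : ∀ᶠ x in 𝓝 x₀, ContDiffAt ℝ ∞ r x)
    (hK : ¬ FiniteKohnType r x₀) : ∃ I : Ideal (SmR x₀), KUnion r I := by
  refine ⟨h59U r x₀, ⟨?_, ?_, ?_, ?_⟩⟩
  · intro htop
    apply hK
    have : (1 : SmR x₀) ∈ h59U r x₀ := by rw [htop]; trivial
    exact this
  · rintro f ⟨k, hk⟩ g m hm h
    refine ⟨k, ?_⟩
    rw [h59_KIdeal_eq] at hk ⊢
    exact h59_rad_closed _ f hk g m hm h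
  · intro g hg
    exact ⟨0, by rw [h59_KIdeal_eq]; exact h59_le_rad _ _ (Ideal.subset_span (Or.inl hg))⟩
  · intro j m hn f hf K e g hg
    have hc := h59_bdet_coeffs (toC r) hn (fun i => (f i : Cn n → ℂ)) K e
    rw [← hg] at hc
    rcases Nat.eq_zero_or_pos j with hj | hj
    · subst hj
      refine ⟨0, ?_⟩
      rw [h59_KIdeal_eq]
      refine h59_le_rad _ _ (Ideal.subset_span (Or.inr ?_))
      have : (fun i => (f i : Cn n → ℂ)) = (Fin.elim0 : Fin 0 → Cn n → ℂ) := by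
        funext i; exact i.elim0
      rw [this] at hc
      exact hc
    · choose k hk using hf
      have hbd : ∀ i, k i ≤ Finset.univ.sup k := fun i => Finset.le_sup (Finset.mem_univ i)
      refine ⟨Finset.univ.sup k + 1, ?_⟩
      rw [h59_KIdeal_eq]
      exact h59_le_rad _ _ (Ideal.subset_span (Or.inr ⟨j, hj, by omega, f,
        fun i => h59_mono r x₀ (hbd i) (hk i), hc⟩))



end KI
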