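import Pool.Agent.KI.BDefs

open scoped ContDiff Topology BigOperators
open Finset Asymptotics

namespace KI

variable {n : ℕ} {x₀ : Cn n}



theorem h556_enum {V : Type*} {A : Set V} (hA : A.Finite) {ι : Type*} (c : ι → V)
    (hc : A ⊆ Set.range c) : ∃ f : Fin hA.toFinset.card → ι, Function.Injective (fun i => c (f i)) ∧
      Set.range (fun i => c (f i)) = A := by
  classical
  have e := hA.toFinset.equivFin.symm
  have h : ∀ i : Fin hA.toFinset.card, ∃ a, c a = (e i : V) := by
    intro i
    have : (e i : V) ∈ A := hA.mem_toFinset.1 (e i).2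
    exact hc this
  choose f hf using h
  refine ⟨f, ?_, ?_⟩
  · intro i j hij
    simp only [hf] at hij
    exact e.injective (Subtype.ext hij)
  · ext v
    simp only [hf, Set.mem_range]
    constructor
    · rintro ⟨i, rfl⟩
      exact hA.mem_toFinset.1 (e i).2
    · intro hv
      refine ⟨e.symm ⟨v, hA.mem_toFinset.2 hv⟩, by simp⟩

/-- JKD -/
theorem lin_alg {F : Type*} [Field F] {n : ℕ} (S : Set (Fin n → F)) (ρ β : Fin n → F)
    (hρ : ρ ∈ S) (hρ0 : ρ ≠ 0) (hβ : β ≠ 0) (ω' : Fin n → Fin n → F)
    (hdet : ∀ j m : ℕ, j + 1 + m = n → ∀ α : Fin j → Fin n → F, (∀ i, α i ∈ S) →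
      ∀ (K : Fin (m + 1) → Fin n) (e : (Fin n ⊕ Unit) ≃ ((Fin j ⊕ Unit) ⊕ Fin (m + 1))),
      ((bmat α ρ β ω' K).submatrix id e).det = 0) :
    ∃ x : Fin n → F, x ≠ 0 ∧ (∀ s ∈ S, ∑ k, x k * s k = 0) ∧
      ∃ y : F, ∀ l, ∑ k, x k * ω' k l + y * β l = 0 := by
  classical
  let V := Fin n ⊕ Unit → F
  let c : (Fin n → F) → V := fun s => Sum.elim s (fun _ => 0)
  let d : Fin n → V := fun l => Sum.elim (fun k => ω' k l) (fun _ => β l)
  have hcinj : Function.Injective c := by
    intro s t h
    ext k
    exact congrFun h (Sum.inl k)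
  by_cases htop : Submodule.span F (c '' S ∪ Set.range d) = ⊤
  · exfalso
    have hcρ : c ρ ≠ 0 := by
      intro h
      apply hρ0
      ext k
      exact congrFun h (Sum.inl k)
    have h0 : LinearIndepOn F id ({c ρ} : Set V) := by
      simpa using hcρ
    obtain ⟨b1, hb1S, hρb1, hspan1, hli1⟩ := exists_linearIndepOn_id_extension h0
      (show ({c ρ} : Set V) ⊆ c '' S by
        rintro _ rfl; exact ⟨ρ, hρ, rfl⟩)
    obtain ⟨b2, hb2S, hb12, hspan2, hli2⟩ := exists_linearIndepOn_id_extension hli1
      (show b1 ⊆ c '' S ∪ Set.range d from hb1S.trans Set.subset_union_left)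
    have hb2top : Submodule.span F b2 = ⊤ := by
      rw [eq_top_iff, ← htop]
      exact Submodule.span_le.2 hspan2
    have hfin2 : b2.Finite := hli2.setFinite
    have hfin1 : b1.Finite := hfin2.subset hb12
    -- dimension
    have hcard : hfin2.toFinset.card = n + 1 := by
      let B : Module.Basis b2 F V := Module.Basis.mk hli2 (by
        rw [← hb2top]
        have : Set.range (fun x : b2 => id (x : V)) = b2 := by simp
        rw [this])
      haveI := hfin2.fintype
      have h1 := Module.finrank_eq_card_basis B
      have h2 : Module.finrank F V = n + 1 := by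
        simp [V, Module.finrank_fintype_fun_eq_card]
      rw [h2] at h1
      rw [h1]
      rw [← Set.toFinset_card]
      congr 1
      ext; simp
    -- elements of b2 outside b1 are d's
    have hdiff : b2 \ b1 ⊆ Set.range d := by
      rintro v ⟨hv2, hv1⟩
      rcases hb2S hv2 with hv | hv
      · exfalso
        have h3 : LinearIndepOn F id (insert v b1) := hli2.mono (by
          intro w hw
          rcases Set.mem_insert_iff.1 hw with rfl | hw
          · exact hv2
          · exact hb12 hw)
        have := (linearIndepOn_id_insert hv1).1 h3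
        exact this.2 (hspan1 hv)
      · exact hv
    have hlast1 : ∀ v ∈ b1, v (Sum.inr ()) = 0 := by
      intro v hv
      obtain ⟨s, _, rfl⟩ := hb1S hv
      rfl
    have hA2ne : (b2 \ b1).Nonempty := by
      by_contra hne
      rw [Set.not_nonempty_iff_eq_empty] at hne
      have hsub : b2 ⊆ b1 := Set.sdiff_eq_empty.1 hne
      have hle : Submodule.span F b2 ≤ LinearMap.ker (LinearMap.proj (R := F) (φ := fun _ : Fin n ⊕ Unit => F) (Sum.inr ())) := by
        rw [Submodule.span_le]
        intro v hv
        exact hlast1 v (hsub hv)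
      rw [hb2top] at hle
      have : (Pi.single (Sum.inr ()) 1 : V) ∈ LinearMap.ker (LinearMap.proj (R := F) (φ := fun _ : Fin n ⊕ Unit => F) (Sum.inr ())) :=
        hle Submodule.mem_top
      simp at this
    have hfA2 : (b2 \ b1).Finite := hfin2.subset Set.sdiff_subset
    have hfA1 : (b1 \ {c ρ}).Finite := hfin1.subset Set.sdiff_subset
    obtain ⟨f2, hf2i, hf2r⟩ := h556_enum hfA2 d hdiff
    obtain ⟨f1, hf1i, hf1r⟩ := h556_enum hfA1 (fun s : S => c s) (by
      rintro v ⟨hv, _⟩
      obtain ⟨s, hs, rfl⟩ := hb1S hv
      exact ⟨⟨s, hs⟩, rfl⟩)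
    have hA2card : 0 < hfA2.toFinset.card := by
      rw [Finset.card_pos]
      obtain ⟨v, hv⟩ := hA2ne
      exact ⟨v, hfA2.mem_toFinset.2 hv⟩
    obtain ⟨m, hm⟩ : ∃ m, hfA2.toFinset.card = m + 1 := ⟨hfA2.toFinset.card - 1, by omega⟩
    obtain ⟨j, hj⟩ : ∃ j, j = hfA1.toFinset.card := ⟨_, rfl⟩
    have hρb1' : c ρ ∈ b1 := hρb1 rfl
    have hcards : hfin2.toFinset.card = j + 1 + (m + 1) := by
      have h1 : hfin2.toFinset = hfin1.toFinset ∪ hfA2.toFinset := by
        ext v
        simp only [Set.Finite.mem_toFinset, Finset.mem_union, Set.mem_sdiff]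
        constructor
        · intro hv
          by_cases h : v ∈ b1
          · exact Or.inl h
          · exact Or.inr ⟨hv, h⟩
        · rintro (h | h)
          · exact hb12 h
          · exact h.1
      have h2 : Disjoint hfin1.toFinset hfA2.toFinset := by
        rw [Finset.disjoint_left]
        intro v hv hv'
        simp only [Set.Finite.mem_toFinset, Set.mem_sdiff] at hv hv'
        exact hv'.2 hv
      have h3 : hfin1.toFinset = insert (c ρ) hfA1.toFinset := by
        ext v
        simp only [Set.Finite.mem_toFinset, Finset.mem_insert, Set.mem_sdiff, Set.mem_singleton_iff]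
        constructor
        · intro hv
          by_cases h : v = c ρ
          · exact Or.inl h
          · exact Or.inr ⟨hv, h⟩
        · rintro (h | h)
          · rw [h]; exact hρb1'
          · exact h.1
      have h4 : c ρ ∉ hfA1.toFinset := by simp
      rw [h1, Finset.card_union_of_disjoint h2, h3, Finset.card_insert_of_notMem h4, hm, hj]
    have hn : j + 1 + m = n := by omega
    let K : Fin (m + 1) → Fin n := fun i => f2 (Fin.cast hm.symm i)
    clear hcards
    subst hj
    let α : Fin hfA1.toFinset.card → Fin n → F := fun i => (f1 i : Fin n → F)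
    let g : ((Fin hfA1.toFinset.card ⊕ Unit) ⊕ Fin (m + 1)) → V := fun col => fun row => bmat α ρ β ω' K row col
    have hg1 : ∀ i, g (Sum.inl (Sum.inl i)) = c (f1 i) := by
      intro i; ext row
      rcases row with k | k <;> rfl
    have hg2 : ∀ u, g (Sum.inl (Sum.inr u)) = c ρ := by
      intro i; ext row
      rcases row with k | k <;> rfl
    have hg3 : ∀ i, g (Sum.inr i) = d (K i) := by
      intro i; ext row
      rcases row with k | k <;> rfl
    have m1 : ∀ i, c (f1 i) ∈ b1 \ {c ρ} := fun i => by rw [← hf1r]; exact ⟨i, rfl⟩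
    have m3 : ∀ i, d (K i) ∈ b2 \ b1 := fun i => by rw [← hf2r]; exact ⟨_, rfl⟩
    have hgmem : ∀ col, g col ∈ b2 := by
      rintro ((i | i) | i)
      · rw [hg1]; exact hb12 (m1 i).1
      · rw [hg2]; exact hb12 hρb1'
      · rw [hg3]; exact (m3 i).1
    have hginj : Function.Injective g := by
      rintro ((i | i) | i) ((i' | i') | i') h
      · rw [hg1, hg1] at h
        have := hf1i h
        rw [this]
      · rw [hg1, hg2] at h
        exact absurd h (m1 i).2
      · rw [hg1, hg3] at h
        exact absurd (h ▸ (m1 i).1) (m3 i').2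
      · rw [hg2, hg1] at h
        exact absurd h.symm (m1 i').2
      · rfl
      · rw [hg2, hg3] at h
        exact absurd (h ▸ hρb1') (m3 i').2
      · rw [hg3, hg1] at h
        exact absurd (h.symm ▸ (m1 i').1) (m3 i).2
      · rw [hg3, hg2] at h
        exact absurd (h.symm ▸ hρb1') (m3 i).2
      · rw [hg3, hg3] at h
        have := hf2i h
        have h' : i = i' := by
          apply Fin.ext
          have := congrArg Fin.val this
          simpa using this
        rw [h']
    let e : (Fin n ⊕ Unit) ≃ ((Fin hfA1.toFinset.card ⊕ Unit) ⊕ Fin (m + 1)) := Fintype.equivOfCardEq (by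
      simp; omega)
    have hli : LinearIndependent F (fun i : Fin n ⊕ Unit => g (e i)) := by
      let g' : (Fin n ⊕ Unit) → b2 := fun i => ⟨g (e i), hgmem _⟩
      have hg'inj : Function.Injective g' := by
        intro a b hab
        exact e.injective (hginj (congrArg Subtype.val hab))
      exact LinearIndependent.comp hli2 g' hg'inj
    have hunit : IsUnit ((bmat α ρ β ω' K).submatrix id e) := by
      rw [← Matrix.linearIndependent_cols_iff_isUnit]
      exact hli
    have hd0 := hdet _ m hn α (fun i => (f1 i).2) K e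
    rw [Matrix.isUnit_iff_isUnit_det, hd0] at hunit
    exact not_isUnit_zero hunit
  · obtain ⟨f, hf0, hfk⟩ := Submodule.exists_le_ker_of_lt_top _ (lt_top_iff_ne_top.2 htop)
    have hf : ∀ v : V, f v = ∑ k, v (Sum.inl k) * f (Pi.single (Sum.inl k) 1) +
        v (Sum.inr ()) * f (Pi.single (Sum.inr ()) 1) := by
      intro v
      rw [LinearMap.pi_apply_eq_sum_univ f v, Fintype.sum_sum_type]
      have hs : ∀ i : Fin n ⊕ Unit, (fun j => if i = j then (1:F) else 0) = Pi.single i 1 := by
        intro i
        ext j
        by_cases h : i = j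
        · subst h; simp
        · rw [Pi.single_eq_of_ne (Ne.symm h)]; simp [h]
      simp only [hs, smul_eq_mul]
      simp
    have hc0 : ∀ s ∈ S, f (c s) = 0 := fun s hs => hfk (Submodule.subset_span (Or.inl ⟨s, hs, rfl⟩))
    have hd0 : ∀ l, f (d l) = 0 := fun l => hfk (Submodule.subset_span (Or.inr ⟨l, rfl⟩))
    refine ⟨fun k => f (Pi.single (Sum.inl k) 1), ?_, ?_, f (Pi.single (Sum.inr ()) 1), ?_⟩
    · intro hx
      have hx' : ∀ k, f (Pi.single (Sum.inl k) 1) = 0 := fun k => congrFun hx k
      by_cases hy : f (Pi.single (Sum.inr ()) 1) = 0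
      · apply hf0
        refine LinearMap.ext fun v => ?_
        rw [hf v]
        simp [hx', hy]
      · apply hβ
        ext l
        have := hd0 l
        rw [hf (d l)] at this
        simp only [hx', mul_zero, Finset.sum_const_zero, zero_add] at this
        rcases mul_eq_zero.1 this with h | h
        · exact h
        · exact absurd h hy
    · intro s hs
      have := hc0 s hs
      rw [hf (c s)] at this
      simp only [c, Sum.elim_inl, Sum.elim_inr, zero_mul, add_zero] at this
      rw [← this]
      exact Finset.sum_congr rfl (fun k _ => mul_comm _ _)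
    · intro l
      have := hd0 l
      rw [hf (d l)] at this
      simp only [d, Sum.elim_inl, Sum.elim_inr] at this
      rw [← this]
      congr 1
      · exact Finset.sum_congr rfl (fun k _ => mul_comm _ _)
      · exact mul_comm _ _



end KI
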