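import Pool.Agent.KI.Tay1

open scoped ContDiff Topology BigOperators
open Finset Asymptotics

namespace KI
open DAng

variable {n : ℕ} {p x₀ : E (n + n)}




/-- the coordinates `(u, ū)` -/
noncomputable def tuEl (u : Fin n → ℂ) : Fin n ⊕ Fin n → ℂ :=
  Sum.elim u (fun i => (starRingEnd ℂ) (u i))

lemma tuEl_smul (s : ℝ) (u : Fin n → ℂ) (b : Fin n ⊕ Fin n) :
    tuEl (s • u) b = (s : ℂ) * tuEl u b := by
  cases b with
  | inl i => simp [tuEl]
  | inr i => simp [tuEl]

lemma tuEl_norm (u : Fin n → ℂ) (b : Fin n ⊕ Fin n) : ‖tuEl u b‖ ≤ ‖u‖ := by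
  cases b with
  | inl i => simpa [tuEl] using norm_le_pi_norm u i
  | inr i => simpa [tuEl] using norm_le_pi_norm u i

lemma tu_peval (P : Pol n) (u : Fin n → ℂ) : peval P u = MvPolynomial.eval (tuEl u) P := rfl

lemma tu_peval_deriv (P : Pol n) (u : Fin n → ℂ) (t : ℝ) :
    HasDerivAt (fun s : ℝ => peval P (s • u))
      (∑ a, tuEl u a * peval (MvPolynomial.pderiv a P) (t • u)) t := by
  induction P using MvPolynomial.induction_on with
  | C c =>
    have h1 : (fun s : ℝ => peval (MvPolynomial.C c : Pol n) (s • u)) = fun _ => c := by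
      funext s; simp [tu_peval]
    rw [h1]
    have h2 : ∑ a, tuEl u a * peval (MvPolynomial.pderiv a (MvPolynomial.C c : Pol n)) (t • u)
        = 0 := by
      apply Finset.sum_eq_zero
      intro a _
      simp [tu_peval]
    rw [h2]
    exact hasDerivAt_const t c
  | add P Q hP hQ =>
    have h1 : (fun s : ℝ => peval (P + Q) (s • u)) =
        fun s => peval P (s • u) + peval Q (s • u) := by
      funext s; simp [tu_peval]
    rw [h1]
    have h2 : ∑ a, tuEl u a * peval (MvPolynomial.pderiv a (P + Q)) (t • u)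
        = ∑ a, tuEl u a * peval (MvPolynomial.pderiv a P) (t • u) +
          ∑ a, tuEl u a * peval (MvPolynomial.pderiv a Q) (t • u) := by
      rw [← Finset.sum_add_distrib]
      apply Finset.sum_congr rfl
      intro a _
      simp [tu_peval]
      ring
    rw [h2]
    exact hP.add hQ
  | mul_X P b hP =>
    have h1 : (fun s : ℝ => peval (P * MvPolynomial.X b) (s • u)) =
        fun s : ℝ => peval P (s • u) * ((s : ℂ) * tuEl u b) := by
      funext s
      rw [tu_peval, tu_peval, map_mul, MvPolynomial.eval_X, tuEl_smul]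
    rw [h1]
    have h2 : ∑ a, tuEl u a * peval (MvPolynomial.pderiv a (P * MvPolynomial.X b)) (t • u)
        = (∑ a, tuEl u a * peval (MvPolynomial.pderiv a P) (t • u)) * ((t : ℂ) * tuEl u b) +
          peval P (t • u) * tuEl u b := by
      have h3 : ∀ a, tuEl u a * peval (MvPolynomial.pderiv a (P * MvPolynomial.X b)) (t • u) =
          tuEl u a * peval (MvPolynomial.pderiv a P) (t • u) * ((t : ℂ) * tuEl u b) +
          (if a = b then peval P (t • u) * tuEl u b else 0) := by
        intro a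
        rw [MvPolynomial.pderiv_mul, MvPolynomial.pderiv_X, tu_peval, tu_peval, tu_peval, map_add,
          map_mul, map_mul, MvPolynomial.eval_X, tuEl_smul]
        by_cases hab : a = b
        · subst hab
          simp only [Pi.single_eq_same, map_one, if_true]
          ring
        · rw [Pi.single_eq_of_ne (Ne.symm hab)]
          simp only [map_zero, hab, if_false]
          ring
      rw [Finset.sum_congr rfl (fun a _ => h3 a), Finset.sum_add_distrib, Finset.sum_mul]
      simp
    rw [h2]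
    have h4 : HasDerivAt (fun s : ℝ => (s : ℂ) * tuEl u b) (tuEl u b) t := by
      have h5 : HasDerivAt (fun s : ℝ => (s : ℂ)) 1 t := Complex.ofRealCLM.hasDerivAt
      simpa using h5.mul_const (tuEl u b)
    exact hP.mul h4

/-- the linear part of `shift` -/
noncomputable def tuI : (Fin n → ℂ) →ₗ[ℝ] E (n + n) where
  toFun u := fun j => Fin.addCases (fun i => (u i).re) (fun i => (u i).im) j
  map_add' u v := by
    funext j
    refine Fin.addCases (fun i => ?_) (fun i => ?_) j
    · simp only [Pi.add_apply, Fin.addCases_left, Complex.add_re]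
    · simp only [Pi.add_apply, Fin.addCases_right, Complex.add_im]
  map_smul' c u := by
    funext j
    refine Fin.addCases (fun i => ?_) (fun i => ?_) j
    · simp only [Pi.smul_apply, Fin.addCases_left, Complex.smul_re, RingHom.id_apply]
    · simp only [Pi.smul_apply, Fin.addCases_right, Complex.smul_im, RingHom.id_apply]

lemma tu_shift (p : E (n + n)) (u : Fin n → ℂ) : shift p u = p + tuI u := rfl

lemma tuI_norm (u : Fin n → ℂ) : ‖tuI u‖ ≤ ‖u‖ := by
  rw [pi_norm_le_iff_of_nonneg (norm_nonneg _)]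
  intro j
  refine Fin.addCases (fun i => ?_) (fun i => ?_) j
  · simp only [tuI, LinearMap.coe_mk, AddHom.coe_mk, Fin.addCases_left, Real.norm_eq_abs]
    exact (Complex.abs_re_le_norm _).trans (norm_le_pi_norm u i)
  · simp only [tuI, LinearMap.coe_mk, AddHom.coe_mk, Fin.addCases_right, Real.norm_eq_abs]
    exact (Complex.abs_im_le_norm _).trans (norm_le_pi_norm u i)

lemma tu_fderiv_apply (f : CF (n + n)) (y : E (n + n)) (u : Fin n → ℂ) :
    fderiv ℝ f y (tuI u) = ∑ a, tuEl u a * wd a f y := by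
  have hv : ∀ v : E (n + n), fderiv ℝ f y v = ∑ i, ((v i : ℝ) : ℂ) * pd i f y := by
    intro v
    conv_lhs => rw [← Finset.univ_sum_single v]
    rw [map_sum]
    refine Finset.sum_congr rfl fun i _ => ?_
    have : (Pi.single i (v i) : Fin (n + n) → ℝ) = (v i) • Pi.single i (1 : ℝ) := by
      ext j; by_cases hj : j = i
      · subst hj; simp
      · simp [hj]
    rw [this, map_smul]
    simp [pd]
  rw [hv, Fin.sum_univ_add, Fintype.sum_sum_type, ← Finset.sum_add_distrib,
    ← Finset.sum_add_distrib]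
  refine Finset.sum_congr rfl fun i _ => ?_
  simp only [tuI, LinearMap.coe_mk, AddHom.coe_mk, Fin.addCases_left, Fin.addCases_right, tuEl,
    Sum.elim_inl, Sum.elim_inr, wd]
  have h1 : u i = ((u i).re : ℂ) + ((u i).im : ℂ) * Complex.I := (Complex.re_add_im (u i)).symm
  have h2 : (starRingEnd ℂ) (u i) = ((u i).re : ℂ) - ((u i).im : ℂ) * Complex.I := by
    apply Complex.ext <;> simp
  rw [h2]
  conv_rhs => rw [h1]
  simp only [Complex.add_re, Complex.ofReal_re, Complex.mul_re, Complex.I_re, mul_zero,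
    Complex.ofReal_im, Complex.I_im, mul_one, sub_self, add_zero, Complex.add_im, Complex.mul_im,
    zero_add]
  ring_nf
  rw [Complex.I_sq]
  ring

lemma tu_comp_deriv {f : CF (n + n)} {p : E (n + n)} {u : Fin n → ℂ} {t : ℝ}
    (hf : DifferentiableAt ℝ f (shift p (t • u))) :
    HasDerivAt (fun s : ℝ => f (shift p (s • u)))
      (∑ a, tuEl u a * wd a f (shift p (t • u))) t := by
  rw [← tu_fderiv_apply]
  have h1 : HasDerivAt (fun s : ℝ => shift p (s • u)) (tuI u) t := by
    have h2 : (fun s : ℝ => shift p (s • u)) = fun s => p + s • tuI u := by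
      funext s; rw [tu_shift, map_smul]
    rw [h2]
    have h3 : HasDerivAt (fun s : ℝ => s • tuI u) ((1 : ℝ) • tuI u) t :=
      (hasDerivAt_id t).smul_const (tuI u)
    rw [one_smul] at h3
    exact h3.const_add p
  exact hf.hasFDerivAt.comp_hasDerivAt t h1

lemma tu_wd_sm {f : CF (n + n)} (hf : Sm x₀ f) (a : Fin n ⊕ Fin n) : Sm x₀ (wd a f) := by
  cases a with
  | inl i =>
    exact (Sm.const (p := x₀) (1 / 2 : ℂ)).mul
      ((hf.pd _).sub ((Sm.const (p := x₀) Complex.I).mul (hf.pd _)))
  | inr i =>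
    exact (Sm.const (p := x₀) (1 / 2 : ℂ)).mul
      ((hf.pd _).add ((Sm.const (p := x₀) Complex.I).mul (hf.pd _)))

lemma tu_peval_zero (N : ℕ) (f : CF (n + n)) (p : E (n + n)) : peval (tay N f p) 0 = f p := by
  have h0 : ∀ j : ℕ, peval (tp (j + 1) f p) (0 : Fin n → ℂ) = 0 := by
    intro j
    rw [tu_peval]
    simp only [tp, map_sum, map_mul, MvPolynomial.eval_X]
    apply Finset.sum_eq_zero
    intro a _
    have : tuEl (0 : Fin n → ℂ) a = 0 := by cases a <;> simp [tuEl]
    rw [this, zero_mul]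
  rw [tu_peval]
  simp only [tay, map_sum, map_mul, MvPolynomial.eval_C]
  rw [Finset.sum_range_succ']
  have h1 : ∀ j ∈ Finset.range N, (((j + 1).factorial : ℂ))⁻¹ *
      MvPolynomial.eval (tuEl (0 : Fin n → ℂ)) (tp (j + 1) f p) = 0 := by
    intro j _
    have := h0 j
    rw [tu_peval] at this
    rw [this, mul_zero]
  rw [Finset.sum_eq_zero h1]
  simp [tp]

/-- the common step: integrate the derivative along the segment -/
lemma tu_step {h : ℝ → ℂ} {u : Fin n → ℂ} {G : (Fin n ⊕ Fin n) → ℝ → ℂ} {B : ℝ}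
    (h0 : h 0 = 0) (hd : ∀ t ∈ Set.Icc (0 : ℝ) 1, HasDerivAt h (∑ a, tuEl u a * G a t) t)
    (hB : ∀ a, ∀ t ∈ Set.Icc (0 : ℝ) 1, ‖G a t‖ ≤ B) :
    ‖h 1‖ ≤ (2 * n : ℝ) * B * ‖u‖ := by
  have h1 : ∀ t ∈ Set.Icc (0 : ℝ) 1, ‖∑ a, tuEl u a * G a t‖ ≤ (2 * n : ℝ) * B * ‖u‖ := by
    intro t ht
    calc ‖∑ a, tuEl u a * G a t‖ ≤ ∑ a, ‖tuEl u a * G a t‖ := norm_sum_le _ _
      _ ≤ ∑ a : Fin n ⊕ Fin n, ‖u‖ * B := by
          refine Finset.sum_le_sum fun a _ => ?_
          rw [norm_mul]
          exact mul_le_mul (tuEl_norm u a) (hB a t ht) (norm_nonneg _) (norm_nonneg _)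
      _ = (2 * n : ℝ) * B * ‖u‖ := by
          rw [Finset.sum_const, Finset.card_univ, Fintype.card_sum, Fintype.card_fin, nsmul_eq_mul]
          push_cast
          ring
  have h2 := (convex_Icc (0 : ℝ) 1).norm_image_sub_le_of_norm_hasDerivWithin_le
    (f := h) (fun t ht => (hd t ht).hasDerivWithinAt) h1
    (Set.left_mem_Icc.2 zero_le_one) (Set.right_mem_Icc.2 zero_le_one)
  rw [h0, sub_zero, sub_zero, norm_one, mul_one] at h2
  exact h2

/-- uniform Taylor estimate (JDB) -/
theorem tay_unif {f : CF (n + n)} (hf : Sm x₀ f) (N : ℕ) :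
    ∃ C > 0, ∃ ε > 0, ∀ (p : E (n + n)) (u : Fin n → ℂ), dist p x₀ < ε → ‖u‖ < ε →
      ‖f (shift p u) - peval (tay N f p) u‖ ≤ C * ‖u‖ ^ (N + 1) := by
  have hdist : ∀ (p : E (n + n)) (u : Fin n → ℂ) (t ε : ℝ), t ∈ Set.Icc (0 : ℝ) 1 →
      dist p x₀ < ε → ‖u‖ < ε → dist (shift p (t • u)) x₀ < 2 * ε ∧ ‖t • u‖ ≤ ‖u‖ := by
    intro p u t ε ht hp hu
    have h1 : ‖t • u‖ ≤ ‖u‖ := by
      rw [norm_smul, Real.norm_eq_abs, abs_of_nonneg ht.1]
      exact mul_le_of_le_one_left (norm_nonneg _) ht.2
    refine ⟨?_, h1⟩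
    have h2 : dist (shift p (t • u)) p ≤ ‖u‖ := by
      rw [tu_shift, dist_eq_norm, add_sub_cancel_left]
      exact (tuI_norm _).trans h1
    have h3 := dist_triangle (shift p (t • u)) p x₀
    linarith
  induction N generalizing f with
  | zero =>
    -- bound of the first derivatives
    have hb : ∀ a : Fin n ⊕ Fin n, ∀ᶠ y in 𝓝 x₀, ‖wd a f y‖ < ‖wd a f x₀‖ + 1 := by
      intro a
      have hc : ContinuousAt (wd a f) x₀ := (tu_wd_sm hf a).continuousAt
      exact hc.norm.eventually_lt continuousAt_const (by simp)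
    have hb' := Filter.eventually_all.2 hb
    obtain ⟨r, hr, hball⟩ := Metric.eventually_nhds_iff_ball.1 (hb'.and hf)
    obtain ⟨B, hB⟩ : ∃ B : ℝ, B = ∑ a : Fin n ⊕ Fin n, (‖wd a f x₀‖ + 1) := ⟨_, rfl⟩
    have hB0 : 0 ≤ B := by rw [hB]; positivity
    refine ⟨(2 * n : ℝ) * B + 1, by positivity, r / 2, by positivity, ?_⟩
    intro p u hp hu
    have hkey := tu_step (h := fun t : ℝ => f (shift p (t • u)) - f p) (u := u)
      (G := fun a t => wd a f (shift p (t • u))) (B := B) (by
        simp only [zero_smul]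
        rw [tu_shift, map_zero, add_zero, sub_self]) (by
        intro t ht
        have h1 := (hdist p u t (r / 2) ht hp hu).1
        have h2 := (hball (shift p (t • u)) (by rw [Metric.mem_ball]; linarith)).2
        exact (tu_comp_deriv (h2.differentiableAt (by simp))).sub_const (f p)) (by
        intro a t ht
        have h1 := (hdist p u t (r / 2) ht hp hu).1
        have h2 := (hball (shift p (t • u)) (by rw [Metric.mem_ball]; linarith)).1 a
        refine h2.le.trans ?_
        rw [hB]
        exact Finset.single_le_sum (f := fun a => ‖wd a f x₀‖ + 1)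
          (fun b _ => by positivity) (Finset.mem_univ a))
    simp only [one_smul] at hkey
    have h3 : peval (tay 0 f p) u = f p := by
      rw [tu_peval]
      simp [tay, tp]
    rw [h3]
    refine hkey.trans ?_
    rw [zero_add, pow_one]
    have := norm_nonneg u
    nlinarith
  | succ N ih =>
    have h1 : ∀ a : Fin n ⊕ Fin n, ∃ C > 0, ∃ ε > 0, ∀ (p : E (n + n)) (u : Fin n → ℂ),
        dist p x₀ < ε → ‖u‖ < ε →
        ‖wd a f (shift p u) - peval (tay N (wd a f) p) u‖ ≤ C * ‖u‖ ^ (N + 1) :=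
      fun a => ih (tu_wd_sm hf a)
    choose C hC ε hε hmain using h1
    have hεall : ∃ ε0 > 0, ∀ a, ε0 ≤ ε a := by
      rcases isEmpty_or_nonempty (Fin n ⊕ Fin n) with he | he
      · exact ⟨1, one_pos, fun a => (he.false a).elim⟩
      · obtain ⟨a0, ha0⟩ := Finite.exists_min ε
        exact ⟨ε a0, hε a0, ha0⟩
    obtain ⟨ε0, hε0, hε0le⟩ := hεall
    obtain ⟨r, hr, hball⟩ := Metric.eventually_nhds_iff_ball.1 hf
    obtain ⟨B, hB⟩ : ∃ B : ℝ, B = ∑ a : Fin n ⊕ Fin n, C a := ⟨_, rfl⟩
    have hB0 : 0 ≤ B := by rw [hB]; exact Finset.sum_nonneg (fun a _ => (hC a).le)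
    refine ⟨(2 * n : ℝ) * B + 1, by positivity, min ε0 (r / 2), lt_min hε0 (by positivity), ?_⟩
    intro p u hp hu
    have hp1 : dist p x₀ < ε0 := hp.trans_le (min_le_left _ _)
    have hp2 : dist p x₀ < r / 2 := hp.trans_le (min_le_right _ _)
    have hu1 : ‖u‖ < ε0 := hu.trans_le (min_le_left _ _)
    have hu2 : ‖u‖ < r / 2 := hu.trans_le (min_le_right _ _)
    have hfp : Sm p f := by
      have : Metric.ball x₀ r ∈ 𝓝 p := Metric.isOpen_ball.mem_nhds (by
        rw [Metric.mem_ball]; linarith)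
      exact Filter.eventually_of_mem this hball
    have hkey := tu_step (h := fun t : ℝ => f (shift p (t • u)) - peval (tay (N + 1) f p) (t • u))
      (u := u) (G := fun a t => wd a f (shift p (t • u)) - peval (tay N (wd a f) p) (t • u))
      (B := B * ‖u‖ ^ (N + 1)) (by
        simp only [zero_smul]
        rw [tu_shift, map_zero, add_zero, tu_peval_zero, sub_self]) (by
        intro t ht
        have h1 := (hdist p u t (r / 2) ht hp2 hu2).1
        have h2 := hball (shift p (t • u)) (by rw [Metric.mem_ball]; linarith)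
        have h3 := (tu_comp_deriv (h2.differentiableAt (by simp))).sub
          (tu_peval_deriv (tay (N + 1) f p) u t)
        have h4 : ∑ a, tuEl u a * (wd a f (shift p (t • u)) - peval (tay N (wd a f) p) (t • u)) =
            ∑ a, tuEl u a * wd a f (shift p (t • u)) -
            ∑ a, tuEl u a * peval (MvPolynomial.pderiv a (tay (N + 1) f p)) (t • u) := by
          rw [← Finset.sum_sub_distrib]
          refine Finset.sum_congr rfl fun a _ => ?_
          rw [tay_pderiv hfp, mul_sub]
        rw [h4]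
        exact h3) (by
        intro a t ht
        have h1 := (hdist p u t ε0 ht hp1 hu1).2
        have h2 := hmain a p (t • u) (hp1.trans_le (hε0le a))
          ((h1.trans_lt hu1).trans_le (hε0le a))
        refine h2.trans ?_
        have h3 : C a ≤ B := by
          rw [hB]
          exact Finset.single_le_sum (f := C) (fun b _ => (hC b).le) (Finset.mem_univ a)
        have := hC a
        gcongr)
    simp only [one_smul] at hkey
    refine hkey.trans ?_
    have h5 : (2 * n : ℝ) * (B * ‖u‖ ^ (N + 1)) * ‖u‖ = (2 * n : ℝ) * B * ‖u‖ ^ (N + 1 + 1) := by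
      rw [pow_succ ‖u‖ (N + 1)]; ring
    rw [h5]
    have : 0 ≤ ‖u‖ ^ (N + 1 + 1) := by positivity
    nlinarith



end KI
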