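import Pool.Agent.KI.EDefs
import Pool.Agent.KI.TayU
import Pool.Agent.KI.Tay2

open scoped ContDiff Topology BigOperators
open Finset Asymptotics

namespace KI
open DAng

variable {n : ℕ} {p x₀ : E (n + n)}



lemma nft_norm_lt_one : ∀ᶠ ζ : ℂ in 𝓝 0, ‖ζ‖ < 1 := by
  have := (continuous_norm (E := ℂ)).continuousAt (x := 0)
  exact this.eventually_lt continuousAt_const (by simp)

/-- evaluation of a polynomial agrees with its truncation up to `O(|ζ|^(M+1))` -/
lemma nft_poly_trunc (Q : Polynomial ℂ) (P : PowerSeries ℂ) (M : ℕ)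
    (h : ∀ a ≤ M, Q.coeff a = PowerSeries.coeff a P) :
    (fun ζ : ℂ => Q.eval ζ - ∑ a ∈ range (M + 1), PowerSeries.coeff a P * ζ ^ a)
      =O[𝓝 (0 : ℂ)] (fun ζ => ‖ζ‖ ^ (M + 1)) := by
  have h1 : ∀ ζ : ℂ, Q.eval ζ - ∑ a ∈ range (M + 1), PowerSeries.coeff a P * ζ ^ a
      = ∑ a ∈ range (Q.natDegree + 1), (if a ≤ M then 0 else Q.coeff a * ζ ^ a) := by
    intro ζ
    have h2 : Q.eval ζ = ∑ a ∈ range (max (Q.natDegree + 1) (M + 1)), Q.coeff a * ζ ^ a := by
      rw [Polynomial.eval_eq_sum_range' (n := max (Q.natDegree + 1) (M + 1)) (by omega)]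
    have h3 : ∑ a ∈ range (M + 1), PowerSeries.coeff a P * ζ ^ a
        = ∑ a ∈ range (max (Q.natDegree + 1) (M + 1)), if a ≤ M then Q.coeff a * ζ ^ a else 0 := by
      rw [← Finset.sum_filter]
      apply Finset.sum_congr_of_eq_on_inter
      · intro a ha hb
        exfalso; apply hb
        simp at ha ⊢; omega
      · intro a ha hb
        exfalso; apply hb
        simp at ha ⊢; omega
      · intro a ha _
        simp at ha
        rw [h a (by omega)]
    have h4 : ∑ a ∈ range (Q.natDegree + 1), (if a ≤ M then 0 else Q.coeff a * ζ ^ a)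
        = ∑ a ∈ range (max (Q.natDegree + 1) (M + 1)), (if a ≤ M then 0 else Q.coeff a * ζ ^ a) := by
      apply Finset.sum_subset
      · intro a ha; simp at ha ⊢; omega
      · intro a _ hb
        simp at hb
        have : Q.coeff a = 0 := Polynomial.coeff_eq_zero_of_natDegree_lt (by omega)
        simp [this]
    rw [h2, h3, h4, ← Finset.sum_sub_distrib]
    refine Finset.sum_congr rfl fun a _ => ?_
    split_ifs <;> simp
  simp_rw [h1]
  refine IsBigO.fun_sum fun a _ => ?_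
  by_cases ha : a ≤ M
  · simp only [ha, if_true]
    exact IsBigO.of_bound 0 (by simp)
  · simp only [ha, if_false]
    refine (IsBigO.const_mul_left ?_ _)
    refine IsBigO.of_bound 1 ?_
    filter_upwards [nft_norm_lt_one] with ζ hζ
    rw [norm_pow, norm_pow, norm_norm, one_mul]
    exact pow_le_pow_of_le_one (norm_nonneg _) hζ.le (by omega)

/-- coefficients of products of truncations -/
lemma nft_coeff_prod (γ : Fin n → PowerSeries ℂ) (M : ℕ) (e : Fin n → ℕ) (a : ℕ) (ha : a ≤ M) :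
    (∏ i, (PowerSeries.trunc (M + 1) (γ i)) ^ e i).coeff a
      = PowerSeries.coeff a (∏ i, γ i ^ e i) := by
  rw [← Polynomial.coeff_coe]
  have hI : ∀ i, Ideal.Quotient.mk (Ideal.span {(PowerSeries.X : PowerSeries ℂ) ^ (M + 1)})
      (PowerSeries.trunc (M + 1) (γ i) : PowerSeries ℂ)
      = Ideal.Quotient.mk (Ideal.span {(PowerSeries.X : PowerSeries ℂ) ^ (M + 1)}) (γ i) := by
    intro i
    rw [Ideal.Quotient.eq, Ideal.mem_span_singleton, PowerSeries.X_pow_dvd_iff]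
    intro m hm
    rw [map_sub, Polynomial.coeff_coe, PowerSeries.coeff_trunc, if_pos hm, sub_self]
  have h2 : Ideal.Quotient.mk (Ideal.span {(PowerSeries.X : PowerSeries ℂ) ^ (M + 1)})
      ((∏ i, (PowerSeries.trunc (M + 1) (γ i)) ^ e i : Polynomial ℂ) : PowerSeries ℂ)
      = Ideal.Quotient.mk (Ideal.span {(PowerSeries.X : PowerSeries ℂ) ^ (M + 1)})
        (∏ i, γ i ^ e i) := by
    have : ((∏ i, (PowerSeries.trunc (M + 1) (γ i)) ^ e i : Polynomial ℂ) : PowerSeries ℂ)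
        = ∏ i, (PowerSeries.trunc (M + 1) (γ i) : PowerSeries ℂ) ^ e i := by
      rw [← Polynomial.coeToPowerSeries.ringHom_apply, map_prod]
      simp
    rw [this, map_prod, map_prod]
    refine Finset.prod_congr rfl fun i _ => ?_
    rw [map_pow, map_pow, hI]
  rw [Ideal.Quotient.eq, Ideal.mem_span_singleton, PowerSeries.X_pow_dvd_iff] at h2
  have h3 := h2 a (by omega)
  rw [map_sub, sub_eq_zero] at h3
  exact h3

/-- the truncated curve -/
noncomputable def nftU (γ : Fin n → PowerSeries ℂ) (M : ℕ) (ζ : ℂ) : Fin n → ℂ :=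
  fun i => (PowerSeries.trunc (M + 1) (γ i)).eval ζ

lemma nftU_prod (γ : Fin n → PowerSeries ℂ) (M : ℕ) (e : Fin n → ℕ) (ζ : ℂ) :
    ∏ i, nftU γ M ζ i ^ e i = (∏ i, (PowerSeries.trunc (M + 1) (γ i)) ^ e i).eval ζ := by
  rw [Polynomial.eval_prod]
  refine Finset.prod_congr rfl fun i _ => ?_
  rw [Polynomial.eval_pow]; rfl

lemma nftU_prod_isBigO (γ : Fin n → PowerSeries ℂ) (M : ℕ) (e : Fin n → ℕ) :
    (fun ζ : ℂ => ∏ i, nftU γ M ζ i ^ e i
        - ∑ a ∈ range (M + 1), PowerSeries.coeff a (∏ i, γ i ^ e i) * ζ ^ a)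
      =O[𝓝 (0 : ℂ)] (fun ζ => ‖ζ‖ ^ (M + 1)) := by
  simp_rw [nftU_prod]
  exact nft_poly_trunc _ _ M (fun a ha => nft_coeff_prod γ M e a ha)

lemma nft_conj_isBigO {f : ℂ → ℂ} {g : ℂ → ℝ} (h : f =O[𝓝 (0 : ℂ)] g) :
    (fun ζ => (starRingEnd ℂ) (f ζ)) =O[𝓝 (0 : ℂ)] g := by
  refine IsBigO.congr_left ?_ (fun _ => rfl)
  rw [← isBigO_norm_left] at h ⊢
  simpa using h

/-- the Taylor polynomial along the truncated curve -/
lemma nft_peval (P : Pol n) (γ : Fin n → PowerSeries ℂ) (M : ℕ)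
    (hγ : ∀ (a b : ℕ), a ≤ M → b ≤ M →
      ∑ e ∈ P.support, P.coeff e *
        PowerSeries.coeff a (∏ i, γ i ^ e (Sum.inl i)) *
        (starRingEnd ℂ) (PowerSeries.coeff b (∏ i, γ i ^ e (Sum.inr i))) = 0) :
    (fun ζ : ℂ => peval P (nftU γ M ζ)) =O[𝓝 (0 : ℂ)] (fun ζ => ‖ζ‖ ^ (M + 1)) := by
  set A : (Fin n → ℕ) → ℂ → ℂ := fun e ζ =>
    ∑ a ∈ range (M + 1), PowerSeries.coeff a (∏ i, γ i ^ e i) * ζ ^ a with hA
  have hev : ∀ ζ, peval P (nftU γ M ζ) = ∑ e ∈ P.support, P.coeff e *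
      ((∏ i, nftU γ M ζ i ^ e (Sum.inl i)) * (starRingEnd ℂ) (∏ i, nftU γ M ζ i ^ e (Sum.inr i))) := by
    intro ζ
    unfold peval
    rw [MvPolynomial.eval_eq']
    refine Finset.sum_congr rfl fun e _ => ?_
    rw [Fintype.prod_sum_type]
    simp [map_prod]
  have hA0 : ∀ ζ, ∑ e ∈ P.support, P.coeff e *
      (A (fun i => e (Sum.inl i)) ζ * (starRingEnd ℂ) (A (fun i => e (Sum.inr i)) ζ)) = 0 := by
    intro ζ
    have : ∀ e ∈ P.support, P.coeff e *
      (A (fun i => e (Sum.inl i)) ζ * (starRingEnd ℂ) (A (fun i => e (Sum.inr i)) ζ))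
      = ∑ a ∈ range (M + 1), ∑ b ∈ range (M + 1), (P.coeff e *
        PowerSeries.coeff a (∏ i, γ i ^ e (Sum.inl i)) *
        (starRingEnd ℂ) (PowerSeries.coeff b (∏ i, γ i ^ e (Sum.inr i)))) *
          (ζ ^ a * (starRingEnd ℂ) ζ ^ b) := by
      intro e _
      simp only [hA, map_sum, map_mul, map_pow]
      rw [Finset.sum_mul_sum, Finset.mul_sum]
      refine Finset.sum_congr rfl fun a _ => ?_
      rw [Finset.mul_sum]
      refine Finset.sum_congr rfl fun b _ => ?_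
      ring
    rw [Finset.sum_congr rfl this, Finset.sum_comm]
    refine Finset.sum_eq_zero fun a ha => ?_
    rw [Finset.sum_comm]
    refine Finset.sum_eq_zero fun b hb => ?_
    rw [← Finset.sum_mul, hγ a b (by simp at ha; omega) (by simp at hb; omega), zero_mul]
  have hfin : ∀ ζ, peval P (nftU γ M ζ) = ∑ e ∈ P.support, P.coeff e *
      (((∏ i, nftU γ M ζ i ^ e (Sum.inl i)) - A (fun i => e (Sum.inl i)) ζ) *
          (starRingEnd ℂ) (∏ i, nftU γ M ζ i ^ e (Sum.inr i))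
        + A (fun i => e (Sum.inl i)) ζ *
          (starRingEnd ℂ) ((∏ i, nftU γ M ζ i ^ e (Sum.inr i)) - A (fun i => e (Sum.inr i)) ζ)) := by
    intro ζ
    rw [hev, ← sub_zero (∑ e ∈ P.support, _), ← hA0 ζ, ← Finset.sum_sub_distrib]
    refine Finset.sum_congr rfl fun e _ => ?_
    rw [map_sub]
    ring
  simp_rw [hfin]
  refine IsBigO.fun_sum fun e _ => ?_
  refine IsBigO.const_mul_left ?_ _
  refine IsBigO.add ?_ ?_
  · have h1 := nftU_prod_isBigO γ M (fun i => e (Sum.inl i))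
    have h2 : (fun ζ => (starRingEnd ℂ) (∏ i, nftU γ M ζ i ^ e (Sum.inr i)))
        =O[𝓝 (0 : ℂ)] (fun _ => (1 : ℝ)) := by
      have hc : Continuous (fun ζ => (starRingEnd ℂ) (∏ i, nftU γ M ζ i ^ e (Sum.inr i))) := by
        refine Complex.continuous_conj.comp ?_
        simp_rw [nftU_prod γ M (fun i => e (Sum.inr i))]
        exact Polynomial.continuous _
      exact hc.continuousAt.isBigO_one ℝ
    simpa using h1.mul h2
  · have h1 := nft_conj_isBigO (nftU_prod_isBigO γ M (fun i => e (Sum.inr i)))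
    have h2 : (fun ζ => A (fun i => e (Sum.inl i)) ζ) =O[𝓝 (0 : ℂ)] (fun _ => (1 : ℝ)) := by
      have hc : Continuous (fun ζ => A (fun i => e (Sum.inl i)) ζ) := by
        simp only [hA]
        fun_prop
      exact hc.continuousAt.isBigO_one ℝ
    simpa only [one_mul] using h2.mul h1

lemma nft_toCn_contDiff : ContDiff ℝ ∞ (toCn (n := n)) := by
  rw [contDiff_pi]
  intro i
  unfold toCn
  have h1 : ∀ j : Fin (n + n), ContDiff ℝ ∞ (fun x : E (n + n) => ((x j : ℝ) : ℂ)) := fun j =>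
    Complex.ofRealCLM.contDiff.comp (contDiff_apply ℝ ℝ j)
  exact (h1 _).add (contDiff_const.mul (h1 _))

lemma nft_sm (r : Cn n → ℝ) (x₀ : E (n + n)) (hr : ∀ᶠ x in 𝓝 (toCn x₀), ContDiffAt ℝ ∞ r x) :
    Sm x₀ (fun x => (r (toCn x) : ℂ)) := by
  have hc : ContinuousAt (toCn (n := n)) x₀ := nft_toCn_contDiff.continuous.continuousAt
  have := hc.eventually hr
  unfold Sm
  filter_upwards [this] with x hx
  exact (Complex.ofRealCLM.contDiff.contDiffAt).comp x (hx.comp x nft_toCn_contDiff.contDiffAt)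

lemma nft_toCn_shift (x₀ : E (n + n)) (u : Fin n → ℂ) : toCn (shift x₀ u) = toCn x₀ + u := by
  funext i
  simp only [toCn, shift, Fin.addCases_left, Fin.addCases_right, Pi.add_apply]
  push_cast
  have := Complex.re_add_im (u i)
  rw [mul_comm] at this
  linear_combination this

/-- the minimal order of a nonzero family of power series -/
lemma nft_order (γ : Fin n → PowerSeries ℂ) (h0 : ∀ j, PowerSeries.constantCoeff (γ j) = 0)
    (hne : ∃ j, γ j ≠ 0) :
    ∃ μ : ℕ, 1 ≤ μ ∧ (∀ j, ∀ i < μ, PowerSeries.coeff i (γ j) = 0) ∧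
      ∃ j, PowerSeries.coeff μ (γ j) ≠ 0 := by
  classical
  have hex : ∃ m : ℕ, ∃ j, PowerSeries.coeff m (γ j) ≠ 0 := by
    obtain ⟨j, hj⟩ := hne
    by_contra hcon
    push Not at hcon
    exact hj (PowerSeries.ext fun m => by simpa using hcon m j)
  refine ⟨Nat.find hex, ?_, ?_, Nat.find_spec hex⟩
  · rw [Nat.one_le_iff_ne_zero]
    intro h
    obtain ⟨j, hj⟩ := Nat.find_spec hex
    rw [h] at hj
    exact hj (by simpa using h0 j)
  · intro j i hi
    by_contra hcon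
    exact Nat.find_min hex hi ⟨j, hcon⟩

lemma nft_main (r : Cn n → ℝ) (x₀ : E (n + n)) (hr : ∀ᶠ x in 𝓝 (toCn x₀), ContDiffAt ℝ ∞ r x)
    (γ : Fin n → PowerSeries ℂ) (h0 : ∀ j, PowerSeries.constantCoeff (γ j) = 0)
    (hγ : ∀ (a b N : ℕ), a + b + 3 ≤ N →
      ∑ e ∈ (tay N (fun x => (r (toCn x) : ℂ)) x₀).support,
        (tay N (fun x => (r (toCn x) : ℂ)) x₀).coeff e *
        PowerSeries.coeff a (∏ i, γ i ^ e (Sum.inl i)) *
        (starRingEnd ℂ) (PowerSeries.coeff b (∏ i, γ i ^ e (Sum.inr i))) = 0) (M : ℕ) :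
    (fun ζ : ℂ => r (toCn x₀ + nftU γ M ζ)) =O[𝓝 (0 : ℂ)] (fun ζ => ‖ζ‖ ^ (M + 1)) := by
  set f : CF (n + n) := fun x => (r (toCn x) : ℂ) with hf
  obtain ⟨C, hC, ε, hε, hb⟩ := tay_unif (nft_sm r x₀ hr) (2 * M + 3)
  have hU : (fun ζ : ℂ => nftU γ M ζ) =O[𝓝 (0 : ℂ)] (fun ζ => ‖ζ‖) := by
    rw [isBigO_pi]
    intro i
    have h1 := nft_poly_trunc (PowerSeries.trunc (M + 1) (γ i)) (γ i) 0 (by
      intro a ha
      rw [PowerSeries.coeff_trunc, if_pos (by omega)])
    simp only [zero_add, Finset.range_one, Finset.sum_singleton, pow_zero, mul_one, pow_one] at h1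
    have h2 : PowerSeries.coeff 0 (γ i) = 0 := by simpa using h0 i
    simp only [h2, sub_zero] at h1
    exact h1
  have hUcont : Continuous (fun ζ : ℂ => nftU γ M ζ) := by
    refine continuous_pi fun i => ?_
    exact Polynomial.continuous _
  have hU0 : nftU γ M 0 = 0 := by
    funext i
    show (PowerSeries.trunc (M + 1) (γ i)).eval 0 = 0
    rw [← Polynomial.coeff_zero_eq_eval_zero, PowerSeries.coeff_trunc, if_pos (by omega)]
    simpa using h0 i
  have hUsmall : ∀ᶠ ζ in 𝓝 (0 : ℂ), ‖nftU γ M ζ‖ < ε := by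
    have : Filter.Tendsto (fun ζ => ‖nftU γ M ζ‖) (𝓝 0) (𝓝 0) := by
      have := (hUcont.norm).tendsto 0
      rwa [hU0, norm_zero] at this
    exact this.eventually_lt_const hε
  have hrem : (fun ζ : ℂ => f (shift x₀ (nftU γ M ζ)) - peval (tay (2 * M + 3) f x₀) (nftU γ M ζ))
      =O[𝓝 (0 : ℂ)] (fun ζ => ‖ζ‖ ^ (M + 1)) := by
    have h1 : (fun ζ : ℂ => f (shift x₀ (nftU γ M ζ)) - peval (tay (2 * M + 3) f x₀) (nftU γ M ζ))
      =O[𝓝 (0 : ℂ)] (fun ζ => ‖nftU γ M ζ‖ ^ (2 * M + 3 + 1)) := by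
      refine IsBigO.of_bound C ?_
      filter_upwards [hUsmall] with ζ hζ
      rw [norm_pow, norm_norm]
      exact hb x₀ (nftU γ M ζ) (by simpa using hε) hζ
    refine h1.trans ?_
    have h2 : (fun ζ : ℂ => ‖nftU γ M ζ‖ ^ (2 * M + 3 + 1))
        =O[𝓝 (0 : ℂ)] (fun ζ => ‖ζ‖ ^ (2 * M + 3 + 1)) := (hU.norm_left).pow _
    refine h2.trans (IsBigO.of_bound 1 ?_)
    filter_upwards [nft_norm_lt_one] with ζ hζ
    rw [norm_pow, norm_pow, norm_norm, one_mul]
    exact pow_le_pow_of_le_one (norm_nonneg _) hζ.le (by omega)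
  have hpe := nft_peval (tay (2 * M + 3) f x₀) γ M (fun a b ha hb' => hγ a b (2 * M + 3) (by omega))
  have hsum := hrem.add hpe
  have hfr : ∀ ζ, ‖f (shift x₀ (nftU γ M ζ))‖ = ‖r (toCn x₀ + nftU γ M ζ)‖ := by
    intro ζ
    simp only [hf]
    rw [nft_toCn_shift, Complex.norm_real]
  have h3 : (fun ζ : ℂ => f (shift x₀ (nftU γ M ζ))) =O[𝓝 (0 : ℂ)] (fun ζ => ‖ζ‖ ^ (M + 1)) := by
    refine hsum.congr_left fun ζ => ?_
    ring
  rw [← isBigO_norm_left] at h3 ⊢
  exact h3.congr_left hfr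

/-- contradiction with finite D'Angelo type (JED) -/
theorem not_finite_type (r : Cn n → ℝ) (x₀ : E (n + n)) (hr : ∀ᶠ x in 𝓝 (toCn x₀), ContDiffAt ℝ ∞ r x)
    (γ : Fin n → PowerSeries ℂ) (h0 : ∀ j, PowerSeries.constantCoeff (γ j) = 0)
    (hne : ∃ j, γ j ≠ 0)
    (hγ : ∀ (a b N : ℕ), a + b + 3 ≤ N →
      ∑ e ∈ (tay N (fun x => (r (toCn x) : ℂ)) x₀).support,
        (tay N (fun x => (r (toCn x) : ℂ)) x₀).coeff e *
        PowerSeries.coeff a (∏ i, γ i ^ e (Sum.inl i)) *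
        (starRingEnd ℂ) (PowerSeries.coeff b (∏ i, γ i ^ e (Sum.inr i))) = 0) :
    ¬ FiniteDAngeloType r (toCn x₀) := by
  rintro ⟨C, hC⟩
  obtain ⟨μ, hμ1, hμ2, j₀, hj₀⟩ := nft_order γ h0 hne
  set M : ℕ := μ + C * μ with hM
  have hana : ∀ (q : Fin n → Polynomial ℂ) (v : Cn n),
      AnalyticAt ℂ (fun ζ : ℂ => v + fun i => (q i).eval ζ) 0 := by
    intro q v
    refine analyticAt_const.add ?_
    rw [analyticAt_pi_iff]
    intro i
    exact AnalyticAt.aeval_polynomial analyticAt_id (q i) 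
  have hord : analyticOrderAt (fun ζ : ℂ => (toCn x₀ + nftU γ M ζ) - toCn x₀) 0 = (μ : ℕ) := by
    have e1 : (fun ζ : ℂ => (toCn x₀ + nftU γ M ζ) - toCn x₀) = fun ζ => nftU γ M ζ := by
      funext ζ; rw [add_sub_cancel_left]
    rw [e1]
    have ha : AnalyticAt ℂ (fun ζ => nftU γ M ζ) 0 := by
      have := hana (fun i => PowerSeries.trunc (M + 1) (γ i)) 0
      simp only [zero_add] at this
      exact this
    rw [ha.analyticOrderAt_eq_natCast]
    have hdvd : ∀ i, ∃ g : Polynomial ℂ, PowerSeries.trunc (M + 1) (γ i) = Polynomial.X ^ μ * g := by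
      intro i
      have : Polynomial.X ^ μ ∣ PowerSeries.trunc (M + 1) (γ i) := by
        rw [Polynomial.X_pow_dvd_iff]
        intro d hd
        rw [PowerSeries.coeff_trunc]
        split_ifs
        · exact hμ2 i d hd
        · rfl
      exact this
    choose g hg using hdvd
    refine ⟨fun ζ i => (g i).eval ζ, ?_, ?_, ?_⟩
    · have := hana g 0
      simpa using this
    · intro hz
      have h1 := congrFun hz j₀
      simp only [Pi.zero_apply] at h1
      rw [← Polynomial.coeff_zero_eq_eval_zero] at h1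
      have h2 : (PowerSeries.trunc (M + 1) (γ j₀)).coeff μ = 0 := by
        rw [hg j₀]
        have := Polynomial.coeff_X_pow_mul (g j₀) μ 0
        rw [zero_add] at this
        rw [this, h1]
      rw [PowerSeries.coeff_trunc, if_pos (by omega)] at h2
      exact hj₀ h2
    · refine Filter.Eventually.of_forall fun ζ => ?_
      funext i
      simp only [nftU, sub_zero, Pi.smul_apply, smul_eq_mul]
      rw [hg i]
      simp
  have hcon := hC (fun ζ => toCn x₀ + nftU γ M ζ) (by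
      exact hana (fun i => PowerSeries.trunc (M + 1) (γ i)) (toCn x₀)) (by
      have hU0 : nftU γ M 0 = 0 := by
        funext i
        show (PowerSeries.trunc (M + 1) (γ i)).eval 0 = 0
        rw [← Polynomial.coeff_zero_eq_eval_zero, PowerSeries.coeff_trunc, if_pos (by omega)]
        simpa using h0 i
      rw [hU0, add_zero]) (by
      intro hev
      have : analyticOrderAt (fun ζ : ℂ => (toCn x₀ + nftU γ M ζ) - toCn x₀) 0 = ⊤ := by
        rw [analyticOrderAt_eq_top]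
        filter_upwards [hev] with ζ hζ
        rw [hζ, sub_self]
      rw [hord] at this
      exact absurd this (by simp)) μ (M + 1) hord (nft_main r x₀ hr γ h0 hγ M)
  omega



end KI
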