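import Pool.Agent.KI.EDefs

open scoped ContDiff Topology BigOperators
open Finset Asymptotics

namespace KI
open DAng

variable {n : ℕ} {p x₀ : E (n + n)}



noncomputable def fromCnJEF (z : Cn n) : E (n + n) :=
  fun j => Fin.addCases (fun i => (z i).re) (fun i => (z i).im) j

lemma toCn_fromCnJEF (z : Cn n) : toCn (fromCnJEF z) = z := by
  funext i
  simp only [toCn, fromCnJEF, Fin.addCases_left, Fin.addCases_right]
  rw [mul_comm]
  exact Complex.re_add_im (z i)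

lemma fromCn_toCnJEF (x : E (n + n)) : fromCnJEF (toCn x) = x := by
  funext j
  refine Fin.addCases (fun i => ?_) (fun i => ?_) j
  · simp only [toCn, fromCnJEF, Fin.addCases_left, Complex.add_re, Complex.ofReal_re,
      Complex.mul_re, Complex.I_re, Complex.I_im, Complex.ofReal_im]
    ring
  · simp only [toCn, fromCnJEF, Fin.addCases_right, Complex.add_im, Complex.ofReal_re,
      Complex.mul_im, Complex.I_re, Complex.I_im, Complex.ofReal_im]
    ring

lemma continuous_fromCnJEF : Continuous (fromCnJEF : Cn n → E (n + n)) := by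
  refine continuous_pi fun j => ?_
  refine Fin.addCases (fun i => ?_) (fun i => ?_) j
  · simp only [fromCnJEF, Fin.addCases_left]
    exact Complex.continuous_re.comp (continuous_apply i)
  · simp only [fromCnJEF, Fin.addCases_right]
    exact Complex.continuous_im.comp (continuous_apply i)

/-- (JEF) -/
theorem exists_pts (r : Cn n → ℝ) (x₀ : E (n + n)) (a : Cn n → Fin n → ℂ)
    (ha : ∀ᶠ x in 𝓝 (toCn x₀), ContDiffAt ℝ ∞ a x)
    (hc : ∀ᶠ x in 𝓝 (toCn x₀), ∑ i, ‖a x i‖ ^ 2 ≤ 1 / (n + 2 : ℝ))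
    (hm : ∀ m : ℕ, ∃ᶠ x in 𝓝 (toCn x₀), 0 < ∑ i, ‖a x i‖ ^ 2 ∧
      |r x| ≤ (∑ i, ‖a x i‖ ^ 2) ^ m ∧
      ∀ w : Wd, w.length ≤ m → ‖opV a w (leviV (toC r) a) x‖ ≤ (∑ i, ‖a x i‖ ^ 2) ^ m)
    (htr1 : ∀ x i, cf (fieldE a) i x = a (toCn x) i)
    (htr2 : ∀ w x, op (fieldE a) w (levL (fun x => (r (toCn x) : ℂ)) (fieldE a)) x =
      opV a w (leviV (toC r) a) (toCn x)) :
    ∃ (l : Ultrafilter ℕ) (p : ℕ → E (n + n)) (δ : ℕ → ℝ),
      PtHyp (l : Filter ℕ) (fun x => (r (toCn x) : ℂ)) x₀ (fieldE a) p δ := by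
  classical
  have hex : ∀ m : ℕ, ∃ y : Cn n, y ∈ Metric.ball (toCn x₀) (1 / ((m : ℝ) + 1)) ∧
      ∑ i, ‖a y i‖ ^ 2 ≤ 1 / (n + 2 : ℝ) ∧ 0 < ∑ i, ‖a y i‖ ^ 2 ∧
      |r y| ≤ (∑ i, ‖a y i‖ ^ 2) ^ m ∧
      ∀ w : Wd, w.length ≤ m → ‖opV a w (leviV (toC r) a) y‖ ≤ (∑ i, ‖a y i‖ ^ 2) ^ m := by
    intro m
    have hb : ∀ᶠ y in 𝓝 (toCn x₀), y ∈ Metric.ball (toCn x₀) (1 / ((m : ℝ) + 1)) :=
      Metric.ball_mem_nhds _ (by positivity)
    obtain ⟨y, h1, h2, h3⟩ := ((hm m).and_eventually (hb.and hc)).exists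
    exact ⟨y, h2, h3, h1.1, h1.2.1, h1.2.2⟩
  choose y hball hle hpos hr hw using hex
  have hle1 : ∀ m, ∑ i, ‖a (y m) i‖ ^ 2 ≤ 1 := by
    intro m
    refine (hle m).trans ?_
    rw [div_le_one (by positivity)]
    have : (0 : ℝ) ≤ n := Nat.cast_nonneg n
    linarith
  have hytend : Filter.Tendsto y Filter.atTop (𝓝 (toCn x₀)) := by
    rw [tendsto_iff_dist_tendsto_zero]
    refine squeeze_zero (fun _ => dist_nonneg) (fun m => (Metric.mem_ball.1 (hball m)).le) ?_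
    exact tendsto_one_div_add_atTop_nhds_zero_nat
  have hl : ((Filter.hyperfilter ℕ : Ultrafilter ℕ) : Filter ℕ) ≤ Filter.atTop :=
    Nat.hyperfilter_le_atTop
  have hmono : ∀ (m i : ℕ), m ≤ i → (∑ j, ‖a (y i) j‖ ^ 2) ^ i ≤ (∑ j, ‖a (y i) j‖ ^ 2) ^ m :=
    fun m i hmi => pow_le_pow_of_le_one (hpos i).le (hle1 i) hmi
  refine ⟨Filter.hyperfilter ℕ, fun m => fromCnJEF (y m), fun m => ∑ i, ‖a (y m) i‖ ^ 2, ?_⟩
  refine ⟨?_, ?_, ?_, ?_, ?_, ?_⟩
  · have h1 : Filter.Tendsto (fun m => fromCnJEF (y m)) Filter.atTop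
        (𝓝 (fromCnJEF (toCn x₀))) :=
      (continuous_fromCnJEF.tendsto _).comp hytend
    rw [fromCn_toCnJEF] at h1
    exact h1.mono_left hl
  · exact Filter.Eventually.of_forall hpos
  · refine Filter.Eventually.of_forall fun m => (hle m).trans ?_
    have : (0 : ℝ) ≤ n := Nat.cast_nonneg n
    exact one_div_le_one_div_of_le (by norm_num) (by linarith)
  · refine Filter.Eventually.of_forall fun m => ?_
    by_contra hcon
    push Not at hcon
    have hlt : ∀ j, ‖a (y m) j‖ < ∑ i, ‖a (y m) i‖ ^ 2 := by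
      intro j
      have := hcon j
      rw [htr1, toCn_fromCnJEF] at this
      exact this
    have hle2 : ∑ j, ‖a (y m) j‖ ^ 2 ≤ ∑ _j : Fin n, (∑ i, ‖a (y m) i‖ ^ 2) ^ 2 :=
      Finset.sum_le_sum fun j _ => pow_le_pow_left₀ (norm_nonneg _) (hlt j).le 2
    rw [Finset.sum_const, Finset.card_univ, Fintype.card_fin, nsmul_eq_mul] at hle2
    have h0 : (0 : ℝ) ≤ n := Nat.cast_nonneg n
    have hd := hpos m
    have hd2 := hle m
    generalize ∑ i, ‖a (y m) i‖ ^ 2 = D at hle2 hd hd2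
    have h3 : (1 : ℝ) ≤ n * D := by
      by_contra h
      push Not at h
      nlinarith
    have h4 : (n : ℝ) * D ≤ n * (1 / (n + 2 : ℝ)) := mul_le_mul_of_nonneg_left hd2 h0
    have h5 : (n : ℝ) * (1 / (n + 2 : ℝ)) < 1 := by
      rw [mul_one_div, div_lt_one (by positivity)]
      linarith
    linarith
  · intro m
    refine hl ?_
    filter_upwards [Filter.eventually_ge_atTop m] with i hi
    rw [toCn_fromCnJEF, Complex.norm_real, Real.norm_eq_abs]
    exact (hr i).trans (hmono m i hi)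
  · intro w m
    refine hl ?_
    filter_upwards [Filter.eventually_ge_atTop (max m w.length)] with i hi
    rw [htr2, toCn_fromCnJEF]
    exact (hw i w ((le_max_right _ _).trans hi)).trans (hmono m i ((le_max_left _ _).trans hi))



end KI
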