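import Pool.Agent.KI.Defs

open scoped ContDiff Topology

namespace KI

variable {n : ℕ}

/-- `Ω` is a bounded open set with smooth boundary and `r` is a smooth defining function: `r` is
smooth in a neighbourhood `U` of the closure of `Ω`, `Ω = {x ∈ U : r x < 0}`, and `dr ≠ 0` on the
boundary of `Ω`. -/
structure SmoothDefining (Ω : Set (Cn n)) (r : Cn n → ℝ) : Prop where
  bounded : Bornology.IsBounded Ω
  exists_nhd : ∃ U : Set (Cn n), IsOpen U ∧ closure Ω ⊆ U ∧ ContDiffOn ℝ ∞ r U ∧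
    Ω = {x ∈ U | r x < 0}
  dr_ne : ∀ x ∈ frontier Ω, fderiv ℝ r x ≠ 0

end KI
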