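import Pool.Agent.KI.EDefs

open scoped ContDiff Topology BigOperators
open Finset Asymptotics

namespace KI
open DAng

variable {n : ℕ} {p x₀ : E (n + n)}



/-- the real linear equivalence behind `toCn` -/
noncomputable def trTl (n : ℕ) : E (n + n) ≃ₗ[ℝ] Cn n where
  toFun := toCn
  map_add' := by
    intro x y
    funext i
    simp only [toCn, Pi.add_apply]
    push_cast
    ring
  map_smul' := by
    intro c x
    funext i
    simp only [toCn, Pi.smul_apply, smul_eq_mul, RingHom.id_apply, Complex.real_smul]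
    push_cast
    ring
  invFun := fun y j => Fin.addCases (fun i => (y i).re) (fun i => (y i).im) j
  left_inv := by
    intro x
    funext j
    refine Fin.addCases (fun i => ?_) (fun i => ?_) j
    · simp only [toCn, Fin.addCases_left]
      simp
    · simp only [toCn, Fin.addCases_right]
      rw [Complex.add_im, Complex.ofReal_im, Complex.mul_im, Complex.I_re, Complex.I_im,
        Complex.ofReal_re, Complex.ofReal_im]
      ring
  right_inv := by
    intro y
    funext i
    simp only [toCn, Fin.addCases_left, Fin.addCases_right]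
    rw [mul_comm]
    exact Complex.re_add_im (y i)

noncomputable def trT (n : ℕ) : E (n + n) ≃L[ℝ] Cn n := (trTl n).toContinuousLinearEquiv

lemma trT_apply (x : E (n + n)) : trT n x = toCn x := rfl

lemma tr_single_left (i : Fin n) :
    trT n (Pi.single (Fin.castAdd n i) 1) = (Pi.single i 1 : Cn n) := by
  rw [trT_apply]
  funext k
  simp only [toCn, Pi.single_apply]
  have h1 : (Fin.natAdd n k : Fin (n + n)) ≠ Fin.castAdd n i := by
    intro h
    have := congrArg Fin.val h
    simp at this
    omega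
  rw [if_neg h1]
  by_cases h : k = i
  · subst h
    rw [if_pos rfl, if_pos rfl]
    norm_num
  · have h2 : (Fin.castAdd n k : Fin (n + n)) ≠ Fin.castAdd n i := by
      intro h3
      exact h (Fin.castAdd_injective n n h3)
    rw [if_neg h2, if_neg h]
    norm_num

lemma tr_single_right (i : Fin n) :
    trT n (Pi.single (Fin.natAdd n i) 1) = (Pi.single i Complex.I : Cn n) := by
  rw [trT_apply]
  funext k
  simp only [toCn, Pi.single_apply]
  have h1 : (Fin.castAdd n k : Fin (n + n)) ≠ Fin.natAdd n i := by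
    intro h
    have := congrArg Fin.val h
    simp at this
    omega
  rw [if_neg h1]
  by_cases h : k = i
  · subst h
    rw [if_pos rfl, if_pos rfl]
    norm_num
  · have h2 : (Fin.natAdd n k : Fin (n + n)) ≠ Fin.natAdd n i := by
      intro h3
      apply h
      have := congrArg Fin.val h3
      simp at this
      exact Fin.ext this
    rw [if_neg h2, if_neg h]
    norm_num

lemma tr_pd (f : Cn n → ℂ) (x : E (n + n)) (j : Fin (n + n)) :
    DAng.pd j (fun x => f (toCn x)) x = fderiv ℝ f (toCn x) (trT n (Pi.single j 1)) := by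
  have h : (fun x => f (toCn x)) = f ∘ (trT n) := rfl
  unfold DAng.pd
  rw [h, ContinuousLinearEquiv.comp_right_fderiv]
  rfl

lemma tr_pd_left (f : Cn n → ℂ) (x : E (n + n)) (i : Fin n) :
    DAng.pd (Fin.castAdd n i) (fun x => f (toCn x)) x = fderiv ℝ f (toCn x) (Pi.single i 1) := by
  rw [tr_pd, tr_single_left]

lemma tr_pd_right (f : Cn n → ℂ) (x : E (n + n)) (i : Fin n) :
    DAng.pd (Fin.natAdd n i) (fun x => f (toCn x)) x =
      fderiv ℝ f (toCn x) (Pi.single i Complex.I) := by
  rw [tr_pd, tr_single_right]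

lemma tr_wd_inl (f : Cn n → ℂ) (i : Fin n) :
    wd (Sum.inl i) (fun x => f (toCn x)) = fun x => dZ i f (toCn x) := by
  funext x
  simp only [wd, dZ, tr_pd_left, tr_pd_right]

lemma tr_wd_inr (f : Cn n → ℂ) (i : Fin n) :
    wd (Sum.inr i) (fun x => f (toCn x)) = fun x => dZb i f (toCn x) := by
  funext x
  simp only [wd, dZb, tr_pd_left, tr_pd_right]

lemma tr_act (a : Cn n → Fin n → ℂ) (b : Bool) (f : Cn n → ℂ) :
    DAng.act (LX (fieldE a) b) (fun x => f (toCn x)) = fun x => LV a b f (toCn x) := by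
  funext x
  cases b
  · simp only [LX, DAng.act, DAng.cjVF, fieldE, LV]
    rw [Fin.sum_univ_add]
    simp only [Fin.addCases_left, Fin.addCases_right, tr_pd_left, tr_pd_right]
    rw [← Finset.sum_add_distrib]
    apply Finset.sum_congr rfl
    intro i _
    simp only [dZb, map_mul, map_div₀, map_neg, map_one, Complex.conj_I, map_ofNat]
    ring
  · simp only [LX, DAng.act, fieldE, LV]
    rw [Fin.sum_univ_add]
    simp only [Fin.addCases_left, Fin.addCases_right, tr_pd_left, tr_pd_right]
    rw [← Finset.sum_add_distrib]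
    apply Finset.sum_congr rfl
    intro i _
    simp only [dZ]
    ring

lemma tr_op (a : Cn n → Fin n → ℂ) : ∀ (w : Wd) (f : Cn n → ℂ),
    DAng.op (fieldE a) w (fun x => f (toCn x)) = fun x => opV a w f (toCn x)
  | [], _ => rfl
  | b :: w, f => by
    simp only [DAng.op, opV]
    rw [tr_act, tr_op a w]

lemma tr_cf (a : Cn n → Fin n → ℂ) (x : E (n + n)) (i : Fin n) :
    cf (fieldE a) i x = a (toCn x) i := by
  simp only [cf, fieldE, Fin.addCases_left, Fin.addCases_right]
  linear_combination (-(1 / 2 : ℂ) * a (toCn x) i) * Complex.I_mul_I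

lemma tr_levL (a : Cn n → Fin n → ℂ) (f : Cn n → ℂ) :
    levL (fun x => f (toCn x)) (fieldE a) = fun x => leviV f a (toCn x) := by
  funext x
  simp only [levL, lev, leviV, tr_cf, tr_wd_inr, tr_wd_inl]

lemma tr_toC_fderiv (r : Cn n → ℝ) (y : Cn n) (hr : DifferentiableAt ℝ r y) (v : Cn n) :
    fderiv ℝ (toC r) y v = ((fderiv ℝ r y v : ℝ) : ℂ) := by
  have h1 : HasFDerivAt (toC r) (Complex.ofRealCLM.comp (fderiv ℝ r y)) y :=
    (Complex.ofRealCLM.hasFDerivAt).comp y hr.hasFDerivAt
  rw [h1.fderiv]
  rfl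

lemma tr_cont : Continuous (toCn : E (n + n) → Cn n) := (trT n).continuous

/-- translation from `ℂⁿ` to `ℝ^{2n}` (JEE) -/
theorem translate (r : Cn n → ℝ) (x₀ : E (n + n)) (hr : ∀ᶠ x in 𝓝 (toCn x₀), ContDiffAt ℝ ∞ r x)
    (h0 : r (toCn x₀) = 0) (hd : fderiv ℝ r (toCn x₀) ≠ 0)
    (psc : ∀ᶠ x in 𝓝 (toCn x₀), r x = 0 → LeviNonneg r x)
    (a : Cn n → Fin n → ℂ) (ha : ∀ᶠ x in 𝓝 (toCn x₀), ContDiffAt ℝ ∞ a x)
    (ht : ∀ᶠ x in 𝓝 (toCn x₀), ∑ i, a x i * dZ i (toC r) x = 0) :
    DefFn (fun x => (r (toCn x) : ℂ)) x₀ ∧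
    FieldHyp (fun x => (r (toCn x) : ℂ)) x₀ (fieldE a) ∧
    (∀ x i, cf (fieldE a) i x = a (toCn x) i) ∧
    (∀ w x, op (fieldE a) w (levL (fun x => (r (toCn x) : ℂ)) (fieldE a)) x =
      opV a w (leviV (toC r) a) (toCn x)) := by
  have hfun : (fun x : E (n + n) => (r (toCn x) : ℂ)) = fun x => toC r (toCn x) := rfl
  have hcd : ∀ x : E (n + n), ContDiffAt ℝ ∞ (toCn : E (n + n) → Cn n) x := fun x =>
    (trT n).contDiff.contDiffAt
  refine ⟨⟨?_, ?_, ?_, ?_, ?_⟩, ⟨?_, ?_, ?_⟩, fun x i => tr_cf a x i, ?_⟩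
  · have h1 := ((tr_cont (n := n)).continuousAt (x := x₀)).eventually hr
    filter_upwards [h1] with x hx
    have h2 : ContDiffAt ℝ ∞ (fun x : E (n + n) => r (toCn x)) x :=
      ContDiffAt.comp x hx (hcd x)
    exact (Complex.ofRealCLM.contDiff.contDiffAt).comp x h2
  · exact Filter.Eventually.of_forall fun x => Complex.conj_ofReal _
  · show ((r (toCn x₀) : ℝ) : ℂ) = 0
    rw [h0]
    rfl
  · by_contra hcon
    push Not at hcon
    apply hd
    have hdiff : DifferentiableAt ℝ r (toCn x₀) := hr.self_of_nhds.differentiableAt (by simp)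
    have hz : ∀ i : Fin n, fderiv ℝ r (toCn x₀) (Pi.single i 1) = 0 ∧
        fderiv ℝ r (toCn x₀) (Pi.single i Complex.I) = 0 := by
      intro i
      have h1 := hcon i
      rw [hfun, tr_wd_inl] at h1
      simp only [dZ] at h1
      rw [tr_toC_fderiv r _ hdiff, tr_toC_fderiv r _ hdiff] at h1
      have h2 : ((fderiv ℝ r (toCn x₀) (Pi.single i 1) : ℝ) : ℂ) -
          Complex.I * ((fderiv ℝ r (toCn x₀) (Pi.single i Complex.I) : ℝ) : ℂ) = 0 := by
        rcases mul_eq_zero.1 h1 with h | h
        · norm_num at h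
        · exact h
      have h3 := congrArg Complex.re h2
      have h4 := congrArg Complex.im h2
      simp at h3 h4
      exact ⟨h3, h4⟩
    ext v
    have hv : v = ∑ i, ((v i).re • (Pi.single i 1 : Cn n) + (v i).im • (Pi.single i Complex.I : Cn n)) := by
      funext k
      rw [Finset.sum_apply, Finset.sum_eq_single k]
      · simp [Complex.re_add_im]
      · intro b _ hb
        simp [Pi.single_apply, hb, Ne.symm hb]
      · intro h
        exact absurd (Finset.mem_univ k) h
    rw [hv, map_sum]
    apply Finset.sum_eq_zero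
    intro i _
    rw [map_add, map_smul, map_smul, (hz i).1, (hz i).2]
    simp
  · have h1 := ((tr_cont (n := n)).continuousAt (x := x₀)).eventually psc
    filter_upwards [h1] with x hx hrx v hv
    have hrx' : r (toCn x) = 0 := by exact_mod_cast hrx
    have h2 := hx hrx' v
    simp only [delv] at hv
    rw [hfun] at hv
    simp only [tr_wd_inl] at hv
    have h3 := h2 hv
    simp only [lev]
    rw [hfun]
    simp only [tr_wd_inr, tr_wd_inl]
    exact h3
  · apply Sm.of_apply
    have h1 := ((tr_cont (n := n)).continuousAt (x := x₀)).eventually ha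
    have h2 : ∀ i : Fin n, Sm x₀ (fun x => a (toCn x) i) := by
      intro i
      filter_upwards [h1] with x hx
      have h3 : ContDiffAt ℝ ∞ (fun x : E (n + n) => a (toCn x)) x := ContDiffAt.comp x hx (hcd x)
      exact (contDiffAt_pi.1 h3) i
    intro j
    refine Fin.addCases (fun i => ?_) (fun i => ?_) j
    · simp only [fieldE, Fin.addCases_left]
      exact (Sm.const _).mul (h2 i)
    · simp only [fieldE, Fin.addCases_right]
      exact (Sm.const _).mul (h2 i)
  · intro x i
    simp only [fieldE, Fin.addCases_left, Fin.addCases_right]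
    linear_combination ((1 / 2 : ℂ) * a (toCn x) i) * Complex.I_mul_I
  · have h1 := ((tr_cont (n := n)).continuousAt (x := x₀)).eventually ht
    filter_upwards [h1] with x hx
    have h2 := congrFun (tr_act a true (toC r)) x
    exact h2.trans hx
  · intro w x
    have h1 := tr_levL a (toC r)
    have h2 : levL (fun x => (r (toCn x) : ℂ)) (fieldE a) = fun x => leviV (toC r) a (toCn x) := h1
    rw [h2, tr_op a w (leviV (toC r) a)]

theorem toCn_surj (n : ℕ) (y : Cn n) : ∃ x : E (n + n), toCn x = y :=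
  ⟨(trT n).symm y, (trT n).apply_symm_apply y⟩



end KI
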