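import Pool.Agent.KI.PartB
import Pool.Agent.KI.AllFlat
import Pool.Agent.KI.ExW
import Pool.Agent.KI.Curve
import Pool.Agent.KI.NotFT
import Pool.Agent.KI.Transl
import Pool.Agent.KI.Pts
import Pool.Agent.KI.SDef

open scoped ContDiff Topology BigOperators
open Finset Asymptotics

namespace KI
open DAng (E)

variable {n : ℕ}

/-- the local theorem -/
theorem kohn_local (r : Cn n → ℝ) (x₀ : Cn n) (hr : ∀ᶠ x in 𝓝 x₀, ContDiffAt ℝ ∞ r x)
    (h0 : r x₀ = 0) (hd : fderiv ℝ r x₀ ≠ 0) (psc : ∀ᶠ x in 𝓝 x₀, r x = 0 → LeviNonneg r x)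
    (ft : FiniteDAngeloType r x₀) : FiniteKohnType r x₀ := by
  by_contra hK
  obtain ⟨x₁, rfl⟩ := toCn_surj n x₀
  obtain ⟨a, ha, ht, hc, hm⟩ := partB r hr hd hK (1 / (n + 2 : ℝ)) (by positivity)
  obtain ⟨t1, t2, t3, t4⟩ := translate r x₁ hr h0 hd psc a ha ht
  obtain ⟨l, p, δ, hp⟩ := exists_pts r x₁ a ha hc hm t3 t4
  have flat := fun N u v huv m => all_flat l t1 t2 p δ hp N u v huv m
  obtain ⟨W, w1, w2, w3⟩ := exists_W l t1 t2 p δ hp flat
  obtain ⟨γ, g1, g2, g3⟩ := exists_curve W w1 w2 w3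
  exact not_finite_type r x₁ hr γ g1 g2 g3 ft

/-- the main theorem -/
theorem kohn_global (Ω : Set (Cn n)) (r : Cn n → ℝ) (hΩ : SmoothDefining Ω r)
    (psc : ∀ x ∈ frontier Ω, LeviNonneg r x) (ft : ∀ x ∈ frontier Ω, FiniteDAngeloType r x) :
    ∀ x ∈ frontier Ω, FiniteKohnType r x := by
  intro x₀ hx₀
  obtain ⟨U, hU, hcl, hsm, hdef⟩ := hΩ.exists_nhd
  have hxU : x₀ ∈ U := hcl hx₀.1
  have hopen : IsOpen Ω := by
    rw [hdef]
    have hc : ContinuousOn r U := hsm.continuousOn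
    have := hc.isOpen_inter_preimage hU isOpen_Iio (t := Set.Iio (0 : ℝ))
    exact this
  have hr : ∀ᶠ x in 𝓝 x₀, ContDiffAt ℝ ∞ r x := by
    filter_upwards [hU.mem_nhds hxU] with x hx
    exact hsm.contDiffAt (hU.mem_nhds hx)
  have hle : 0 ≤ r x₀ := by
    have hxn : x₀ ∉ Ω := by
      have := hx₀.2
      rwa [hopen.interior_eq] at this
    by_contra h
    push Not at h
    apply hxn
    rw [hdef]
    exact ⟨hxU, h⟩
  have hge : r x₀ ≤ 0 := by
    have hcont : ContinuousAt r x₀ := (hr.self_of_nhds).continuousAt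
    have hmem : x₀ ∈ closure Ω := hx₀.1
    by_contra h
    push Not at h
    have h1 : ∀ᶠ x in 𝓝 x₀, 0 < r x := hcont.eventually (lt_mem_nhds h)
    obtain ⟨y, hy1, hy2⟩ := mem_closure_iff_nhds.1 hmem _ h1
    rw [hdef] at hy2
    exact absurd hy1 (not_lt.2 hy2.2.le)
  have h0 : r x₀ = 0 := le_antisymm hge hle
  have hd := hΩ.dr_ne x₀ hx₀
  refine kohn_local r x₀ hr h0 hd ?_ (ft x₀ hx₀)
  have hfc : ContinuousAt (fderiv ℝ r) x₀ :=
    ((hr.self_of_nhds).fderiv_right (m := 0) (by simp)).continuousAt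
  have hfn : ∀ᶠ x in 𝓝 x₀, fderiv ℝ r x ≠ 0 := hfc.eventually_ne hd
  filter_upwards [hr, hfn, hU.mem_nhds hxU] with x hx hx2 hxU' hx0
  refine psc x ?_
  rw [frontier, hopen.interior_eq]
  refine ⟨?_, ?_⟩
  · -- `x` is in the closure
    obtain ⟨v, hv⟩ : ∃ v, fderiv ℝ r x v < 0 := by
      obtain ⟨v, hv⟩ : ∃ v, fderiv ℝ r x v ≠ 0 := by
        by_contra h
        push Not at h
        exact hx2 (ContinuousLinearMap.ext h)
      rcases lt_or_gt_of_ne hv with h | h
      · exact ⟨v, h⟩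
      · exact ⟨-v, by rw [map_neg]; linarith⟩
    have hdiff : HasFDerivAt r (fderiv ℝ r x) x := (hx.differentiableAt (by simp)).hasFDerivAt
    have hline : HasDerivAt (fun t : ℝ => r (x + t • v)) (fderiv ℝ r x v) 0 := by
      have h1 : HasDerivAt (fun t : ℝ => x + t • v) v 0 := by
        have := ((hasDerivAt_id (0 : ℝ)).smul_const v).const_add x
        simpa using this
      have h2 : HasFDerivAt r (fderiv ℝ r x) (x + (0 : ℝ) • v) := by simpa using hdiff
      exact h2.comp_hasDerivAt 0 h1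
    have hneg : ∀ᶠ t in 𝓝[>] (0 : ℝ), r (x + t • v) < 0 := by
      have h3 := (hasDerivAt_iff_tendsto_slope_zero.1 hline)
      have h4 : ∀ᶠ t in 𝓝[≠] (0 : ℝ), t⁻¹ • (r (x + (0 + t) • v) - r (x + (0 : ℝ) • v)) < 0 :=
        h3.eventually (gt_mem_nhds hv)
      have h5 : ∀ᶠ t in 𝓝[>] (0 : ℝ), t⁻¹ • (r (x + (0 + t) • v) - r (x + (0 : ℝ) • v)) < 0 :=
        h4.filter_mono (nhdsWithin_mono _ (by intro t ht; exact ne_of_gt ht))
      filter_upwards [h5, self_mem_nhdsWithin] with t ht ht0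
      have ht0' : (0 : ℝ) < t := ht0
      simp only [zero_add, zero_smul, add_zero, hx0, sub_zero, smul_eq_mul] at ht
      have := (mul_neg_iff.1 ht)
      rcases this with h | h
      · exact h.2
      · exact absurd h.1 (not_lt.2 (inv_nonneg.2 ht0'.le))
    rw [mem_closure_iff_frequently]
    have htend : Filter.Tendsto (fun t : ℝ => x + t • v) (𝓝[>] 0) (𝓝 x) := by
      have : Continuous fun t : ℝ => x + t • v := by fun_prop
      have h6 := this.tendsto 0
      simp only [zero_smul, add_zero] at h6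
      exact h6.mono_left nhdsWithin_le_nhds
    refine htend.frequently ?_
    have h7 : ∀ᶠ t in 𝓝[>] (0 : ℝ), x + t • v ∈ U := htend.eventually (hU.mem_nhds hxU')
    refine (hneg.and h7).frequently.mono ?_
    intro t ht
    rw [hdef]
    exact ⟨ht.2, ht.1⟩
  · intro h
    rw [hdef] at h
    exact absurd h.2 (by rw [hx0]; exact lt_irrefl 0)

end KI
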