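import Pool.Agent.KI.BDefs

open scoped ContDiff Topology BigOperators
open Finset Asymptotics

namespace KI
open DAng (Wd)

variable {n : ℕ} {x₀ : Cn n}




theorem kisel_dZ_smul (t : ℝ) (i : Fin n) (f : Cn n → ℂ) :
    dZ i (t • f) = t • dZ i f := by
  funext x
  have h : fderiv ℝ (t • f) = t • fderiv ℝ f := fderiv_const_smul_field t
  simp only [dZ, h, Pi.smul_apply, _root_.smul_apply, Complex.real_smul]
  ring

theorem kisel_dZb_smul (t : ℝ) (i : Fin n) (f : Cn n → ℂ) :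
    dZb i (t • f) = t • dZb i f := by
  funext x
  have h : fderiv ℝ (t • f) = t • fderiv ℝ f := fderiv_const_smul_field t
  simp only [dZb, h, Pi.smul_apply, _root_.smul_apply, Complex.real_smul]
  ring

theorem kisel_LV_smul (t : ℝ) (b : Cn n → Fin n → ℂ) (β : Bool) (f : Cn n → ℂ) :
    LV b β (t • f) = t • LV b β f := by
  funext x
  cases β
  · simp only [LV, kisel_dZb_smul, Pi.smul_apply, Complex.real_smul, Finset.mul_sum]
    refine Finset.sum_congr rfl fun i _ => ?_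
    ring
  · simp only [LV, kisel_dZ_smul, Pi.smul_apply, Complex.real_smul, Finset.mul_sum]
    refine Finset.sum_congr rfl fun i _ => ?_
    ring

theorem kisel_LV_smul_left (t : ℝ) (b : Cn n → Fin n → ℂ) (β : Bool) (f : Cn n → ℂ) :
    LV (fun x i => (t : ℂ) * b x i) β f = t • LV b β f := by
  funext x
  cases β
  · simp only [LV, Pi.smul_apply, Complex.real_smul, Finset.mul_sum, map_mul, Complex.conj_ofReal]
    refine Finset.sum_congr rfl fun i _ => ?_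
    ring
  · simp only [LV, Pi.smul_apply, Complex.real_smul, Finset.mul_sum]
    refine Finset.sum_congr rfl fun i _ => ?_
    ring

theorem kisel_opV_smul_left (t : ℝ) (b : Cn n → Fin n → ℂ) (w : Wd) :
    ∀ (k : ℕ) (f : Cn n → ℂ), opV (fun x i => (t : ℂ) * b x i) w (t ^ k • f) =
      t ^ (w.length + k) • opV b w f := by
  induction w with
  | nil => intro k f; simp [opV]
  | cons β w ih =>
    intro k f
    have h : LV (fun x i => (t : ℂ) * b x i) β (t ^ k • f) = t ^ (k + 1) • LV b β f := by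
      rw [kisel_LV_smul_left, kisel_LV_smul, smul_smul]
      congr 1
      ring
    simp only [opV, h, ih]
    congr 1
    rw [List.length_cons]
    ring

theorem kisel_levi (t : ℝ) (b : Cn n → Fin n → ℂ) (r : Cn n → ℂ) :
    leviV r (fun x i => (t : ℂ) * b x i) = t ^ 2 • leviV r b := by
  funext x
  simp only [leviV, Pi.smul_apply, Complex.real_smul, Finset.mul_sum, map_mul, Complex.conj_ofReal]
  refine Finset.sum_congr rfl fun i _ => Finset.sum_congr rfl fun j _ => ?_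
  push_cast
  ring

theorem kisel_sm_dZ {f : Cn n → ℂ} (hf : f ∈ SmR x₀) (i : Fin n) : dZ i f ∈ SmR x₀ := by
  have hf' : ∀ᶠ x in 𝓝 x₀, ContDiffAt ℝ ∞ f x := hf
  change ∀ᶠ x in 𝓝 x₀, ContDiffAt ℝ ∞ (dZ i f) x
  filter_upwards [hf'] with x hx
  have h1 : ContDiffAt ℝ ∞ (fderiv ℝ f) x := hx.fderiv_right (m := ∞) (by simp)
  have h2 : ∀ v : Cn n, ContDiffAt ℝ ∞ (fun y => fderiv ℝ f y v) x := fun v =>
    h1.clm_apply contDiffAt_const
  exact contDiffAt_const.mul ((h2 _).sub (contDiffAt_const.mul (h2 _)))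

theorem kisel_sm_dZb {f : Cn n → ℂ} (hf : f ∈ SmR x₀) (i : Fin n) : dZb i f ∈ SmR x₀ := by
  have hf' : ∀ᶠ x in 𝓝 x₀, ContDiffAt ℝ ∞ f x := hf
  change ∀ᶠ x in 𝓝 x₀, ContDiffAt ℝ ∞ (dZb i f) x
  filter_upwards [hf'] with x hx
  have h1 : ContDiffAt ℝ ∞ (fderiv ℝ f) x := hx.fderiv_right (m := ∞) (by simp)
  have h2 : ∀ v : Cn n, ContDiffAt ℝ ∞ (fun y => fderiv ℝ f y v) x := fun v =>
    h1.clm_apply contDiffAt_const
  exact contDiffAt_const.mul ((h2 _).add (contDiffAt_const.mul (h2 _)))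

theorem kisel_sm_conj {f : Cn n → ℂ} (hf : f ∈ SmR x₀) :
    (fun x => (starRingEnd ℂ) (f x)) ∈ SmR x₀ := by
  have hf' : ∀ᶠ x in 𝓝 x₀, ContDiffAt ℝ ∞ f x := hf
  change ∀ᶠ x in 𝓝 x₀, ContDiffAt ℝ ∞ (fun x => (starRingEnd ℂ) (f x)) x
  filter_upwards [hf'] with x hx
  exact (Complex.conjCLE.contDiff.contDiffAt (x := f x)).comp x hx

theorem kisel_sm_comp {b : Cn n → Fin n → ℂ} (hb : ∀ᶠ x in 𝓝 x₀, ContDiffAt ℝ ∞ b x) (i : Fin n) :
    (fun x => b x i) ∈ SmR x₀ := by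
  change ∀ᶠ x in 𝓝 x₀, ContDiffAt ℝ ∞ (fun x => b x i) x
  filter_upwards [hb] with x hx
  exact contDiffAt_pi.mp hx i

theorem kisel_sm_sum {ι : Type*} (s : Finset ι) (f : ι → Cn n → ℂ) (hf : ∀ i ∈ s, f i ∈ SmR x₀) :
    (fun x => ∑ i ∈ s, f i x) ∈ SmR x₀ := by
  have h : (∑ i ∈ s, f i) ∈ SmR x₀ := Subring.sum_mem _ hf
  have e : (∑ i ∈ s, f i) = (fun x => ∑ i ∈ s, f i x) := by
    funext x; simp
  rwa [e] at h

theorem kisel_sm_mul {f g : Cn n → ℂ} (hf : f ∈ SmR x₀) (hg : g ∈ SmR x₀) :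
    (fun x => f x * g x) ∈ SmR x₀ := (SmR x₀).mul_mem hf hg

theorem kisel_sm_LV {b : Cn n → Fin n → ℂ} (hb : ∀ᶠ x in 𝓝 x₀, ContDiffAt ℝ ∞ b x) (β : Bool)
    {f : Cn n → ℂ} (hf : f ∈ SmR x₀) : LV b β f ∈ SmR x₀ := by
  cases β
  · exact kisel_sm_sum _ _ fun i _ => kisel_sm_mul (kisel_sm_conj (kisel_sm_comp hb i))
      (kisel_sm_dZb hf i)
  · exact kisel_sm_sum _ _ fun i _ => kisel_sm_mul (kisel_sm_comp hb i) (kisel_sm_dZ hf i)

theorem kisel_sm_opV {b : Cn n → Fin n → ℂ} (hb : ∀ᶠ x in 𝓝 x₀, ContDiffAt ℝ ∞ b x) (w : Wd) :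
    ∀ {f : Cn n → ℂ}, f ∈ SmR x₀ → opV b w f ∈ SmR x₀ := by
  induction w with
  | nil => intro f hf; exact hf
  | cons β w ih => intro f hf; exact ih (kisel_sm_LV hb β hf)

theorem kisel_sm_toC {r : Cn n → ℝ} (hr : ∀ᶠ x in 𝓝 x₀, ContDiffAt ℝ ∞ r x) :
    toC r ∈ SmR x₀ := by
  change ∀ᶠ x in 𝓝 x₀, ContDiffAt ℝ ∞ (toC r) x
  filter_upwards [hr] with x hx
  exact (Complex.ofRealCLM.contDiff.contDiffAt (x := r x)).comp x hx

theorem kisel_sm_levi {b : Cn n → Fin n → ℂ} (hb : ∀ᶠ x in 𝓝 x₀, ContDiffAt ℝ ∞ b x)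
    {r : Cn n → ℂ} (hr : r ∈ SmR x₀) : leviV r b ∈ SmR x₀ :=
  kisel_sm_sum _ _ fun i _ => kisel_sm_sum _ _ fun j _ =>
    kisel_sm_mul (kisel_sm_mul (kisel_sm_dZ (kisel_sm_dZb hr j) i) (kisel_sm_comp hb i))
      (kisel_sm_conj (kisel_sm_comp hb j))

theorem kisel_sm_norm {b : Cn n → Fin n → ℂ} (hb : ∀ᶠ x in 𝓝 x₀, ContDiffAt ℝ ∞ b x) :
    (fun x => ((∑ i, ‖b x i‖ ^ 2 : ℝ) : ℂ)) ∈ SmR x₀ := by
  have h : (fun x => ∑ i, b x i * (starRingEnd ℂ) (b x i)) ∈ SmR x₀ :=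
    kisel_sm_sum _ _ fun i _ => kisel_sm_mul (kisel_sm_comp hb i)
      (kisel_sm_conj (kisel_sm_comp hb i))
  have e : (fun x => ∑ i, b x i * (starRingEnd ℂ) (b x i)) =
      (fun x => ((∑ i, ‖b x i‖ ^ 2 : ℝ) : ℂ)) := by
    funext x
    rw [Complex.ofReal_sum]
    refine Finset.sum_congr rfl fun i _ => ?_
    rw [Complex.mul_conj, Complex.normSq_eq_norm_sq]
  rwa [e] at h

/-- JKG -/
theorem select (r : Cn n → ℝ) (hr : ∀ᶠ x in 𝓝 x₀, ContDiffAt ℝ ∞ r x)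
    (P : Ideal (SmR x₀)) [P.IsPrime] (hP : KUnion r P)
    (b : Cn n → Fin n → ℂ) (hb : ∀ᶠ x in 𝓝 x₀, ContDiffAt ℝ ∞ b x)
    (hb1 : ∀ᶠ x in 𝓝 x₀, ∑ i, b x i * dZ i (toC r) x = 0)
    (hb2 : ∀ g : SmR x₀, (g : Cn n → ℂ) = (fun x => ((∑ i, ‖b x i‖ ^ 2 : ℝ) : ℂ)) → g ∉ P)
    (hb3 : ∀ w : Wd, ∀ g : SmR x₀, (g : Cn n → ℂ) = opV b w (leviV (toC r) b) → g ∈ P)
    (c : ℝ) (hc : 0 < c) :
    ∃ a : Cn n → Fin n → ℂ, (∀ᶠ x in 𝓝 x₀, ContDiffAt ℝ ∞ a x) ∧
      (∀ᶠ x in 𝓝 x₀, ∑ i, a x i * dZ i (toC r) x = 0) ∧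
      (∀ᶠ x in 𝓝 x₀, ∑ i, ‖a x i‖ ^ 2 ≤ c) ∧
      ∀ m : ℕ, ∃ᶠ x in 𝓝 x₀, 0 < ∑ i, ‖a x i‖ ^ 2 ∧ |r x| ≤ (∑ i, ‖a x i‖ ^ 2) ^ m ∧
        ∀ w : Wd, w.length ≤ m → ‖opV a w (leviV (toC r) a) x‖ ≤ (∑ i, ‖a x i‖ ^ 2) ^ m := by
  -- the function A
  set A : Cn n → ℝ := fun x => ∑ i, ‖b x i‖ ^ 2 with hA
  have hA0 : ∀ x, 0 ≤ A x := fun x => Finset.sum_nonneg fun i _ => by positivity
  have hcb : ContinuousAt b x₀ := hb.self_of_nhds.continuousAt
  have hcA : ContinuousAt A x₀ := by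
    have h1 : ∀ i, ContinuousAt (fun x => b x i) x₀ := fun i =>
      (continuous_apply i).continuousAt.comp hcb
    exact tendsto_finsetSum _ fun i _ => ((h1 i).norm.pow 2)
  have hAev : ∀ᶠ x in 𝓝 x₀, A x < A x₀ + 1 := hcA.eventually_lt continuousAt_const (by simp)
  -- choice of t
  obtain ⟨t, ht0, ht1, htc⟩ : ∃ t : ℝ, 0 < t ∧ t ≤ 1 ∧ t ^ 2 * (A x₀ + 1) ≤ min c 1 := by
    have hB : 0 < A x₀ + 1 := by have := hA0 x₀; linarith
    have hm : 0 < min c 1 := lt_min hc one_pos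
    have hq : 0 < min c 1 / (A x₀ + 1) := div_pos hm hB
    refine ⟨min 1 (min c 1 / (A x₀ + 1)), lt_min one_pos hq, min_le_left _ _, ?_⟩
    have h0 : 0 < min 1 (min c 1 / (A x₀ + 1)) := lt_min one_pos hq
    have h1 : min 1 (min c 1 / (A x₀ + 1)) ^ 2 ≤ min c 1 / (A x₀ + 1) := by
      calc min 1 (min c 1 / (A x₀ + 1)) ^ 2
          = min 1 (min c 1 / (A x₀ + 1)) * min 1 (min c 1 / (A x₀ + 1)) := by ring
        _ ≤ 1 * min 1 (min c 1 / (A x₀ + 1)) := by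
            apply mul_le_mul_of_nonneg_right (min_le_left _ _) h0.le
        _ ≤ 1 * (min c 1 / (A x₀ + 1)) := by
            apply mul_le_mul_of_nonneg_left (min_le_right _ _) zero_le_one
        _ = _ := one_mul _
    calc _ ≤ min c 1 / (A x₀ + 1) * (A x₀ + 1) := mul_le_mul_of_nonneg_right h1 hB.le
      _ = min c 1 := by field_simp
  have hAa : ∀ x, ∑ i, ‖(t : ℂ) * b x i‖ ^ 2 = t ^ 2 * A x := by
    intro x
    rw [hA, Finset.mul_sum]
    refine Finset.sum_congr rfl fun i _ => ?_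
    rw [norm_mul, Complex.norm_real, Real.norm_eq_abs, mul_pow, sq_abs]
  have hsmall : ∀ᶠ x in 𝓝 x₀, t ^ 2 * A x ≤ min c 1 := by
    filter_upwards [hAev] with x hx
    exact (mul_le_mul_of_nonneg_left hx.le (by positivity)).trans htc
  have hlevi := kisel_levi t b (toC r)
  have hop : ∀ w : Wd, opV (fun x i => (t : ℂ) * b x i) w
      (leviV (toC r) (fun x i => (t : ℂ) * b x i)) =
      t ^ (w.length + 2) • opV b w (leviV (toC r) b) := by
    intro w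
    rw [hlevi, kisel_opV_smul_left]
  refine ⟨fun x i => (t : ℂ) * b x i, ?_, ?_, ?_, ?_⟩
  · filter_upwards [hb] with x hx
    exact contDiffAt_pi.mpr fun i => contDiffAt_const.mul (contDiffAt_pi.mp hx i)
  · filter_upwards [hb1] with x hx
    have : ∑ i, (t : ℂ) * b x i * dZ i (toC r) x = (t : ℂ) * ∑ i, b x i * dZ i (toC r) x := by
      rw [Finset.mul_sum]
      refine Finset.sum_congr rfl fun i _ => ?_
      ring
    rw [this, hx, mul_zero]
  · filter_upwards [hsmall] with x hx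
    rw [hAa]
    exact hx.trans (min_le_left _ _)
  · -- main claim
    have key : ∀ m : ℕ, ∃ᶠ x in 𝓝 x₀, 0 < t ^ 2 * A x ∧ |r x| ≤ (t ^ 2 * A x) ^ (m + 1) ∧
        ∀ w : Wd, w.length ≤ m + 1 →
          ‖opV b w (leviV (toC r) b) x‖ ≤ (t ^ 2 * A x) ^ (m + 1) := by
      intro m
      by_contra hcon
      rw [Filter.not_frequently] at hcon
      set M := m + 1 with hM
      set S : Finset Wd := (List.finite_length_le Bool M).toFinset with hS
      have hSm : ∀ w : Wd, w ∈ S ↔ w.length ≤ M := by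
        intro w; simp [hS]
      have hrS : toC r ∈ SmR x₀ := kisel_sm_toC hr
      have hwS : ∀ w : Wd, opV b w (leviV (toC r) b) ∈ SmR x₀ := fun w =>
        kisel_sm_opV hb w (kisel_sm_levi hb hrS)
      let gr : SmR x₀ := ⟨toC r, hrS⟩
      let grc : SmR x₀ := ⟨fun x => (starRingEnd ℂ) (toC r x), kisel_sm_conj hrS⟩
      let gw : Wd → SmR x₀ := fun w => ⟨opV b w (leviV (toC r) b), hwS w⟩
      let gwc : Wd → SmR x₀ := fun w =>
        ⟨fun x => (starRingEnd ℂ) (opV b w (leviV (toC r) b) x), kisel_sm_conj (hwS w)⟩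
      have hgr : gr ∈ P := hP.memr gr rfl
      have hgw : ∀ w, gw w ∈ P := fun w => hb3 w (gw w) rfl
      let K : ℝ := (t⁻¹) ^ (4 * M)
      let gK : SmR x₀ := ⟨fun _ => (K : ℂ), Filter.Eventually.of_forall fun _ => contDiffAt_const⟩
      let F : SmR x₀ := gK * (gr * grc + ∑ w ∈ S, gw w * gwc w)
      have hF : F ∈ P := by
        refine P.mul_mem_left _ (P.add_mem (P.mul_mem_right _ hgr) ?_)
        exact P.sum_mem fun w _ => P.mul_mem_right _ (hgw w)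
      have hFx : ∀ x, (F : Cn n → ℂ) x =
          ((K * (|r x| ^ 2 + ∑ w ∈ S, ‖opV b w (leviV (toC r) b) x‖ ^ 2) : ℝ) : ℂ) := by
        intro x
        have e1 : (F : Cn n → ℂ) = fun x => (K : ℂ) * (toC r x * (starRingEnd ℂ) (toC r x) +
            ∑ w ∈ S, opV b w (leviV (toC r) b) x *
              (starRingEnd ℂ) (opV b w (leviV (toC r) b) x)) := by
          funext y
          simp only [F, gK, gr, grc, gw, gwc, Subring.coe_mul, Subring.coe_add,
            Pi.mul_apply, Pi.add_apply, Finset.sum_apply,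
            AddSubmonoidClass.coe_finsetSum]
        rw [e1]
        simp only [Complex.mul_conj, Complex.normSq_eq_norm_sq]
        have e2 : ‖toC r x‖ = |r x| := by
          simp only [toC, Complex.norm_real, Real.norm_eq_abs]
        rw [e2]
        push_cast
        ring
      let gA : SmR x₀ := ⟨fun x => ((∑ i, ‖b x i‖ ^ 2 : ℝ) : ℂ), kisel_sm_norm hb⟩
      refine hb2 gA rfl (hP.rad F hF gA (2 * M) (by omega) ?_)
      have hK0 : 0 < K := by positivity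
      filter_upwards [hcon] with x hx
      have hgA : ‖(gA : Cn n → ℂ) x‖ = A x := by
        change ‖((∑ i, ‖b x i‖ ^ 2 : ℝ) : ℂ)‖ = A x
        rw [Complex.norm_real, Real.norm_eq_abs]
        exact abs_of_nonneg (hA0 x)
      have hsum0 : 0 ≤ ∑ w ∈ S, ‖opV b w (leviV (toC r) b) x‖ ^ 2 :=
        Finset.sum_nonneg fun w _ => by positivity
      have hFn : ‖(F : Cn n → ℂ) x‖ =
          K * (|r x| ^ 2 + ∑ w ∈ S, ‖opV b w (leviV (toC r) b) x‖ ^ 2) := by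
        rw [hFx, Complex.norm_real, Real.norm_eq_abs]
        refine abs_of_nonneg (by positivity)
      rw [hgA, hFn]
      -- A^(2M) = K * ((t^2 A)^M)^2
      have hAK : A x ^ (2 * M) = K * ((t ^ 2 * A x) ^ M) ^ 2 := by
        have : K * ((t ^ 2 * A x) ^ M) ^ 2 = (t⁻¹ * t) ^ (4 * M) * A x ^ (2 * M) := by
          simp only [K]
          rw [mul_pow, mul_pow, ← pow_mul, ← pow_mul, ← pow_mul, mul_pow]
          have e4 : 2 * (M * 2) = 4 * M := by ring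
          have e5 : M * 2 = 2 * M := by ring
          rw [e4, e5]
          ring
        rw [this, inv_mul_cancel₀ ht0.ne', one_pow, one_mul]
      rw [hAK]
      refine mul_le_mul_of_nonneg_left ?_ hK0.le
      have hz : 0 ≤ (t ^ 2 * A x) ^ M := pow_nonneg (mul_nonneg (by positivity) (hA0 x)) _
      by_cases h1 : 0 < t ^ 2 * A x
      · by_cases h2 : |r x| ≤ (t ^ 2 * A x) ^ M
        · have h3 : ¬ ∀ w : Wd, w.length ≤ M →
              ‖opV b w (leviV (toC r) b) x‖ ≤ (t ^ 2 * A x) ^ M := fun h => hx ⟨h1, h2, h⟩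
          push Not at h3
          obtain ⟨w, hwM, hw⟩ := h3
          have h4 : ((t ^ 2 * A x) ^ M) ^ 2 ≤ ‖opV b w (leviV (toC r) b) x‖ ^ 2 :=
            pow_le_pow_left₀ hz hw.le 2
          have h5 : ‖opV b w (leviV (toC r) b) x‖ ^ 2 ≤
              ∑ w ∈ S, ‖opV b w (leviV (toC r) b) x‖ ^ 2 :=
            Finset.single_le_sum (f := fun w => ‖opV b w (leviV (toC r) b) x‖ ^ 2)
              (fun i _ => by positivity) ((hSm w).2 hwM)
          have h6 : 0 ≤ |r x| ^ 2 := by positivity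
          linarith
        · push Not at h2
          have h4 : ((t ^ 2 * A x) ^ M) ^ 2 ≤ |r x| ^ 2 := pow_le_pow_left₀ hz h2.le 2
          linarith
      · have h7 : t ^ 2 * A x = 0 :=
          le_antisymm (not_lt.mp h1) (mul_nonneg (by positivity) (hA0 x))
        rw [h7, hM]
        have : ((0 : ℝ) ^ (m + 1)) ^ 2 = 0 := by simp
        rw [this]
        positivity
    intro m
    refine ((key m).and_eventually hsmall).mono ?_
    rintro x ⟨⟨h1, h2, h3⟩, h4⟩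
    have h5 : t ^ 2 * A x ≤ 1 := h4.trans (min_le_right _ _)
    have h6 : (t ^ 2 * A x) ^ (m + 1) ≤ (t ^ 2 * A x) ^ m :=
      pow_le_pow_of_le_one h1.le h5 (Nat.le_succ m)
    rw [hAa]
    refine ⟨h1, h2.trans h6, fun w hw => ?_⟩
    rw [hop, Pi.smul_apply, norm_smul, Real.norm_eq_abs, abs_of_nonneg (by positivity)]
    have h7 : t ^ (w.length + 2) ≤ 1 := pow_le_one₀ ht0.le ht1
    calc t ^ (w.length + 2) * ‖opV b w (leviV (toC r) b) x‖
        ≤ 1 * ‖opV b w (leviV (toC r) b) x‖ := mul_le_mul_of_nonneg_right h7 (norm_nonneg _)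
      _ = ‖opV b w (leviV (toC r) b) x‖ := one_mul _
      _ ≤ (t ^ 2 * A x) ^ (m + 1) := h3 w (by omega)
      _ ≤ _ := h6



end KI
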