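import Pool.Agent.KI.KUn
import Pool.Agent.KI.KPr
import Pool.Agent.KI.ExA
import Pool.Agent.KI.ExField
import Pool.Agent.KI.Sel

open scoped ContDiff Topology BigOperators
open Finset Asymptotics

namespace KI
open DAng (Wd)

variable {n : ℕ} {x₀ : Cn n}

theorem partB (r : Cn n → ℝ) (hr : ∀ᶠ x in 𝓝 x₀, ContDiffAt ℝ ∞ r x)
    (hd : fderiv ℝ r x₀ ≠ 0) (hK : ¬ FiniteKohnType r x₀) (c : ℝ) (hc : 0 < c) :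
    ∃ a : Cn n → Fin n → ℂ, (∀ᶠ x in 𝓝 x₀, ContDiffAt ℝ ∞ a x) ∧
      (∀ᶠ x in 𝓝 x₀, ∑ i, a x i * dZ i (toC r) x = 0) ∧
      (∀ᶠ x in 𝓝 x₀, ∑ i, ‖a x i‖ ^ 2 ≤ c) ∧
      ∀ m : ℕ, ∃ᶠ x in 𝓝 x₀, 0 < ∑ i, ‖a x i‖ ^ 2 ∧ |r x| ≤ (∑ i, ‖a x i‖ ^ 2) ^ m ∧
        ∀ w : Wd, w.length ≤ m → ‖opV a w (leviV (toC r) a) x‖ ≤ (∑ i, ‖a x i‖ ^ 2) ^ m := by
  obtain ⟨I, hI⟩ := exists_KUnion r hr hK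
  obtain ⟨P, hP1, hP⟩ := exists_prime r hr I hI
  obtain ⟨a, h1, h2, h3⟩ := exists_a r hr hd P hP
  obtain ⟨b, g1, g2, g3, g4⟩ := exists_field r hr hd P hP a h1 h2 h3
  exact select r hr P hP b g1 g2 g3 g4 c hc

end KI
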