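import Pool.Agent.KI.DefsD

open scoped ContDiff Topology BigOperators
open Finset Asymptotics

namespace KI
open DAng

variable {n : ℕ} {p x₀ : E (n + n)}



/-- coefficients of the Wirtinger fields -/
noncomputable def tyVc : Fin n ⊕ Fin n → Fin (n + n) → ℂ
  | Sum.inl i => fun j => (1 / 2 : ℂ) * ((if j = Fin.castAdd n i then 1 else 0)
      - Complex.I * (if j = Fin.natAdd n i then 1 else 0))
  | Sum.inr i => fun j => (1 / 2 : ℂ) * ((if j = Fin.castAdd n i then 1 else 0)
      + Complex.I * (if j = Fin.natAdd n i then 1 else 0))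

lemma ty_wd_eq_act (a : Fin n ⊕ Fin n) (f : CF (n + n)) : wd a f = act (fun _ => tyVc a) f := by
  funext x
  rcases a with i | i
  · simp only [wd, act, tyVc]
    have : ∀ j : Fin (n + n), (1 / 2 : ℂ) * ((if j = Fin.castAdd n i then 1 else 0)
      - Complex.I * (if j = Fin.natAdd n i then 1 else 0)) * pd j f x =
      (1 / 2 : ℂ) * (if j = Fin.castAdd n i then pd j f x else 0)
      - (1 / 2 : ℂ) * Complex.I * (if j = Fin.natAdd n i then pd j f x else 0) := by
      intro j
      split_ifs <;> ring
    rw [Finset.sum_congr rfl (fun j _ => this j), Finset.sum_sub_distrib, ← Finset.mul_sum,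
      ← Finset.mul_sum, Finset.sum_ite_eq', Finset.sum_ite_eq']
    simp only [Finset.mem_univ, if_true]
    ring
  · simp only [wd, act, tyVc]
    have : ∀ j : Fin (n + n), (1 / 2 : ℂ) * ((if j = Fin.castAdd n i then 1 else 0)
      + Complex.I * (if j = Fin.natAdd n i then 1 else 0)) * pd j f x =
      (1 / 2 : ℂ) * (if j = Fin.castAdd n i then pd j f x else 0)
      + (1 / 2 : ℂ) * Complex.I * (if j = Fin.natAdd n i then pd j f x else 0) := by
      intro j
      split_ifs <;> ring
    rw [Finset.sum_congr rfl (fun j _ => this j), Finset.sum_add_distrib, ← Finset.mul_sum,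
      ← Finset.mul_sum, Finset.sum_ite_eq', Finset.sum_ite_eq']
    simp only [Finset.mem_univ, if_true]
    ring

lemma ty_sm {f : CF (n + n)} (hf : Sm p f) (a : Fin n ⊕ Fin n) : Sm p (wd a f) := by
  rw [ty_wd_eq_act]
  exact (Sm.const (tyVc a)).act hf

lemma ty_congr {f g : CF (n + n)} (h : f =ᶠ[𝓝 p] g) (a : Fin n ⊕ Fin n) :
    wd a f =ᶠ[𝓝 p] wd a g := by
  rw [ty_wd_eq_act, ty_wd_eq_act]
  exact act_congr (Filter.EventuallyEq.refl _ _) h

theorem wd_comm {f : CF (n + n)} (hf : Sm p f) (a b : Fin n ⊕ Fin n) :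
    wd a (wd b f) =ᶠ[𝓝 p] wd b (wd a f) := by
  simp only [ty_wd_eq_act]
  filter_upwards [hf] with x hx
  have h := act_lieBr (X := fun _ => tyVc a) (Y := fun _ => tyVc b) (f := f) (x := x)
    (fun i => differentiableAt_const _) (fun i => differentiableAt_const _) hx
  have h0 : act (lieBr (fun _ => tyVc a) (fun _ => tyVc b)) f x = 0 := by
    simp only [act]
    refine Finset.sum_eq_zero fun i _ => ?_
    have : lieBr (fun _ => tyVc a) (fun _ => tyVc b) x i = 0 := by
      simp only [lieBr]
      rw [act_const, act_const, sub_zero]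
    rw [this, zero_mul]
  rw [h0] at h
  exact (sub_eq_zero.1 h.symm)

lemma ty_tp_congr : ∀ (j : ℕ) {f g : CF (n + n)}, f =ᶠ[𝓝 p] g → tp j f p = tp j g p
  | 0, f, g, h => by simp only [tp]; rw [h.self_of_nhds]
  | j + 1, f, g, h => by
    simp only [tp]
    exact Finset.sum_congr rfl fun a _ => by rw [ty_tp_congr j (ty_congr h a)]

lemma ty_pderiv_tp (b : Fin n ⊕ Fin n) : ∀ (j : ℕ) {f : CF (n + n)}, Sm p f →
    MvPolynomial.pderiv b (tp (j + 1) f p) = MvPolynomial.C ((j : ℂ) + 1) * tp j (wd b f) p := by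
  intro j
  induction j with
  | zero =>
    intro f hf
    simp only [tp, map_sum, MvPolynomial.pderiv_mul, MvPolynomial.pderiv_C, mul_zero, add_zero,
      MvPolynomial.pderiv_X]
    rw [Finset.sum_eq_single b]
    · simp
    · intro a _ hab
      rw [Pi.single_eq_of_ne hab, zero_mul]
    · intro h; exact absurd (Finset.mem_univ _) h
  | succ j ih =>
    intro f hf
    have e1 : tp (j + 1 + 1) f p = ∑ a, MvPolynomial.X a * tp (j + 1) (wd a f) p := rfl
    have e2 : ∀ a, MvPolynomial.pderiv b (tp (j + 1) (wd a f) p) =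
        MvPolynomial.C ((j : ℂ) + 1) * tp j (wd a (wd b f)) p := by
      intro a
      rw [ih (ty_sm hf a), ty_tp_congr j (wd_comm hf b a)]
    rw [e1, map_sum]
    simp only [MvPolynomial.pderiv_mul, e2, MvPolynomial.pderiv_X]
    rw [Finset.sum_add_distrib]
    have e3 : ∑ a, (Pi.single b 1 : Fin n ⊕ Fin n → Pol n) a * tp (j + 1) (wd a f) p
        = tp (j + 1) (wd b f) p := by
      rw [Finset.sum_eq_single b]
      · simp
      · intro a _ hab
        rw [Pi.single_eq_of_ne hab, zero_mul]
      · intro h; exact absurd (Finset.mem_univ _) h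
    have e4 : ∑ a, MvPolynomial.X a * (MvPolynomial.C ((j : ℂ) + 1) * tp j (wd a (wd b f)) p)
        = MvPolynomial.C ((j : ℂ) + 1) * tp (j + 1) (wd b f) p := by
      have : tp (j + 1) (wd b f) p = ∑ a, MvPolynomial.X a * tp j (wd a (wd b f)) p := rfl
      rw [this, Finset.mul_sum]
      exact Finset.sum_congr rfl fun a _ => by ring
    rw [e4]
    rw [e3]
    push_cast
    simp only [map_add, map_one]
    ring

theorem tay_pderiv {f : CF (n + n)} (hf : Sm p f) (N : ℕ) (b : Fin n ⊕ Fin n) :
    MvPolynomial.pderiv b (tay (N + 1) f p) = tay N (wd b f) p := by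
  unfold tay
  rw [Finset.sum_range_succ', map_add, map_sum]
  have h0 : MvPolynomial.pderiv b (MvPolynomial.C (((0 : ℕ).factorial : ℂ)⁻¹) * tp 0 f p) = 0 := by
    simp only [tp]
    rw [← map_mul, MvPolynomial.pderiv_C]
  rw [h0, add_zero]
  refine Finset.sum_congr rfl fun j _ => ?_
  rw [MvPolynomial.pderiv_mul, MvPolynomial.pderiv_C, zero_mul, zero_add, ty_pderiv_tp b j hf,
    ← mul_assoc, ← map_mul]
  congr 2
  rw [Nat.factorial_succ]
  push_cast
  have h1 : ((j : ℂ) + 1) ≠ 0 := by exact_mod_cast Nat.succ_ne_zero j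
  have h2 : ((j.factorial : ℕ) : ℂ) ≠ 0 := by exact_mod_cast j.factorial_ne_zero
  field_simp

/-- the coordinates and their conjugates -/
noncomputable def tyev (p : E (n + n)) (a : Fin n ⊕ Fin n) (x : E (n + n)) : ℂ :=
  Sum.elim (fun i => Zc p i x) (fun i => (starRingEnd ℂ) (Zc p i x)) a

lemma ty_peval (Q : Pol n) (x : E (n + n)) :
    peval Q (fun i => Zc p i x) = MvPolynomial.eval (fun a => tyev p a x) Q := rfl

lemma ty_contDiff_Zc (i : Fin n) : ContDiff ℝ ∞ (Zc p i) := by
  unfold Zc
  refine ContDiff.add ?_ (contDiff_const.mul ?_)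
  · exact Complex.ofRealCLM.contDiff.comp ((contDiff_apply ℝ ℝ _).sub contDiff_const)
  · exact Complex.ofRealCLM.contDiff.comp ((contDiff_apply ℝ ℝ _).sub contDiff_const)

lemma ty_contDiff_ev (a : Fin n ⊕ Fin n) : ContDiff ℝ ∞ (tyev p a) := by
  rcases a with i | i
  · exact ty_contDiff_Zc i
  · exact Complex.conjCLE.contDiff.comp (ty_contDiff_Zc i)

lemma ty_contDiff_eval (Q : Pol n) :
    ContDiff ℝ ∞ (fun x => MvPolynomial.eval (fun a => tyev p a x) Q) := by
  induction Q using MvPolynomial.induction_on with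
  | C c => simpa using contDiff_const
  | add P Q hP hQ => simpa only [map_add] using hP.add hQ
  | mul_X P a hP =>
    simp only [map_mul, MvPolynomial.eval_X]
    exact hP.mul (ty_contDiff_ev a)

lemma ty_pd_Zc (i : Fin n) (j : Fin (n + n)) (x : E (n + n)) :
    pd j (Zc p i) x = (if j = Fin.castAdd n i then 1 else 0)
      + Complex.I * (if j = Fin.natAdd n i then 1 else 0) := by
  have h1 : ∀ k : Fin (n + n), HasFDerivAt (fun x : E (n + n) => ((x k - p k : ℝ) : ℂ))
      (Complex.ofRealCLM ∘L (ContinuousLinearMap.proj (R := ℝ) k)) x := by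
    intro k
    have hk : HasFDerivAt (fun x : E (n + n) => x k - p k)
        (ContinuousLinearMap.proj (R := ℝ) (φ := fun _ : Fin (n + n) => ℝ) k) x :=
      (hasFDerivAt_apply k x).sub_const _
    exact (Complex.ofRealCLM.hasFDerivAt).comp x hk
  have h2 := (h1 (Fin.castAdd n i)).add ((h1 (Fin.natAdd n i)).const_mul Complex.I)
  have h3 : fderiv ℝ (Zc p i) x = _ := h2.fderiv
  simp only [pd]
  rw [h3]
  simp only [add_apply, ContinuousLinearMap.comp_apply,
    ContinuousLinearMap.proj_apply, smul_apply, Complex.ofRealCLM_apply,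
    Pi.single_apply, smul_eq_mul]
  simp only [eq_comm (a := Fin.castAdd n i) (b := j), eq_comm (a := Fin.natAdd n i) (b := j)]
  split_ifs <;> push_cast <;> rfl

lemma ty_ne (i j : Fin n) : (Fin.castAdd n i : Fin (n + n)) ≠ Fin.natAdd n j := by
  intro h
  have := congrArg Fin.val h
  simp only [Fin.val_castAdd, Fin.val_natAdd] at this
  omega

lemma ty_wd_ev (a b : Fin n ⊕ Fin n) (x : E (n + n)) :
    wd a (tyev p b) x = if a = b then 1 else 0 := by
  have hc : ∀ (i : Fin n) (j : Fin (n + n)), pd j (tyev p (Sum.inr i)) x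
      = (if j = Fin.castAdd n i then 1 else 0)
      - Complex.I * (if j = Fin.natAdd n i then 1 else 0) := by
    intro i j
    have h1 : pd j (tyev p (Sum.inr i)) x = (starRingEnd ℂ) (pd j (Zc p i) x) :=
      pd_conj ((ty_contDiff_Zc i).differentiable (by simp) x) j
    rw [h1, ty_pd_Zc]
    split_ifs <;> simp <;> ring
  have hd : ∀ (i : Fin n) (j : Fin (n + n)), pd j (tyev p (Sum.inl i)) x
      = (if j = Fin.castAdd n i then 1 else 0)
      + Complex.I * (if j = Fin.natAdd n i then 1 else 0) := fun i j => ty_pd_Zc i j x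
  have I2 : Complex.I * Complex.I = -1 := Complex.I_mul_I
  rcases a with i | i <;> rcases b with k | k
  · simp only [wd, hd, (ty_ne _ _).symm, ty_ne, if_false, Sum.inl.injEq,
      (Fin.castAdd_injective n n).eq_iff, (Fin.natAdd_injective n n).eq_iff]
    split_ifs
    · linear_combination (-1/2 : ℂ) * I2
    · ring
  · simp only [wd, hc, (ty_ne _ _).symm, ty_ne, if_false, reduceCtorEq,
      (Fin.castAdd_injective n n).eq_iff, (Fin.natAdd_injective n n).eq_iff]
    split_ifs
    · linear_combination (1/2 : ℂ) * I2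
    · ring
  · simp only [wd, hd, (ty_ne _ _).symm, ty_ne, if_false, reduceCtorEq,
      (Fin.castAdd_injective n n).eq_iff, (Fin.natAdd_injective n n).eq_iff]
    split_ifs
    · linear_combination (1/2 : ℂ) * I2
    · ring
  · simp only [wd, hc, (ty_ne _ _).symm, ty_ne, if_false, Sum.inr.injEq,
      (Fin.castAdd_injective n n).eq_iff, (Fin.natAdd_injective n n).eq_iff]
    split_ifs
    · linear_combination (-1/2 : ℂ) * I2
    · ring

lemma ty_chain (a : Fin n ⊕ Fin n) (Q : Pol n) (x : E (n + n)) :
    wd a (fun x => MvPolynomial.eval (fun a => tyev p a x) Q) x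
      = MvPolynomial.eval (fun a => tyev p a x) (MvPolynomial.pderiv a Q) := by
  have hdiff : ∀ (Q : Pol n), DifferentiableAt ℝ
      (fun x => MvPolynomial.eval (fun a => tyev p a x) Q) x := fun Q =>
    (ty_contDiff_eval Q).differentiable (by simp) x
  induction Q using MvPolynomial.induction_on with
  | C c =>
    simp only [MvPolynomial.eval_C, MvPolynomial.pderiv_C, map_zero]
    rw [ty_wd_eq_act, act_const]
  | add P Q hP hQ =>
    simp only [map_add]
    rw [ty_wd_eq_act] at *
    rw [act_add (hdiff P) (hdiff Q), hP, hQ]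
  | mul_X P b hP =>
    simp only [map_mul, MvPolynomial.eval_X, MvPolynomial.pderiv_mul, map_add,
      MvPolynomial.pderiv_X]
    have h1 : DifferentiableAt ℝ (tyev p b) x := (ty_contDiff_ev b).differentiable (by simp) x
    have h2 := ty_wd_ev (p := p) a b x
    rw [ty_wd_eq_act] at hP h2 ⊢
    rw [act_mul (hdiff P) h1, hP, h2]
    by_cases h : a = b
    · subst h; simp; ring
    · rw [if_neg h, Pi.single_eq_of_ne (Ne.symm h)]
      simp

lemma ty_eval_tp_zero (j : ℕ) (f : CF (n + n)) :
    MvPolynomial.eval (fun a => tyev p a p) (tp (j + 1) f p) = 0 := by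
  have h0 : ∀ a, tyev p a p = 0 := by
    intro a
    rcases a with i | i <;> simp [tyev, Zc]
  have e1 : tp (j + 1) f p = ∑ a, MvPolynomial.X a * tp j (wd a f) p := rfl
  rw [e1, map_sum]
  refine Finset.sum_eq_zero fun a _ => ?_
  rw [map_mul, MvPolynomial.eval_X, h0, zero_mul]

lemma ty_eval_tay (N : ℕ) (f : CF (n + n)) :
    MvPolynomial.eval (fun a => tyev p a p) (tay N f p) = f p := by
  unfold tay
  rw [Finset.sum_range_succ', map_add, map_sum, Finset.sum_eq_zero, zero_add]
  · simp [tp]
  · intro j _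
    rw [map_mul, ty_eval_tp_zero, mul_zero]

theorem tay_van {f : CF (n + n)} (hf : Sm p f) (N : ℕ) :
    Van p (N + 1) (fun x => f x - peval (tay N f p) (fun i => Zc p i x)) := by
  have hsmQ : ∀ Q : Pol n, Sm p (fun x => MvPolynomial.eval (fun a => tyev p a x) Q) := fun Q =>
    Filter.Eventually.of_forall fun x => (ty_contDiff_eval Q).contDiffAt
  simp only [ty_peval]
  induction N generalizing f with
  | zero =>
    refine ⟨hf.sub (hsmQ _), ?_, fun i => ?_⟩
    · show f p - MvPolynomial.eval (fun a => tyev p a p) (tay 0 f p) = 0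
      rw [ty_eval_tay, sub_self]
    · exact (hf.sub (hsmQ _)).pd i
  | succ N ih =>
    have hh := hf.sub (hsmQ (tay (N + 1) f p))
    set h : CF (n + n) := fun x => f x - MvPolynomial.eval (fun a => tyev p a x) (tay (N + 1) f p)
      with hdef
    have hw : ∀ a, Van p (N + 1) (wd a h) := by
      intro a
      refine (ih (ty_sm hf a)).congr ?_
      filter_upwards [hf.differentiableAt] with x hx
      have hdQ : DifferentiableAt ℝ
        (fun x => MvPolynomial.eval (fun a => tyev p a x) (tay (N + 1) f p)) x :=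
        (ty_contDiff_eval _).differentiable (by simp) x
      have h3 := ty_chain (p := p) a (tay (N + 1) f p) x
      rw [tay_pderiv hf] at h3
      rw [ty_wd_eq_act] at h3 ⊢
      rw [act_sub hx hdQ, h3, ty_wd_eq_act]
    refine ⟨hh, ?_, fun i => ?_⟩
    · rw [hdef]
      simp only
      rw [ty_eval_tay, sub_self]
    · refine Fin.addCases (fun i => ?_) (fun i => ?_) i
      · refine ((hw (Sum.inl i)).add (hw (Sum.inr i))).congr ?_
        filter_upwards with x
        simp only [wd]
        ring
      · have h5 : Van p (N + 1) (fun x => Complex.I * (wd (Sum.inl i) h x - wd (Sum.inr i) h x)) :=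
          Van.sm_mul (Sm.const Complex.I) ((hw (Sum.inl i)).sub (hw (Sum.inr i)))
        refine h5.congr ?_
        filter_upwards with x
        simp only [wd]
        have I2 : Complex.I * Complex.I = -1 := Complex.I_mul_I
        linear_combination (pd (Fin.natAdd n i) h x) * I2



end KI
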