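import Pool.Agent.KI.Tay2
import Pool.Agent.KI.EDefs

open scoped ContDiff Topology BigOperators
open Finset Asymptotics

namespace KI
open DAng

variable {n : ℕ} {p x₀ : E (n + n)}




theorem ktp_hom (j : ℕ) : ∀ (f : CF (n + n)), (tp j f p).IsHomogeneous j := by
  induction j with
  | zero => intro f; exact MvPolynomial.isHomogeneous_C _ _
  | succ j ih =>
    intro f
    unfold tp
    refine MvPolynomial.IsHomogeneous.sum _ _ _ fun a _ => ?_
    rw [add_comm]
    exact (MvPolynomial.isHomogeneous_X ℂ a).mul (ih (wd a f))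

theorem ktay_coeff (f : CF (n + n)) (N : ℕ) (e : Fin n ⊕ Fin n →₀ ℕ)
    (hN : (e.sum fun _ k => k) ≤ N) :
    (tay N f p).coeff e = (((e.sum fun _ k => k).factorial : ℂ)⁻¹) *
      (tp (e.sum fun _ k => k) f p).coeff e := by
  have hdeg : Finsupp.degree e = e.sum fun _ k => k := by
    rw [Finsupp.degree_apply]; rfl
  unfold tay
  rw [MvPolynomial.coeff_sum, Finset.sum_eq_single (e.sum fun _ k => k)]
  · rw [MvPolynomial.coeff_C_mul]
  · intro b _ hb
    rw [MvPolynomial.coeff_C_mul, (ktp_hom b f).coeff_eq_zero (by rw [hdeg]; exact Ne.symm hb),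
      mul_zero]
  · intro h
    exact absurd (Finset.mem_range.mpr (Nat.lt_succ_of_le hN)) h

/-- stability of the Taylor coefficients (JEA0) -/
theorem tay_coeff_stable (f : CF (n + n)) (N M : ℕ) (e : Fin n ⊕ Fin n →₀ ℕ)
    (hN : (e.sum fun _ k => k) ≤ N) (hM : (e.sum fun _ k => k) ≤ M) :
    (tay N f p).coeff e = (tay M f p).coeff e := by
  rw [ktay_coeff f N e hN, ktay_coeff f M e hM]

/-- the linear part of `Zc` -/
noncomputable def zlin (j : Fin n) : E (n + n) →L[ℝ] ℂ :=
  Complex.ofRealCLM.comp (ContinuousLinearMap.proj (Fin.castAdd n j)) +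
    Complex.I • Complex.ofRealCLM.comp (ContinuousLinearMap.proj (Fin.natAdd n j))

theorem zlin_apply (j : Fin n) (x : E (n + n)) :
    zlin j x = (x (Fin.castAdd n j) : ℂ) + Complex.I * (x (Fin.natAdd n j) : ℂ) := by
  simp [zlin]

theorem kZc_eq (q : E (n + n)) (j : Fin n) : Zc q j = fun x => zlin j x - zlin j q := by
  funext x
  rw [zlin_apply, zlin_apply]
  simp only [Zc]
  push_cast
  ring

theorem kZc_sm (y q : E (n + n)) (j : Fin n) : Sm y (Zc q j) := by
  rw [kZc_eq]
  exact Filter.Eventually.of_forall fun x => ((zlin j).contDiff.sub contDiff_const).contDiffAt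

theorem kpd_Zc (q : E (n + n)) (j : Fin n) (i : Fin (n + n)) (x : E (n + n)) :
    pd i (Zc q j) x = zlin j (Pi.single i 1) := by
  rw [kZc_eq]
  unfold pd
  rw [fderiv_sub_const, ContinuousLinearMap.fderiv]

theorem kact_Zc (L : CVF (n + n)) (q : E (n + n)) (j : Fin n) : act L (Zc q j) = cf L j := by
  funext x
  unfold act cf
  simp only [kpd_Zc, zlin_apply, Pi.single_apply, mul_add, Finset.sum_add_distrib]
  congr 1
  · rw [Finset.sum_eq_single (Fin.castAdd n j)]
    · simp
    · intro b _ hb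
      simp [Ne.symm hb]
    · intro h; exact absurd (Finset.mem_univ _) h
  · rw [Finset.sum_eq_single (Fin.natAdd n j)]
    · rw [if_pos rfl]
      push_cast
      ring
    · intro b _ hb
      rw [if_neg (Ne.symm hb)]
      push_cast
      ring
    · intro h; exact absurd (Finset.mem_univ _) h

theorem kmon_sm (y q : E (n + n)) (α : Fin n →₀ ℕ) : Sm y (fun x => ∏ j, Zc q j x ^ α j) :=
  Sm.prod fun i _ => (kZc_sm y q i).pow _

theorem kZc_van_pow (q : E (n + n)) (j : Fin n) : ∀ k : ℕ, Van q k (fun x => Zc q j x ^ k)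
  | 0 => (kZc_sm q q j).pow 0
  | k + 1 => by
    have h1 : Van q 1 (Zc q j) := by
      refine ⟨kZc_sm q q j, ?_, fun i => (kZc_sm q q j).pd i⟩
      rw [kZc_eq]
      simp
    refine ((kZc_van_pow q j k).mul h1).congr ?_
    filter_upwards with x
    rw [pow_succ]

theorem kmon_van (q : E (n + n)) (α : Fin n →₀ ℕ) :
    Van q α.degree (fun x => ∏ j, Zc q j x ^ α j) := by
  classical
  have h : ∀ s : Finset (Fin n), Van q (∑ i ∈ s, α i) (fun x => ∏ j ∈ s, Zc q j x ^ α j) := by
    intro s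
    induction s using Finset.induction_on with
    | empty =>
      simp only [Finset.sum_empty, Finset.prod_empty]
      exact Sm.const 1
    | insert a s ha ih =>
      rw [Finset.sum_insert ha]
      refine ((kZc_van_pow q a (α a)).mul ih).congr ?_
      filter_upwards with x
      rw [Finset.prod_insert ha]
  rw [Finsupp.degree_eq_sum]
  exact h Finset.univ

/-- the unrestricted expression -/
noncomputable def wfe (L : CVF (n + n)) (p : E (n + n)) (i : ℕ) (α : Fin n →₀ ℕ) : ℂ :=
  (i.factorial : ℂ)⁻¹ * op L (List.replicate i true) (fun x => ∏ j, Zc p j x ^ α j) p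

theorem kwf_eq {L : CVF (n + n)} (hL : Sm p L) (i : ℕ) (α : Fin n →₀ ℕ) :
    wf L p i α = wfe L p i α := by
  unfold wf wfe
  rw [Finsupp.ofSupportFinite_coe]
  split_ifs with h
  · rfl
  · rw [Van.op_apply hL (kmon_van p α) (by rw [List.length_replicate]; omega), mul_zero]

theorem kunsh_rep (a : ℕ) : ∀ P : Wd → Wd → ℂ, unsh P (List.replicate a true) =
    ∑ ij ∈ Finset.HasAntidiagonal.antidiagonal a, (a.choose ij.1 : ℂ) *
      P (List.replicate ij.1 true) (List.replicate ij.2 true) := by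
  induction a with
  | zero => intro P; simp [unsh]
  | succ a ih =>
    intro P
    rw [List.replicate_succ]
    simp only [unsh]
    rw [ih, ih, Finset.sum_antidiagonal_choose_succ_mul
      (fun i j => P (List.replicate i true) (List.replicate j true)) a, add_comm]
    congr 1
    refine Finset.sum_congr rfl fun ij hij => ?_
    have h : ij.1 + ij.2 = a := Finset.HasAntidiagonal.mem_antidiagonal.mp hij
    have h2 : a.choose ij.1 = a.choose ij.2 := by
      rw [← h, Nat.choose_symm_add]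
    rw [h2]
    rfl

theorem kwfe_add {L : CVF (n + n)} (hL : Sm p L) (a : ℕ) (α β : Fin n →₀ ℕ) :
    wfe L p a (α + β) = ∑ ij ∈ Finset.HasAntidiagonal.antidiagonal a, wfe L p ij.1 α * wfe L p ij.2 β := by
  unfold wfe
  have h1 : (fun x => ∏ j, Zc p j x ^ (α + β) j) =
      fun x => (∏ j, Zc p j x ^ α j) * (∏ j, Zc p j x ^ β j) := by
    funext x
    rw [← Finset.prod_mul_distrib]
    refine Finset.prod_congr rfl fun j _ => ?_
    rw [Finsupp.add_apply, pow_add]
  rw [h1, (op_mul hL (List.replicate a true) (kmon_sm p p α) (kmon_sm p p β)).self_of_nhds]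
  beta_reduce
  rw [kunsh_rep, Finset.mul_sum]
  refine Finset.sum_congr rfl fun ij hij => ?_
  have h : ij.1 + ij.2 = a := Finset.HasAntidiagonal.mem_antidiagonal.mp hij
  have h2 : (a.choose ij.1 : ℂ) * (ij.1.factorial : ℂ) * (ij.2.factorial : ℂ) = (a.factorial : ℂ) := by
    have h3 := Nat.choose_mul_factorial_mul_factorial (show ij.1 ≤ a by omega)
    have h4 : a - ij.1 = ij.2 := by omega
    rw [h4] at h3
    exact_mod_cast h3
  have ha : (a.factorial : ℂ) ≠ 0 := by exact_mod_cast a.factorial_ne_zero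
  have hi : (ij.1.factorial : ℂ) ≠ 0 := by exact_mod_cast ij.1.factorial_ne_zero
  have hj : (ij.2.factorial : ℂ) ≠ 0 := by exact_mod_cast ij.2.factorial_ne_zero
  rw [← h2]
  have hc : (a.choose ij.1 : ℂ) ≠ 0 := by
    intro h0
    rw [h0] at h2
    simp at h2
    exact ha h2.symm
  field_simp

theorem kwfe_zero_left (L : CVF (n + n)) (j : Fin n) : wfe L p 0 (Finsupp.single j 1) = 0 := by
  unfold wfe
  simp only [List.replicate_zero, op]
  have h : (∏ i, Zc p i p ^ (Finsupp.single j 1 : Fin n →₀ ℕ) i) = 0 := by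
    refine Finset.prod_eq_zero (Finset.mem_univ j) ?_
    rw [kZc_eq]
    simp
  rw [h, mul_zero]

theorem kmon_single (q : E (n + n)) (j : Fin n) :
    (fun x => ∏ i, Zc q i x ^ (Finsupp.single j 1 : Fin n →₀ ℕ) i) = Zc q j := by
  funext x
  rw [Finset.prod_eq_single j]
  · simp
  · intro b _ hb
    rw [Finsupp.single_eq_of_ne (by tauto), pow_zero]
  · intro h
    exact absurd (Finset.mem_univ _) h

theorem kwfe_one (L : CVF (n + n)) (j : Fin n) : wfe L p 1 (Finsupp.single j 1) = cf L j p := by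
  unfold wfe
  rw [kmon_single]
  simp only [List.replicate_succ, List.replicate_zero, op, LX, kact_Zc]
  simp

theorem kwfe_succ (L : CVF (n + n)) (a : ℕ) (j : Fin n) :
    wfe L p (a + 1) (Finsupp.single j 1) =
      ((a + 1).factorial : ℂ)⁻¹ * op L (List.replicate a true) (cf L j) p := by
  unfold wfe
  rw [kmon_single]
  simp only [List.replicate_succ, op, LX, kact_Zc]

theorem kwfe_low {L : CVF (n + n)} (hL : Sm p L) (a : ℕ) (α : Fin n →₀ ℕ) (h : a < α.degree) :
    wfe L p a α = 0 := by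
  unfold wfe
  rw [Van.op_apply hL (kmon_van p α) (by rw [List.length_replicate]; exact h), mul_zero]

theorem kwfe_pow {L : CVF (n + n)} (hL : Sm p L) (j : Fin n) :
    ∀ k : ℕ, wfe L p k (Finsupp.single j k) = cf L j p ^ k
  | 0 => by
    unfold wfe
    simp [op]
  | k + 1 => by
    have h1 : (Finsupp.single j (k + 1) : Fin n →₀ ℕ) = Finsupp.single j k + Finsupp.single j 1 := by
      rw [← Finsupp.single_add]
    rw [h1, kwfe_add hL, Finset.sum_eq_single (k, 1)]
    · rw [kwfe_pow hL j k, kwfe_one, pow_succ]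
    · rintro ⟨b, c⟩ hbc hne
      have h2 : b + c = k + 1 := Finset.HasAntidiagonal.mem_antidiagonal.mp hbc
      rcases Nat.eq_zero_or_pos c with h3 | h3
      · subst h3
        show wfe L p b _ * wfe L p 0 _ = 0
        rw [kwfe_zero_left, mul_zero]
      · have h4 : b < k := by
          rcases Nat.lt_or_ge b k with h5 | h5
          · exact h5
          · exfalso
            apply hne
            have : b = k := by omega
            have : c = 1 := by omega
            simp_all
        show wfe L p b _ * wfe L p c _ = 0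
        rw [kwfe_low hL b _ (by rw [Finsupp.degree_single]; exact h4), zero_mul]
    · intro h
      exact absurd (show (k, 1) ∈ Finset.HasAntidiagonal.antidiagonal (k + 1) from
        Finset.HasAntidiagonal.mem_antidiagonal.mpr rfl) h

theorem kbdd_of_sm {f : CF (n + n)} (hf : Sm x₀ f) : ∃ C : ℝ, ∀ᶠ p in 𝓝 x₀, ‖f p‖ ≤ C := by
  refine ⟨‖f x₀‖ + 1, ?_⟩
  have : ∀ᶠ x in 𝓝 x₀, ‖f x‖ < ‖f x₀‖ + 1 :=
    hf.continuousAt.norm.eventually_lt continuousAt_const (by simp)
  filter_upwards [this] with x hx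
  exact hx.le

theorem kwfe_bdd {L : CVF (n + n)} (hL : Sm x₀ L) (α : Fin n →₀ ℕ) :
    ∀ a : ℕ, ∃ C : ℝ, ∀ᶠ p in 𝓝 x₀, ‖wfe L p a α‖ ≤ C := by
  have hLe : ∀ᶠ p in 𝓝 x₀, Sm p L := Filter.Eventually.eventually_nhds hL
  have hadd : ∀ α β : Fin n →₀ ℕ, (∀ a : ℕ, ∃ C : ℝ, ∀ᶠ p in 𝓝 x₀, ‖wfe L p a α‖ ≤ C) →
      (∀ a : ℕ, ∃ C : ℝ, ∀ᶠ p in 𝓝 x₀, ‖wfe L p a β‖ ≤ C) →
      ∀ a : ℕ, ∃ C : ℝ, ∀ᶠ p in 𝓝 x₀, ‖wfe L p a (α + β)‖ ≤ C := by
    intro α β hα hβ a
    choose A hA using hα
    choose B hB using hβ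
    refine ⟨∑ ij ∈ Finset.HasAntidiagonal.antidiagonal a, A ij.1 * B ij.2, ?_⟩
    have hA' : ∀ᶠ p in 𝓝 x₀, ∀ ij ∈ Finset.HasAntidiagonal.antidiagonal a, ‖wfe L p ij.1 α‖ ≤ A ij.1 :=
      (Filter.eventually_all_finset _).mpr fun ij _ => hA ij.1
    have hB' : ∀ᶠ p in 𝓝 x₀, ∀ ij ∈ Finset.HasAntidiagonal.antidiagonal a, ‖wfe L p ij.2 β‖ ≤ B ij.2 :=
      (Filter.eventually_all_finset _).mpr fun ij _ => hB ij.2
    filter_upwards [hLe, hA', hB'] with p hp h1 h2
    rw [kwfe_add hp]
    refine (norm_sum_le _ _).trans (Finset.sum_le_sum fun ij hij => ?_)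
    rw [norm_mul]
    exact mul_le_mul (h1 ij hij) (h2 ij hij) (norm_nonneg _) ((norm_nonneg _).trans (h1 ij hij))
  have h0 : ∀ a : ℕ, ∃ C : ℝ, ∀ᶠ p in 𝓝 x₀, ‖wfe L p a (0 : Fin n →₀ ℕ)‖ ≤ C := by
    intro a
    have h1 : Sm x₀ (fun x => (a.factorial : ℂ)⁻¹ * op L (List.replicate a true) (fun _ => (1 : ℂ)) x) :=
      (Sm.const _).mul (Sm.op hL _ (Sm.const 1))
    obtain ⟨C, hC⟩ := kbdd_of_sm h1
    refine ⟨C, ?_⟩
    filter_upwards [hC] with p hp
    have h2 : wfe L p a (0 : Fin n →₀ ℕ) =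
        (a.factorial : ℂ)⁻¹ * op L (List.replicate a true) (fun _ => (1 : ℂ)) p := by
      unfold wfe
      simp
    rw [h2]
    exact hp
  have h1 : ∀ j : Fin n, ∀ a : ℕ, ∃ C : ℝ, ∀ᶠ p in 𝓝 x₀,
      ‖wfe L p a (Finsupp.single j 1 : Fin n →₀ ℕ)‖ ≤ C := by
    intro j a
    rcases a with _ | a
    · refine ⟨0, ?_⟩
      filter_upwards with p
      rw [kwfe_zero_left, norm_zero]
    · have hcf : Sm x₀ (cf L j) := by
        have h2 : Sm x₀ (act L (Zc x₀ j)) := hL.act (kZc_sm x₀ x₀ j)
        rwa [kact_Zc] at h2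
      have h2 : Sm x₀ (fun x => ((a + 1).factorial : ℂ)⁻¹ *
          op L (List.replicate a true) (cf L j) x) :=
        (Sm.const _).mul (Sm.op hL _ hcf)
      obtain ⟨C, hC⟩ := kbdd_of_sm h2
      refine ⟨C, ?_⟩
      filter_upwards [hC] with p hp
      rw [kwfe_succ]
      exact hp
  induction α using Finsupp.induction_linear with
  | zero => exact h0
  | add f g hf hg => exact hadd f g hf hg
  | single j b =>
    induction b with
    | zero => rw [Finsupp.single_zero]; exact h0
    | succ b ih =>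
      rw [Finsupp.single_add]
      exact hadd _ _ ih (h1 j)

theorem kop_conj {L : CVF (n + n)} (hL : Sm p L) : ∀ (b : ℕ) {f : CF (n + n)}, Sm p f →
    op L (List.replicate b false) (fun x => (starRingEnd ℂ) (f x)) =ᶠ[𝓝 p]
      fun x => (starRingEnd ℂ) (op L (List.replicate b true) f x)
  | 0, _, _ => Filter.EventuallyEq.refl _ _
  | b + 1, f, hf => by
    have h1 : act (LX L false) (fun x => (starRingEnd ℂ) (f x)) =ᶠ[𝓝 p]
        fun x => (starRingEnd ℂ) (act (LX L true) f x) := by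
      filter_upwards [hf.differentiableAt] with x hx
      rw [act_conj hx]
      congr 2
      funext y i
      simp [LX, cjVF]
    have h2 := op_congr (L := L) (List.replicate b false) h1
    exact h2.trans (kop_conj hL b ((hL.LX true).act hf))

theorem kRr_eq {L : CVF (n + n)} (hL : Sm p L) (r : CF (n + n)) (N a b : ℕ) :
    ((a.factorial : ℂ)⁻¹ * (b.factorial : ℂ)⁻¹) *
        Rr N r L p (List.replicate a true) (List.replicate b false) =
      ∑ e ∈ (tay N r p).support, (tay N r p).coeff e *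
        wfe L p a (Finsupp.sumFinsuppEquivProdFinsupp e).1 *
        (starRingEnd ℂ) (wfe L p b (Finsupp.sumFinsuppEquivProdFinsupp e).2) := by
  unfold Rr Rd
  rw [Finset.mul_sum]
  refine Finset.sum_congr rfl fun e _ => ?_
  have h1 : op L (List.replicate a true) (fun x => ∏ i, Zc p i x ^ e (Sum.inl i)) p =
      (a.factorial : ℂ) * wfe L p a (Finsupp.sumFinsuppEquivProdFinsupp e).1 := by
    unfold wfe
    have ha : (a.factorial : ℂ) ≠ 0 := by exact_mod_cast a.factorial_ne_zero
    rw [← mul_assoc, mul_inv_cancel₀ ha, one_mul]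
    rfl
  have h2 : op L (List.replicate b false)
      (fun x => ∏ i, (starRingEnd ℂ) (Zc p i x) ^ e (Sum.inr i)) p =
      (b.factorial : ℂ) * (starRingEnd ℂ) (wfe L p b (Finsupp.sumFinsuppEquivProdFinsupp e).2) := by
    have h3 : (fun x => ∏ i, (starRingEnd ℂ) (Zc p i x) ^ e (Sum.inr i)) =
        fun x => (starRingEnd ℂ) (∏ i, Zc p i x ^ ((Finsupp.sumFinsuppEquivProdFinsupp e).2) i) := by
      funext x
      rw [map_prod]
      refine Finset.prod_congr rfl fun i _ => ?_
      rw [map_pow]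
      rfl
    rw [h3, (kop_conj hL b (kmon_sm p p _)).self_of_nhds]
    unfold wfe
    have hb : (b.factorial : ℂ) ≠ 0 := by exact_mod_cast b.factorial_ne_zero
    rw [map_mul, map_inv₀, map_natCast, ← mul_assoc, mul_inv_cancel₀ hb, one_mul]
  rw [h1, h2]
  have ha : (a.factorial : ℂ) ≠ 0 := by exact_mod_cast a.factorial_ne_zero
  have hb : (b.factorial : ℂ) ≠ 0 := by exact_mod_cast b.factorial_ne_zero
  field_simp

theorem ksumElim_sum (α β : Fin n →₀ ℕ) :
    ((Finsupp.sumElim α β).sum fun _ k => k) = α.degree + β.degree := by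
  have h1 : ((Finsupp.sumElim α β).sum fun _ k => k) = Finsupp.degree (Finsupp.sumElim α β) := by
    rw [Finsupp.degree_apply]; rfl
  rw [h1, Finsupp.degree_eq_sum, Fintype.sum_sum_type, Finsupp.degree_eq_sum, Finsupp.degree_eq_sum]
  rfl

/-- properties of `wf` (JEA1) -/
theorem wf_props {L : CVF (n + n)} (hL : Sm x₀ L) (hol : IsHol L) {r : CF (n + n)}
    (hr : Sm x₀ r) :
    (∀ᶠ p in 𝓝 x₀, ∀ (a : ℕ) (j : Fin n),
      contr j (wf L p a) ∈ Submodule.span ℂ {w | ∃ b, b < a ∧ w = wf L p b}) ∧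
    (∀ᶠ p in 𝓝 x₀, ∀ (j : Fin n) (a k : ℕ), a < k → wf L p a (Finsupp.single j k) = 0) ∧
    (∀ᶠ p in 𝓝 x₀, ∀ (j : Fin n) (k : ℕ), wf L p k (Finsupp.single j k) = cf L j p ^ k) ∧
    (∀ (a : ℕ) (α : Fin n →₀ ℕ), ∃ C : ℝ, ∀ᶠ p in 𝓝 x₀, ‖wf L p a α‖ ≤ C) ∧
    (∀ a b : ℕ, ∀ᶠ p in 𝓝 x₀, ((wf L p a).sum fun α c => (wf L p b).sum fun β c' =>
      (tay (α.degree + β.degree + 3) r p).coeff (Finsupp.sumElim α β) * c * (starRingEnd ℂ) c') =
      ((a.factorial : ℂ)⁻¹ * (b.factorial : ℂ)⁻¹) *
        Rr (a + b + 3) r L p (List.replicate a true) (List.replicate b false)) := by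
  have hLe : ∀ᶠ p in 𝓝 x₀, Sm p L := Filter.Eventually.eventually_nhds hL
  refine ⟨?_, ?_, ?_, ?_, ?_⟩
  · filter_upwards [hLe] with p hp
    intro a j
    have h1 : contr j (wf L p a) = ∑ ij ∈ Finset.HasAntidiagonal.antidiagonal a,
        wfe L p ij.2 (Finsupp.single j 1) • wf L p ij.1 := by
      ext α
      rw [Finsupp.finsetSum_apply]
      show wf L p a (α + Finsupp.single j 1) = _
      rw [kwf_eq hp, kwfe_add hp]
      refine Finset.sum_congr rfl fun ij _ => ?_
      rw [Finsupp.smul_apply, kwf_eq hp, smul_eq_mul, mul_comm]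
    rw [h1]
    refine Submodule.sum_mem _ fun ij hij => ?_
    have h2 : ij.1 + ij.2 = a := Finset.HasAntidiagonal.mem_antidiagonal.mp hij
    rcases Nat.eq_zero_or_pos ij.2 with h3 | h3
    · rw [h3, kwfe_zero_left, zero_smul]
      exact Submodule.zero_mem _
    · exact Submodule.smul_mem _ _ (Submodule.subset_span ⟨ij.1, by omega, rfl⟩)
  · filter_upwards [hLe] with p hp
    intro j a k hak
    rw [kwf_eq hp, kwfe_low hp a _ (by rw [Finsupp.degree_single]; exact hak)]
  · filter_upwards [hLe] with p hp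
    intro j k
    rw [kwf_eq hp, kwfe_pow hp]
  · intro a α
    obtain ⟨C, hC⟩ := kwfe_bdd hL α a
    refine ⟨C, ?_⟩
    filter_upwards [hC, hLe] with p h1 hp
    rw [kwf_eq hp]
    exact h1
  · intro a b
    filter_upwards [hLe] with p hp
    rw [kRr_eq hp]
    set F : (Fin n ⊕ Fin n →₀ ℕ) → ℂ := fun e => (tay (a + b + 3) r p).coeff e *
        wfe L p a (Finsupp.sumFinsuppEquivProdFinsupp e).1 *
        (starRingEnd ℂ) (wfe L p b (Finsupp.sumFinsuppEquivProdFinsupp e).2) with hF
    have hsupp : ∀ (i : ℕ) (α : Fin n →₀ ℕ), α ∈ (wf L p i).support → α.degree ≤ i := by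
      intro i α hα
      by_contra hcon
      rw [Finsupp.mem_support_iff, kwf_eq hp] at hα
      exact hα (kwfe_low hp i α (by omega))
    have hsymm : ∀ α β : Fin n →₀ ℕ,
        Finsupp.sumFinsuppEquivProdFinsupp (Finsupp.sumElim α β) = (α, β) := by
      intro α β
      exact Finsupp.sumFinsuppEquivProdFinsupp.apply_symm_apply (α, β)
    have h1 : ((wf L p a).sum fun α c => (wf L p b).sum fun β c' =>
        (tay (α.degree + β.degree + 3) r p).coeff (Finsupp.sumElim α β) * c * (starRingEnd ℂ) c') =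
        ∑ x ∈ (wf L p a).support ×ˢ (wf L p b).support,
          F (Finsupp.sumFinsuppEquivProdFinsupp.symm x) := by
      rw [Finset.sum_product]
      unfold Finsupp.sum
      refine Finset.sum_congr rfl fun α hα => Finset.sum_congr rfl fun β hβ => ?_
      simp only [hF]
      rw [Equiv.apply_symm_apply]
      show (tay (α.degree + β.degree + 3) r p).coeff (Finsupp.sumElim α β) * wf L p a α *
        (starRingEnd ℂ) (wf L p b β) = (tay (a + b + 3) r p).coeff (Finsupp.sumElim α β) *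
          wfe L p a α * (starRingEnd ℂ) (wfe L p b β)
      rw [kwf_eq hp, kwf_eq hp]
      congr 2
      have h2 := hsupp a α hα
      have h3 := hsupp b β hβ
      refine tay_coeff_stable r _ _ _ ?_ ?_
      · rw [ksumElim_sum]; omega
      · rw [ksumElim_sum]; omega
    have h5 : ∑ x ∈ (wf L p a).support ×ˢ (wf L p b).support,
          F (Finsupp.sumFinsuppEquivProdFinsupp.symm x) =
        ∑ e ∈ ((wf L p a).support ×ˢ (wf L p b).support).map
          Finsupp.sumFinsuppEquivProdFinsupp.symm.toEmbedding, F e := by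
      rw [Finset.sum_map]
      rfl
    rw [h1, h5]
    refine Finset.sum_congr_of_eq_on_inter ?_ ?_ (fun _ _ _ => rfl)
    · intro e _ he
      simp only [hF]
      rw [MvPolynomial.notMem_support_iff.mp he, zero_mul, zero_mul]
    · intro e _ he
      rw [Finset.mem_map_equiv, Equiv.symm_symm, Finset.mem_product, not_and_or] at he
      show (tay (a + b + 3) r p).coeff e *
        wfe L p a (Finsupp.sumFinsuppEquivProdFinsupp e).1 *
        (starRingEnd ℂ) (wfe L p b (Finsupp.sumFinsuppEquivProdFinsupp e).2) = 0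
      rcases he with he | he
      · rw [Finsupp.mem_support_iff, not_not, kwf_eq hp] at he
        rw [he, mul_zero, zero_mul]
      · rw [Finsupp.mem_support_iff, not_not, kwf_eq hp] at he
        rw [he, map_zero, mul_zero]



end KI
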